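import Pool.Agent.Run7.h969.HP.Orl
import Pool.Agent.Run7.h969.WS.Gau

/-!
Project HP, piece IterP: elementary properties of Orlicz functions (after `h969/WS/Gau`).
-/

set_option autoImplicit false

open MeasureTheory Set Filter Topology
open scoped ENNReal

namespace Pool.Agent.Run7.h782.HP

open Pool.Agent.Run7.h969.HP Pool.Agent.Run7.h969.WS

variable {Φ : ℝ → ℝ}

/-- Convexity at the midpoint. -/
theorem _root_.Pool.Agent.Run7.h969.HP.Orl.add_le (h : Orl Φ) {x y : ℝ} (hx : 0 ≤ x)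
    (hy : 0 ≤ y) : Φ (x + y) ≤ 1 / 2 * Φ (2 * x) + 1 / 2 * Φ (2 * y) := by
  have h2 := h.conv.2 (show 2 * x ∈ Ici (0 : ℝ) from mul_nonneg zero_le_two hx)
    (show 2 * y ∈ Ici (0 : ℝ) from mul_nonneg zero_le_two hy)
    (show (0 : ℝ) ≤ 1 / 2 by norm_num) (show (0 : ℝ) ≤ 1 / 2 by norm_num) (by norm_num)
  simp only [smul_eq_mul] at h2
  rwa [show 1 / 2 * (2 * x) + 1 / 2 * (2 * y) = x + y by ring] at h2

/-- Dilations. -/
theorem _root_.Pool.Agent.Run7.h969.HP.Orl.dil (h : Orl Φ) {M : ℝ} (hM : 0 < M) :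
    Orl fun x => Φ (M * x) := by
  refine ⟨by simp [h.zero], fun x hx => h.nonneg _ (by positivity), ?_, ?_⟩
  · refine ⟨convex_Ici 0, fun x hx y hy a b ha hb hab => ?_⟩
    have h1 := h.conv.2 (show M * x ∈ Ici (0 : ℝ) from mul_nonneg hM.le hx)
      (show M * y ∈ Ici (0 : ℝ) from mul_nonneg hM.le hy) ha hb hab
    simp only [smul_eq_mul] at h1 ⊢
    rwa [show M * (a * x + b * y) = a * (M * x) + b * (M * y) by ring]
  · have h1 : Tendsto (fun x : ℝ => M * x) atTop atTop := tendsto_id.const_mul_atTop hM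
    have h2 := (h.small.comp h1).const_mul (M ^ 2)
    rw [mul_zero] at h2
    refine h2.congr' ?_
    filter_upwards [eventually_gt_atTop 0] with x hx
    simp only [Function.comp]
    field_simp

theorem _root_.Pool.Agent.Run7.h969.HP.Orl.contOn (h : Orl Φ) : ContinuousOn Φ (Ici 0) := by
  refine h.conv.continuousOn_Ici ?_
  have h1 : Tendsto Φ (𝓝[Ici 0] 0) (𝓝 0) := by
    have hub : Tendsto (fun x : ℝ => x * Φ 1) (𝓝[Ici 0] 0) (𝓝 0) := by
      have : Tendsto (fun x : ℝ => x * Φ 1) (𝓝 0) (𝓝 (0 * Φ 1)) :=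
        (continuous_id.mul continuous_const).tendsto 0
      rw [zero_mul] at this
      exact this.mono_left nhdsWithin_le_nhds
    refine tendsto_of_tendsto_of_tendsto_of_le_of_le' tendsto_const_nhds hub ?_ ?_
    · filter_upwards [self_mem_nhdsWithin] with x hx
      exact h.nonneg x hx
    · filter_upwards [self_mem_nhdsWithin, nhdsWithin_le_nhds (ge_mem_nhds (zero_lt_one' ℝ))]
        with x hx hx1
      have := h.scale (s := x) (y := 1) hx hx1 zero_le_one
      rwa [mul_one] at this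
  rw [ContinuousWithinAt, h.zero]
  exact h1

theorem _root_.Pool.Agent.Run7.h969.HP.Orl.cont (h : Orl Φ) : Continuous fun x => Φ (max x 0) :=
  h.contOn.comp_continuous (continuous_id.max continuous_const) fun x =>
    mem_Ici.2 (le_max_right x 0)

theorem _root_.Pool.Agent.Run7.h969.HP.Orl.jensenF (h : Orl Φ) (n : ℕ) : ∀ y : ℕ → ℝ,
    (∀ i, 0 ≤ y i) → Φ (∑ i ∈ Finset.range n, y i)
      ≤ ∑ i ∈ Finset.range n, (1 / 2) ^ (i + 1) * Φ (2 ^ (i + 1) * y i) := by
  induction n with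
  | zero => intro y _; simp [h.zero]
  | succ n ih =>
    intro y hy
    rw [Finset.sum_range_succ', Finset.sum_range_succ']
    have h1 := ih (fun i => 2 * y (i + 1)) fun i => mul_nonneg zero_le_two (hy _)
    rw [← Finset.mul_sum] at h1
    have h0 : 0 ≤ ∑ i ∈ Finset.range n, y (i + 1) := Finset.sum_nonneg fun i _ => hy _
    have h2 := h.add_le h0 (hy 0)
    refine h2.trans (add_le_add ?_ (by simp))
    refine (mul_le_mul_of_nonneg_left h1 (by norm_num)).trans (le_of_eq ?_)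
    rw [Finset.mul_sum]
    refine Finset.sum_congr rfl fun i _ => ?_
    have e2 : (2 : ℝ) ^ (i + 1) * (2 * y (i + 1)) = 2 ^ (i + 1 + 1) * y (i + 1) := by ring
    rw [e2]
    ring

/-- Far out the function is below any multiple of the square. -/
theorem _root_.Pool.Agent.Run7.h969.HP.Orl.quad (h : Orl Φ) {η : ℝ} (hη : 0 < η) :
    ∃ X > 0, ∀ x, 0 ≤ x → Φ x ≤ Φ X + η * x ^ 2 ∧ (X ≤ x → Φ x ≤ η * x ^ 2) := by
  obtain ⟨X, hX⟩ := eventually_atTop.1 (h.small.eventually_le_const hη)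
  refine ⟨max X 1, by positivity, fun x hx => ?_⟩
  have h2 : max X 1 ≤ x → Φ x ≤ η * x ^ 2 := by
    intro hx1
    have h3 : 0 < x := lt_of_lt_of_le (by positivity) hx1
    have h4 := hX x ((le_max_left _ _).trans hx1)
    rwa [div_le_iff₀ (by positivity)] at h4
  refine ⟨?_, h2⟩
  rcases le_total x (max X 1) with h3 | h3
  · exact (h.mono hx h3).trans (le_add_of_nonneg_right (by positivity))
  · exact (h2 h3).trans (le_add_of_nonneg_left (h.nonneg _ (by positivity)))

theorem PhO_meas (h : Orl Φ) : Measurable (Ph Φ) := by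
  have e : Ph Φ = fun x => ENNReal.ofReal (Φ (max x.toReal 0)) := by
    funext x
    rw [Ph, max_eq_left ENNReal.toReal_nonneg]
  rw [e]
  exact ENNReal.measurable_ofReal.comp (h.cont.measurable.comp ENNReal.measurable_toReal)

theorem PhO_mono (h : Orl Φ) {x y : ℝ≥0∞} (hxy : x ≤ y) (hy : y ≠ ⊤) : Ph Φ x ≤ Ph Φ y :=
  ENNReal.ofReal_le_ofReal (h.mono ENNReal.toReal_nonneg (ENNReal.toReal_mono hy hxy))

theorem PhO_tsum (h : Orl Φ) {y : ℕ → ℝ≥0∞} (hy : ∑' i, y i ≠ ⊤) :
    Ph Φ (∑' i, y i) ≤ ∑' i : ℕ, ENNReal.ofReal ((1 / 2) ^ (i + 1)) * Ph Φ (2 ^ (i + 1) * y i) := by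
  have hyi : ∀ i, y i ≠ ⊤ := fun i => ne_top_of_le_ne_top hy (ENNReal.le_tsum i)
  have h1 : Tendsto (fun n => ∑ i ∈ Finset.range n, y i) atTop (𝓝 (∑' i, y i)) :=
    ENNReal.tendsto_nat_tsum _
  have h2 : Tendsto (fun n => Ph Φ (∑ i ∈ Finset.range n, y i)) atTop (𝓝 (Ph Φ (∑' i, y i))) := by
    have h3 := (ENNReal.tendsto_toReal hy).comp h1
    have h4 := (ENNReal.continuous_ofReal.tendsto _).comp ((h.cont.tendsto _).comp h3)
    rw [max_eq_left ENNReal.toReal_nonneg] at h4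
    refine h4.congr fun n => ?_
    show ENNReal.ofReal (Φ (max (∑ i ∈ Finset.range n, y i).toReal 0)) = _
    rw [max_eq_left ENNReal.toReal_nonneg]
    rfl
  refine le_of_tendsto' h2 fun n => ?_
  have h5 := h.jensenF n (fun i => (y i).toReal) fun i => ENNReal.toReal_nonneg
  rw [Ph, ENNReal.toReal_sum fun i _ => hyi i]
  refine (ENNReal.ofReal_le_ofReal h5).trans ?_
  rw [ENNReal.ofReal_sum_of_nonneg fun i _ => mul_nonneg (by positivity)
    (h.nonneg _ (by positivity))]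
  refine le_trans (le_of_eq ?_) (ENNReal.sum_le_tsum (Finset.range n))
  refine Finset.sum_congr rfl fun i _ => ?_
  rw [ENNReal.ofReal_mul (by positivity), Ph]
  congr 3
  rw [ENNReal.toReal_mul, ENNReal.toReal_pow]
  norm_num

/-- Integrals of a sum. -/
theorem lintO_tsum (h : Orl Φ) {μ : Measure ℝ} {y : ℕ → ℝ → ℝ≥0∞} (hm : ∀ i, AEMeasurable (y i) μ)
    (hf : ∀ᵐ s ∂μ, ∑' i, y i s ≠ ⊤) :
    ∫⁻ s, Ph Φ (∑' i, y i s) ∂μ
      ≤ ∑' i : ℕ, ENNReal.ofReal ((1 / 2) ^ (i + 1)) * ∫⁻ s, Ph Φ (2 ^ (i + 1) * y i s) ∂μ := by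
  have h1 : ∀ i, AEMeasurable (fun s => Ph Φ (2 ^ (i + 1) * y i s)) μ := fun i =>
    (PhO_meas h).comp_aemeasurable ((hm i).const_mul _)
  calc ∫⁻ s, Ph Φ (∑' i, y i s) ∂μ
      ≤ ∫⁻ s, ∑' i : ℕ, ENNReal.ofReal ((1 / 2) ^ (i + 1)) * Ph Φ (2 ^ (i + 1) * y i s) ∂μ := by
        refine lintegral_mono_ae ?_
        filter_upwards [hf] with s hs
        exact PhO_tsum h hs
    _ = _ := by
        rw [lintegral_tsum fun i => (h1 i).const_mul _]
        exact tsum_congr fun i => lintegral_const_mul' _ _ ENNReal.ofReal_ne_top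

/-- The contribution of one stage: the width is chosen after the mass. -/
theorem stageO (h : Orl Φ) {M η H : ℝ} (hM : 0 < M) (hη : 0 < η) (hH : 0 ≤ H) :
    ∀ᶠ ε in 𝓝[>] (0 : ℝ), ∀ y : ℝ → ℝ≥0∞,
      (∀ t ∈ Ioc (0 : ℝ) 1, y t ≤ ENNReal.ofReal (ε / Real.sqrt t)) →
      ∫⁻ t in Ioc (0 : ℝ) 1, y t ^ (2 : ℝ) ≤ ENNReal.ofReal H →
        ∫⁻ t in Ioc (0 : ℝ) 1, Ph Φ (ENNReal.ofReal M * y t) ≤ ENNReal.ofReal η := by
  obtain ⟨X, hX, h1⟩ := h.quad (η := η / (3 * M ^ 2 * (H + 1))) (by positivity)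
  have hΦX : 0 ≤ Φ X := h.nonneg X hX.le
  have hΦM : 0 ≤ Φ M := h.nonneg M hM.le
  have e1 : ∀ᶠ ε in 𝓝[>] (0 : ℝ), ε ≤ 1 := nhdsWithin_le_nhds (ge_mem_nhds one_pos)
  have e2 : ∀ᶠ ε in 𝓝[>] (0 : ℝ), ε * Φ X ≤ η / 3 := by
    have : Tendsto (fun ε : ℝ => ε * Φ X) (𝓝 0) (𝓝 (0 * Φ X)) :=
      (continuous_id.mul continuous_const).tendsto 0
    rw [zero_mul] at this
    exact (this.mono_left nhdsWithin_le_nhds).eventually_le_const (by positivity)
  have e3 : ∀ᶠ ε in 𝓝[>] (0 : ℝ), Real.sqrt ε * Φ M ≤ η / 3 := by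
    have : Tendsto (fun ε : ℝ => Real.sqrt ε * Φ M) (𝓝 0) (𝓝 (Real.sqrt 0 * Φ M)) :=
      (Real.continuous_sqrt.mul continuous_const).tendsto 0
    rw [Real.sqrt_zero, zero_mul] at this
    exact (this.mono_left nhdsWithin_le_nhds).eventually_le_const (by positivity)
  filter_upwards [e1, e2, e3, self_mem_nhdsWithin] with ε hε1 hε2 hε3 hε0 y hy hyH
  have hε0' : 0 < ε := hε0
  have hsε : Real.sqrt ε ≤ 1 := Real.sqrt_le_one.2 hε1
  have h3 : ∀ t ∈ Ioc (0 : ℝ) 1, Ph Φ (ENNReal.ofReal M * y t)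
      ≤ ENNReal.ofReal (η / (3 * (H + 1))) * y t ^ (2 : ℝ)
        + ((Ioc (0 : ℝ) ε).indicator (fun _ => ENNReal.ofReal (Φ X)) t
          + ENNReal.ofReal (Real.sqrt ε * Φ M)) := by
    intro t ht
    have hst : 0 < Real.sqrt t := Real.sqrt_pos.2 ht.1
    have hyt : y t ≠ ⊤ := ne_top_of_le_ne_top ENNReal.ofReal_ne_top (hy t ht)
    have hy0 : 0 ≤ (y t).toReal := ENNReal.toReal_nonneg
    have hy1 : (y t).toReal ≤ ε / Real.sqrt t :=
      ENNReal.toReal_le_of_le_ofReal (by positivity) (hy t ht)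
    rw [Ph, ENNReal.toReal_mul, ENNReal.toReal_ofReal hM.le]
    by_cases htε : t ≤ ε
    · rw [indicator_of_mem (show t ∈ Ioc (0 : ℝ) ε from ⟨ht.1, htε⟩)]
      have h5 := (h1 (M * (y t).toReal) (by positivity)).1
      have e1 : η / (3 * M ^ 2 * (H + 1)) * (M * (y t).toReal) ^ 2
          = η / (3 * (H + 1)) * (y t).toReal ^ 2 := by
        field_simp
      rw [e1, add_comm] at h5
      have e4 : ENNReal.ofReal (η / (3 * (H + 1)) * (y t).toReal ^ 2)
          = ENNReal.ofReal (η / (3 * (H + 1))) * y t ^ (2 : ℝ) := by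
        rw [ENNReal.ofReal_mul (by positivity), ENNReal.ofReal_pow hy0, ENNReal.ofReal_toReal hyt,
          ← ENNReal.rpow_natCast]
        norm_num
      refine (ENNReal.ofReal_le_ofReal h5).trans ?_
      rw [ENNReal.ofReal_add (by positivity) hΦX, e4]
      exact add_le_add le_rfl le_self_add
    · have hεt : ε < t := not_le.1 htε
      have h6 : (y t).toReal ≤ Real.sqrt ε := by
        refine hy1.trans ?_
        rw [div_le_iff₀ hst]
        have h7 : Real.sqrt ε ≤ Real.sqrt t := Real.sqrt_le_sqrt hεt.le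
        calc ε = Real.sqrt ε * Real.sqrt ε := (Real.mul_self_sqrt hε0'.le).symm
          _ ≤ Real.sqrt ε * Real.sqrt t := mul_le_mul_of_nonneg_left h7 (Real.sqrt_nonneg _)
      have h8 : Φ (M * (y t).toReal) ≤ Real.sqrt ε * Φ M := by
        refine (h.mono (by positivity) (mul_le_mul_of_nonneg_left h6 hM.le)).trans ?_
        rw [mul_comm M]
        exact h.scale (Real.sqrt_nonneg _) hsε hM.le
      refine (ENNReal.ofReal_le_ofReal h8).trans ?_
      rw [← add_assoc]
      exact le_add_self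
  calc ∫⁻ t in Ioc (0 : ℝ) 1, Ph Φ (ENNReal.ofReal M * y t)
      ≤ ∫⁻ t in Ioc (0 : ℝ) 1, (ENNReal.ofReal (η / (3 * (H + 1))) * y t ^ (2 : ℝ)
        + ((Ioc (0 : ℝ) ε).indicator (fun _ => ENNReal.ofReal (Φ X)) t
          + ENNReal.ofReal (Real.sqrt ε * Φ M))) := setLIntegral_mono' measurableSet_Ioc h3
    _ = (∫⁻ t in Ioc (0 : ℝ) 1, ENNReal.ofReal (η / (3 * (H + 1))) * y t ^ (2 : ℝ))
        + ∫⁻ t in Ioc (0 : ℝ) 1, ((Ioc (0 : ℝ) ε).indicator (fun _ => ENNReal.ofReal (Φ X)) t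
          + ENNReal.ofReal (Real.sqrt ε * Φ M)) := by
        refine lintegral_add_right _ ?_
        exact (measurable_const.indicator measurableSet_Ioc).add measurable_const
    _ ≤ ENNReal.ofReal (η / 3) + (ENNReal.ofReal (η / 3) + ENNReal.ofReal (η / 3)) := by
        refine add_le_add ?_ ?_
        · rw [lintegral_const_mul' _ _ ENNReal.ofReal_ne_top]
          refine (mul_le_mul' le_rfl hyH).trans ?_
          rw [← ENNReal.ofReal_mul (by positivity)]
          refine ENNReal.ofReal_le_ofReal ?_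
          rw [div_mul_eq_mul_div, div_le_div_iff₀ (by positivity) (by positivity)]
          nlinarith
        · rw [lintegral_add_right _ measurable_const]
          refine add_le_add ?_ ?_
          · rw [lintegral_indicator measurableSet_Ioc, lintegral_const,
              Measure.restrict_apply_univ]
            refine (mul_le_mul' le_rfl (Measure.restrict_apply_le _ _)).trans ?_
            rw [Real.volume_Ioc, sub_zero, ← ENNReal.ofReal_mul hΦX, mul_comm]
            exact ENNReal.ofReal_le_ofReal hε2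
          · rw [lintegral_const, Measure.restrict_apply_univ, Real.volume_Ioc, sub_zero,
              ENNReal.ofReal_one, mul_one]
            exact ENNReal.ofReal_le_ofReal hε3
    _ = ENNReal.ofReal η := by
        rw [← ENNReal.ofReal_add (by positivity) (by positivity),
          ← ENNReal.ofReal_add (by positivity) (by positivity)]
        congr 1
        ring

end Pool.Agent.Run7.h782.HP
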