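import Pool.Agent.Run7.h782.HP.SeqF
import Pool.Agent.Run7.h782.HP.Orl

/-!
Project HP, piece IterP, part 1: the sequence with the Orlicz clause.
-/

set_option autoImplicit false

open MeasureTheory Set Filter Topology
open scoped ENNReal ComplexConjugate

namespace Pool.Agent.Run7.h782.HP

open H459R3.NS hiding W
open Pool.Agent.Run7.h782 Pool.Agent.Run7.h782.GD Pool.Agent.Run7.h782.GS
open Pool.Agent.Run7.h782.WS Pool.Agent.Run7.h969.GS Pool.Agent.Run7 Pool.Agent.Run7.h308.WS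
open Pool.Agent.Run7.h744.WS Pool.Agent.Run7.h969.WS Pool.Agent.Run7.h782.WQ
open Pool.Agent.Run7.h744.WQ Pool.Agent.Run7.h969.HP

/-- The sequence with the Orlicz clause. -/
structure SQP (ff : ℝ → Cf) (C : ℝ → ℝ) (ν δ : ℝ) (U : ℝ → Cf) (Q : ℕ → ℝ) (c : Cf) (r : ℕ → Mf)
    (φ Φ : ℝ → ℝ) (m : ℕ → ℕ) (A : ℕ → ℝ → Cf) (ε H : ℕ → ℝ) : Prop
    extends SQF ff C ν δ U Q c r φ m A ε H where
  orl : ∀ n, ∫⁻ t in Ioc (0 : ℝ) 1, Ph Φ (2 ^ (n + 1) * Sd (A (n + 1) t) (A n t))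
    ≤ ENNReal.ofReal δ

theorem exists_sqP (hStep : StmStepF) : ∃ C : ℝ → ℝ, (∀ p, 0 < C p) ∧ ∀ ff : ℝ → Cf, Frc ff →
    ∀ (ν : ℝ), 0 < ν →
    ∀ U : ℝ → Cf, TgF ff ν U → ∀ (Q : ℕ → ℝ) (c : Cf) (r : ℕ → Mf), DatQ Q c r →
    ∀ φ : ℝ → ℝ, Gauge φ → ∀ Φ : ℝ → ℝ, Orl Φ → ∀ δ : ℝ, 0 < δ →
    ∃ (m : ℕ → ℕ) (A : ℕ → ℝ → Cf) (ε H : ℕ → ℝ), SQP ff C ν δ U Q c r φ Φ m A ε H := by
  obtain ⟨C, hC, Hs⟩ := stpq_of_stepF hStep
  refine ⟨C, hC, fun ff hff ν hν U hU Q c r hdat φ hφ Φ hΦ δ hδ => ?_⟩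
  obtain ⟨m, hm1, hm2, hm3⟩ := exists_m hdat
  obtain ⟨f, hf0, hP, hR⟩ := exists_rec (X := (ℝ → Cf) × ℝ)
    (fun x => TgF ff ν x.1 ∧ 0 < x.2)
    (fun n x y => ∃ H' : ℝ, 0 ≤ H' ∧ StpQF ff C ν ((1 / 4) ^ n) (th Q n) H' (Ex Q n) x.1
      (dvr (r (m n))) (sts r m n (x.1 0)) y.2 y.1 ∧
      StpG φ ((1 / 2) ^ n) ((1 / 2) ^ n) (12 * 2 ^ n) x.1 (dvr (r (m n))) y.2 y.1 ∧
      y.2 ≤ x.2 ∧ y.2 ≤ (1 / 2) ^ n ∧ y.2 ≤ δ * (1 / 2) ^ (n + 1) ∧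
      ∫⁻ t in Ioc (0 : ℝ) 1, Ph Φ (2 ^ (n + 1) * Sd (y.1 t) (x.1 t)) ≤ ENNReal.ofReal δ)
    (U, 1) ⟨hU, one_pos⟩ (by
      rintro n ⟨a, e⟩ ⟨ha, he⟩
      obtain ⟨Z, hZ⟩ := hdat.supp (m n)
      have hl : L1 (a 0) := Maj.l1 ha.maj le_rfl
      obtain ⟨H', hH0, hH'⟩ := Hs ff hff ν hν ((1 / 4) ^ n) (by positivity)
        (pow_le_one₀ (by norm_num) (by norm_num)) (Ex Q n) (ex_pos hdat.one n) a ha (Z.erase 0)
        (dvr (r (m n))) (Finset.notMem_erase _ _) (dvr_supp hZ) (herm_dvr (hdat.sy _))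
        (dv_dvr _) (sts r m n (a 0)) (sts_sy hdat m n (ha.herm 0 le_rfl)) (sts_r1 hdat m n hl)
        (sts_dvr r m n (ha.div 0 le_rfl) (ha.zero 0 le_rfl)) (th Q n) (th_pos Q n)
      have e1 : ∀ᶠ ε in 𝓝[>] (0 : ℝ), 0 < ε := self_mem_nhdsWithin
      have e2 : ∀ κ : ℝ, 0 < κ → ∀ᶠ ε in 𝓝[>] (0 : ℝ), ε ≤ κ := fun κ hκ =>
        nhdsWithin_le_nhds (ge_mem_nhds hκ)
      have e3 : th Q n ≤ (1 / 2) ^ n :=
        (th_le Q n).trans (pow_le_pow_left₀ (by norm_num) (by norm_num) n)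
      obtain ⟨ε, h1, h2, h3, h4, h5, b, hb, hb'⟩ := (e1.and ((e2 e he).and ((e2 ((1 / 2) ^ n)
        (by positivity)).and ((e2 (δ * (1 / 2) ^ (n + 1)) (by positivity)).and
          ((stageO hΦ (M := 2 ^ (n + 1)) (by positivity) hδ hH0).and
          (hH' φ hφ (12 * 2 ^ n) ((1 / 2) ^ n) ((1 / 2) ^ n) (by positivity) (by positivity)
            e3)))))).exists
      refine ⟨(b, ε), ⟨hb.tg, h1⟩, H', hH0, hb, hb', h2, h3, h4, ?_⟩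
      have h6 := h5 (fun t => Sd (b t) (a t)) (fun t ht => hb.pt t ht.1) hb.int
      rw [← two_pow_coe] at h6
      exact h6)
  choose H' hH0 hst hsg h1 h2 h3 h4 using hR
  exact ⟨m, fun n => (f n).1, fun n => (f (n + 1)).2, H',
    { dat := hdat
      init := by simp [hf0]
      tgt := fun n => (hP n).1
      top := hm1
      dif := hm2
      wie := hm3
      st := hst
      sg := hsg
      e0 := fun n => (hP (n + 1)).2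
      e1 := h2
      e2 := h3
      ea := antitone_nat_of_succ_le fun n => h1 (n + 1)
      H0 := hH0
      orl := h4 }⟩


end Pool.Agent.Run7.h782.HP
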