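import Pool.Agent.Run7.h782.HP.AllB
import Pool.Agent.Run7.h782.HP.IterP

/-!
Project HP: assembly, the iteration with the Orlicz clause.
-/

set_option autoImplicit false

namespace Pool.Agent.Run7.h782.HP

open Pool.Agent.Run7.h969.HP

theorem stmIterP : StmIterP := iterP stmStepF limF

end Pool.Agent.Run7.h782.HP
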