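import Pool.Agent.Run7.h782.HP.FinBrP
import Pool.Agent.Run7.h782.HP.AllP1
import Pool.Agent.Run7.h969.HP.BrP
import Pool.Agent.Run7.h969.HP.IndP
import Pool.Agent.Run7.h811.HP.LocP
import Pool.Agent.Run7.h219.HP.End5

/-!
Project HP: assembly, the branching theorem with closeness in Orlicz spaces.
-/

set_option autoImplicit false

namespace Pool.Agent.Run7.h782.HP

open Pool.Agent.Run7.h969.HP

theorem stmLocP : StmLocP :=
  Pool.Agent.Run7.h811.HP.locP stmIterP tgtF physO Pool.Agent.Run7.h779.WQ.d1s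

theorem stmHPP : StmHPP := stmHPP_of Pool.Agent.Run7.h782.WQ.stmFinal stmLocP

theorem stmBrP : StmBrP := brP Pool.Agent.Run7.h219.HP.stmEnd Pool.Agent.Run7.h782.WQ.stmFinal stmHPP

end Pool.Agent.Run7.h782.HP
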