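import Pool.Agent.Run7.h782.HP.DefsE
import Pool.Agent.Run7.h969.HP.DefsD

/-!
The steering theorem with all Besov clauses (continuity at the end time, uniform closeness to the
path): statements.
-/

set_option autoImplicit false

open MeasureTheory Set Filter Topology
open scoped ContDiff ENNReal ComplexConjugate

namespace Pool.Agent.Run7.h782.HP

open H459R3.NS Pool.Agent.Run7 Pool.Agent.Run7.h782 Pool.Agent.Run7.h782.GD Pool.Agent.Run7.h782.GS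
open Pool.Agent.Run7.h782.WS Pool.Agent.Run7.h782.WQ Pool.Agent.Run7.h744.WS
open Pool.Agent.Run7.h969.WS Pool.Agent.Run7.h782.OS Pool.Agent.Run7.h969.HP

/-- **Piece ReachF** (`StmReachE` with the clause at `T` of `StmReachD`). -/
def StmReachF : Prop := ∀ (ν : ℝ), 0 < ν → ∀ T : ℝ, 0 < T → ∀ (m : V) (w : ℝ → V → V), PathM m w →
  ∀ c c₁ : Cf, Dis c → (∀ i, c 0 i = ((m i : ℝ) : ℂ)) → Dis c₁ →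
  (∀ i, c₁ 0 i = ((m i : ℝ) : ℂ)) → ∀ Q : ℕ → ℝ, (∀ n, 1 ≤ Q n) →
  (∃ R : Fin 3 → Fin 3 → V → ℝ, Str R ∧ IsDiv R c ∧
    ∀ n i j, IntegrableOn (fun x => |R i j x| ^ Q n) cube) →
  (∃ R : Fin 3 → Fin 3 → V → ℝ, Str R ∧ IsDiv R c₁ ∧
    ∀ n i j, IntegrableOn (fun x => |R i j x| ^ Q n) cube) →
  ∀ φ : ℝ → ℝ, Gauge φ → ∀ Φ : ℝ → ℝ, Orl Φ → ∀ ε : ℝ, 0 < ε →
  ∃ (F : Set ℝ) (u : ℝ → V → V) (p : ℝ → V → ℝ), Rch ν Q c c₁ T F u p ∧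
    (∀ s ∈ Ioo 0 T, Bc φ u s) ∧ ((Summable fun k => ‖c k‖) → Ba φ c u) ∧
    ((Summable fun k => ‖c₁ k‖) → ∀ i,
      Tendsto (fun t => besG φ (fun x => u t x i - (S (fun k => c₁ k i) x).re)) (𝓝[<] T) (𝓝 0)) ∧
    (∀ t ∈ Icc ε (T - ε), Bd φ ε u w t t) ∧
    ∃ h : ℝ → ℝ, (∀ t, 0 ≤ h t) ∧ (∀ t ∈ Ioo 0 T, ∀ x i, |u t x i - w t x i| ≤ h t) ∧
      ∫⁻ t in Ioo 0 T, ENNReal.ofReal (Φ (h t)) ≤ ENNReal.ofReal ε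

/-- **The steering theorem** with all Besov clauses (from End, Final, ReachF, EndReg, IniReg). -/
def StmSteerF : Prop := ∀ (ν : ℝ), 0 < ν → ∀ (m : V) (c c₁ : Cf), Dis c →
  (∀ i, c 0 i = ((m i : ℝ) : ℂ)) → Dis c₁ → (∀ i, c₁ 0 i = ((m i : ℝ) : ℂ)) → ∀ Q : ℕ → ℝ,
  (∀ n, 1 ≤ Q n) → ∀ T₀ : ℝ, 0 < T₀ → ∀ v : ℝ → V → V, VW ν T₀ c v →
  (∀ n, InLq T₀ v (2 * Q n)) → ∀ U : ℝ → V → V, (∀ T', 0 < T' → VW ν T' c₁ U) →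
  (∀ T', 0 < T' → ∀ n, InLq T' U (2 * Q n)) → ∀ S ∈ Icc 0 T₀, ∀ T : ℝ, S < T →
  ∀ w : ℝ → V → V, PathM m w → ∀ φ : ℝ → ℝ, Gauge φ → ∀ Φ : ℝ → ℝ, Orl Φ → ∀ ε : ℝ, 0 < ε →
  ∃ (F : Set ℝ) (u : ℝ → V → V) (p : ℝ → V → ℝ), F ⊆ Ico S T ∧
    (∀ T', T' < T → (F ∩ Iic T').Finite) ∧
    (∀ t ∈ Ioc 0 S, u t = v t) ∧ (∀ t, T ≤ t → u t = U (t - T)) ∧
    SolOn ν (Ioo S T \ F) u p ∧ (∀ T', 0 < T' → VW ν T' c u) ∧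
    (∀ T', 0 < T' → ∀ n, InLq T' u (2 * Q n)) ∧
    (∀ (i : Fin 3) (ψ : V → ℝ), ContDiff ℝ ∞ ψ → Per ψ →
      ContinuousOn (fun t => ∫ x in cube, u t x i * ψ x) (Ioo S T)) ∧
    (∀ s ∈ Ioo S T, Bc φ u s) ∧
    (∀ (a b : ℝ) (q : ℝ → V → ℝ), 0 < S → S ∈ Ioo a b → SolOn ν (Ioo a b) v q → Bc φ u S) ∧
    (S = 0 → (Summable fun k => ‖c k‖) → Ba φ c u) ∧
    (∀ (a b : ℝ) (q : ℝ → V → ℝ), (0 : ℝ) ∈ Ioo a b → SolOn ν (Ioo a b) U q → Bc φ u T) ∧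
    (∀ t ∈ Icc (S + ε) (T - ε), Bd φ ε u w t t) ∧
    (∀ s ∈ Ico S T, ∀ δ : ℝ, 0 < δ →
      ∀ᶠ t in 𝓝[>] s, ∀ x i, |u t x i| ≤ δ / Real.sqrt (t - s)) ∧
    ∃ h : ℝ → ℝ, (∀ t, 0 ≤ h t) ∧ (∀ t ∈ Ioo S T, ∀ x i, |u t x i - w t x i| ≤ h t) ∧
      ∫⁻ t in Ioo S T, ENNReal.ofReal (Φ (h t)) ≤ ENNReal.ofReal ε

end Pool.Agent.Run7.h782.HP
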