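import Pool.Agent.Run7.h969.HP.Defs4
import Pool.Agent.Run7.h219.HP.End5
import Pool.Agent.Run7.h219.HP.GlueW
import Pool.Agent.Run7.h219.HP.Reg

/-!
Project HP, piece PcG: solutions of the h-principle, cut off at a regular time.
-/

set_option autoImplicit false

open MeasureTheory Set Filter Topology
open scoped ContDiff ENNReal ComplexConjugate

namespace Pool.Agent.Run7.h782.HP

open H459R3.NS Pool.Agent.Run7.h782 Pool.Agent.Run7.h782.GD Pool.Agent.Run7.h782.GS
open Pool.Agent.Run7.h782.WS Pool.Agent.Run7.h782.WQ Pool.Agent.Run7.h744.WS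
open Pool.Agent.Run7.h969.WS Pool.Agent.Run7.h782.OS Pool.Agent.Run7.h969.HP
open Pool.Agent.Run7.h219.HP Pool.Agent.Run7.h219.OS Run7.h475.WS

/-- A regular time has a regular neighbourhood. -/
theorem reg_nhd {F : Finset ℝ} {τ : ℝ} (hτ : 0 < τ) (hF : τ ∉ F) :
    ∃ a τ' : ℝ, 0 < a ∧ a < τ ∧ τ < τ' ∧ Ioo a τ' ⊆ Ioi 0 \ (F : Set ℝ) := by
  have ho : IsOpen (Ioi 0 \ (F : Set ℝ)) := open_o F
  obtain ⟨l, u, ⟨h1, h2⟩, h3⟩ := mem_nhds_iff_exists_Ioo_subset.1
    (ho.mem_nhds (show τ ∈ Ioi 0 \ (F : Set ℝ) from ⟨hτ, fun h => hF (Finset.mem_coe.1 h)⟩))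
  refine ⟨max l (τ / 2), u, by positivity, max_lt h1 (by linarith), h2, ?_⟩
  exact (Ioo_subset_Ioo_left (le_max_left _ _)).trans h3

/-- The formula on an interval where the solution is smooth. -/
theorem local_form {ν a τ τ' : ℝ} (hν : 0 < ν) (haτ : a < τ) (hττ : τ < τ')
    {u : ℝ → V → V} {p : ℝ → V → ℝ} (h : SolOn ν (Ioo a τ') u p) {b : ℝ} (hab : a < b)
    (hbτ : b < τ) {χ : ℝ → ℝ} {φ : V → V} (hχ : ContDiff ℝ ∞ χ) (hχ0 : ∀ t, t ≤ b → χ t = 0)
    (hφ : ContDiff ℝ ∞ φ) (hp : Per φ) (hd : ∀ x, ∑ i, pd i (fun y => φ y i) x = 0) :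
    ∫ z in Ioo b τ ×ˢ cube, wk ν u χ φ z = χ τ * ∑ i, pr (vf (u τ)) i (fun x => φ x i) := by
  have hb : b ∈ Ioo a τ' := ⟨hab, hbτ.trans hττ⟩
  have hτm : τ ∈ Ioo a τ' := ⟨haτ, hττ⟩
  -- the translated solution
  have hs : SolOn ν ((fun t => t - (-b)) ⁻¹' Ioo a τ') (fun t => u (t - (-b)))
      (fun t => p (t - (-b))) := shift_o (-b) h
  have hsub : Ioo 0 (τ' - b) ⊆ (fun t => t - (-b)) ⁻¹' Ioo a τ' := by
    intro t ht
    simp only [mem_preimage, mem_Ioo] at ht ⊢
    constructor <;> linarith [ht.1, ht.2]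
  have hs' := mono_o hs hsub
  have hL : ∀ i, IntegrableOn (fun z : ℝ × V => u (z.1 - (-b)) z.2 i ^ 2)
      (Ioc 0 (τ - b) ×ˢ cube) := by
    intro i
    have h1 : ContinuousOn (fun z : ℝ × V => u (z.1 - (-b)) z.2 i ^ 2)
        (Icc 0 (τ - b) ×ˢ cube) := by
      refine ((smooth_o hs i).continuousOn.pow 2).mono (prod_mono ?_ (subset_univ _))
      intro t ht
      simp only [mem_preimage, mem_Ioo]
      constructor <;> linarith [ht.1, ht.2]
    exact (h1.integrableOn_compact (isCompact_Icc.prod cube_compact)).mono_set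
      (prod_mono Ioc_subset_Icc_self le_rfl)
  have hc : ∀ (i : Fin 3) (ψ : V → ℝ), ContDiff ℝ ∞ ψ → Per ψ →
      Tendsto (fun t => ∫ x in cube, u (t - (-b)) x i * ψ x) (𝓝[>] 0)
        (𝓝 (pr (vf (u b)) i ψ)) := by
    intro i ψ hψ hpψ
    rw [pr_vf (fun i => sp_o h hb i) i hψ.continuous]
    have h1 : ContinuousAt (fun s => ∫ x in cube, u s x i * ψ x) b :=
      (pair_cont isOpen_Ioo h hψ.continuous i).continuousAt (Ioo_mem_nhds hb.1 hb.2)
    have h2 : Tendsto (fun t : ℝ => t - (-b)) (𝓝[>] 0) (𝓝 b) := by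
      have : Tendsto (fun t : ℝ => t - (-b)) (𝓝 0) (𝓝 (0 - (-b))) :=
        (continuous_id.sub continuous_const).tendsto 0
      rw [zero_sub, neg_neg] at this
      exact this.mono_left nhdsWithin_le_nhds
    exact h1.tendsto.comp h2
  have hχb : ContDiff ℝ ∞ fun t => χ (t + b) := hχ.comp (contDiff_id.add contDiff_const)
  have hk := stmVWL ν (τ - b) (τ' - b) hν (by linarith) (by linarith) (fun t => u (t - (-b)))
    (fun t => p (t - (-b))) hs' hL (vf (u b)) hc (fun t => χ (t + b)) φ hχb hφ hp hd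
  have hdb : ∀ t, deriv (fun t => χ (t + b)) t = deriv χ (t + b) := fun t =>
    deriv_comp_add_const _ _ _
  have e1 : ∫ z in Ioo b τ ×ˢ cube, wk ν u χ φ z
      = ∫ z in Ioo 0 (τ - b) ×ˢ cube, wk ν (fun t => u (t - (-b))) (fun t => χ (t + b)) φ z := by
    rw [← shift_eq (T := b) τ]
    refine setIntegral_congr_fun (boxm b τ) fun z _ => ?_
    simp only [wk, hdb, sub_add_cancel, sub_neg_eq_add]
  have e2 : (0 : ℝ) + b = b := zero_add b
  simp only [zero_add, sub_add_cancel, hχ0 b le_rfl, zero_mul, zero_sub] at hk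
  rw [e1]
  have e3 : ∀ i, ∫ x in cube, u (τ - b - -b) x i * φ x i = pr (vf (u τ)) i (fun x => φ x i) := by
    intro i
    rw [show τ - b - -b = τ by ring,
      pr_vf (fun i => sp_o h hτm i) i (contDiff_pi.1 hφ i).continuous]
  simp only [e3] at hk
  have hk' : -(χ τ * ∑ i, pr (vf (u τ)) i (fun x => φ x i))
      + ∫ z in Ioo 0 (τ - b) ×ˢ cube, wk ν (fun t => u (t - (-b))) (fun t => χ (t + b)) φ z = 0 :=
    hk
  linarith

/-- **Piece PcG.** -/
theorem pcG : StmPcG := by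
  intro ν hν Q hQ c hc F u p hF0 hsol hvw hlq hwc hloc τ hτ hτF
  obtain ⟨a, τ', ha, haτ, hττ', hreg⟩ := reg_nhd hτ hτF
  have hsl : SolOn ν (Ioo a τ') u p := mono_o hsol hreg
  obtain ⟨c', hc', -, -, hdv, hwk⟩ := stmEnd ν hν c hc Q hQ τ hτ u (hvw τ hτ) (hlq τ hτ)
  have hid : ∀ φ : V → V, ContDiff ℝ ∞ φ → Per φ → (∀ x, ∑ i, pd i (fun y => φ y i) x = 0) →
      ∑ i, pr c' i (fun x => φ x i) = ∑ i, pr (vf (u τ)) i (fun x => φ x i) := by
    intro φ hφ hp hd
    set b : ℝ := (a + τ) / 2 with hb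
    have hab : a < b := by rw [hb]; linarith
    have hbτ : b < τ := by rw [hb]; linarith
    set χ : ℝ → ℝ := fun t => Real.smoothTransition ((t - b) / (τ - b)) with hχd
    have hχ : ContDiff ℝ ∞ χ :=
      Real.smoothTransition.contDiff.comp ((contDiff_id.sub contDiff_const).div_const _)
    have hχ0 : ∀ t, t ≤ b → χ t = 0 := fun t ht =>
      Real.smoothTransition.zero_of_nonpos (div_nonpos_of_nonpos_of_nonneg (by linarith)
        (by linarith))
    have hχ1 : χ τ = 1 := by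
      rw [hχd]
      simp only
      rw [div_self (by linarith : τ - b ≠ 0)]
      exact Real.smoothTransition.one_of_one_le le_rfl
    have h1 := hwk χ φ hχ hφ hp hd
    have h2 := local_form hν haτ hττ' hsl hab hbτ hχ hχ0 hφ hp hd
    have h3 : ∫ z in Ioo 0 τ ×ˢ cube, wk ν u χ φ z = ∫ z in Ioo b τ ×ˢ cube, wk ν u χ φ z := by
      refine setIntegral_eq_of_subset_of_forall_sdiff_eq_zero (boxm 0 τ) ?_ ?_
      · exact prod_mono (Ioo_subset_Ioo_left (ha.trans hab).le) le_rfl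
      · rintro z ⟨⟨hz1, hz2⟩, hz3⟩
        have hzb : z.1 ≤ b := by
          by_contra hcon
          exact hz3 ⟨⟨not_le.1 hcon, hz1.2⟩, hz2⟩
        rw [wk, hχ0 _ hzb]
        rcases hzb.lt_or_eq with hlt | heq
        · have e : χ =ᶠ[𝓝 z.1] fun _ => 0 := by
            filter_upwards [gt_mem_nhds hlt] with t ht
            exact hχ0 t ht.le
          rw [e.deriv_eq, deriv_const]
          ring
        · have e : deriv χ z.1 = 0 := by
            have h4 : ContinuousAt (deriv χ) z.1 :=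
              (hχ.continuous_deriv (by norm_cast)).continuousAt
            have h5 : Tendsto (deriv χ) (𝓝[<] z.1) (𝓝 (deriv χ z.1)) :=
              h4.tendsto.mono_left nhdsWithin_le_nhds
            refine tendsto_nhds_unique h5 (tendsto_const_nhds.congr' ?_)
            filter_upwards [self_mem_nhdsWithin] with t ht
            have ht' : t < b := lt_of_lt_of_le ht heq.le
            have e : χ =ᶠ[𝓝 t] fun _ => 0 := by
              filter_upwards [gt_mem_nhds ht'] with s hs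
              exact hχ0 s hs.le
            rw [e.deriv_eq, deriv_const]
          rw [e]
          ring
    rw [h3, h2, hχ0 0 (ha.trans hab).le, hχ1] at h1
    linarith
  have hfl : ∀ s ∈ F.filter fun s => s < τ, s ∈ Ico 0 τ := fun s hs => by
    rw [Finset.mem_filter] at hs
    exact ⟨hF0 s hs.1, hs.2⟩
  refine ⟨hτ, hfl, ⟨τ', hττ', ?_⟩, (hvw τ hτ).meas, (hvw τ hτ).sq, hlq τ hτ, hdv, ?_, ?_, ?_, ?_⟩
  · refine mono_o hsol ?_
    rintro t ⟨ht, htF⟩
    refine ⟨ht.1, fun h => ?_⟩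
    rcases lt_or_ge t τ with h1 | h1
    · exact htF (by
        rw [Finset.coe_filter]
        exact ⟨h, h1⟩)
    · exact (hreg ⟨lt_of_lt_of_le haτ h1, ht.2⟩).2 h
  · intro χ φ hχ hφ hp hd
    have h1 := hwk χ φ hχ hφ hp hd
    rwa [hid φ hφ hp hd] at h1
  · intro i ψ hψ hp
    exact (hwc i ψ hψ hp).1.mono fun t ht => ht.1
  · intro i ψ hψ hp
    exact (hwc i ψ hψ hp).2
  · intro s hs δ hδ
    exact hloc s hs.1 δ hδ

end Pool.Agent.Run7.h782.HP
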