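import Pool.Agent.Run7.h782.HP.DefsC
import Pool.Agent.Run7.h782.HP.PcG

/-!
Project HP, piece EndReg: the distribution at a time where the solution is smooth.
-/

set_option autoImplicit false

open MeasureTheory Set Filter Topology
open scoped ContDiff ENNReal ComplexConjugate

namespace Pool.Agent.Run7.h782.HP

open H459R3.NS Pool.Agent.Run7 Pool.Agent.Run7.h782 Pool.Agent.Run7.h782.GD Pool.Agent.Run7.h782.GS
open Pool.Agent.Run7.h782.WS Pool.Agent.Run7.h782.WQ Pool.Agent.Run7.h744.WS
open Pool.Agent.Run7.h969.WS Pool.Agent.Run7.h782.OS Pool.Agent.Run7.h969.HP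
open Pool.Agent.Run7.h219.HP Pool.Agent.Run7.h219.OS Run7.h475.WS
open Pool.Agent.Run7.h219.WQ (gg_smooth gg_per pd_gg gg_sum pr_gg)

/-- Divergence free distributions are determined by their values at divergence free fields. -/
theorem dis_ext {c c' : Cf} (hc : Herm c) (hd : Dv c) (hc' : Herm c') (hd' : Dv c')
    (h : ∀ φ : V → V, ContDiff ℝ ∞ φ → Per φ → (∀ x, ∑ i, pd i (fun y => φ y i) x = 0) →
      ∑ i, pr c i (fun x => φ x i) = ∑ i, pr c' i (fun x => φ x i)) : c = c' := by
  funext k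
  set w : Fin 3 → ℂ := fun i => conj (c k i - c' k i) with hw
  have hkw : ∑ i, (k i : ℂ) * w i = 0 := by
    have h1 : ∑ i, (k i : ℂ) * (c k i - c' k i) = 0 := by
      have h2 : ∑ i, (k i : ℂ) * c k i = 0 := hd k
      have h3 : ∑ i, (k i : ℂ) * c' k i = 0 := hd' k
      simp_rw [mul_sub]
      rw [Finset.sum_sub_distrib, h2, h3, sub_zero]
    have h2 := congrArg conj h1
    rw [map_sum, map_zero] at h2
    rw [← h2]
    refine Finset.sum_congr rfl fun i _ => ?_
    rw [map_mul]
    congr 1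
    exact (map_intCast _ _).symm
  have h1 := h (fun x i => h219.WQ.gg k (w i) x) (contDiff_pi.2 fun i => gg_smooth k (w i))
    (fun j x => funext fun i => gg_per k (w i) j x) (fun x => by
      have e : ∀ i, pd i (fun y => (fun x i => h219.WQ.gg k (w i) x) y i) x
          = h219.WQ.gg k (-(2 * Real.pi * Complex.I * (k i : ℂ)) * w i) x := fun i => by
        show pd i (h219.WQ.gg k (w i)) x = _
        rw [pd_gg]
      rw [Finset.sum_congr rfl fun i _ => e i, gg_sum]
      have e2 : ∑ i, -(2 * Real.pi * Complex.I * (k i : ℂ)) * w i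
          = -(2 * Real.pi * Complex.I) * ∑ i, (k i : ℂ) * w i := by
        rw [Finset.mul_sum]
        exact Finset.sum_congr rfl fun i _ => by ring
      rw [e2, hkw, mul_zero, h219.WQ.gg, zero_mul, Complex.zero_re])
  have h2 : ∀ i, (w i * c k i).re - (w i * c' k i).re = ‖c k i - c' k i‖ ^ 2 := by
    intro i
    rw [← Complex.sub_re, ← mul_sub, hw, mul_comm, Complex.mul_conj, Complex.ofReal_re,
      Complex.normSq_eq_norm_sq]
  have h3 : ∑ i, ‖c k i - c' k i‖ ^ 2 = 0 := by
    have e1 : ∀ i, pr c i (fun x => (fun x i => h219.WQ.gg k (w i) x) x i) = (w i * c k i).re :=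
      fun i => pr_gg hc k i (w i)
    have e2 : ∀ i, pr c' i (fun x => (fun x i => h219.WQ.gg k (w i) x) x i) = (w i * c' k i).re :=
      fun i => pr_gg hc' k i (w i)
    rw [Finset.sum_congr rfl fun i _ => e1 i, Finset.sum_congr rfl fun i _ => e2 i] at h1
    rw [← Finset.sum_congr rfl fun i _ => h2 i, Finset.sum_sub_distrib, h1, sub_self]
  funext i
  have h4 := (Finset.sum_eq_zero_iff_of_nonneg fun i _ => sq_nonneg _).1 h3 i (Finset.mem_univ i)
  exact sub_eq_zero.1 (norm_eq_zero.1 (pow_eq_zero_iff (two_ne_zero)|>.1 h4))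

/-- **Piece EndReg.** -/
theorem endReg : StmEndReg := by
  intro ν hν S hS c c' hc hc' v hv hwk a₀ τ' q hSI hsol
  obtain ⟨a, ha, ha₀, haS⟩ : ∃ a : ℝ, 0 < a ∧ a₀ ≤ a ∧ a < S := by
    refine ⟨max a₀ (S / 2), ?_, le_max_left _ _, max_lt hSI.1 (by linarith)⟩
    exact lt_max_of_lt_right (by linarith)
  have hsl : SolOn ν (Ioo a τ') v q := mono_o hsol (Ioo_subset_Ioo_left ha₀)
  have hSm : S ∈ Ioo a τ' := ⟨haS, hSI.2⟩
  refine dis_ext hc'.herm hc'.dv (fun k _ => h32.GD.fr_neg _ k) (dv_o hsl hSm) fun φ hφ hp hd => ?_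
  set b : ℝ := (a + S) / 2 with hb
  have hab : a < b := by rw [hb]; linarith
  have hbτ : b < S := by rw [hb]; linarith
  set χ : ℝ → ℝ := fun t => Real.smoothTransition ((t - b) / (S - b)) with hχd
  have hχ : ContDiff ℝ ∞ χ :=
    Real.smoothTransition.contDiff.comp ((contDiff_id.sub contDiff_const).div_const _)
  have hχ0 : ∀ t, t ≤ b → χ t = 0 := fun t ht =>
    Real.smoothTransition.zero_of_nonpos (div_nonpos_of_nonpos_of_nonneg (by linarith)
      (by linarith))
  have hχ1 : χ S = 1 := by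
    rw [hχd]
    simp only
    rw [div_self (by linarith : S - b ≠ 0)]
    exact Real.smoothTransition.one_of_one_le le_rfl
  have h1 := hwk χ φ hχ hφ hp hd
  have h2 := local_form hν haS hSI.2 hsl hab hbτ hχ hχ0 hφ hp hd
  have h3 : ∫ z in Ioo 0 S ×ˢ cube, wk ν v χ φ z = ∫ z in Ioo b S ×ˢ cube, wk ν v χ φ z := by
    refine setIntegral_eq_of_subset_of_forall_sdiff_eq_zero (boxm 0 S) ?_ ?_
    · exact prod_mono (Ioo_subset_Ioo_left (ha.trans hab).le) le_rfl
    · rintro z ⟨⟨hz1, hz2⟩, hz3⟩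
      have hzb : z.1 ≤ b := by
        by_contra hcon
        exact hz3 ⟨⟨not_le.1 hcon, hz1.2⟩, hz2⟩
      rw [wk, hχ0 _ hzb]
      rcases hzb.lt_or_eq with hlt | heq
      · have e : χ =ᶠ[𝓝 z.1] fun _ => 0 := by
          filter_upwards [gt_mem_nhds hlt] with t ht
          exact hχ0 t ht.le
        rw [e.deriv_eq, deriv_const]
        ring
      · have e : deriv χ z.1 = 0 := by
          have h4 : ContinuousAt (deriv χ) z.1 :=
            (hχ.continuous_deriv (by norm_cast)).continuousAt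
          have h5 : Tendsto (deriv χ) (𝓝[<] z.1) (𝓝 (deriv χ z.1)) :=
            h4.tendsto.mono_left nhdsWithin_le_nhds
          refine tendsto_nhds_unique h5 (tendsto_const_nhds.congr' ?_)
          filter_upwards [self_mem_nhdsWithin] with t ht
          have ht' : t < b := lt_of_lt_of_le ht heq.le
          have e : χ =ᶠ[𝓝 t] fun _ => 0 := by
            filter_upwards [gt_mem_nhds ht'] with s hs
            exact hχ0 s hs.le
          rw [e.deriv_eq, deriv_const]
        rw [e]
        ring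
  rw [h3, h2, hχ0 0 (ha.trans hab).le, hχ1] at h1
  linarith

end Pool.Agent.Run7.h782.HP
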