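import Pool.Agent.Run7.h782.HP.DefsC

/-!
The steering theorem with uniform closeness to the path in the critical Besov spaces: statements.
-/

set_option autoImplicit false

open MeasureTheory Set Filter Topology
open scoped ContDiff ENNReal ComplexConjugate

namespace Pool.Agent.Run7.h782.HP

open H459R3.NS Pool.Agent.Run7 Pool.Agent.Run7.h782 Pool.Agent.Run7.h782.GD Pool.Agent.Run7.h782.GS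
open Pool.Agent.Run7.h782.WS Pool.Agent.Run7.h782.WQ Pool.Agent.Run7.h744.WS
open Pool.Agent.Run7.h969.WS Pool.Agent.Run7.h782.OS Pool.Agent.Run7.h969.HP

/-- `u` and `w` are `κ`-close at the time `t`, in the sense of `besG φ`. -/
def Bd (φ : ℝ → ℝ) (κ : ℝ) (u w : ℝ → V → V) (s t : ℝ) : Prop :=
  ∀ i, besG φ (fun x => u t x i - w s x i) ≤ ENNReal.ofReal κ

/-- **Piece LocEK** (`StmLocEB`, and if the datum `c` is `η`-close to the path in the absolute sum,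
the solution is `κ`-close to the path at all times in `(0, τ]`, in the sense of `besG φ`). -/
def StmLocEK : Prop := ∀ (φ : ℝ → ℝ), Gauge φ → ∀ κ : ℝ, 0 < κ → ∃ η : ℝ, 0 < η ∧
  ∀ (ν : ℝ), 0 < ν → ∀ (m : V) (w : ℝ → V → V), PathM m w →
  ∀ T ε : ℝ, 0 < T → 0 < ε → ε ≤ η →
  ∃ τ₀ : ℝ, 0 < τ₀ ∧ ∀ τ, 0 < τ → τ < τ₀ → ∀ s ∈ Icc 0 T, ∀ c : Cf, Herm c → Dv c →
  (∀ i, c 0 i = ((m i : ℝ) : ℂ)) →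
  ∀ (R : Fin 3 → Fin 3 → V → ℝ), Str R → IsDiv R c → ∀ Q : ℕ → ℝ, (∀ n, 1 ≤ Q n) →
  (∀ n i j, IntegrableOn (fun x => |R i j x| ^ Q n) cube) →
  ∀ Φ : ℝ → ℝ, Orl Φ → ∀ δ : ℝ, 0 < δ →
  ∃ (τ' : ℝ) (u : ℝ → V → V) (p : ℝ → V → ℝ), τ < τ' ∧ Lc ν m w ε s τ c Q Φ δ τ' u p ∧
    ((Summable fun k => ‖c k‖) → Ba φ c u) ∧
    ((Summable fun k => ‖c k‖) → (∀ A : Finset K3, ∑ k ∈ A, ‖c k - vf (w s) k‖ ≤ η) →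
      ∀ t ∈ Ioc 0 τ, Bd φ κ u w (s + t) t)

/-- **Piece ReachE** (`StmReachC` with the clause `unif`; from LocEK for the steps `n < N` along the
path: `ε₁ + δ ≤ η`, length `< κ`, and `σ ≤ κ` for the last part). -/
def StmReachE : Prop := ∀ (ν : ℝ), 0 < ν → ∀ T : ℝ, 0 < T → ∀ (m : V) (w : ℝ → V → V), PathM m w →
  ∀ c c₁ : Cf, Dis c → (∀ i, c 0 i = ((m i : ℝ) : ℂ)) → Dis c₁ →
  (∀ i, c₁ 0 i = ((m i : ℝ) : ℂ)) → ∀ Q : ℕ → ℝ, (∀ n, 1 ≤ Q n) →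
  (∃ R : Fin 3 → Fin 3 → V → ℝ, Str R ∧ IsDiv R c ∧
    ∀ n i j, IntegrableOn (fun x => |R i j x| ^ Q n) cube) →
  (∃ R : Fin 3 → Fin 3 → V → ℝ, Str R ∧ IsDiv R c₁ ∧
    ∀ n i j, IntegrableOn (fun x => |R i j x| ^ Q n) cube) →
  ∀ φ : ℝ → ℝ, Gauge φ → ∀ Φ : ℝ → ℝ, Orl Φ → ∀ ε : ℝ, 0 < ε →
  ∃ (F : Set ℝ) (u : ℝ → V → V) (p : ℝ → V → ℝ), Rch ν Q c c₁ T F u p ∧
    (∀ s ∈ Ioo 0 T, Bc φ u s) ∧ ((Summable fun k => ‖c k‖) → Ba φ c u) ∧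
    (∀ t ∈ Icc ε (T - ε), Bd φ ε u w t t) ∧
    ∃ h : ℝ → ℝ, (∀ t, 0 ≤ h t) ∧ (∀ t ∈ Ioo 0 T, ∀ x i, |u t x i - w t x i| ≤ h t) ∧
      ∫⁻ t in Ioo 0 T, ENNReal.ofReal (Φ (h t)) ≤ ENNReal.ofReal ε

/-- **The steering theorem** with the Besov clauses and uniform closeness to the path (from End,
Final, ReachE, EndReg). -/
def StmSteerE : Prop := ∀ (ν : ℝ), 0 < ν → ∀ (m : V) (c c₁ : Cf), Dis c →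
  (∀ i, c 0 i = ((m i : ℝ) : ℂ)) → Dis c₁ → (∀ i, c₁ 0 i = ((m i : ℝ) : ℂ)) → ∀ Q : ℕ → ℝ,
  (∀ n, 1 ≤ Q n) → ∀ T₀ : ℝ, 0 < T₀ → ∀ v : ℝ → V → V, VW ν T₀ c v →
  (∀ n, InLq T₀ v (2 * Q n)) → ∀ U : ℝ → V → V, (∀ T', 0 < T' → VW ν T' c₁ U) →
  (∀ T', 0 < T' → ∀ n, InLq T' U (2 * Q n)) → ∀ S ∈ Icc 0 T₀, ∀ T : ℝ, S < T →
  ∀ w : ℝ → V → V, PathM m w → ∀ φ : ℝ → ℝ, Gauge φ → ∀ Φ : ℝ → ℝ, Orl Φ → ∀ ε : ℝ, 0 < ε →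
  ∃ (F : Set ℝ) (u : ℝ → V → V) (p : ℝ → V → ℝ), F ⊆ Ico S T ∧
    (∀ T', T' < T → (F ∩ Iic T').Finite) ∧
    (∀ t ∈ Ioc 0 S, u t = v t) ∧ (∀ t, T < t → u t = U (t - T)) ∧
    SolOn ν (Ioo S T \ F) u p ∧ (∀ T', 0 < T' → VW ν T' c u) ∧
    (∀ T', 0 < T' → ∀ n, InLq T' u (2 * Q n)) ∧
    (∀ (i : Fin 3) (ψ : V → ℝ), ContDiff ℝ ∞ ψ → Per ψ →
      ContinuousOn (fun t => ∫ x in cube, u t x i * ψ x) (Ioo S T)) ∧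
    (∀ s ∈ Ioo S T, Bc φ u s) ∧
    (∀ (a b : ℝ) (q : ℝ → V → ℝ), 0 < S → S ∈ Ioo a b → SolOn ν (Ioo a b) v q → Bc φ u S) ∧
    (∀ t ∈ Icc (S + ε) (T - ε), Bd φ ε u w t t) ∧
    (∀ s ∈ Ico S T, ∀ δ : ℝ, 0 < δ →
      ∀ᶠ t in 𝓝[>] s, ∀ x i, |u t x i| ≤ δ / Real.sqrt (t - s)) ∧
    ∃ h : ℝ → ℝ, (∀ t, 0 ≤ h t) ∧ (∀ t ∈ Ioo S T, ∀ x i, |u t x i - w t x i| ≤ h t) ∧
      ∫⁻ t in Ioo S T, ENNReal.ofReal (Φ (h t)) ≤ ENNReal.ofReal ε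

end Pool.Agent.Run7.h782.HP
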