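import Pool.Agent.Run7.h782.HP.SeqJ
import Pool.Agent.Run7.h969.HP.DefsD

/-!
Project HP: the iterations with uniform closeness to the target in the sense of `besGC φ`.
-/

set_option autoImplicit false

open MeasureTheory Set Filter Topology
open scoped ENNReal ComplexConjugate

namespace Pool.Agent.Run7.h782.HP

open H459R3.NS hiding W
open Pool.Agent.Run7.h782 Pool.Agent.Run7.h782.GD Pool.Agent.Run7.h782.GS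
open Pool.Agent.Run7.h782.WS Pool.Agent.Run7.h969.GS Pool.Agent.Run7 Pool.Agent.Run7.h308.WS
open Pool.Agent.Run7.h744.WS Pool.Agent.Run7.h969.WS Pool.Agent.Run7.h782.WQ
open Pool.Agent.Run7.h744.WQ Pool.Agent.Run7.h969.HP

/-- The uniform bound for the limit of a sequence with the offset `J`. -/
def BesU (φ : ℝ → ℝ) (κ : ℝ) (J : ℕ) : Prop :=
  ∀ (A : ℕ → ℝ → Cf) (z : ℕ → Cf) (b : ℝ → Cf) (c : Cf) (ε : ℕ → ℝ),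
  (∀ t, 0 < t → ∀ k, Tendsto (fun j => A (j + 1) t k) atTop (𝓝 (b t k))) →
  (∀ n, StpG φ ((1 / 2) ^ (n + J)) ((1 / 2) ^ (n + J)) (12 * 2 ^ (n + J)) (A n) (z n) (ε n)
    (A (n + 1))) →
  (∀ n, ε n ≤ (1 / 2) ^ (n + J)) → (∀ n, Summable fun k => ‖c k - z n k‖) →
  (∀ n, ∑' k, ‖c k - z n k‖ ≤ (1 / 2) ^ (n + J)) → c 0 = 0 → (∀ n, z n 0 = 0) →
  (∀ n t, 0 ≤ t → A n t 0 = 0) → (Summable fun k => ‖c k - A 0 0 k‖) →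
  ∑' k, ‖c k - A 0 0 k‖ ≤ (1 / 2) ^ J →
  ∀ t, 0 < t → besGC φ (fun k => ‖b t k - A 0 t k‖) ≤ ENNReal.ofReal κ

/-- Such a bound exists for all small numbers (`besovU`). -/
def StmBesU : Prop := ∀ φ : ℝ → ℝ, Gauge φ → ∀ κ : ℝ, 0 < κ → ∃ J : ℕ, BesU φ κ J

/-- `StmIterPB` with the uniform bound. -/
def StmIterPK : Prop := ∀ φ : ℝ → ℝ, Gauge φ → ∀ κ : ℝ, 0 < κ → ∃ η : ℝ, 0 < η ∧
  ∀ f : ℝ → Cf, Frc f → ∀ ν : ℝ, 0 < ν → ∀ U : ℝ → Cf, TgF f ν U →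
  ∀ (Q : ℕ → ℝ) (c : Cf) (r : ℕ → Mf), DatQ Q c r →
  ∀ Φ : ℝ → ℝ, Orl Φ → ∀ δ : ℝ, 0 < δ →
  ∃ b : ℝ → Cf, (∀ τ : ℝ, 0 < τ → FSo ν (fun t => f (t + τ)) (fun t => b (t + τ))) ∧
    (∀ k, Tendsto (fun t => b t k) (𝓝[>] 0) (𝓝 (c k))) ∧
    (∃ C : ℝ, ∀ t, 0 < t → t ≤ 1 → ∀ k, ‖b t k‖ ≤ C * (1 + len k) ^ 2) ∧
    ((Summable fun k => ‖c k‖) →
      Tendsto (fun t => besGC φ (fun k => ‖b t k - c k‖)) (𝓝[>] 0) (𝓝 0)) ∧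
    Tendsto (fun t => Real.sqrt t * ∑' k, ‖b t k‖) (𝓝[>] 0) (𝓝 0) ∧
    (∀ n, IntegrableOn (fun t => fp (2 * Q n) (b t) ^ (1 / Q n)) (Ioc 0 1)) ∧
    IntegrableOn (fun t => ∑' k, ‖b t k‖ ^ 2) (Ioc 0 1) ∧
    ∫⁻ t in Ioc (0 : ℝ) 1, ENNReal.ofReal (Φ (∑' k, ‖b t k - U t k‖)) ≤ ENNReal.ofReal δ ∧
    (∀ t, δ ≤ t → ∀ A : Finset K3, ∑ k ∈ A, ‖b t k - U t k‖ ≤ δ) ∧
    ((Summable fun k => ‖c k‖) → (∀ A : Finset K3, ∑ k ∈ A, ‖c k - U 0 k‖ ≤ η) →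
      ∀ t, 0 < t → besGC φ (fun k => ‖b t k - U t k‖) ≤ ENNReal.ofReal κ)

/-- The uniform bound for the limit of a sequence. -/
theorem besK_core {J I : ℕ} {η : ℝ} {ff : ℝ → Cf} {C : ℝ → ℝ} {ν δ : ℝ} {U : ℝ → Cf} {Q : ℕ → ℝ}
    {c : Cf} {r : ℕ → Mf} {φ Φ : ℝ → ℝ} {m : ℕ → ℕ} {A : ℕ → ℝ → Cf} {ε H : ℕ → ℝ}
    (hq : SQJ J I η ff C ν δ U Q c r φ Φ m A ε H) {κ : ℝ} (hJ : BesU φ κ J) {b : ℝ → Cf}
    (hlim : ∀ t, 0 < t → ∀ k, Tendsto (fun j => A (j + 1) t k) atTop (𝓝 (b t k)))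
    (hs : Summable fun k => ‖c k‖) (hU : ∀ A : Finset K3, ∑ k ∈ A, ‖c k - U 0 k‖ ≤ (1 / 2) ^ J) :
    ∀ t, 0 < t → besGC φ (fun k => ‖b t k - U t k‖) ≤ ENNReal.ofReal κ := by
  have hdat := hq.dat
  have htg := hq.tgt
  set z : ℕ → Cf := fun n => dvr (r (m n)) with hz
  have hzl : ∀ n, L1 (z n) := fun n => l1_dvr hdat _
  have hz0 : ∀ n, z n 0 = 0 := fun n => dvr_zero_mode _
  have hzc : ∀ k, Tendsto (fun n => z n k) atTop (𝓝 (c k)) := fun k => (hdat.lim k).comp hq.top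
  have hc0 : c 0 = 0 := by
    refine tendsto_nhds_unique (hzc 0) ?_
    simp_rw [hz0]
    exact tendsto_const_nhds
  have hzε : ∀ n, ∑' k, ‖c k - z n k‖ ≤ (1 / 2) ^ (n + J) := fun n => by
    refine le_trans (le_of_eq ?_) (hq.wiej hs n)
    exact tsum_congr fun k => norm_sub_rev _ _
  have hzs : ∀ n, Summable fun k => ‖c k - z n k‖ := fun n => L1.sub hs (hzl n)
  have hA0 := hq.init
  have hsU : Summable fun k => ‖c k - A 0 0 k‖ := by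
    refine summable_of_sum_le (fun _ => norm_nonneg _) (c := (1 / 2) ^ J) fun B => ?_
    rw [hA0]
    exact hU B
  have hU' : ∑' k, ‖c k - A 0 0 k‖ ≤ (1 / 2) ^ J := by
    refine Real.tsum_le_of_sum_le (fun _ => norm_nonneg _) fun B => ?_
    rw [hA0]
    exact hU B
  intro t ht
  have h := hJ A z b c ε hlim hq.sgj hq.e1j hzs hzε hc0 hz0 (fun n t ht => (htg n).zero t ht)
    hsU hU' t ht
  rw [hA0] at h
  exact h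

/-- **Piece IterPK.** -/
theorem iterPK (hStep : StmStepF) (hLim : StmLimF) (hBU : StmBesU) : StmIterPK := by
  obtain ⟨C₀, hC₀, HS⟩ := exists_sqJ hStep
  intro φ hφ κ hκ
  obtain ⟨J, hJ⟩ := hBU φ hφ κ hκ
  refine ⟨(1 / 2) ^ J, by positivity, fun ff hff ν hν U hU Q c r hdat Φ hΦ δ hδ => ?_⟩
  obtain ⟨m, A, ε, Hn, hq⟩ := HS ff hff ν hν 0 J ((1 / 2) ^ J) (by positivity) le_rfl U hU Q c r
    hdat φ hφ Φ hΦ δ hδ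
  obtain ⟨b, hlim, c1, c2, c3, c4, c5, c6, c7, c8, c9, c10⟩ :=
    iterP_core hLim hC₀ hff hν hdat hφ hΦ hδ hq.toSQP
  exact ⟨b, c1, c2, c3, bes_core hφ hq.toSQF hlim, c4, c6, c7, c9, c10,
    fun hs hc => besK_core hq hJ hlim hs hc⟩

end Pool.Agent.Run7.h782.HP
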