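import Pool.Agent.Run7.h782.HP.CoreB
import Pool.Agent.Run7.h782.HP.IterK
import Pool.Agent.Run7.h782.HP.DefsE

/-!
Project HP: uniform closeness to the path, from the coefficients of one step to fields.
-/

set_option autoImplicit false

open MeasureTheory Set Filter Topology
open scoped ContDiff ENNReal ComplexConjugate

namespace Pool.Agent.Run7.h782.HP

open H459R3.NS Pool.Agent.Run7 Pool.Agent.Run7.h782.GD Pool.Agent.Run7.h782.GS
open Pool.Agent.Run7.h782.WS Pool.Agent.Run7.h744.GS Pool.Agent.Run7.h744.WS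
open Pool.Agent.Run7.h969.WS Pool.Agent.Run7.h811.WS Pool.Agent.Run7.h782.WQ Pool.Agent.Run7.h811.WQ
open Pool.Agent.Run7.h969.HP Pool.Agent.Run7.h811.HP

/-- The zero mode of the path in the moving frame. -/
theorem vf_path_zero {m : V} {w : ℝ → V → V} (hw : PathM m w) (r : ℝ) :
    vf (fun y => w r (y + r • m) - m) 0 = 0 := by
  have hw' := path_of hw
  funext i
  show fr (fun x => (w r (x + r • m) - m) i) 0 = 0
  rw [h32.GD.fr_zero_eq]
  have := hw'.mean r i
  show ((∫ x in cube, (fun r y => w r (y + r • m) - m) r x i : ℝ) : ℂ) = 0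
  rw [this, Complex.ofReal_zero]

/-- Uniform closeness to the path. -/
theorem coreK {ν : ℝ} {m : V} {w : ℝ → V → V} (hw : PathM m w) {ε s τ' : ℝ}
    {f U : ℝ → Cf} (hTg : TgF f ν U)
    (hclose : ∀ t ∈ Icc 0 τ', ∀ A : Finset K3,
      ∑ k ∈ A, ‖U t k - vf ((fun r y => w r (y + r • m) - m) (s + t)) k‖ ≤ ε)
    {φ : ℝ → ℝ} (hφ : Gauge φ) {b : ℝ → Cf}
    (hb : ∀ τ : ℝ, 0 < τ → FSo ν (fun t => f (t + τ)) (fun t => b (t + τ))) {t κ : ℝ} (ht : 0 < t)
    (htτ : t ≤ τ') (hκ : 0 ≤ κ)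
    (hB : besGC (fun x => φ (2 * x)) (fun k => ‖b t k - U t k‖) ≤ ENNReal.ofReal κ) :
    Bd φ (κ + φ (2 * ε)) (fun t x => m + fld b t (x - (s + t) • m)) w (s + t) t := by
  intro i
  have hw' := path_of hw
  have hε0 : 0 ≤ ε := by
    have := hclose t ⟨ht.le, htτ⟩ ∅
    simpa using this
  obtain ⟨hbs, hbh, hbz, -⟩ := pos_facts hb ht
  have hbi : ∀ i, Summable fun k => b t k i := fun i =>
    Summable.of_norm (Summable.of_nonneg_of_le (fun _ => norm_nonneg _)
      (fun k => norm_le_pi_norm (b t k) i) hbs)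
  set b' : ℝ → Cf := fun r => b (r - s) with hb'
  have hb't : ∀ t, b' (s + t) = b t := fun t => by
    show b (s + t - s) = b t
    rw [add_sub_cancel_left]
  have hfld' : ∀ t, fld b' (s + t) = fld b t := fun t => by
    unfold fld
    rw [hb't]
  have hbi' : ∀ i, Summable fun k => b' (s + t) k i := fun i => by
    rw [hb't]
    exact hbi i
  have hfr : ∀ k, fr (fun x => (m + fld b t (x - (s + t) • m)) i) k
      = (if k = 0 then ((m i : ℝ) : ℂ) else 0) + ee k (-((s + t) • m)) * b t k i := by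
    intro k
    have h3 := fr_field (b := b') (m := m) (t := s + t) (i := i) (hbi' i)
      (by rw [hb't]; exact hbh) k
    rw [hfld'] at h3
    unfold ser at h3
    rw [hb't] at h3
    exact h3
  set v' : Cf := vf (fun y => w (s + t) (y + (s + t) • m) - m) with hv'
  have hc1 : Continuous fun x => (m + fld b t (x - (s + t) • m)) i := by
    have hd1 : Summable (ser b' m (s + t) i) := ser_summable (m := m) (hbi' i)
    have e2 : (fun x => (m + fld b t (x - (s + t) • m)) i)
        = fun x => (S (ser b' m (s + t) i) x).re := by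
      funext x
      rw [← hfld' t, ser_eq (hbi' i)]
    rw [e2]
    exact Complex.continuous_re.comp (S_continuous hd1)
  have hc2 : Continuous fun x => w (s + t) x i := by
    have h3 := hw.smooth.comp (contDiff_const.prodMk contDiff_id : ContDiff ℝ ∞
      fun z : V => ((s + t, z) : ℝ × V))
    exact (contDiff_pi.1 h3 i).continuous
  -- the coefficients of the difference
  have hfd : ∀ k, ‖fr (fun x => (m + fld b t (x - (s + t) • m)) i - w (s + t) x i) k‖
      ≤ ‖b t k - U t k‖ + ‖U t k - v' k‖ := by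
    intro k
    have e1 : fr (fun x => (m + fld b t (x - (s + t) • m)) i - w (s + t) x i) k
        = ee k (-((s + t) • m)) * (b t k i - v' k i) := by
      rw [h32.GD.fr_sub hc1 hc2, hfr k]
      have h4 := vf_path hw (s + t) k i
      have h5 : fr (fun x => w (s + t) x i) k = vf (w (s + t)) k i := rfl
      rw [h5, h4]
      ring
    rw [e1, norm_mul, norm_ee, one_mul]
    refine (norm_le_pi_norm (b t k - v' k) i).trans ?_
    have h7 : b t k - v' k = (b t k - U t k) + (U t k - v' k) := by abel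
    rw [h7]
    exact norm_add_le _ _
  -- summability of the differences
  obtain ⟨A, hA, hAk⟩ := hTg.maj 0 t
  have hUs : Summable fun k => ‖U t k‖ :=
    Summable.of_nonneg_of_le (fun _ => norm_nonneg _) (fun k => by
      have := hAk t ⟨ht.le, le_rfl⟩ k
      rwa [pow_zero, one_mul] at this) hA
  have hbU : Summable fun k => ‖b t k - U t k‖ :=
    Summable.of_nonneg_of_le (fun _ => norm_nonneg _) (fun k => norm_sub_le _ _) (hbs.add hUs)
  have hcl := hclose t ⟨ht.le, htτ⟩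
  have hUv : Summable fun k => ‖U t k - v' k‖ :=
    summable_of_sum_le (fun _ => norm_nonneg _) hcl
  have hUv' : ∑' k, ‖U t k - v' k‖ ≤ ε := Real.tsum_le_of_sum_le (fun _ => norm_nonneg _) hcl
  have hz : ‖U t 0 - v' 0‖ = 0 := by
    rw [hv', vf_path_zero hw, hTg.zero t ht.le, sub_zero, norm_zero]
  have h1 := besG_le hφ (fun k => norm_nonneg _) (fun k => norm_nonneg _) hbU hUv hfd
  have h2 := besGC_le (gg_double hφ) (fun k => norm_nonneg (U t k - v' k)) hz hUv
  have hdl : ∀ k, ‖U t k - v' k‖ / len k ≤ ‖U t k - v' k‖ := by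
    intro k
    by_cases hk : k = 0
    · subst hk
      rw [hz]
      simp
    · exact div_le_self (norm_nonneg _) (h782.GD.one_le_len hk)
  have hds : Summable fun k => ‖U t k - v' k‖ / len k :=
    Summable.of_nonneg_of_le (fun k => div_nonneg (norm_nonneg _) (h782.GD.len_nonneg k)) hdl hUv
  have hd0 : 0 ≤ ∑' k, ‖U t k - v' k‖ / len k :=
    tsum_nonneg fun k => div_nonneg (norm_nonneg _) (h782.GD.len_nonneg k)
  have hdle : ∑' k, ‖U t k - v' k‖ / len k ≤ ε :=
    (Summable.tsum_le_tsum hdl hds hUv).trans hUv'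
  have h3 : φ (2 * ∑' k, ‖U t k - v' k‖ / len k) ≤ φ (2 * ε) :=
    gg_mono hφ (by linarith) (by linarith)
  rw [ENNReal.ofReal_add hκ (hφ.nonneg _ (by linarith))]
  exact h1.trans (add_le_add hB (h2.trans (ENNReal.ofReal_le_ofReal h3)))

/-- The datum is close to the target. -/
theorem datK {m : V} {w : ℝ → V → V} (hw : PathM m w) {ε s τ' η : ℝ}
    {f U : ℝ → Cf} {ν : ℝ} (hTg : TgF f ν U) (hτ' : 0 ≤ τ')
    (hclose : ∀ t ∈ Icc 0 τ', ∀ A : Finset K3,
      ∑ k ∈ A, ‖U t k - vf ((fun r y => w r (y + r • m) - m) (s + t)) k‖ ≤ ε)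
    {c : Cf} (hc : ∀ A : Finset K3, ∑ k ∈ A, ‖c k - vf (w s) k‖ ≤ η) (A : Finset K3) :
    ∑ k ∈ A, ‖sft (s • m) c k - U 0 k‖ ≤ η + ε := by
  have h1 := hclose 0 ⟨le_rfl, hτ'⟩ A
  simp only [add_zero] at h1
  have h2 : ∀ k, ‖sft (s • m) c k - U 0 k‖
      ≤ ‖c k - vf (w s) k‖ + ‖U 0 k - vf (fun y => w s (y + s • m) - m) k‖ := by
    intro k
    by_cases hk : k = 0
    · subst hk
      rw [sft_zero, hTg.zero 0 le_rfl, sub_zero, norm_zero]
      positivity
    · have e1 : sft (s • m) c k - vf (fun y => w s (y + s • m) - m) k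
          = ee k (s • m) • (c k - vf (w s) k) := by
        rw [sft_ne _ _ hk]
        funext i
        rw [Pi.sub_apply, Pi.smul_apply, Pi.smul_apply, Pi.sub_apply, vf_path hw s k i, if_neg hk,
          zero_add, smul_eq_mul, smul_eq_mul, mul_sub, ← mul_assoc, ← ee_add, add_neg_cancel]
        have h5 : ee k 0 = 1 := by simp [ee, ph]
        rw [h5, one_mul]
      have e2 : sft (s • m) c k - U 0 k = (sft (s • m) c k - vf (fun y => w s (y + s • m) - m) k)
          - (U 0 k - vf (fun y => w s (y + s • m) - m) k) := by abel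
      rw [e2]
      refine (norm_sub_le _ _).trans (add_le_add ?_ le_rfl)
      rw [e1, norm_smul, norm_ee, one_mul]
  refine (Finset.sum_le_sum fun k _ => h2 k).trans ?_
  rw [Finset.sum_add_distrib]
  exact add_le_add (hc A) h1

/-- The gauge is small at small numbers. -/
theorem gauge_small {φ : ℝ → ℝ} (hφ : Gauge φ) {κ : ℝ} (hκ : 0 < κ) :
    ∃ r : ℝ, 0 < r ∧ ∀ x, 0 ≤ x → x ≤ r → φ x ≤ κ := by
  obtain ⟨r, hr, h⟩ := hφ.quad_small (η := κ) hκ
  refine ⟨min r 1, lt_min hr one_pos, fun x hx hxr => ?_⟩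
  refine (h x hx (hxr.trans (min_le_left _ _))).trans ?_
  have h1 : x ≤ 1 := hxr.trans (min_le_right _ _)
  have h2 : x ^ 2 ≤ 1 := pow_le_one₀ hx h1
  exact mul_le_of_le_one_right hκ.le h2

/-- **Piece LocEK.** -/
theorem locEK (hIter : StmIterPK) (hTgt : StmTgtF) (hPhys : StmPhysO) (hD1 : StmD1S) :
    StmLocEK := by
  intro φ hφ κ hκ
  obtain ⟨η₁, hη₁, HI⟩ := hIter _ (gg_double hφ) (κ / 2) (by positivity)
  obtain ⟨r₀, hr₀, hsmall⟩ := gauge_small hφ (κ := κ / 2) (by positivity)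
  refine ⟨min (η₁ / 2) (r₀ / 2), lt_min (by positivity) (by positivity),
    fun ν hν m w hw T ε hT hε hεη => ?_⟩
  have he1 : ε ≤ η₁ / 2 := hεη.trans (min_le_left _ _)
  have he2 : ε ≤ r₀ / 2 := hεη.trans (min_le_right _ _)
  obtain ⟨τ₀, hτ₀, htgt⟩ := hTgt ν hν _ (path_of hw) T ε hT hε
  refine ⟨min τ₀ 1, lt_min hτ₀ one_pos,
    fun τ hτ hττ s hs c hcH hcV hc0 R hStr hDiv Q hQ hRQ Φ hΦ δ hδ => ?_⟩
  have hττ0 : τ < τ₀ := hττ.trans_le (min_le_left _ _)
  have hτ1 : τ < 1 := hττ.trans_le (min_le_right _ _)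
  set τ' : ℝ := (τ + τ₀) / 2 with hτ'
  have h1 : τ < τ' := by rw [hτ']; linarith
  have h2 : τ' ≤ τ₀ := by rw [hτ']; linarith
  obtain ⟨f, U, hf, hf0, hTg, hclose⟩ := htgt τ' (hτ.trans h1) h2 s hs
  have hRQ' : ∀ n i j, IntegrableOn (fun x => |R i j (x + s • m)| ^ Q n) cube := fun n i j => by
    refine intOn_shift (f := fun x => |R i j x| ^ Q n) (fun l x => ?_) _ (hRQ n i j)
    show |R i j (x + Pi.single l 1)| ^ Q n = |R i j x| ^ Q n
    rw [hStr.per i j l x]
  obtain ⟨r, R', hdat, -⟩ := hD1 (sft (s • m) c) _ Q (sft_herm hcH) (sft_div hcV) (sft_zero _ _)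
    (str_shift hStr _) (isDiv_shift hStr hDiv _) hQ hRQ'
  obtain ⟨b, hb, hblim, hbd, hbes, hsq, hLQ, hL2, hPhi, hfar, hun⟩ :=
    HI f hf ν hν U hTg Q _ r hdat Φ hΦ δ hδ
  obtain ⟨p, hp⟩ := core hw hτ1 h1 hf0 hTg hclose hc0 hQ hPhys hb hblim hbd hsq hLQ hL2 hPhi hfar
  refine ⟨τ', _, p, h1, hp, coreB hcH hc0 hφ hb hbes, fun hcS hcη t ht => ?_⟩
  have hcS' : Summable fun k => ‖sft (s • m) c k‖ := by
    refine Summable.of_nonneg_of_le (fun _ => norm_nonneg _) (fun k => ?_) hcS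
    by_cases hk : k = 0
    · subst hk
      rw [sft_zero, norm_zero]
      exact norm_nonneg _
    · rw [sft_ne _ _ hk, norm_smul, norm_ee, one_mul]
  have h3 := hun hcS' (fun A => (datK hw hTg (hτ.trans h1).le hclose hcη A).trans (by
    have := min_le_left (η₁ / 2) (r₀ / 2)
    linarith)) t ht.1
  have h4 := coreK hw hTg hclose hφ hb ht.1 (ht.2.trans h1.le) (by positivity) h3
  intro i
  refine (h4 i).trans (ENNReal.ofReal_le_ofReal ?_)
  have h5 := hsmall (2 * ε) (by linarith) (by linarith)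
  linarith

end Pool.Agent.Run7.h782.HP
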