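import Pool.Agent.Run7.h782.HP.DefsB
import Pool.Agent.Run7.h811.WS.InitG
import Pool.Agent.Run7.h219.OS.A
import Pool.Agent.Run7.h219.HP.Ind

/-!
Project HP: smooth solutions are continuous in the sense of `besG φ`.
-/

set_option autoImplicit false

open MeasureTheory Set Filter Topology
open scoped ContDiff ENNReal ComplexConjugate

namespace Pool.Agent.Run7.h782.HP

open H459R3.NS Pool.Agent.Run7 Pool.Agent.Run7.h782 Pool.Agent.Run7.h782.GD Pool.Agent.Run7.h782.GS
open Pool.Agent.Run7.h782.WS Pool.Agent.Run7.h782.WQ Pool.Agent.Run7.h744.WS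
open Pool.Agent.Run7.h969.WS Pool.Agent.Run7.h782.OS Pool.Agent.Run7.h969.HP
open Pool.Agent.Run7.h811.WS Pool.Agent.Run7.h219.OS Pool.Agent.Run7.h969.GD
open Pool.Agent.Run7.h219.HP

/-- Two fields with the same mean. -/
theorem besG_sub_le {φ : ℝ → ℝ} (hφ : Gauge φ) {f g : V → ℝ} (hf : SP f) (hg : SP g)
    (hm : fr f 0 = fr g 0) :
    besG φ (fun x => f x - g x) ≤ ENNReal.ofReal (φ (2 * ∑' k, ‖fr f k - fr g k‖)) := by
  have hs : Summable fun k => ‖fr f k - fr g k‖ :=
    Summable.of_nonneg_of_le (fun _ => norm_nonneg _) (fun k => norm_sub_le _ _)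
      ((rap_fr hf).summable.norm.add (rap_fr hg).summable.norm)
  have h0 : Summable fun _ : K3 => (0 : ℝ) := summable_zero
  have h1 := besG_le hφ (f := fun x => f x - g x) (a := fun k => ‖fr f k - fr g k‖)
    (c := fun _ => 0) (fun _ => norm_nonneg _) (fun _ => le_rfl) hs h0 (fun k => by
      rw [h32.GD.fr_sub hf.smooth.continuous hg.smooth.continuous, add_zero])
  have h2 : besGC (fun x => φ (2 * x)) (fun _ : K3 => (0 : ℝ)) = 0 := by
    have h3 := besGC_le (gg_double hφ) (c := fun _ : K3 => (0 : ℝ)) (fun _ => le_rfl) rfl h0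
    have e : (∑' k : K3, (0 : ℝ) / len k) = 0 := by simp
    rw [e, mul_zero, hφ.zero, ENNReal.ofReal_zero] at h3
    exact le_antisymm h3 zero_le
  rw [h2, add_zero] at h1
  refine h1.trans ?_
  refine (besGC_le (gg_double hφ) (fun _ => norm_nonneg _) (by rw [hm, sub_self, norm_zero])
    hs).trans (ENNReal.ofReal_le_ofReal ?_)
  have h4 : ∀ k, ‖fr f k - fr g k‖ / len k ≤ ‖fr f k - fr g k‖ := by
    intro k
    by_cases hk : k = 0
    · subst hk
      rw [hm, sub_self, norm_zero, zero_div]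
    · exact div_le_self (norm_nonneg _) (h782.GD.one_le_len hk)
  have h5 : Summable fun k => ‖fr f k - fr g k‖ / len k :=
    Summable.of_nonneg_of_le (fun k => div_nonneg (norm_nonneg _) (h782.GD.len_nonneg k)) h4 hs
  have h6 : 0 ≤ ∑' k, ‖fr f k - fr g k‖ / len k :=
    tsum_nonneg fun k => div_nonneg (norm_nonneg _) (h782.GD.len_nonneg k)
  exact gg_mono hφ (by linarith) (mul_le_mul_of_nonneg_left (h5.tsum_le_tsum h4 hs) zero_le_two)

/-- The gauge of a sum which tends to zero. -/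
theorem gauge_lim {φ : ℝ → ℝ} (hφ : Gauge φ) {α : Type*} {l : Filter α} {x : α → ℝ}
    (h0 : ∀ a, 0 ≤ x a) (hx : Tendsto x l (𝓝 0)) :
    Tendsto (fun a => ENNReal.ofReal (φ (2 * x a))) l (𝓝 0) := by
  have h1 : Tendsto (fun a => 2 * x a) l (𝓝[≥] 0) := by
    refine tendsto_nhdsWithin_iff.2 ⟨?_, Eventually.of_forall fun a => ?_⟩
    · have := hx.const_mul 2
      rwa [mul_zero] at this
    · exact mul_nonneg zero_le_two (h0 a)
  have h3 := ENNReal.tendsto_ofReal ((gg_tendsto hφ).comp h1)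
  rw [ENNReal.ofReal_zero] at h3
  exact h3

theorem bes_isSol {φ : ℝ → ℝ} (hφ : Gauge φ) {ν T : ℝ} {v : ℝ → V → V} {q : ℝ → V → ℝ}
    (h : IsSol ν T v q) {s : ℝ} (hs : s ∈ Ioo 0 T) : Bc φ v s := by
  intro i
  set T1 : ℝ := (s + T) / 2 with hT1
  have hs1 : s < T1 := by rw [hT1]; linarith [hs.2]
  have hT1' : T1 < T := by rw [hT1]; linarith [hs.2]
  obtain ⟨C, hC0, hC⟩ := h969.GD.maj_fr (f := fun t y => v t y i) hT1' (h.smooth_c i)
    (fun t ht => h.sp ht i) 0
  have hC' : ∀ t ∈ Icc 0 T1, ∀ k, ‖fr (fun x => v t x i) k‖ ≤ C * h969.GD.sw k := fun t ht k => by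
    have := hC t ht k
    rwa [pow_zero, one_mul] at this
  have hsI : s ∈ Ico 0 T := ⟨hs.1.le, hs.2⟩
  have hlim : Tendsto (fun t => ∑' k, ‖fr (fun x => v t x i) k - fr (fun x => v s x i) k‖)
      (𝓝 s) (𝓝 0) := by
    have h1 : Tendsto (fun t => ∑' k, ‖fr (fun x => v t x i) k - fr (fun x => v s x i) k‖)
        (𝓝 s) (𝓝 (∑' _ : K3, (0 : ℝ))) := by
      refine tendsto_tsum_of_dominated_convergence (bound := fun k => 2 * (C * h969.GD.sw k))
        ((summable_K3.mul_left _).mul_left _) (fun k => ?_) ?_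
      · have h2 := (fr_continuousOn (f := fun t y => v t y i) (h.smooth_c i).continuousOn
          k).continuousAt (Ico_mem_nhds hs.1 hs.2)
        have h3 := (h2.tendsto.sub_const (fr (fun x => v s x i) k)).norm
        rwa [sub_self, norm_zero] at h3
      · filter_upwards [Icc_mem_nhds hs.1 hs1] with t ht k
        rw [norm_norm]
        refine (norm_sub_le _ _).trans ?_
        have := hC' t ht k
        have := hC' s ⟨hs.1.le, hs1.le⟩ k
        linarith
    rwa [tsum_zero] at h1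
  refine tendsto_of_tendsto_of_tendsto_of_le_of_le' tendsto_const_nhds
    (gauge_lim hφ (fun t => tsum_nonneg fun k => norm_nonneg _) hlim)
    (Eventually.of_forall fun _ => zero_le) ?_
  filter_upwards [Ioo_mem_nhds hs.1 hs.2] with t ht
  have htI : t ∈ Ico 0 T := ⟨ht.1.le, ht.2⟩
  refine besG_sub_le hφ (h.sp htI i) (h.sp hsI i) ?_
  have e1 := congrFun ((mean_loc h htI).trans (mean_loc h hsI).symm) i
  exact e1

/-- **Piece BReg.** Continuity at the regular times. -/
theorem breg {φ : ℝ → ℝ} (hφ : Gauge φ) {ν a b : ℝ} {u : ℝ → V → V} {p : ℝ → V → ℝ}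
    (h : SolOn ν (Ioo a b) u p) {s : ℝ} (hs : s ∈ Ioo a b) : Bc φ u s := by
  set a' : ℝ := (a + s) / 2 with ha'
  have h1 : a < a' := by rw [ha']; linarith [hs.1]
  have h2 : a' < s := by rw [ha']; linarith [hs.1]
  have hs1 : SolOn ν ((fun t => t - (-a')) ⁻¹' Ioo a b) (fun t => u (t - (-a')))
      (fun t => p (t - (-a'))) := shift_o (-a') h
  have hsub : Ico 0 (b - a') ⊆ (fun t => t - (-a')) ⁻¹' Ioo a b := by
    intro t ht
    simp only [mem_preimage, mem_Ioo]
    constructor <;> linarith [ht.1, ht.2]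
  have hS : IsSol ν (b - a') (fun t => u (t - (-a'))) (fun t => p (t - (-a'))) :=
    ⟨hs1.smooth_u.mono (prod_mono hsub (subset_univ _)),
      hs1.smooth_p.mono (prod_mono hsub (subset_univ _)), fun t ht => hs1.per_u t (hsub ht),
      fun t ht => hs1.per_p t (hsub ht), fun t ht => hs1.divfree t (hsub ht),
      fun t ht => hs1.momentum t (hsub ⟨ht.1.le, ht.2⟩)⟩
  intro i
  have h3 := bes_isSol hφ hS (s := s - a') ⟨by linarith, by linarith [hs.2]⟩ i
  have h4 : Tendsto (fun t : ℝ => t - a') (𝓝 s) (𝓝 (s - a')) :=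
    (continuous_id.sub continuous_const).tendsto s
  refine (h3.comp h4).congr fun t => ?_
  simp only [Function.comp_apply, sub_neg_eq_add, sub_add_cancel]

/-- Continuity at the time `s` where a smooth piece `u` (with the final time `τ`) is followed by
the piece `v`. -/
theorem bc_junc {φ : ℝ → ℝ} (hφ : Gauge φ) {ν a τ τ' : ℝ} {u : ℝ → V → V} {p : ℝ → V → ℝ}
    (h : SolOn ν (Ioo a τ') u p) (hτ : τ ∈ Ioo a τ') {v : ℝ → V → V} (hv : Ba φ (vf (u τ)) v)
    {g : ℝ → V → V} {s δ : ℝ} (hδ : 0 < δ) (hl : ∀ t, a < t → t ≤ τ → g (s - τ + t) = u t)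
    (hr : ∀ t ∈ Ioo 0 δ, g (s + t) = v t) : Bc φ g s := by
  intro i
  have hgs : g s = u τ := by
    have := hl τ hτ.1 le_rfl
    rwa [sub_add_cancel] at this
  rw [← nhdsLE_sup_nhdsGT s]
  refine Tendsto.sup ?_ ?_
  · have h1 := breg hφ h hτ i
    have h2 : Tendsto (fun t : ℝ => t - s + τ) (𝓝[≤] s) (𝓝 τ) := by
      have h3 : Tendsto (fun t : ℝ => t - s + τ) (𝓝 s) (𝓝 (s - s + τ)) :=
        ((continuous_id.sub continuous_const).add continuous_const).tendsto s
      rw [sub_self, zero_add] at h3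
      exact h3.mono_left nhdsWithin_le_nhds
    refine (h1.comp h2).congr' ?_
    have h4 : ∀ᶠ t : ℝ in 𝓝[≤] s, a < t - s + τ := h2.eventually (lt_mem_nhds hτ.1)
    filter_upwards [h4, self_mem_nhdsWithin] with t h5 h6
    have h7 : t ≤ s := h6
    have h8 := hl (t - s + τ) h5 (by linarith)
    have e : s - τ + (t - s + τ) = t := by ring
    rw [e] at h8
    simp only [Function.comp_apply, h8, hgs]
  · have h1 := hv i
    have h2 : Tendsto (fun t : ℝ => t - s) (𝓝[>] s) (𝓝[>] 0) := by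
      refine tendsto_nhdsWithin_iff.2 ⟨?_, ?_⟩
      · have h3 : Tendsto (fun t : ℝ => t - s) (𝓝 s) (𝓝 (s - s)) :=
          (continuous_id.sub continuous_const).tendsto s
        rw [sub_self] at h3
        exact h3.mono_left nhdsWithin_le_nhds
      · filter_upwards [self_mem_nhdsWithin] with t ht
        have ht' : s < t := ht
        exact sub_pos.2 ht'
    refine (h1.comp h2).congr' ?_
    filter_upwards [Ioo_mem_nhdsGT (show s < s + δ by linarith)] with t ht
    have h5 := hr (t - s) ⟨sub_pos.2 ht.1, by linarith [ht.2]⟩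
    rw [add_sub_cancel] at h5
    have h6 : ∀ x, (S (fun k => vf (u τ) k i) x).re = u τ x i := fun x => by
      have := S_fr (sp_o h hτ i) x
      show (S (fr (fun x => u τ x i)) x).re = _
      rw [this, Complex.ofReal_re]
    simp only [Function.comp_apply, h5, hgs, h6]

/-- The value at one time only depends on the values near this time. -/
theorem bc_congr {φ : ℝ → ℝ} {u v : ℝ → V → V} {s : ℝ} (h : Bc φ u s)
    (he : ∀ᶠ t in 𝓝 s, v t = u t) : Bc φ v s := by
  intro i
  refine (h i).congr' ?_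
  filter_upwards [he] with t ht
  rw [ht, he.self_of_nhds]

/-- Translations. -/
theorem bc_shift {φ : ℝ → ℝ} {u : ℝ → V → V} {s τ : ℝ} (h : Bc φ u (s - τ)) :
    Bc φ (fun t => u (t - τ)) s := by
  intro i
  have h4 : Tendsto (fun t : ℝ => t - τ) (𝓝 s) (𝓝 (s - τ)) :=
    (continuous_id.sub continuous_const).tendsto s
  exact (h i).comp h4

end Pool.Agent.Run7.h782.HP
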