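import Pool.Agent.Run7.h782.HP.DefsB

/-!
The steering theorem with continuity in the critical Besov spaces, also at the time `S` if the past
is smooth there: statements.
-/

set_option autoImplicit false

open MeasureTheory Set Filter Topology
open scoped ContDiff ENNReal ComplexConjugate

namespace Pool.Agent.Run7.h782.HP

open H459R3.NS Pool.Agent.Run7 Pool.Agent.Run7.h782 Pool.Agent.Run7.h782.GD Pool.Agent.Run7.h782.GS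
open Pool.Agent.Run7.h782.WS Pool.Agent.Run7.h782.WQ Pool.Agent.Run7.h744.WS
open Pool.Agent.Run7.h969.WS Pool.Agent.Run7.h782.OS Pool.Agent.Run7.h969.HP

/-- **Piece ReachC** (`StmReachB`, and the initial value is attained in the sense of `besG φ`, if it
is absolutely summable: this is the clause of the first piece of LocEB). -/
def StmReachC : Prop := ∀ (ν : ℝ), 0 < ν → ∀ T : ℝ, 0 < T → ∀ (m : V) (w : ℝ → V → V), PathM m w →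
  ∀ c c₁ : Cf, Dis c → (∀ i, c 0 i = ((m i : ℝ) : ℂ)) → Dis c₁ →
  (∀ i, c₁ 0 i = ((m i : ℝ) : ℂ)) → ∀ Q : ℕ → ℝ, (∀ n, 1 ≤ Q n) →
  (∃ R : Fin 3 → Fin 3 → V → ℝ, Str R ∧ IsDiv R c ∧
    ∀ n i j, IntegrableOn (fun x => |R i j x| ^ Q n) cube) →
  (∃ R : Fin 3 → Fin 3 → V → ℝ, Str R ∧ IsDiv R c₁ ∧
    ∀ n i j, IntegrableOn (fun x => |R i j x| ^ Q n) cube) →
  ∀ φ : ℝ → ℝ, Gauge φ → ∀ Φ : ℝ → ℝ, Orl Φ → ∀ ε : ℝ, 0 < ε →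
  ∃ (F : Set ℝ) (u : ℝ → V → V) (p : ℝ → V → ℝ), Rch ν Q c c₁ T F u p ∧
    (∀ s ∈ Ioo 0 T, Bc φ u s) ∧ ((Summable fun k => ‖c k‖) → Ba φ c u) ∧
    ∃ h : ℝ → ℝ, (∀ t, 0 ≤ h t) ∧ (∀ t ∈ Ioo 0 T, ∀ x i, |u t x i - w t x i| ≤ h t) ∧
      ∫⁻ t in Ioo 0 T, ENNReal.ofReal (Φ (h t)) ≤ ENNReal.ofReal ε

/-- **Piece EndReg.** If `v` is smooth near the time `S`, the distribution `c'` at the time `S` (of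
`StmEnd`) has the coefficients of `v S`. -/
def StmEndReg : Prop := ∀ (ν : ℝ), 0 < ν → ∀ S : ℝ, 0 < S → ∀ (c c' : Cf), Dis c → Dis c' →
  ∀ v : ℝ → V → V, VW ν S c v →
  (∀ (χ : ℝ → ℝ) (φ : V → V), ContDiff ℝ ∞ χ → ContDiff ℝ ∞ φ → Per φ →
    (∀ x, ∑ i, pd i (fun y => φ y i) x = 0) →
    χ 0 * (∑ i, pr c i (fun x => φ x i)) - χ S * (∑ i, pr c' i (fun x => φ x i))
      + ∫ z in Ioo 0 S ×ˢ cube, wk ν v χ φ z = 0) →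
  ∀ (a b : ℝ) (q : ℝ → V → ℝ), S ∈ Ioo a b → SolOn ν (Ioo a b) v q → c' = vf (v S)

/-- **The steering theorem** with the Besov clauses (from End, Final, ReachC, EndReg). -/
def StmSteerC : Prop := ∀ (ν : ℝ), 0 < ν → ∀ (m : V) (c c₁ : Cf), Dis c →
  (∀ i, c 0 i = ((m i : ℝ) : ℂ)) → Dis c₁ → (∀ i, c₁ 0 i = ((m i : ℝ) : ℂ)) → ∀ Q : ℕ → ℝ,
  (∀ n, 1 ≤ Q n) → ∀ T₀ : ℝ, 0 < T₀ → ∀ v : ℝ → V → V, VW ν T₀ c v →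
  (∀ n, InLq T₀ v (2 * Q n)) → ∀ U : ℝ → V → V, (∀ T', 0 < T' → VW ν T' c₁ U) →
  (∀ T', 0 < T' → ∀ n, InLq T' U (2 * Q n)) → ∀ S ∈ Icc 0 T₀, ∀ T : ℝ, S < T →
  ∀ w : ℝ → V → V, PathM m w → ∀ φ : ℝ → ℝ, Gauge φ → ∀ Φ : ℝ → ℝ, Orl Φ → ∀ ε : ℝ, 0 < ε →
  ∃ (F : Set ℝ) (u : ℝ → V → V) (p : ℝ → V → ℝ), F ⊆ Ico S T ∧
    (∀ T', T' < T → (F ∩ Iic T').Finite) ∧
    (∀ t ∈ Ioc 0 S, u t = v t) ∧ (∀ t, T < t → u t = U (t - T)) ∧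
    SolOn ν (Ioo S T \ F) u p ∧ (∀ T', 0 < T' → VW ν T' c u) ∧
    (∀ T', 0 < T' → ∀ n, InLq T' u (2 * Q n)) ∧
    (∀ (i : Fin 3) (ψ : V → ℝ), ContDiff ℝ ∞ ψ → Per ψ →
      ContinuousOn (fun t => ∫ x in cube, u t x i * ψ x) (Ioo S T)) ∧
    (∀ s ∈ Ioo S T, Bc φ u s) ∧
    (∀ (a b : ℝ) (q : ℝ → V → ℝ), 0 < S → S ∈ Ioo a b → SolOn ν (Ioo a b) v q → Bc φ u S) ∧
    (∀ s ∈ Ico S T, ∀ δ : ℝ, 0 < δ →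
      ∀ᶠ t in 𝓝[>] s, ∀ x i, |u t x i| ≤ δ / Real.sqrt (t - s)) ∧
    ∃ h : ℝ → ℝ, (∀ t, 0 ≤ h t) ∧ (∀ t ∈ Ioo S T, ∀ x i, |u t x i - w t x i| ≤ h t) ∧
      ∫⁻ t in Ioo S T, ENNReal.ofReal (Φ (h t)) ≤ ENNReal.ofReal ε

end Pool.Agent.Run7.h782.HP
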