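import Pool.Agent.Run7.h782.HP.StepF
import Pool.Agent.Run7.h782.WQ.AllS
import Pool.Agent.Run7.h969.HP.Stab

/-!
Project HP: assembly of the step.
-/

set_option autoImplicit false

namespace Pool.Agent.Run7.h782.HP

open Pool.Agent.Run7.h969.HP

theorem stmStepF : StmStepF :=
  stepF Pool.Agent.Run7.h782.GD.t1F
    (Pool.Agent.Run7.h980.WQ.profQ Pool.Agent.Run7.h744.WQ.stmGeoQ Pool.Agent.Run7.h980.WQ.concQ)
    (Pool.Agent.Run7.h969.WQ.appQ Pool.Agent.Run7.h744.WQ.stmQ0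
      (Pool.Agent.Run7.h811.WQ.alWQ Pool.Agent.Run7.h779.WQ.kh))
    Pool.Agent.Run7.h969.HP.intF Pool.Agent.Run7.h744.WQ.stmQ0

end Pool.Agent.Run7.h782.HP

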