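import Pool.Agent.Run7.h969.HP.Defs
import Pool.Agent.Run7.h308.GS.P6
import Mathlib.Analysis.Calculus.BumpFunction.InnerProduct

/-!
Project HP, piece PhysO: from coefficients to fields on an open interval. On a compact subinterval the
time is stopped smoothly at the right end (solutions of `a' = g (- λ a - nl a a)` with a smooth
function `g` with compact support), so that the results for `[0, ∞)` can be used.
-/

set_option autoImplicit false

open MeasureTheory Set Filter Topology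
open scoped ContDiff

namespace Pool.Agent.Run7.h782.HP

open H459R3.NS Pool.Agent.Run7.h782.GD Pool.Agent.Run7.h32.GD Pool.Agent.Run7
open Pool.Agent.Run7.h969.HP

/-- Solutions with a smooth factor in front of the right side. -/
structure CSolG (ν : ℝ) (g : ℝ → ℝ) (a : ℝ → Cf) : Prop where
  gs : ContDiff ℝ ∞ g
  gc : HasCompactSupport g
  dec : ∃ μ > 0, ∃ C : ℝ, ∀ t, 0 ≤ t → ∀ k, ‖a t k‖ ≤ C * Real.exp (-(μ * len k))
  herm : ∀ t, 0 ≤ t → Herm (a t)
  div : ∀ t, 0 ≤ t → Dv (a t)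
  der : ∀ t, 0 ≤ t → ∀ k, HasDerivWithinAt (fun s => a s k)
    ((g t : ℂ) • (-(lam ν k : ℂ) • a t k - nl (a t) (a t) k)) (Ici 0) t

theorem gd_mulg {n : ℕ} : ∀ {c : ℝ → K3 → ℂ}, Gd n c → ∀ {g : ℝ → ℝ}, ContDiff ℝ ∞ g →
    HasCompactSupport g → Gd n (fun t k => (g t : ℂ) * c t k) := by
  have hdec : ∀ {c : ℝ → K3 → ℂ}, Dec c → ∀ {g : ℝ → ℝ}, ContDiff ℝ ∞ g →
      HasCompactSupport g → Dec (fun t k => (g t : ℂ) * c t k) := by
    intro c hc g hg hgc
    obtain ⟨μ, hμ, C, hC, h⟩ := hc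
    obtain ⟨M, hM⟩ := hgc.exists_bound_of_continuous hg.continuous
    have hM0 : 0 ≤ M := (norm_nonneg _).trans (hM 0)
    refine ⟨μ, hμ, M * C, by positivity, fun t ht k => ?_⟩
    rw [norm_mul, Complex.norm_real, mul_assoc]
    exact mul_le_mul (hM t) (h t ht k) (norm_nonneg _) hM0
  induction n with
  | zero =>
    intro c hc g hg hgc
    exact ⟨hdec hc.dec hg hgc, fun k =>
      (Complex.continuous_ofReal.comp hg.continuous).continuousOn.mul (hc.2 k)⟩
  | succ n ih =>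
    intro c hc g hg hgc
    obtain ⟨c', h1, h2⟩ := hc.2
    have hg1 : ContDiff ℝ ∞ (deriv g) := (contDiff_infty_iff_deriv.1 hg).2
    refine ⟨hdec hc.dec hg hgc, fun t k => ((deriv g t : ℝ) : ℂ) * c t k + (g t : ℂ) * c' t k,
      fun k t ht => ?_, (ih hc.pred hg1 hgc.deriv).add (ih h2 hg hgc)⟩
    have h3 : HasDerivAt (fun s => (g s : ℂ)) ((deriv g t : ℝ) : ℂ) t :=
      ((hg.differentiable (by simp)) t).hasDerivAt.ofReal_comp
    exact h3.hasDerivWithinAt.mul (h1 k t ht)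

theorem T_applyG {a : ℝ → Cf} (hd : ∀ i, Dec (h32.GD.cmp a i)) {t : ℝ} (ht : 0 ≤ t) (k : K3) (i : Fin 3) :
    (∑' p : K3, kd k (a t p) • a t (k - p)) i = Nn a i t k := by
  have hs : ∀ i j, Summable fun p => h32.GD.cmp a j t p * h32.GD.cmp a i t (k - p) := fun i j =>
    (hd j).summable_cv (hd i) ht k
  have hs2 : ∀ i, Summable fun p : K3 => ∑ j, (k j : ℂ) * (h32.GD.cmp a j t p * h32.GD.cmp a i t (k - p)) :=
    fun i => summable_sum fun j _ => (hs i j).mul_left _
  have e : ∀ p i, (kd k (a t p) • a t (k - p)) i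
      = ∑ j, (k j : ℂ) * (h32.GD.cmp a j t p * h32.GD.cmp a i t (k - p)) := by
    intro p i
    rw [Pi.smul_apply, smul_eq_mul, kd, Finset.sum_mul]
    exact Finset.sum_congr rfl fun j _ => by unfold h32.GD.cmp; ring
  have hs3 : Summable fun p : K3 => kd k (a t p) • a t (k - p) := by
    rw [Pi.summable]
    exact fun i => (hs2 i).congr fun p => (e p i).symm
  rw [tsum_apply hs3]
  simp_rw [e]
  rw [Summable.tsum_finsetSum (fun j _ => (hs i j).mul_left _)]
  unfold Nn cv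
  exact Finset.sum_congr rfl fun j _ => tsum_mul_left

theorem nl_applyG {a : ℝ → Cf} (hd : ∀ i, Dec (h32.GD.cmp a i)) {t : ℝ} (ht : 0 ≤ t) (k : K3) (i : Fin 3) :
    nl (a t) (a t) k i = (2 * Real.pi * Complex.I) * Nn a i t k
      + (2 * Real.pi * Complex.I * (k i : ℂ)) * pk a t k := by
  unfold nl
  rw [Pi.smul_apply, smul_eq_mul, prj, T_applyG hd ht]
  have e : kd k (∑' p : K3, kd k (a t p) • a t (k - p)) / (h782.GD.sq k : ℂ) = -pk a t k := by
    unfold kd pk
    have : ∀ l, (∑' p : K3, (∑ j, (k j : ℂ) * a t p j) • a t (k - p)) l = Nn a l t k := fun l =>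
      T_applyG hd ht k l
    simp_rw [this]
    rw [Finset.sum_div, ← Finset.sum_neg_distrib]
    refine Finset.sum_congr rfl fun l _ => ?_
    unfold Nn
    rw [Finset.mul_sum, Finset.sum_div, ← Finset.sum_neg_distrib]
    refine Finset.sum_congr rfl fun j _ => ?_
    ring
  rw [e]
  ring

theorem dec_cmpG {ν : ℝ} {g : ℝ → ℝ} {a : ℝ → Cf} (h : CSolG ν g a) (i : Fin 3) :
    Dec (h32.GD.cmp a i) := by
  obtain ⟨μ, hμ, C, hC⟩ := h.dec
  refine ⟨μ, hμ, max C 0, le_max_right _ _, fun t ht k => ?_⟩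
  exact ((norm_le_pi_norm (a t k) i).trans (hC t ht k)).trans
    (mul_le_mul_of_nonneg_right (le_max_left _ _) (Real.exp_pos _).le)

theorem gs_cmpG {ν : ℝ} {g : ℝ → ℝ} {a : ℝ → Cf} (h : CSolG ν g a) :
    ∀ (n : ℕ) (i : Fin 3), Gd n (h32.GD.cmp a i) := by
  have hder : ∀ (i : Fin 3) (k : K3) (t : ℝ), 0 ≤ t → HasDerivWithinAt
      (fun s => h32.GD.cmp a i s k)
      ((g t : ℂ) * ((-(lam ν k : ℂ) • a t k - nl (a t) (a t) k) i)) (Ici 0) t := fun i k t ht =>
    (hasDerivWithinAt_pi.1 (h.der t ht k)) i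
  intro n
  induction n with
  | zero => exact fun i => ⟨dec_cmpG h i, fun _ t ht => (hder i _ t ht).continuousWithinAt⟩
  | succ n ih =>
    intro i
    refine ⟨dec_cmpG h i, fun t k => (g t : ℂ) * ((-(lam ν k : ℂ) • a t k - nl (a t) (a t) k) i),
      hder i, gd_mulg ?_ h.gs h.gc⟩
    have hN : Gd n (fun t k => Nn a i t k) :=
      Gd.sum3 fun j => ((ih j).cv (ih i)).mul (mul_coord j)
    have hP : Gd n (fun t k => pk a t k) := Gd.sum3 fun l => Gd.sum3 fun j =>
      ((ih j).cv (ih l)).mul ((mul_riesz l j).of_le fun k => (norm_neg _).le)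
    have h1 := (((ih i).mul (mul_lam ν)).add ((hN.mul (mul_const (-(2 * Real.pi * Complex.I)))).add
      (hP.mul ((mul_D i).of_le (m' := fun k => -(2 * Real.pi * Complex.I * (k i : ℂ)))
        fun k => (norm_neg _).le))))
    refine h1.congr fun t ht k => ?_
    rw [Pi.sub_apply, Pi.smul_apply, smul_eq_mul, nl_applyG (dec_cmpG h) ht]
    unfold h32.GD.cmp
    ring

theorem gd_pkG {ν : ℝ} {g : ℝ → ℝ} {a : ℝ → Cf} (h : CSolG ν g a) (n : ℕ) : Gd n (pk a) :=
  Gd.sum3 fun l => Gd.sum3 fun j =>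
      ((gs_cmpG h n j).cv (gs_cmpG h n l)).mul ((mul_riesz l j).of_le fun k => (norm_neg _).le)

/-- From coefficients to fields, with the explicit pressure (copy of the proof of helper32). -/
theorem physG {ν : ℝ} {g : ℝ → ℝ} {a : ℝ → Cf} (h : CSolG ν g a) :
    ContDiffOn ℝ ∞ (fun z : ℝ × V => fld a z.1 z.2) (Ici 0 ×ˢ univ) ∧
    ContDiffOn ℝ ∞ (fun z : ℝ × V => (S (pk a z.1) z.2).re) (Ici 0 ×ˢ univ) ∧
    (∀ t, 0 ≤ t → ∀ x, ∑ i, pd i (fun y => fld a t y i) x = 0) ∧
    ∀ t, 0 < t → g t = 1 → ∀ x i, deriv (fun s => fld a s x i) t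
      + ∑ j, fld a t x j * pd j (fun y => fld a t y i) x
      = ν * ∑ j, pd j (pd j (fun y => fld a t y i)) x - pd i (fun y => (S (pk a t) y).re) x := by
  have hg := gs_cmpG h
  have hdec : ∀ i, Dec (h32.GD.cmp a i) := fun i => dec_cmpG h i
  refine ⟨?_, ?_, ?_, ?_⟩
  · refine contDiffOn_pi.2 fun i => ?_
    exact Complex.reCLM.contDiff.comp_contDiffOn
      (contDiffOn_S_infty (c := h32.GD.cmp a i) fun n => hg n i)
  · exact Complex.reCLM.contDiff.comp_contDiffOn
      (contDiffOn_S_infty (c := pk a) fun n => gd_pkG h n)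
  · intro t ht x
    have h1 : ∀ i, pd i (fun y => fld a t y i) x = (S (D i (h32.GD.cmp a i t)) x).re := fun i =>
      pd_reS (c := h32.GD.cmp a i t) (dec_const (hdec i) ht) x i
    simp_rw [h1]
    rw [← Complex.re_sum]
    have h2 : ∑ i, S (D i (h32.GD.cmp a i t)) x = 0 := by
      unfold S
      rw [← Summable.tsum_finsetSum (fun i _ =>
        summable_term (((hdec i).D i).summable ht) x)]
      have : ∀ k, ∑ i, D i (h32.GD.cmp a i t) k * ee k x = 0 := by
        intro k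
        rw [← Finset.sum_mul]
        have hd := h.div t ht k
        unfold kd at hd
        have e : ∑ i, D i (h32.GD.cmp a i t) k = (2 * Real.pi * Complex.I) * ∑ i, (k i : ℂ) * a t k i := by
          rw [Finset.mul_sum]
          refine Finset.sum_congr rfl fun i _ => ?_
          unfold D h32.GD.cmp; ring
        rw [e, hd, mul_zero, zero_mul]
      simp_rw [this]
      exact tsum_zero
    rw [h2]; rfl
  · intro t ht hgt x i
    have ht0 : 0 ≤ t := ht.le
    -- time derivative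
    have hder : ∀ k s, 0 ≤ s → HasDerivWithinAt (fun s => h32.GD.cmp a i s k)
        ((g s : ℂ) * ((-(lam ν k : ℂ) • a s k - nl (a s) (a s) k) i)) (Ici 0) s := fun k s hs =>
      (hasDerivWithinAt_pi.1 (h.der s hs k)) i
    obtain ⟨-, c', hc'1, hc'2⟩ := hg 1 i
    have hce : ∀ k, c' t k = (-(lam ν k : ℂ) • a t k - nl (a t) (a t) k) i := fun k => by
      have h0 := (uniqueDiffOn_Ici (0 : ℝ) t ht0).eq_deriv _ (hc'1 k t ht0) (hder k t ht0)
      rw [h0, hgt, Complex.ofReal_one, one_mul]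
    have hdt : deriv (fun s => fld a s x i) t = (S (c' t) x).re := by
      have h1 := hasDerivWithinAt_S (hdec i) hc'2 hc'1 ht0 x
      have h2 : HasDerivAt (fun s => S (h32.GD.cmp a i s) x) (S (c' t) x) t :=
        h1.hasDerivAt (Ici_mem_nhds ht)
      exact (Complex.reCLM.hasFDerivAt.comp_hasDerivAt t h2).deriv
    have hpd : ∀ j y, pd j (fun y => fld a t y i) y = (S (D j (h32.GD.cmp a i t)) y).re := fun j y =>
      pd_reS (c := h32.GD.cmp a i t) (dec_const (hdec i) ht0) y j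
    have hpd2 : ∀ j, pd j (pd j (fun y => fld a t y i)) x
        = (S (D j (D j (h32.GD.cmp a i t))) x).re := by
      intro j
      have : pd j (fun y => fld a t y i) = fun y => (S (D j (h32.GD.cmp a i t)) y).re := by
        funext y; exact hpd j y
      rw [this]
      exact pd_reS (c := D j (h32.GD.cmp a i t)) (dec_const ((hdec i).D j) ht0) x j
    have hpp : pd i (fun y => (S (pk a t) y).re) x = (S (D i (pk a t)) x).re :=
      pd_reS (dec_const (gd_pkG h 0).dec ht0) x i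
    have hreal : ∀ j, S (h32.GD.cmp a j t) x = ((fld a t x j : ℝ) : ℂ) := fun j =>
      S_real (fun k => h.herm t ht0 k j) x
    rw [hdt, hpp]
    simp_rw [hpd, hpd2]
    have hprod : ∀ j, fld a t x j * (S (D j (h32.GD.cmp a i t)) x).re
        = (S (cv (h32.GD.cmp a j t) (D j (h32.GD.cmp a i t))) x).re := by
      intro j
      rw [← S_mul ((hdec j).summable ht0) (((hdec i).D j).summable ht0), hreal j,
        Complex.re_ofReal_mul]
    simp_rw [hprod]
    rw [← Complex.re_sum, ← Complex.re_sum, ← Complex.add_re, ← Complex.re_ofReal_mul,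
      ← Complex.sub_re]
    congr 1
    have s1 : Summable fun k => c' t k * ee k x := summable_term (hc'2.dec.summable ht0) x
    have s2 : ∀ j, Summable fun k => cv (h32.GD.cmp a j t) (D j (h32.GD.cmp a i t)) k * ee k x := fun j =>
      summable_term ((((hdec j).cv ((hdec i).D j))).summable ht0) x
    have s3 : ∀ j, Summable fun k => D j (D j (h32.GD.cmp a i t)) k * ee k x := fun j =>
      summable_term (((((hdec i).D j)).D j).summable ht0) x
    have s4 : Summable fun k => D i (pk a t) k * ee k x :=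
      summable_term (((gd_pkG h 0).dec.D i).summable ht0) x
    unfold S
    rw [← Summable.tsum_finsetSum (fun j _ => s2 j), ← Summable.tsum_finsetSum (fun j _ => s3 j),
      ← s1.tsum_add (summable_sum fun j _ => s2 j), ← tsum_mul_left,
      ← ((summable_sum fun j _ => s3 j).mul_left _).tsum_sub s4]
    refine tsum_congr fun k => ?_
    rw [hce k, Pi.sub_apply, Pi.smul_apply, smul_eq_mul, nl_applyG (dec_cmpG h) ht0]
    have hcv : ∑ j, cv (h32.GD.cmp a j t) (D j (h32.GD.cmp a i t)) k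
        = (2 * Real.pi * Complex.I) * Nn a i t k := by
      have hsA : ∀ j, Summable fun p => h32.GD.cmp a j t p * h32.GD.cmp a i t (k - p) := fun j =>
        (hdec j).summable_cv (hdec i) ht0 k
      have hsB : ∀ j, Summable fun p => D j (h32.GD.cmp a j t) p * h32.GD.cmp a i t (k - p) := fun j =>
        ((hdec j).D j).summable_cv (hdec i) ht0 k
      have e1 : ∀ j, cv (h32.GD.cmp a j t) (D j (h32.GD.cmp a i t)) k
          = (2 * Real.pi * Complex.I * (k j : ℂ)) * cv (h32.GD.cmp a j t) (h32.GD.cmp a i t) k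
            - ∑' p, D j (h32.GD.cmp a j t) p * h32.GD.cmp a i t (k - p) := by
        intro j
        unfold cv
        rw [← tsum_mul_left, ← ((hsA j).mul_left _).tsum_sub (hsB j)]
        refine tsum_congr fun p => ?_
        unfold D
        have : ((k - p : K3) j : ℂ) = (k j : ℂ) - (p j : ℂ) := by
          rw [Pi.sub_apply]; push_cast; ring
        rw [this]; ring
      simp_rw [e1]
      rw [Finset.sum_sub_distrib, ← Summable.tsum_finsetSum (fun j _ => hsB j)]
      have e2 : ∀ p, ∑ j, D j (h32.GD.cmp a j t) p * h32.GD.cmp a i t (k - p) = 0 := by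
        intro p
        rw [← Finset.sum_mul]
        have hd := h.div t ht0 p
        unfold kd at hd
        have e : ∑ j, D j (h32.GD.cmp a j t) p = (2 * Real.pi * Complex.I) * ∑ j, (p j : ℂ) * a t p j := by
          rw [Finset.mul_sum]
          refine Finset.sum_congr rfl fun i _ => ?_
          unfold D h32.GD.cmp; ring
        rw [e, hd, mul_zero, zero_mul]
      simp_rw [e2]
      rw [tsum_zero, sub_zero, Nn, Finset.mul_sum]
      exact Finset.sum_congr rfl fun j _ => by ring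
    rw [← Finset.sum_mul, ← Finset.sum_mul, hcv]
    have hDD : ∑ j, D j (D j (h32.GD.cmp a i t)) k = -(4 * Real.pi ^ 2 * h782.GD.sq k : ℝ) * a t k i := by
      have e : ∀ j, D j (D j (h32.GD.cmp a i t)) k = -(4 * Real.pi ^ 2 * (k j : ℂ) ^ 2) * a t k i := by
        intro j
        unfold D h32.GD.cmp
        linear_combination (4 * (Real.pi : ℂ) ^ 2 * (k j : ℂ) ^ 2 * a t k i) * Complex.I_sq
      simp_rw [e]
      unfold h782.GD.sq
      push_cast
      rw [← Finset.sum_mul, Finset.sum_neg_distrib, Finset.mul_sum]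
    rw [hDD]
    unfold D lam
    push_cast
    ring

/-- Stopping the time. -/
theorem exists_stop {ν T : ℝ} {b : ℝ → Cf} (hb : CSolO ν T b) {t₀ : ℝ} (ht₀ : t₀ ∈ Ioo 0 T) :
    ∃ (s₀ ℓ : ℝ) (g : ℝ → ℝ) (a : ℝ → Cf), CSolG ν g a ∧ 0 < s₀ ∧ s₀ < t₀ ∧ t₀ < s₀ + ℓ ∧
      s₀ + ℓ < T ∧ ∀ r ∈ Icc 0 ℓ, g r = 1 ∧ a r = b (r + s₀) := by
  obtain ⟨h0, hT⟩ := ht₀
  set e : ℝ := (T - t₀) / 3 with he
  have he0 : 0 < e := by
    rw [he]
    linarith
  set s₀ : ℝ := t₀ / 2 with hs₀
  have hs0 : 0 < s₀ := by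
    rw [hs₀]
    linarith
  set ℓ : ℝ := t₀ / 2 + e with hℓ
  have hℓ0 : 0 < ℓ := by
    rw [hℓ]
    linarith
  let φ : ContDiffBump (0 : ℝ) := ⟨ℓ, ℓ + e, hℓ0, by linarith⟩
  set g : ℝ → ℝ := fun r => φ r with hg
  have hgs : ContDiff ℝ ∞ g := φ.contDiff
  have hgc : HasCompactSupport g := φ.hasCompactSupport
  have hg1 : ∀ r ∈ Icc 0 ℓ, g r = 1 := fun r hr => φ.one_of_mem_closedBall (by
    rw [mem_closedBall_zero_iff, Real.norm_of_nonneg hr.1]
    exact hr.2)
  have hg0 : ∀ r, 0 ≤ g r := fun r => φ.nonneg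
  have hgl : ∀ r, g r ≤ 1 := fun r => φ.le_one
  have hgz : ∀ r, ℓ + e ≤ r → g r = 0 := fun r hr => by
    refine φ.zero_of_le_dist ?_
    rw [dist_zero_right, Real.norm_of_nonneg (by linarith)]
    exact hr
  have hgi : ∀ x y : ℝ, IntervalIntegrable g volume x y := fun x y =>
    hgs.continuous.intervalIntegrable _ _
  set θ : ℝ → ℝ := fun r => s₀ + ∫ x in (0 : ℝ)..r, g x with hθ
  have hθd : ∀ r, HasDerivAt θ (g r) r := fun r =>
    (hgs.continuous.integral_hasStrictDerivAt 0 r).hasDerivAt.const_add s₀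
  have hle : ∀ r, 0 ≤ r → ∫ x in (0 : ℝ)..r, g x ≤ r := fun r hr => by
    have h1 : ∫ x in (0 : ℝ)..r, g x ≤ ∫ _ in (0 : ℝ)..r, (1 : ℝ) :=
      intervalIntegral.integral_mono_on hr (hgi _ _) intervalIntegrable_const fun x _ => hgl x
    simpa using h1
  have hθm : ∀ r, 0 ≤ r → θ r ∈ Icc s₀ (s₀ + (ℓ + e)) := by
    intro r hr
    have h1 : 0 ≤ ∫ x in (0 : ℝ)..r, g x :=
      intervalIntegral.integral_nonneg hr fun x _ => hg0 x
    refine ⟨by rw [hθ]; linarith, ?_⟩
    have h2 : ∫ x in (0 : ℝ)..r, g x ≤ ℓ + e := by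
      rcases le_total r (ℓ + e) with h | h
      · exact (hle r hr).trans h
      · rw [← intervalIntegral.integral_add_adjacent_intervals (hgi 0 (ℓ + e)) (hgi (ℓ + e) r)]
        have h3 : ∫ x in (ℓ + e)..r, g x = 0 := by
          rw [intervalIntegral.integral_congr (g := fun _ => (0 : ℝ)) fun x hx => ?_]
          · simp
          · rw [uIcc_of_le h] at hx
            exact hgz x hx.1
        rw [h3, add_zero]
        exact hle _ (by linarith)
    show s₀ + _ ≤ _
    linarith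
  have hend : s₀ + (ℓ + e) < T := by
    rw [hs₀, hℓ, he]
    linarith
  have hθo : ∀ r, 0 ≤ r → θ r ∈ Ioo 0 T := fun r hr =>
    ⟨hs0.trans_le (hθm r hr).1, (hθm r hr).2.trans_lt hend⟩
  obtain ⟨μ, hμ, C, hC⟩ := hb.dec s₀ (s₀ + (ℓ + e)) hs0 hend
  refine ⟨s₀, ℓ, g, fun r => b (θ r), ⟨hgs, hgc, ⟨μ, hμ, C, fun t ht k => hC _ (hθm t ht) k⟩,
    fun t ht => hb.herm _ (hθo t ht), fun t ht => hb.div _ (hθo t ht), fun t ht k => ?_⟩, hs0,
    by rw [hs₀]; linarith, by rw [hs₀, hℓ]; linarith, by linarith, fun r hr => ⟨hg1 r hr, ?_⟩⟩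
  · have h1 := (hb.der (θ t) (hθo t ht) k).scomp t (hθd t)
    exact h1.hasDerivWithinAt
  · have h1 : ∫ x in (0 : ℝ)..r, g x = r := by
      rw [intervalIntegral.integral_congr (g := fun _ => (1 : ℝ)) fun x hx => ?_]
      · simp
      · rw [uIcc_of_le hr.1] at hx
        exact hg1 x ⟨hx.1, hx.2.trans hr.2⟩
    show b (s₀ + ∫ x in (0 : ℝ)..r, g x) = _
    rw [h1, add_comm]

theorem fld_shift {a b : ℝ → Cf} {r s : ℝ} (h : a r = b s) : fld a r = fld b s := by
  funext x i
  simp only [fld, h]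

theorem pk_shift {a b : ℝ → Cf} {r s : ℝ} (h : a r = b s) : pk a r = pk b s := by
  funext k
  have h2 : ∀ j, h32.GD.cmp a j r = h32.GD.cmp b j s := by
    intro j
    funext l
    simp only [h32.GD.cmp, h]
  simp only [pk, h2]

/-- **Piece PhysO.** -/
theorem physO : StmPhysO := by
  intro ν T b hb
  refine ⟨fun t x => (S (pk b t) x).re, ?_⟩
  have hmap : ∀ s₀ : ℝ, ContDiff ℝ ∞ (fun z : ℝ × V => ((z.1 - s₀, z.2) : ℝ × V)) := fun s₀ => by
    fun_prop
  refine ⟨?_, ?_, ?_, ?_, ?_, ?_⟩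
  · rintro ⟨t₀, x₀⟩ ⟨ht₀, -⟩
    obtain ⟨s₀, ℓ, g, a, ha, h1, h2, h3, h4, h5⟩ := exists_stop hb ht₀
    refine ContDiffAt.contDiffWithinAt ?_
    have h6 : ContDiffAt ℝ ∞ (fun z : ℝ × V => fld a z.1 z.2) (t₀ - s₀, x₀) :=
      (physG ha).1.contDiffAt (prod_mem_nhds (Ici_mem_nhds (by
        have : s₀ < t₀ := h2
        linarith)) univ_mem)
    have h7 := ContDiffAt.comp (t₀, x₀) h6 (hmap s₀).contDiffAt
    refine h7.congr_of_eventuallyEq ?_
    have h8 : Ioo s₀ (s₀ + ℓ) ×ˢ (univ : Set V) ∈ 𝓝 ((t₀, x₀) : ℝ × V) :=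
      prod_mem_nhds (Ioo_mem_nhds h2 h3) univ_mem
    filter_upwards [h8] with z hz
    have h9 := (h5 (z.1 - s₀) ⟨by linarith [hz.1.1], by linarith [hz.1.2]⟩).2
    rw [sub_add_cancel] at h9
    show fld b z.1 z.2 = fld a (z.1 - s₀) z.2
    rw [fld_shift h9]
  · rintro ⟨t₀, x₀⟩ ⟨ht₀, -⟩
    obtain ⟨s₀, ℓ, g, a, ha, h1, h2, h3, h4, h5⟩ := exists_stop hb ht₀
    refine ContDiffAt.contDiffWithinAt ?_
    have h6 : ContDiffAt ℝ ∞ (fun z : ℝ × V => (S (pk a z.1) z.2).re) (t₀ - s₀, x₀) :=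
      (physG ha).2.1.contDiffAt (prod_mem_nhds (Ici_mem_nhds (by
        have : s₀ < t₀ := h2
        linarith)) univ_mem)
    have h7 := ContDiffAt.comp (t₀, x₀) h6 (hmap s₀).contDiffAt
    refine h7.congr_of_eventuallyEq ?_
    have h8 : Ioo s₀ (s₀ + ℓ) ×ˢ (univ : Set V) ∈ 𝓝 ((t₀, x₀) : ℝ × V) :=
      prod_mem_nhds (Ioo_mem_nhds h2 h3) univ_mem
    filter_upwards [h8] with z hz
    have h9 := (h5 (z.1 - s₀) ⟨by linarith [hz.1.1], by linarith [hz.1.2]⟩).2
    rw [sub_add_cancel] at h9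
    show (S (pk b z.1) z.2).re = (S (pk a (z.1 - s₀)) z.2).re
    rw [pk_shift h9]
  · intro t ht j x
    funext i
    show (S (h32.GD.cmp b i t) _).re = (S (h32.GD.cmp b i t) _).re
    rw [per_S]
  · intro t ht j x
    show (S (pk b t) _).re = (S (pk b t) _).re
    rw [per_S]
  · intro t ht x
    obtain ⟨s₀, ℓ, g, a, ha, h1, h2, h3, h4, h5⟩ := exists_stop hb ht
    have h9 := (h5 (t - s₀) ⟨by linarith, by linarith⟩).2
    rw [sub_add_cancel] at h9
    rw [← fld_shift h9]
    exact (physG ha).2.2.1 (t - s₀) (by linarith) x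
  · intro t ht x i
    obtain ⟨s₀, ℓ, g, a, ha, h1, h2, h3, h4, h5⟩ := exists_stop hb ht
    obtain ⟨h8, h9⟩ := h5 (t - s₀) ⟨by linarith, by linarith⟩
    rw [sub_add_cancel] at h9
    have h10 := (physG ha).2.2.2 (t - s₀) (by linarith) h8 x i
    have e1 : deriv (fun s => fld b s x i) t = deriv (fun s => fld a s x i) (t - s₀) := by
      rw [← deriv_comp_sub_const (f := fun s => fld a s x i) s₀ t]
      refine Filter.EventuallyEq.deriv_eq ?_
      filter_upwards [Ioo_mem_nhds h2 h3] with s hs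
      have h11 := (h5 (s - s₀) ⟨by linarith [hs.1], by linarith [hs.2]⟩).2
      rw [sub_add_cancel] at h11
      show fld b s x i = fld a (s - s₀) x i
      rw [fld_shift h11]
    rw [e1]
    show _ + ∑ j, fld b t x j * _ = _ - pd i (fun y => (S (pk b t) y).re) x
    rw [← fld_shift h9, ← pk_shift h9]
    exact h10

end Pool.Agent.Run7.h782.HP
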