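import Pool.Agent.Run7.h782.HP.AllA
import Pool.Agent.Run7.h782.HP.IterF
import Pool.Agent.Run7.h782.HP.PhysO
import Pool.Agent.Run7.h969.HP.Lim
import Pool.Agent.Run7.h969.HP.Tgt3
import Pool.Agent.Run7.h811.HP.LocF
import Pool.Agent.Run7.h779.WQ.D1S

/-!
Project HP: assembly up to the local form.
-/

set_option autoImplicit false

namespace Pool.Agent.Run7.h782.HP

open Pool.Agent.Run7.h969.HP

theorem stmIterF : StmIterF := iterF stmStepF limF

theorem stmLocF : StmLocF :=
  Pool.Agent.Run7.h811.HP.locF stmIterF tgtF physO Pool.Agent.Run7.h779.WQ.d1s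

end Pool.Agent.Run7.h782.HP
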