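import Pool.Agent.Run7.h782.HP.FinBr
import Pool.Agent.Run7.h782.HP.AllC
import Pool.Agent.Run7.h969.HP.Br
import Pool.Agent.Run7.h219.HP.End5

/-!
Project HP: assembly, the branching theorem.
-/

set_option autoImplicit false

namespace Pool.Agent.Run7.h782.HP

open Pool.Agent.Run7.h969.HP

theorem stmBr : StmBr := br Pool.Agent.Run7.h219.HP.stmEnd Pool.Agent.Run7.h782.WQ.stmFinal stmHP

end Pool.Agent.Run7.h782.HP
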