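import Pool.Agent.Run7.h782.HP.SeqP
import Pool.Agent.Run7.h969.HP.Defs4

/-!
Project HP, piece IterU, part 1: the sequence with more exponents and smaller errors.
-/

set_option autoImplicit false

open MeasureTheory Set Filter Topology
open scoped ENNReal ComplexConjugate

namespace Pool.Agent.Run7.h782.HP

open H459R3.NS hiding W
open Pool.Agent.Run7.h782 Pool.Agent.Run7.h782.GD Pool.Agent.Run7.h782.GS
open Pool.Agent.Run7.h782.WS Pool.Agent.Run7.h969.GS Pool.Agent.Run7 Pool.Agent.Run7.h308.WS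
open Pool.Agent.Run7.h744.WS Pool.Agent.Run7.h969.WS Pool.Agent.Run7.h782.WQ
open Pool.Agent.Run7.h744.WQ Pool.Agent.Run7.h969.HP

/-- The choice of the truncations, with more exponents and smaller errors. -/
theorem exists_mU {Q : ℕ → ℝ} {c : Cf} {r : ℕ → Mf} (h : DatQ Q c r) (I : ℕ) {θ : ℕ → ℝ}
    (hθ : ∀ j, 0 < θ j) (hθ1 : ∀ j, θ j ≤ 1) :
    ∃ m : ℕ → ℕ, Tendsto m atTop atTop ∧
      (∀ j i k, i ≤ j + I → k ≤ j + I → rp (Q i / 2 ^ k) (r (m (j + 1)) - r (m j)) ≤ θ j) ∧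
      ((Summable fun k => ‖c k‖) → ∀ j, ∑' k, ‖dvr (r (m j)) k - c k‖ ≤ (1 / 2) ^ j) := by
  have h1 : ∀ j i : ℕ, ∃ m₀, ∀ m m', m₀ ≤ m → m₀ ≤ m' →
      rp (Q i) (r m - r m') ≤ θ j ^ (2 ^ (j + I)) := fun j i =>
    h.cau i _ (pow_pos (hθ j) _)
  choose a ha using h1
  have h2 : ∃ b : ℕ → ℕ, (Summable fun k => ‖c k‖) → ∀ j, ∀ n, b j ≤ n →
      ∑' k, ‖dvr (r n) k - c k‖ ≤ (1 / 2) ^ j := by
    by_cases hs : Summable fun k => ‖c k‖
    · have h3 : ∀ j : ℕ, ∃ b, ∀ n, b ≤ n → ∑' k, ‖dvr (r n) k - c k‖ ≤ (1 / 2) ^ j := fun j =>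
        eventually_atTop.1 ((h.wie hs).eventually (ge_mem_nhds (by positivity)))
      choose b hb using h3
      exact ⟨b, fun _ => hb⟩
    · exact ⟨0, fun h => absurd h hs⟩
  obtain ⟨b, hb⟩ := h2
  set m : ℕ → ℕ := fun j => ∑ l ∈ Finset.range (j + 1),
    (1 + b l + ∑ i ∈ Finset.range (l + I + 1), a l i) with hm
  have hmono : Monotone m := by
    refine monotone_nat_of_le_succ fun j => ?_
    rw [hm]
    simp only
    rw [Finset.sum_range_succ _ (j + 1)]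
    omega
  have hterm : ∀ j, 1 + b j + ∑ i ∈ Finset.range (j + I + 1), a j i ≤ m j := by
    intro j
    exact Finset.single_le_sum
      (f := fun l => 1 + b l + ∑ i ∈ Finset.range (l + I + 1), a l i) (fun _ _ => Nat.zero_le _)
      (Finset.mem_range.2 (Nat.lt_succ_self j))
  have hge : ∀ j, j ≤ m j := by
    intro j
    rw [hm]
    simp only
    calc j ≤ ∑ _l ∈ Finset.range (j + 1), 1 := by simp
      _ ≤ _ := Finset.sum_le_sum fun l _ => by omega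
  refine ⟨m, tendsto_atTop_mono hge tendsto_id, fun j i k hi hk => ?_, fun hs j => ?_⟩
  · have hai : a j i ≤ m j := by
      have h3 : a j i ≤ ∑ i ∈ Finset.range (j + I + 1), a j i :=
        Finset.single_le_sum (f := fun i => a j i) (fun _ _ => Nat.zero_le _)
          (Finset.mem_range.2 (by omega))
      have := hterm j
      omega
    have h4 := ha j i (m (j + 1)) (m j) (hai.trans (hmono (Nat.le_succ j))) hai
    have hr1 : R1 (r (m (j + 1)) - r (m j)) := by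
      obtain ⟨Z, hZ⟩ := h.supp (m (j + 1))
      obtain ⟨Z', hZ'⟩ := h.supp (m j)
      exact r1sub (r1_of_supp hZ) (r1_of_supp hZ')
    have hQ : 0 < Q i := by linarith [h.one i]
    have h5 := stmQ0.2.2.1 (Q i / 2 ^ k) (Q i) _ (by positivity)
      (div_le_self hQ.le (one_le_pow₀ (by norm_num))) hr1
    refine h5.trans ?_
    have e1 : Q i / 2 ^ k / Q i = 1 / 2 ^ k := by field_simp
    rw [e1]
    have ht := hθ j
    calc rp (Q i) (r (m (j + 1)) - r (m j)) ^ (1 / 2 ^ k : ℝ)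
        ≤ (θ j ^ (2 ^ (j + I))) ^ (1 / 2 ^ k : ℝ) :=
          Real.rpow_le_rpow (rp_nonneg _ _) h4 (by positivity)
      _ = θ j ^ ((2 : ℝ) ^ (j + I) * (1 / 2 ^ k)) := by
          rw [← Real.rpow_natCast, ← Real.rpow_mul ht.le]
          push_cast
          rfl
      _ ≤ θ j ^ (1 : ℝ) := by
          refine Real.rpow_le_rpow_of_exponent_ge ht (hθ1 j) ?_
          rw [mul_one_div, le_div_iff₀ (by positivity), one_mul]
          exact pow_le_pow_right₀ (by norm_num) hk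
      _ = θ j := Real.rpow_one _
  · refine hb hs j (m j) ?_
    have := hterm j
    omega

/-- The exponents increase. -/
theorem ex_mono (Q : ℕ → ℝ) {j j' : ℕ} (h : j ≤ j') : Ex Q j ⊆ Ex Q j' := by
  intro p hp
  rw [Ex, Finset.mem_union, Finset.mem_union, Finset.mem_image, Finset.mem_image,
    Finset.mem_singleton] at hp
  rcases hp with (⟨x, hx, rfl⟩ | ⟨i, hi, rfl⟩) | rfl
  · rw [Finset.mem_product, Finset.mem_range, Finset.mem_range] at hx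
    exact mem_ex (by omega) (by omega)
  · rw [Finset.mem_range] at hi
    exact mem_ex2 (by omega)
  · exact mem_ex1 Q j'

/-- The errors decrease. -/
theorem th_mono (Q : ℕ → ℝ) {j j' : ℕ} (h : j ≤ j') : th Q j' ≤ th Q j := by
  have h1 := one_le_wx Q j
  have h2 : Wx Q j ≤ Wx Q j' := by
    rw [Wx, Wx]
    have := Finset.sum_le_sum_of_subset_of_nonneg (f := fun p : ℝ => (2 : ℝ) ^ p) (ex_mono Q h)
      fun _ _ _ => by positivity
    linarith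
  have h3 : ((1 : ℝ) / 4) ^ (j' ^ 2) ≤ (1 / 4) ^ (j ^ 2) :=
    pow_le_pow_of_le_one (by norm_num) (by norm_num) (Nat.pow_le_pow_left h 2)
  have h4 : ((1 : ℝ) / 4) ^ j' ≤ (1 / 4) ^ j :=
    pow_le_pow_of_le_one (by norm_num) (by norm_num) h
  rw [th, th]
  gcongr

/-- Monotonicity of the conclusion of one step. -/
theorem StpQF.weaken {ff : ℝ → Cf} {C : ℝ → ℝ} (hC : ∀ p, 0 < C p) {ν κ θ θ' H : ℝ}
    {E E' : Finset ℝ} {U : ℝ → Cf} {z : Cf} {r : Mf} {ε : ℝ} {a : ℝ → Cf}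
    (h : StpQF ff C ν κ θ' H E' U z r ε a) (hE : E ⊆ E') (hθ : θ' ≤ θ) :
    StpQF ff C ν κ θ H E U z r ε a where
  csol := h.csol
  tg := h.tg
  st := fun p hp => (h.st p (hE hp)).trans (by linarith)
  tm := fun q hq hq2 => (h.tm q (hE hq) hq2).trans (ENNReal.ofReal_le_ofReal (by linarith))
  pt := h.pt
  int := h.int
  l2 := h.l2.trans (ENNReal.ofReal_le_ofReal (mul_le_mul_of_nonneg_left (by linarith) (hC 2).le))
  close := h.close

/-- The sequence with more exponents and smaller errors. -/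
structure SQU (I : ℕ) (η : ℝ) (ff : ℝ → Cf) (C : ℝ → ℝ) (ν δ : ℝ) (U : ℝ → Cf) (Q : ℕ → ℝ) (c : Cf)
    (r : ℕ → Mf) (φ Φ : ℝ → ℝ) (m : ℕ → ℕ) (A : ℕ → ℝ → Cf) (ε H : ℕ → ℝ) : Prop
    extends SQP ff C ν δ U Q c r φ Φ m A ε H where
  st' : ∀ n, StpQF ff C ν ((1 / 4) ^ n) (η * th Q (n + I)) (H n) (Ex Q (n + I)) (A n)
    (dvr (r (m n))) (sts r m n (A n 0)) (ε n) (A (n + 1))
  dif' : ∀ j i k, i ≤ j + I → k ≤ j + I →
    rp (Q i / 2 ^ k) (r (m (j + 1)) - r (m j)) ≤ η * th Q (j + I)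

theorem exists_sqU (hStep : StmStepF) : ∃ C : ℝ → ℝ, (∀ p, 0 < C p) ∧ ∀ ff : ℝ → Cf, Frc ff →
    ∀ (ν : ℝ), 0 < ν → ∀ (I : ℕ) (η : ℝ), 0 < η → η ≤ 1 →
    ∀ U : ℝ → Cf, TgF ff ν U → ∀ (Q : ℕ → ℝ) (c : Cf) (r : ℕ → Mf), DatQ Q c r →
    ∀ φ : ℝ → ℝ, Gauge φ → ∀ Φ : ℝ → ℝ, Orl Φ → ∀ δ : ℝ, 0 < δ →
    ∃ (m : ℕ → ℕ) (A : ℕ → ℝ → Cf) (ε H : ℕ → ℝ), SQU I η ff C ν δ U Q c r φ Φ m A ε H := by
  obtain ⟨C, hC, Hs⟩ := stpq_of_stepF hStep
  refine ⟨C, hC, fun ff hff ν hν I η hη hη1 U hU Q c r hdat φ hφ Φ hΦ δ hδ => ?_⟩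
  have hθp : ∀ n, 0 < η * th Q (n + I) := fun n => mul_pos hη (th_pos _ _)
  have hθle : ∀ n, η * th Q (n + I) ≤ th Q n := fun n =>
    (mul_le_of_le_one_left (th_pos _ _).le hη1).trans (th_mono Q (Nat.le_add_right n I))
  obtain ⟨m, hm1, hm2, hm3⟩ := exists_mU hdat I hθp fun n => (hθle n).trans (th_le1 Q n)
  obtain ⟨f, hf0, hP, hR⟩ := exists_rec (X := (ℝ → Cf) × ℝ)
    (fun x => TgF ff ν x.1 ∧ 0 < x.2)
    (fun n x y => ∃ H' : ℝ, 0 ≤ H' ∧ StpQF ff C ν ((1 / 4) ^ n) (η * th Q (n + I)) H'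
      (Ex Q (n + I)) x.1 (dvr (r (m n))) (sts r m n (x.1 0)) y.2 y.1 ∧
      StpG φ ((1 / 2) ^ n) ((1 / 2) ^ n) (12 * 2 ^ n) x.1 (dvr (r (m n))) y.2 y.1 ∧
      y.2 ≤ x.2 ∧ y.2 ≤ (1 / 2) ^ n ∧ y.2 ≤ δ * (1 / 2) ^ (n + 1) ∧
      ∫⁻ t in Ioc (0 : ℝ) 1, Ph Φ (2 ^ (n + 1) * Sd (y.1 t) (x.1 t)) ≤ ENNReal.ofReal δ)
    (U, 1) ⟨hU, one_pos⟩ (by
      rintro n ⟨a, e⟩ ⟨ha, he⟩
      obtain ⟨Z, hZ⟩ := hdat.supp (m n)
      have hl : L1 (a 0) := Maj.l1 ha.maj le_rfl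
      obtain ⟨H', hH0, hH'⟩ := Hs ff hff ν hν ((1 / 4) ^ n) (by positivity)
        (pow_le_one₀ (by norm_num) (by norm_num)) (Ex Q (n + I)) (ex_pos hdat.one (n + I)) a ha
        (Z.erase 0) (dvr (r (m n))) (Finset.notMem_erase _ _) (dvr_supp hZ)
        (herm_dvr (hdat.sy _)) (dv_dvr _) (sts r m n (a 0))
        (sts_sy hdat m n (ha.herm 0 le_rfl)) (sts_r1 hdat m n hl)
        (sts_dvr r m n (ha.div 0 le_rfl) (ha.zero 0 le_rfl)) (η * th Q (n + I)) (hθp n)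
      have e1 : ∀ᶠ ε in 𝓝[>] (0 : ℝ), 0 < ε := self_mem_nhdsWithin
      have e2 : ∀ κ : ℝ, 0 < κ → ∀ᶠ ε in 𝓝[>] (0 : ℝ), ε ≤ κ := fun κ hκ =>
        nhdsWithin_le_nhds (ge_mem_nhds hκ)
      have e3 : η * th Q (n + I) ≤ (1 / 2) ^ n :=
        (hθle n).trans ((th_le Q n).trans (pow_le_pow_left₀ (by norm_num) (by norm_num) n))
      obtain ⟨ε, h1, h2, h3, h4, h5, b, hb, hb'⟩ := (e1.and ((e2 e he).and ((e2 ((1 / 2) ^ n)
        (by positivity)).and ((e2 (δ * (1 / 2) ^ (n + 1)) (by positivity)).and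
          ((stageO hΦ (M := 2 ^ (n + 1)) (by positivity) hδ hH0).and
          (hH' φ hφ (12 * 2 ^ n) ((1 / 2) ^ n) ((1 / 2) ^ n) (by positivity) (by positivity)
            e3)))))).exists
      refine ⟨(b, ε), ⟨hb.tg, h1⟩, H', hH0, hb, hb', h2, h3, h4, ?_⟩
      have h6 := h5 (fun t => Sd (b t) (a t)) (fun t ht => hb.pt t ht.1) hb.int
      rw [← two_pow_coe] at h6
      exact h6)
  choose H' hH0 hst hsg h1 h2 h3 h4 using hR
  exact ⟨m, fun n => (f n).1, fun n => (f (n + 1)).2, H',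
    { dat := hdat
      init := by simp [hf0]
      tgt := fun n => (hP n).1
      top := hm1
      dif := fun j i k hi hk => (hm2 j i k (by omega) (by omega)).trans (hθle j)
      wie := hm3
      st := fun n => (hst n).weaken hC (ex_mono Q (Nat.le_add_right n I)) (hθle n)
      sg := hsg
      e0 := fun n => (hP (n + 1)).2
      e1 := h2
      e2 := h3
      ea := antitone_nat_of_succ_le fun n => h1 (n + 1)
      H0 := hH0
      orl := h4
      st' := hst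
      dif' := hm2 }⟩

end Pool.Agent.Run7.h782.HP
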