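import Pool.Agent.Run7.h782.HP.IterP
import Pool.Agent.Run7.h782.HP.SeqU

/-!
Project HP, piece IterU: the infinite iteration with a bound for the norms in `L² L^(2 Q i)`.
-/

set_option autoImplicit false

open MeasureTheory Set Filter Topology
open scoped ENNReal ComplexConjugate

namespace Pool.Agent.Run7.h782.HP

open H459R3.NS hiding W
open Pool.Agent.Run7.h782 Pool.Agent.Run7.h782.GD Pool.Agent.Run7.h782.GS
open Pool.Agent.Run7.h782.WS Pool.Agent.Run7.h969.GS Pool.Agent.Run7 Pool.Agent.Run7.h308.WS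
open Pool.Agent.Run7.h744.WS Pool.Agent.Run7.h969.WS Pool.Agent.Run7.h782.WQ
open Pool.Agent.Run7.h744.WQ Pool.Agent.Run7.h969.HP

/-- The limit of a sequence with the Orlicz clause. -/
theorem iterP_core (hLim : StmLimF) {C₀ : ℝ → ℝ} (hC₀ : ∀ p, 0 < C₀ p) {ff : ℝ → Cf}
    (hff : Frc ff) {ν : ℝ} (hν : 0 < ν) {U : ℝ → Cf} {Q : ℕ → ℝ} {c : Cf} {r : ℕ → Mf}
    (hdat : DatQ Q c r) {φ Φ : ℝ → ℝ} (hφ : Gauge φ) (hΦ : Orl Φ) {δ : ℝ} (hδ : 0 < δ)
    {m : ℕ → ℕ} {A : ℕ → ℝ → Cf} {ε Hn : ℕ → ℝ} (hq : SQP ff C₀ ν δ U Q c r φ Φ m A ε Hn) :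
    ∃ b : ℝ → Cf, (∀ t, 0 < t → ∀ k, Tendsto (fun j => A (j + 1) t k) atTop (𝓝 (b t k))) ∧
    (∀ τ : ℝ, 0 < τ → FSo ν (fun t => ff (t + τ)) (fun t => b (t + τ))) ∧
    (∀ k, Tendsto (fun t => b t k) (𝓝[>] 0) (𝓝 (c k))) ∧
    (∃ C : ℝ, ∀ t, 0 < t → t ≤ 1 → ∀ k, ‖b t k‖ ≤ C * (1 + len k) ^ 2) ∧
    Tendsto (fun t => Real.sqrt t * ∑' k, ‖b t k‖) (𝓝[>] 0) (𝓝 0) ∧
    IntegrableOn (fun t => φ (Real.sqrt t * ∑' k, ‖b t k‖) / t) (Ioc 0 1) ∧
    (∀ n, IntegrableOn (fun t => fp (2 * Q n) (b t) ^ (1 / Q n)) (Ioc 0 1)) ∧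
    IntegrableOn (fun t => ∑' k, ‖b t k‖ ^ 2) (Ioc 0 1) ∧
    (∀ t, 0 < t → ∀ A : Finset K3, ∑ k ∈ A, ‖b t k - U t k‖ ≤ δ / Real.sqrt t) ∧
    ∫⁻ t in Ioc (0 : ℝ) 1, ENNReal.ofReal (Φ (∑' k, ‖b t k - U t k‖)) ≤ ENNReal.ofReal δ ∧
    ∀ t, δ ≤ t → ∀ A : Finset K3, ∑ k ∈ A, ‖b t k - U t k‖ ≤ δ := by
  obtain ⟨b, hlim, h1, h2, h3, h4, h5, h6, h7, h8, h9⟩ :=
    iter_core hLim hC₀ hff hν hdat hφ hδ hq.toSQF
  refine ⟨b, hlim, h1, h2, h3, h4, h5, h6, h7, h8, ?_, h9⟩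
  have hA0 := hq.init
  have hst := hq.st
  have hcn : ∀ n, Cnt (A n) := fun n => (hq.tgt n).toLSolF.cnt_h
  have hfin : ∀ t, 0 < t → ∑' i, Sd (A (i + 1) t) (A i t) ≠ ⊤ := by
    intro t ht
    have hss := Real.sqrt_pos.2 ht
    refine ne_top_of_le_ne_top (ENNReal.ofReal_ne_top (r := ∑' i, ε i / Real.sqrt t)) ?_
    rw [ENNReal.ofReal_tsum_of_nonneg (fun i => div_nonneg (hq.e0 _).le hss.le)
      (hq.sum.div_const _)]
    exact ENNReal.tsum_le_tsum fun i => (hst i).pt t ht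
  have h10 : ∀ t ∈ Ioc (0 : ℝ) 1, ENNReal.ofReal (Φ (∑' k, ‖b t k - U t k‖))
      ≤ Ph Φ (∑' i, Sd (A (i + 1) t) (A i t)) := by
    intro t ht
    obtain ⟨h11, -⟩ := hq.tail_summable hlim ht.1 0
    rw [hA0] at h11
    have e1 : ENNReal.ofReal (Φ (∑' k, ‖b t k - U t k‖))
        = Ph Φ (∑' k, ENNReal.ofReal ‖b t k - U t k‖) := by
      rw [Ph, ← ENNReal.ofReal_tsum_of_nonneg (fun _ => norm_nonneg _) h11,
        ENNReal.toReal_ofReal (tsum_nonneg fun _ => norm_nonneg _)]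
    rw [e1]
    refine PhO_mono hΦ ?_ (hfin t ht.1)
    calc ∑' k, ENNReal.ofReal ‖b t k - U t k‖
        ≤ ∑' k, ∑' i, ENNReal.ofReal ‖A (0 + i + 1) t k - A (0 + i) t k‖ := by
          rw [← hA0]
          exact ENNReal.tsum_le_tsum fun k => tel (hlim t ht.1) 0 k
      _ = ∑' i, Sd (A (i + 1) t) (A i t) := by
          rw [ENNReal.tsum_comm]
          simp only [zero_add]
          rfl
  calc ∫⁻ t in Ioc (0 : ℝ) 1, ENNReal.ofReal (Φ (∑' k, ‖b t k - U t k‖))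
      ≤ ∫⁻ t in Ioc (0 : ℝ) 1, Ph Φ (∑' i, Sd (A (i + 1) t) (A i t)) :=
        setLIntegral_mono' measurableSet_Ioc h10
    _ ≤ ∑' i : ℕ, ENNReal.ofReal ((1 / 2) ^ (i + 1))
        * ∫⁻ t in Ioc (0 : ℝ) 1, Ph Φ (2 ^ (i + 1) * Sd (A (i + 1) t) (A i t)) := by
        refine lintO_tsum hΦ (fun i => Sd_meas (hcn _) (hcn _)) ?_
        filter_upwards [self_mem_ae_restrict measurableSet_Ioc] with t ht
        exact hfin t ht.1
    _ ≤ ∑' i : ℕ, ENNReal.ofReal ((1 / 2) ^ (i + 1)) * ENNReal.ofReal δ :=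
        ENNReal.tsum_le_tsum fun i => mul_le_mul' le_rfl (hq.orl i)
    _ = ENNReal.ofReal δ := by
        rw [ENNReal.tsum_mul_right, ← ENNReal.ofReal_tsum_of_nonneg (fun i => by positivity)
          ((summable_nat_add_iff 1).2
            (summable_geometric_of_lt_one (by norm_num) (by norm_num)))]
        have h6 : ∑' i : ℕ, (1 / 2 : ℝ) ^ (i + 1) = 1 := by
          simp_rw [pow_succ]
          rw [tsum_mul_right, tsum_geometric_of_lt_one (by norm_num) (by norm_num)]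
          norm_num
        rw [h6, ENNReal.ofReal_one, one_mul]

section

variable {ff : ℝ → Cf} {C : ℝ → ℝ} {ν δ : ℝ} {U : ℝ → Cf} {Q : ℕ → ℝ} {c : Cf} {r : ℕ → Mf} {φ : ℝ → ℝ}
  {m : ℕ → ℕ} {A : ℕ → ℝ → Cf} {ε H : ℕ → ℝ} {b : ℝ → Cf}

theorem nrm_tel_sub (h : SQF ff C ν δ U Q c r φ m A ε H) {q : ℝ} (hq : 1 ≤ q) {t : ℝ} (ht : 0 < t)
    (n : ℕ) : nrm q (A n t - A 0 t) ≤ ∑ i ∈ Finset.range n, nrm q (A (i + 1) t - A i t) := by
  have hq0 : 0 < q := by linarith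
  induction n with
  | zero =>
    rw [sub_self, Finset.range_zero, Finset.sum_empty]
    have hz : L1 (0 : Cf) := by
      have e : (fun k : K3 => ‖(0 : Cf) k‖) = fun _ => (0 : ℝ) := by
        funext k
        simp
      show Summable fun k : K3 => ‖(0 : Cf) k‖
      rw [e]
      exact summable_zero
    have h1 := stmQ0.2.2.2.2.2.1 q (0 : Cf) hq0 hz
    have h2 : fp q (0 : Cf) ≤ 0 := by
      refine h1.trans (le_of_eq ?_)
      simp [Real.zero_rpow hq0.ne']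
    rw [nrm, le_antisymm h2 (fp_nonneg _ _), Real.zero_rpow (by positivity)]
  | succ n ih =>
    rw [Finset.sum_range_succ]
    have h1 := stmQ0.2.2.2.2.2.2.1 q (A n t - A 0 t) (A (n + 1) t - A n t) hq
      ((h.l1t _ ht.le).sub (h.l1t _ ht.le)) ((h.l1t _ ht.le).sub (h.l1t _ ht.le))
    rw [show A n t - A 0 t + (A (n + 1) t - A n t) = A (n + 1) t - A 0 t by abel] at h1
    have h2 : nrm q (A (n + 1) t - A 0 t) ≤ nrm q (A n t - A 0 t)
        + nrm q (A (n + 1) t - A n t) := h1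
    exact h2.trans (add_le_add ih le_rfl)

theorem nrm_le_sub (h : SQF ff C ν δ U Q c r φ m A ε H)
    (hlim : ∀ t, 0 < t → ∀ k, Tendsto (fun j => A (j + 1) t k) atTop (𝓝 (b t k)))
    {q : ℝ} (hq : 1 ≤ q) {t : ℝ} (ht : 0 < t) :
    ENNReal.ofReal (nrm q (b t - A 0 t))
      ≤ ∑' i, ENNReal.ofReal (nrm q (A (i + 1) t - A i t)) := by
  have hq0 : 0 < q := by linarith
  have hT : Tendsto (fun J => ∑' k, ‖(A J t - A 0 t) k - (b t - A 0 t) k‖) atTop (𝓝 0) := by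
    refine (h.tendsto_l1 hlim ht).congr fun J => tsum_congr fun k => ?_
    rw [Pi.sub_apply, Pi.sub_apply, sub_sub_sub_cancel_right]
  have h1 : Tendsto (fun n => fp q (A n t - A 0 t)) atTop (𝓝 (fp q (b t - A 0 t))) :=
    stmQ0.2.2.2.2.2.2.2.1 q (b t - A 0 t) hq0 ((h.l1b hlim ht).sub (h.l1t 0 ht.le))
      (fun n => A n t - A 0 t) (fun n => (h.l1t _ ht.le).sub (h.l1t 0 ht.le)) hT
  have h2 : Tendsto (fun n => ENNReal.ofReal (nrm q (A n t - A 0 t))) atTop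
      (𝓝 (ENNReal.ofReal (nrm q (b t - A 0 t)))) :=
    (ENNReal.continuous_ofReal.tendsto _).comp
      (h1.rpow_const (p := 1 / q) (Or.inr (by positivity)))
  refine le_of_tendsto' h2 fun n => ?_
  refine (ENNReal.ofReal_le_ofReal (nrm_tel_sub h hq ht n)).trans ?_
  rw [ENNReal.ofReal_sum_of_nonneg fun _ _ => nrm_nonneg _ _]
  exact ENNReal.sum_le_tsum _

/-- The norm of the sum of the steps. -/
theorem quant (h : SQF ff C ν δ U Q c r φ m A ε H)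
    (hlim : ∀ t, 0 < t → ∀ k, Tendsto (fun j => A (j + 1) t k) atTop (𝓝 (b t k))) (i : ℕ)
    {G : ℝ} (hG : 0 ≤ G) (hst : ∀ j : ℕ, ∫⁻ t in Ioc (0 : ℝ) 1,
      ENNReal.ofReal (fp (2 * Q i) (A (j + 1) t - A j t) ^ (1 / Q i))
        ≤ ENNReal.ofReal (G * (1 / 4) ^ j)) :
    ∫⁻ t in Ioc (0 : ℝ) 1, ENNReal.ofReal (fp (2 * Q i) (b t - U t) ^ (1 / Q i))
      ≤ ENNReal.ofReal (4 * G) := by
  have hQ := h.Qpos i
  have hQ1 := h.dat.one i
  set q : ℝ := 2 * Q i with hq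
  have hq1 : 1 ≤ q := by linarith
  have hq0 : 0 < q := by linarith
  have hsqr : ∀ c : Cf, ENNReal.ofReal (nrm q c) ^ (2 : ℝ)
      = ENNReal.ofReal (fp q c ^ (1 / Q i)) := by
    intro c
    rw [ENNReal.ofReal_rpow_of_nonneg (nrm_nonneg _ _) (by norm_num), nrm,
      ← Real.rpow_mul (fp_nonneg _ _)]
    congr 2
    rw [hq]
    field_simp
  set μ := volume.restrict (Ioc (0 : ℝ) 1) with hμ
  set Ψ : ℕ → ℝ → ℝ≥0∞ := fun j t => ENNReal.ofReal (nrm q (A (j + 1) t - A j t)) with hΨ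
  have hΨm : ∀ j, AEMeasurable (Ψ j) μ := fun j =>
    ENNReal.measurable_ofReal.comp_aemeasurable (ContinuousOn.aemeasurable
      ((nrm_cont h hq1 j).mono fun t ht => ht.1.le) measurableSet_Ioc)
  have hΨn : ∀ j, Nq μ 2 (Ψ j) ≤ ENNReal.ofReal (Real.sqrt G * (1 / 2) ^ j) := by
    intro j
    rw [Nq]
    have e1 : ∀ t, Ψ j t ^ (2 : ℝ)
        = ENNReal.ofReal (fp q (A (j + 1) t - A j t) ^ (1 / Q i)) := fun t => hsqr _
    simp_rw [e1]
    refine (ENNReal.rpow_le_rpow (hst j) (by norm_num)).trans ?_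
    rw [ENNReal.ofReal_rpow_of_nonneg (by positivity) (by norm_num), ← Real.sqrt_eq_rpow,
      Real.sqrt_mul hG]
    refine ENNReal.ofReal_le_ofReal (mul_le_mul_of_nonneg_left ?_ (Real.sqrt_nonneg _))
    refine Real.sqrt_le_iff.2 ⟨by positivity, ?_⟩
    rw [← pow_mul, mul_comm j 2, pow_mul]
    norm_num
  have hfin : Nq μ 2 (fun t => ENNReal.ofReal (nrm q (b t - U t)))
      ≤ ENNReal.ofReal (2 * Real.sqrt G) := by
    calc Nq μ 2 (fun t => ENNReal.ofReal (nrm q (b t - U t)))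
        ≤ Nq μ 2 (fun t => ∑' j, Ψ j t) := by
          refine Nq_mono (by norm_num) ?_
          filter_upwards [self_mem_ae_restrict measurableSet_Ioc] with t ht
          have := nrm_le_sub h hlim hq1 ht.1
          rwa [h.init] at this
      _ ≤ ∑' j, Nq μ 2 (Ψ j) := Nq_tsum (by norm_num) hΨm
      _ ≤ ∑' j : ℕ, ENNReal.ofReal (Real.sqrt G * (1 / 2) ^ j) := ENNReal.tsum_le_tsum hΨn
      _ = ENNReal.ofReal (2 * Real.sqrt G) := by
          rw [← ENNReal.ofReal_tsum_of_nonneg (fun j => by positivity)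
            ((summable_geometric_of_lt_one (by norm_num) (by norm_num)).mul_left _),
            tsum_mul_left, tsum_geometric_of_lt_one (by norm_num) (by norm_num)]
          congr 1
          ring
  rw [Nq] at hfin
  have h2 := ENNReal.rpow_le_rpow hfin (show (0 : ℝ) ≤ 2 by norm_num)
  rw [← ENNReal.rpow_mul] at h2
  simp_rw [hsqr] at h2
  rw [show 1 / (2 : ℝ) * 2 = 1 by norm_num, ENNReal.rpow_one,
    ENNReal.ofReal_rpow_of_nonneg (by positivity) (by norm_num)] at h2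
  refine h2.trans (le_of_eq ?_)
  congr 1
  rw [Real.rpow_two, mul_pow, Real.sq_sqrt hG]
  norm_num

end

/-- **Piece IterU.** -/
theorem iterU (hStep : StmStepF) (hLim : StmLimF) (hRec : StmRecU) : StmIterU := by
  obtain ⟨C₀, hC₀, HS⟩ := exists_sqU hStep
  intro ν hν Q hQ I θ hθ
  have hQp : ∀ i, 0 < Q i := fun i => by linarith [hQ i]
  -- the constants
  set K : ℕ → ℕ → ℝ := fun i a =>
    2 ^ (Q i / 2 ^ a) * (C₀ (Q i / 2 ^ a) * ν ^ (Q i / 2 ^ a / 2)) with hK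
  have hK0 : ∀ i a, 0 ≤ K i a := fun i a => by
    have := (hC₀ (Q i / 2 ^ a)).le
    rw [hK]
    positivity
  set θ' : ℕ → ℝ := fun i => (θ / (8 * C₀ (2 * Q i))) ^ Q i with hθ'
  have hθ'0 : ∀ i, 0 < θ' i := fun i => by
    have := hC₀ (2 * Q i)
    rw [hθ']
    positivity
  have hrec := fun i => hRec (K i) (Q i) (hQp i) (hK0 i) (2 * Q i) (θ' i) (hθ'0 i)
  choose I' η' hη' hR using hrec
  set I₂ : ℕ := I + ∑ i ∈ Finset.range (I + 1), I' i with hI₂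
  have hII : I ≤ I₂ := Nat.le_add_right _ _
  have hIi : ∀ i, i ≤ I → I' i ≤ I₂ := fun i hi =>
    (Finset.single_le_sum (f := I') (fun _ _ => Nat.zero_le _)
      (Finset.mem_range.2 (by omega))).trans (Nat.le_add_left _ _)
  obtain ⟨η₁, h0, h1, h2, h3⟩ : ∃ η₁ : ℝ, 0 < η₁ ∧ η₁ ≤ 1 ∧ η₁ ≤ θ / 8 ∧
      ∀ i, i ≤ I → η₁ ≤ η' i := by
    have e1 : ∀ᶠ x in 𝓝[>] (0 : ℝ), 0 < x := self_mem_nhdsWithin
    have e2 : ∀ κ : ℝ, 0 < κ → ∀ᶠ x in 𝓝[>] (0 : ℝ), x ≤ κ := fun κ hκ =>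
      nhdsWithin_le_nhds (ge_mem_nhds hκ)
    have e3 : ∀ᶠ x in 𝓝[>] (0 : ℝ), ∀ i ∈ Finset.range (I + 1), x ≤ η' i :=
      (Finset.range (I + 1)).eventually_all.2 fun i _ => e2 _ (hη' i)
    obtain ⟨x, ha, hb, hc, hd⟩ := (e1.and ((e2 1 one_pos).and
      ((e2 (θ / 8) (by positivity)).and e3))).exists
    exact ⟨x, ha, hb, hc, fun i hi => hd i (Finset.mem_range.2 (by omega))⟩
  refine ⟨η₁ ^ 2 ^ I₂, by positivity, fun f hf U hU c r hdat hsm φ hφ Φ hΦ δ hδ => ?_⟩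
  obtain ⟨m, A, ε, H, hq⟩ := HS f hf ν hν I₂ η₁ h0 h1 U hU Q c r hdat φ hφ Φ hΦ δ hδ
  obtain ⟨b, hlim, c1, c2, c3, c4, c5, c6, c7, c8, c9, c10⟩ :=
    iterP_core hLim hC₀ hf hν hdat hφ hΦ hδ hq.toSQP
  refine ⟨b, c1, c2, c3, c4, c5, c6, c7, c8, c9, c10, fun i hi => ?_⟩
  have hqF : SQF f C₀ ν δ U Q c r φ m A ε H := hq.toSQF
  have hQi := hQp i
  have hQ1 := hQ i
  have hmono : ∀ j a b, a ≤ b → rp (Q i / 2 ^ b) (rho r m A j)
      ≤ 1 + rp (Q i / 2 ^ a) (rho r m A j) := by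
    intro j a b hab
    refine stmQ0.2.2.2.1 _ _ _ (by positivity) ?_ (hqF.r1 j)
    exact div_le_div_of_nonneg_left hQi.le (by positivity) (pow_le_pow_right₀ (by norm_num) hab)
  -- the first stress
  have hx0 : ∀ a, a ≤ I₂ → rp (Q i / 2 ^ a) (rho r m A 0) ≤ η₁ := by
    intro a ha
    have e0 : rho r m A 0 = r (m 0) - anti (U 0) := by
      rw [Pool.Agent.Run7.h744.WQ.rho, sts, hqF.init]
      simp only [pst]
      rw [Pool.Agent.Run7.h744.WQ.dvr_zero, sub_zero, sub_zero]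
    have e1 := hsm i hi (m 0)
    rw [← e0] at e1
    have e2 := stmQ0.2.2.1 (Q i / 2 ^ a) (Q i) _ (by positivity)
      (div_le_self hQi.le (one_le_pow₀ (by norm_num))) (hqF.r1 0)
    refine e2.trans ?_
    have e3 : Q i / 2 ^ a / Q i = 1 / 2 ^ a := by field_simp
    rw [e3]
    calc rp (Q i) (rho r m A 0) ^ (1 / 2 ^ a : ℝ) ≤ (η₁ ^ 2 ^ I₂) ^ (1 / 2 ^ a : ℝ) :=
          Real.rpow_le_rpow (rp_nonneg _ _) e1 (by positivity)
      _ = η₁ ^ ((2 : ℝ) ^ I₂ * (1 / 2 ^ a)) := by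
          rw [← Real.rpow_natCast, ← Real.rpow_mul h0.le]
          push_cast
          rfl
      _ ≤ η₁ ^ (1 : ℝ) := by
          refine Real.rpow_le_rpow_of_exponent_ge h0 h1 ?_
          rw [mul_one_div, le_div_iff₀ (by positivity), one_mul]
          exact pow_le_pow_right₀ (by norm_num) ha
      _ = η₁ := Real.rpow_one _
  -- the recursion
  have hrc : ∀ j a, a ≤ j + I₂ → rp (Q i / 2 ^ a) (rho r m A (j + 1))
      ≤ K i a * (1 / 4 : ℝ) ^ ((j : ℝ) * (1 - Q i / 2 ^ (a + 1)))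
        * rp (Q i / 2 ^ (a + 1)) (rho r m A j) + η₁ * (1 / 4) ^ (j ^ 2) := by
    intro j a haj
    have hp : 0 < Q i / 2 ^ a := by positivity
    have hij : i ≤ j + I₂ := by omega
    have hmem := mem_ex (Q := Q) hij haj
    have g1 := hqF.next hp j
    have g2 := hq.dif' j i a hij haj
    have g3 := (hq.st' j).st _ hmem
    have g4 := th_wx hmem
    have e1 : Q i / 2 ^ a / 2 = Q i / 2 ^ (a + 1) := by
      rw [pow_succ, div_div]
    have e2 : (((1 : ℝ) / 4) ^ j) ^ (1 - Q i / 2 ^ a / 2)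
        = (1 / 4 : ℝ) ^ ((j : ℝ) * (1 - Q i / 2 ^ (a + 1))) := by
      rw [e1, ← Real.rpow_natCast, ← Real.rpow_mul (by norm_num)]
    rw [e2] at g3
    have h5 : (0 : ℝ) < 2 ^ (Q i / 2 ^ a) := by positivity
    have h6 : 2 ^ (Q i / 2 ^ a) * (η₁ * th Q (j + I₂) + η₁ * th Q (j + I₂))
        ≤ η₁ * (1 / 4) ^ (j ^ 2) := by
      have h7 : ((1 : ℝ) / 4) ^ ((j + I₂) ^ 2) ≤ (1 / 4) ^ (j ^ 2) :=
        pow_le_pow_of_le_one (by norm_num) (by norm_num)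
          (Nat.pow_le_pow_left (Nat.le_add_right j I₂) 2)
      calc 2 ^ (Q i / 2 ^ a) * (η₁ * th Q (j + I₂) + η₁ * th Q (j + I₂))
          = η₁ * (2 ^ (Q i / 2 ^ a) * (th Q (j + I₂) + th Q (j + I₂))) := by ring
        _ ≤ η₁ * (1 / 4) ^ (j ^ 2) := mul_le_mul_of_nonneg_left (g4.trans h7) h0.le
    calc rp (Q i / 2 ^ a) (rho r m A (j + 1))
        ≤ 2 ^ (Q i / 2 ^ a) * (η₁ * th Q (j + I₂) + (C₀ (Q i / 2 ^ a) * ν ^ (Q i / 2 ^ a / 2)
          * (1 / 4 : ℝ) ^ ((j : ℝ) * (1 - Q i / 2 ^ (a + 1)))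
          * rp (Q i / 2 ^ a / 2) (rho r m A j) + η₁ * th Q (j + I₂))) :=
          g1.trans (mul_le_mul_of_nonneg_left (add_le_add g2 g3) h5.le)
      _ = 2 ^ (Q i / 2 ^ a) * (C₀ (Q i / 2 ^ a) * ν ^ (Q i / 2 ^ a / 2))
          * (1 / 4 : ℝ) ^ ((j : ℝ) * (1 - Q i / 2 ^ (a + 1)))
          * rp (Q i / 2 ^ (a + 1)) (rho r m A j)
          + 2 ^ (Q i / 2 ^ a) * (η₁ * th Q (j + I₂) + η₁ * th Q (j + I₂)) := by
          rw [e1]
          ring
      _ ≤ _ := add_le_add le_rfl h6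
  have hdec := hR i η₁ h0 (h3 i hi) I₂ (hIi i hi) (fun j a => rp (Q i / 2 ^ a) (rho r m A j))
    (fun j a => rp_nonneg _ _) hmono hx0 hrc
  -- the norms of the steps
  have hstp : ∀ j : ℕ, ∫⁻ t in Ioc (0 : ℝ) 1,
      ENNReal.ofReal (fp (2 * Q i) (A (j + 1) t - A j t) ^ (1 / Q i))
        ≤ ENNReal.ofReal (θ / 4 * (1 / 4) ^ j) := by
    intro j
    have g1 := (hq.st' j).tm (2 * Q i) (mem_ex2 (by omega)) (by linarith)
    have e1 : 2 / (2 * Q i) = 1 / Q i := by field_simp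
    have e2 : 2 * Q i / 2 = Q i := by ring
    rw [e1, e2] at g1
    refine g1.trans (ENNReal.ofReal_le_ofReal ?_)
    have g2 := hdec j
    simp only [pow_zero, div_one] at g2
    have hC2 := hC₀ (2 * Q i)
    have g3 : rp (Q i) (rho r m A j) ^ (1 / Q i)
        ≤ θ / (8 * C₀ (2 * Q i)) * ((1 / 4) ^ j * (1 / 4) ^ j) := by
      refine (Real.rpow_le_rpow (rp_nonneg _ _) g2 (by positivity)).trans (le_of_eq ?_)
      rw [Real.mul_rpow (hθ'0 i).le (by positivity), hθ', ← Real.rpow_mul (by positivity),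
        mul_one_div_cancel hQi.ne', Real.rpow_one, ← Real.rpow_mul (by norm_num)]
      congr 1
      rw [show 2 * Q i * (j : ℝ) * (1 / Q i) = (j : ℝ) + j by field_simp; ring,
        Real.rpow_add (by norm_num), Real.rpow_natCast]
    have g4 : (((1 : ℝ) / 4) ^ j) ^ (1 / Q i - 1) ≤ 4 ^ j := by
      rw [← Real.rpow_natCast, ← Real.rpow_mul (by norm_num)]
      have e3 : (4 : ℝ) ^ j = (1 / 4 : ℝ) ^ (-(j : ℝ)) := by
        rw [Real.rpow_neg (by norm_num), Real.rpow_natCast, one_div, inv_pow, inv_inv]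
      rw [e3]
      refine Real.rpow_le_rpow_of_exponent_ge (by norm_num) (by norm_num) ?_
      have h5 : 0 ≤ 1 / Q i := by positivity
      have h6 : (0 : ℝ) ≤ j := Nat.cast_nonneg j
      nlinarith
    have g5 : η₁ * th Q (j + I₂) ≤ θ / 8 * (1 / 4) ^ j := by
      refine mul_le_mul h2 ?_ (th_pos _ _).le (by positivity)
      exact (th_mono Q (Nat.le_add_right j I₂)).trans (th_le Q j)
    have g7 : (4 : ℝ) ^ j * (1 / 4) ^ j = 1 := by
      rw [← mul_pow]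
      norm_num
    calc C₀ (2 * Q i) * (((1 : ℝ) / 4) ^ j) ^ (1 / Q i - 1)
          * rp (Q i) (sts r m j (A j 0)) ^ (1 / Q i) + η₁ * th Q (j + I₂)
        ≤ C₀ (2 * Q i) * 4 ^ j * (θ / (8 * C₀ (2 * Q i)) * ((1 / 4) ^ j * (1 / 4) ^ j))
          + θ / 8 * (1 / 4) ^ j := by
          refine add_le_add (mul_le_mul (mul_le_mul_of_nonneg_left g4 hC2.le) g3
            (Real.rpow_nonneg (rp_nonneg _ _) _) (by positivity)) g5
      _ = θ / 8 * (4 ^ j * (1 / 4) ^ j) * (1 / 4) ^ j + θ / 8 * (1 / 4) ^ j := by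
          field_simp
      _ = _ := by
          rw [g7]
          ring
  have := quant hqF hlim i (G := θ / 4) (by positivity) hstp
  rwa [show 4 * (θ / 4) = θ by ring] at this

end Pool.Agent.Run7.h782.HP
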