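import Pool.Agent.Run7.h782.HP.AllB
import Pool.Agent.Run7.h782.HP.IterU
import Pool.Agent.Run7.h782.HP.PcG
import Pool.Agent.Run7.h969.HP.RecU

/-!
Project HP: assembly, the iteration with a bound for the norms.
-/

set_option autoImplicit false

namespace Pool.Agent.Run7.h782.HP

open Pool.Agent.Run7.h969.HP

theorem stmIterU : StmIterU := iterU stmStepF limF recU

end Pool.Agent.Run7.h782.HP
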