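import Pool.Agent.Run7.h969.HP.Defs4

/-!
The steering theorem with continuity in the critical Besov spaces: statements.
-/

set_option autoImplicit false

open MeasureTheory Set Filter Topology
open scoped ContDiff ENNReal ComplexConjugate

namespace Pool.Agent.Run7.h782.HP

open H459R3.NS Pool.Agent.Run7 Pool.Agent.Run7.h782 Pool.Agent.Run7.h782.GD Pool.Agent.Run7.h782.GS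
open Pool.Agent.Run7.h782.WS Pool.Agent.Run7.h782.WQ Pool.Agent.Run7.h744.WS
open Pool.Agent.Run7.h969.WS Pool.Agent.Run7.h782.OS Pool.Agent.Run7.h969.HP

/-- `u` attains the initial value `c` at the time `0`, in the sense of `besG φ`. -/
def Ba (φ : ℝ → ℝ) (c : Cf) (u : ℝ → V → V) : Prop :=
  ∀ i, Tendsto (fun t => besG φ (fun x => u t x i - (S (fun k => c k i) x).re)) (𝓝[>] 0) (𝓝 0)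

/-- `u` is continuous at the time `s`, in the sense of `besG φ`. -/
def Bc (φ : ℝ → ℝ) (u : ℝ → V → V) (s : ℝ) : Prop :=
  ∀ i, Tendsto (fun t => besG φ (fun x => u t x i - u s x i)) (𝓝 s) (𝓝 0)

/-- `StmIterP` with the Besov clause. -/
def StmIterPB : Prop := ∀ f : ℝ → Cf, Frc f → ∀ ν : ℝ, 0 < ν → ∀ U : ℝ → Cf, TgF f ν U →
  ∀ (Q : ℕ → ℝ) (c : Cf) (r : ℕ → Mf), DatQ Q c r →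
  ∀ φ : ℝ → ℝ, Gauge φ → ∀ Φ : ℝ → ℝ, Orl Φ → ∀ δ : ℝ, 0 < δ →
  ∃ b : ℝ → Cf, (∀ τ : ℝ, 0 < τ → FSo ν (fun t => f (t + τ)) (fun t => b (t + τ))) ∧
    (∀ k, Tendsto (fun t => b t k) (𝓝[>] 0) (𝓝 (c k))) ∧
    (∃ C : ℝ, ∀ t, 0 < t → t ≤ 1 → ∀ k, ‖b t k‖ ≤ C * (1 + len k) ^ 2) ∧
    ((Summable fun k => ‖c k‖) →
      Tendsto (fun t => besGC φ (fun k => ‖b t k - c k‖)) (𝓝[>] 0) (𝓝 0)) ∧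
    Tendsto (fun t => Real.sqrt t * ∑' k, ‖b t k‖) (𝓝[>] 0) (𝓝 0) ∧
    (∀ n, IntegrableOn (fun t => fp (2 * Q n) (b t) ^ (1 / Q n)) (Ioc 0 1)) ∧
    IntegrableOn (fun t => ∑' k, ‖b t k‖ ^ 2) (Ioc 0 1) ∧
    ∫⁻ t in Ioc (0 : ℝ) 1, ENNReal.ofReal (Φ (∑' k, ‖b t k - U t k‖)) ≤ ENNReal.ofReal δ ∧
    (∀ t, δ ≤ t → ∀ A : Finset K3, ∑ k ∈ A, ‖b t k - U t k‖ ≤ δ)

/-- `StmIterU` with the Besov clause. -/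
def StmIterUB : Prop := ∀ (ν : ℝ), 0 < ν → ∀ Q : ℕ → ℝ, (∀ n, 1 ≤ Q n) → ∀ (I : ℕ) (θ : ℝ), 0 < θ →
  ∃ η : ℝ, 0 < η ∧ ∀ f : ℝ → Cf, Frc f → ∀ U : ℝ → Cf, TgF f ν U →
  ∀ (c : Cf) (r : ℕ → Mf), DatQ Q c r → (∀ i, i ≤ I → ∀ m, rp (Q i) (r m - anti (U 0)) ≤ η) →
  ∀ φ : ℝ → ℝ, Gauge φ → ∀ Φ : ℝ → ℝ, Orl Φ → ∀ δ : ℝ, 0 < δ →
  ∃ b : ℝ → Cf, (∀ τ : ℝ, 0 < τ → FSo ν (fun t => f (t + τ)) (fun t => b (t + τ))) ∧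
    (∀ k, Tendsto (fun t => b t k) (𝓝[>] 0) (𝓝 (c k))) ∧
    (∃ C : ℝ, ∀ t, 0 < t → t ≤ 1 → ∀ k, ‖b t k‖ ≤ C * (1 + len k) ^ 2) ∧
    ((Summable fun k => ‖c k‖) →
      Tendsto (fun t => besGC φ (fun k => ‖b t k - c k‖)) (𝓝[>] 0) (𝓝 0)) ∧
    Tendsto (fun t => Real.sqrt t * ∑' k, ‖b t k‖) (𝓝[>] 0) (𝓝 0) ∧
    (∀ n, IntegrableOn (fun t => fp (2 * Q n) (b t) ^ (1 / Q n)) (Ioc 0 1)) ∧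
    IntegrableOn (fun t => ∑' k, ‖b t k‖ ^ 2) (Ioc 0 1) ∧
    ∫⁻ t in Ioc (0 : ℝ) 1, ENNReal.ofReal (Φ (∑' k, ‖b t k - U t k‖)) ≤ ENNReal.ofReal δ ∧
    (∀ t, δ ≤ t → ∀ A : Finset K3, ∑ k ∈ A, ‖b t k - U t k‖ ≤ δ) ∧
    ∀ i, i ≤ I → ∫⁻ t in Ioc (0 : ℝ) 1, ENNReal.ofReal (fp (2 * Q i) (b t - U t) ^ (1 / Q i))
      ≤ ENNReal.ofReal θ

/-- **Piece LocEB** (`StmLocE` with the Besov clause). -/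
def StmLocEB : Prop := ∀ (ν : ℝ), 0 < ν → ∀ (m : V) (w : ℝ → V → V), PathM m w →
  ∀ T ε : ℝ, 0 < T → 0 < ε →
  ∃ τ₀ : ℝ, 0 < τ₀ ∧ ∀ τ, 0 < τ → τ < τ₀ → ∀ s ∈ Icc 0 T, ∀ c : Cf, Herm c → Dv c →
  (∀ i, c 0 i = ((m i : ℝ) : ℂ)) →
  ∀ (R : Fin 3 → Fin 3 → V → ℝ), Str R → IsDiv R c → ∀ Q : ℕ → ℝ, (∀ n, 1 ≤ Q n) →
  (∀ n i j, IntegrableOn (fun x => |R i j x| ^ Q n) cube) → ∀ φ : ℝ → ℝ, Gauge φ →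
  ∀ Φ : ℝ → ℝ, Orl Φ → ∀ δ : ℝ, 0 < δ →
  ∃ (τ' : ℝ) (u : ℝ → V → V) (p : ℝ → V → ℝ), τ < τ' ∧ Lc ν m w ε s τ c Q Φ δ τ' u p ∧
    ((Summable fun k => ‖c k‖) → Ba φ c u)

/-- **Piece LocUB** (`StmLocU` with the Besov clause; `c` is summable here). -/
def StmLocUB : Prop := ∀ (ν : ℝ), 0 < ν → ∀ Q : ℕ → ℝ, (∀ n, 1 ≤ Q n) → ∀ (I : ℕ) (θ : ℝ), 0 < θ →
  ∃ η : ℝ, 0 < η ∧ ∀ (m : V) (w : ℝ → V → V), PathM m w → ∀ T ε : ℝ, 0 < T → 0 < ε →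
  ∃ τ₀ : ℝ, 0 < τ₀ ∧ ∀ τ, 0 < τ → τ < τ₀ → ∀ s ∈ Icc 0 T, ∀ c : Cf, Herm c → Dv c →
  (∀ i, c 0 i = ((m i : ℝ) : ℂ)) → (Summable fun k => ‖c k‖) →
  ∀ (Z : Finset K3) (r : Mf), (∀ i j, ∀ k ∉ Z, r i j k = 0) → Sy r →
  (∀ i, i ≤ I → rp (Q i) r ≤ η) →
  (∀ A : Finset K3, ∑ k ∈ A, ‖c k - vf (w s) k - dvr r k‖ ≤ η) →
  ∀ φ : ℝ → ℝ, Gauge φ → ∀ Φ : ℝ → ℝ, Orl Φ → ∀ δ : ℝ, 0 < δ →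
  ∃ (τ' : ℝ) (u : ℝ → V → V) (p : ℝ → V → ℝ), τ < τ' ∧ Lc ν m w ε s τ c Q Φ δ τ' u p ∧
    Ba φ c u ∧
    ∀ i, i ≤ I → ∫⁻ t in Ioo 0 τ, (∫⁻ x in cube, ENNReal.ofReal (∑ j, |u t x j| ^ (2 * Q i)))
      ^ (2 / (2 * Q i)) ≤ ENNReal.ofReal θ

/-- **Piece BReg.** Continuity at the regular times. -/
def StmBReg : Prop := ∀ (φ : ℝ → ℝ), Gauge φ → ∀ (ν : ℝ) (I : Set ℝ) (u : ℝ → V → V)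
  (p : ℝ → V → ℝ), IsOpen I → SolOn ν I u p → (∀ t ∈ I, ∀ s ∈ I, ∀ i,
    ∫ x in cube, u t x i = ∫ x in cube, u s x i) → ∀ s ∈ I, Bc φ u s

/-- **Piece ReachB** (`StmReach` with the Besov clause; without HPP: follow `w` by finitely many
steps of LocEB, then go to the constant paths `g n` by LocUB). -/
def StmReachB : Prop := ∀ (ν : ℝ), 0 < ν → ∀ T : ℝ, 0 < T → ∀ (m : V) (w : ℝ → V → V), PathM m w →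
  ∀ c c₁ : Cf, Dis c → (∀ i, c 0 i = ((m i : ℝ) : ℂ)) → Dis c₁ →
  (∀ i, c₁ 0 i = ((m i : ℝ) : ℂ)) → ∀ Q : ℕ → ℝ, (∀ n, 1 ≤ Q n) →
  (∃ R : Fin 3 → Fin 3 → V → ℝ, Str R ∧ IsDiv R c ∧
    ∀ n i j, IntegrableOn (fun x => |R i j x| ^ Q n) cube) →
  (∃ R : Fin 3 → Fin 3 → V → ℝ, Str R ∧ IsDiv R c₁ ∧
    ∀ n i j, IntegrableOn (fun x => |R i j x| ^ Q n) cube) →
  ∀ φ : ℝ → ℝ, Gauge φ → ∀ Φ : ℝ → ℝ, Orl Φ → ∀ ε : ℝ, 0 < ε →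
  ∃ (F : Set ℝ) (u : ℝ → V → V) (p : ℝ → V → ℝ), Rch ν Q c c₁ T F u p ∧
    (∀ s ∈ Ioo 0 T, Bc φ u s) ∧
    ∃ h : ℝ → ℝ, (∀ t, 0 ≤ h t) ∧ (∀ t ∈ Ioo 0 T, ∀ x i, |u t x i - w t x i| ≤ h t) ∧
      ∫⁻ t in Ioo 0 T, ENNReal.ofReal (Φ (h t)) ≤ ENNReal.ofReal ε

/-- **The steering theorem** with the Besov clause (from End, Final, ReachB). -/
def StmSteerB : Prop := ∀ (ν : ℝ), 0 < ν → ∀ (m : V) (c c₁ : Cf), Dis c →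
  (∀ i, c 0 i = ((m i : ℝ) : ℂ)) → Dis c₁ → (∀ i, c₁ 0 i = ((m i : ℝ) : ℂ)) → ∀ Q : ℕ → ℝ,
  (∀ n, 1 ≤ Q n) → ∀ T₀ : ℝ, 0 < T₀ → ∀ v : ℝ → V → V, VW ν T₀ c v →
  (∀ n, InLq T₀ v (2 * Q n)) → ∀ U : ℝ → V → V, (∀ T', 0 < T' → VW ν T' c₁ U) →
  (∀ T', 0 < T' → ∀ n, InLq T' U (2 * Q n)) → ∀ S ∈ Icc 0 T₀, ∀ T : ℝ, S < T →
  ∀ w : ℝ → V → V, PathM m w → ∀ φ : ℝ → ℝ, Gauge φ → ∀ Φ : ℝ → ℝ, Orl Φ → ∀ ε : ℝ, 0 < ε →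
  ∃ (F : Set ℝ) (u : ℝ → V → V) (p : ℝ → V → ℝ), F ⊆ Ico S T ∧
    (∀ T', T' < T → (F ∩ Iic T').Finite) ∧
    (∀ t ∈ Ioo 0 S, u t = v t) ∧ (∀ t, T < t → u t = U (t - T)) ∧
    SolOn ν (Ioo S T \ F) u p ∧ (∀ T', 0 < T' → VW ν T' c u) ∧
    (∀ T', 0 < T' → ∀ n, InLq T' u (2 * Q n)) ∧
    (∀ (i : Fin 3) (ψ : V → ℝ), ContDiff ℝ ∞ ψ → Per ψ →
      ContinuousOn (fun t => ∫ x in cube, u t x i * ψ x) (Ioo S T)) ∧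
    (∀ s ∈ Ioo S T, Bc φ u s) ∧
    (∀ s ∈ Ico S T, ∀ δ : ℝ, 0 < δ →
      ∀ᶠ t in 𝓝[>] s, ∀ x i, |u t x i| ≤ δ / Real.sqrt (t - s)) ∧
    ∃ h : ℝ → ℝ, (∀ t, 0 ≤ h t) ∧ (∀ t ∈ Ioo S T, ∀ x i, |u t x i - w t x i| ≤ h t) ∧
      ∫⁻ t in Ioo S T, ENNReal.ofReal (Φ (h t)) ≤ ENNReal.ofReal ε

end Pool.Agent.Run7.h782.HP
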