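import Pool.Agent.Run7.h782.HP.LocUB
import Pool.Agent.Run7.h782.HP.IterB
import Pool.Agent.Run7.h782.HP.AllU1
import Pool.Agent.Run7.h782.HP.AllP

/-!
Project HP: assembly of the local pieces with the Besov clause.
-/

set_option autoImplicit false

namespace Pool.Agent.Run7.h782.HP

open Pool.Agent.Run7.h969.HP

theorem stmLocEB : StmLocEB :=
  locEB (iterPB stmStepF limF) tgtF physO Pool.Agent.Run7.h779.WQ.d1s

theorem stmLocUB : StmLocUB := locUB (iterUB stmStepF limF recU) tgtF physO

end Pool.Agent.Run7.h782.HP
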