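import Pool.Agent.Run7.h782.HP.AllLB
import Pool.Agent.Run7.h782.HP.CoreK
import Pool.Agent.Run7.h969.HP.BesU

/-!
Project HP: assembly of the local piece with uniform closeness.
-/

set_option autoImplicit false

namespace Pool.Agent.Run7.h782.HP

open Pool.Agent.Run7.h969.HP Pool.Agent.Run7.h969.WS

theorem stmBesU : StmBesU := fun _ hφ _ hκ => by
  obtain ⟨J₀, h⟩ := besovU hφ hκ
  exact ⟨J₀, fun _ _ _ _ _ h1 h2 h3 h4 h5 h6 h7 h8 h9 h10 =>
    h J₀ le_rfl h1 h2 h3 h4 h5 h6 h7 (h8 0 0 le_rfl) h9 h10⟩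

theorem stmLocEK : StmLocEK :=
  locEK (iterPK stmStepF limF stmBesU) tgtF physO Pool.Agent.Run7.h779.WQ.d1s

end Pool.Agent.Run7.h782.HP
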