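import Pool.Agent.Run7.h782.HP.CoreL

/-!
Piece LocE of the project HP.
-/

set_option autoImplicit false

open MeasureTheory Set Filter Topology
open scoped ContDiff ENNReal ComplexConjugate

namespace Pool.Agent.Run7.h782.HP

open H459R3.NS Pool.Agent.Run7 Pool.Agent.Run7.h782.GD Pool.Agent.Run7.h782.GS
open Pool.Agent.Run7.h782.WS Pool.Agent.Run7.h744.GS Pool.Agent.Run7.h744.WS
open Pool.Agent.Run7.h969.WS Pool.Agent.Run7.h811.WS Pool.Agent.Run7.h782.WQ Pool.Agent.Run7.h811.WQ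
open Pool.Agent.Run7.h969.HP Pool.Agent.Run7.h811.HP

/-- **Piece LocE.** -/
theorem locE (hIter : StmIterP) (hTgt : StmTgtF) (hPhys : StmPhysO) (hD1 : StmD1S) : StmLocE := by
  intro ν hν m w hw T ε hT hε
  obtain ⟨τ₀, hτ₀, htgt⟩ := hTgt ν hν _ (path_of hw) T ε hT hε
  refine ⟨min τ₀ 1, lt_min hτ₀ one_pos,
    fun τ hτ hττ s hs c hcH hcV hc0 R hStr hDiv Q hQ hRQ Φ hΦ δ hδ => ?_⟩
  have hττ0 : τ < τ₀ := hττ.trans_le (min_le_left _ _)
  have hτ1 : τ < 1 := hττ.trans_le (min_le_right _ _)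
  set τ' : ℝ := (τ + τ₀) / 2 with hτ'
  have h1 : τ < τ' := by rw [hτ']; linarith
  have h2 : τ' ≤ τ₀ := by rw [hτ']; linarith
  obtain ⟨f, U, hf, hf0, hTg, hclose⟩ := htgt τ' (hτ.trans h1) h2 s hs
  have hRQ' : ∀ n i j, IntegrableOn (fun x => |R i j (x + s • m)| ^ Q n) cube := fun n i j => by
    refine intOn_shift (f := fun x => |R i j x| ^ Q n) (fun l x => ?_) _ (hRQ n i j)
    show |R i j (x + Pi.single l 1)| ^ Q n = |R i j x| ^ Q n
    rw [hStr.per i j l x]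
  obtain ⟨r, R', hdat, -⟩ := hD1 (sft (s • m) c) _ Q (sft_herm hcH) (sft_div hcV) (sft_zero _ _)
    (str_shift hStr _) (isDiv_shift hStr hDiv _) hQ hRQ'
  obtain ⟨b, hb, hblim, hbd, hsq, -, hLQ, hL2, -, hPhi, hfar⟩ :=
    hIter f hf ν hν U hTg Q _ r hdat _ gauge_cube' Φ hΦ δ hδ
  obtain ⟨p, hp⟩ := core hw hτ1 h1 hf0 hTg hclose hc0 hQ hPhys hb hblim hbd hsq hLQ hL2 hPhi hfar
  exact ⟨τ', _, p, h1, hp⟩

end Pool.Agent.Run7.h782.HP
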