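import Pool.Agent.Run7.h782.HP.ShiftU
import Pool.Agent.Run7.h969.HP.Rch1

/-!
Piece LocU of the project HP.
-/

set_option autoImplicit false

open MeasureTheory Set Filter Topology
open scoped ContDiff ENNReal ComplexConjugate

namespace Pool.Agent.Run7.h782.HP

open H459R3.NS Pool.Agent.Run7 Pool.Agent.Run7.h782.GD Pool.Agent.Run7.h782.GS
open Pool.Agent.Run7.h782.WS Pool.Agent.Run7.h744.GS Pool.Agent.Run7.h744.WS
open Pool.Agent.Run7.h969.WS Pool.Agent.Run7.h811.WS Pool.Agent.Run7.h782.WQ Pool.Agent.Run7.h811.WQ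
open Pool.Agent.Run7.h969.HP Pool.Agent.Run7.h811.HP
open Pool.Agent.Run7.h779.WQ (bx trc tail_tendsto d1_sum bx_tendsto dvr_zero)

/-- Closeness of the coefficients gives closeness of the fields. -/
theorem near_pt {w' : ℝ → V → V} (hw' : Path w') {r : ℝ} {a : Cf}
    (ha : ∀ i, Summable fun k => a k i) {ε : ℝ}
    (h : ∀ A : Finset K3, ∑ k ∈ A, ‖a k - vf (w' r) k‖ ≤ ε) (y : V) (i : Fin 3) :
    |(S (fun k => a k i) y).re - w' r y i| ≤ ε := by
  have hsp : SP (fun z => w' r z i) := by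
    refine ⟨?_, fun j z => by rw [hw'.per r j z]⟩
    have h3 := hw'.smooth.comp (contDiff_const.prodMk contDiff_id : ContDiff ℝ ∞
      fun z : V => ((r, z) : ℝ × V))
    exact contDiff_pi.1 h3 i
  have hfrw : Summable (fr (fun z => w' r z i)) := (rap_fr hsp).summable
  have hre : w' r y i = (S (fr (fun z => w' r z i)) y).re := by
    rw [S_fr hsp, Complex.ofReal_re]
  have e2 : S (fun k => a k i - fr (fun z => w' r z i) k) y
      = S (fun k => a k i) y - S (fr (fun z => w' r z i)) y := by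
    unfold S
    rw [← (summable_term (ha i) y).tsum_sub (summable_term hfrw y)]
    exact tsum_congr fun k => by ring
  rw [hre, ← Complex.sub_re, ← e2]
  have hsd : Summable fun k => a k i - fr (fun z => w' r z i) k := (ha i).sub hfrw
  refine (Complex.abs_re_le_norm _).trans ((norm_S_le hsd _).trans ?_)
  refine Real.tsum_le_of_sum_le (fun _ => norm_nonneg _) fun A => ?_
  refine (Finset.sum_le_sum fun k _ => ?_).trans (h A)
  exact norm_le_pi_norm (a k - vf (w' r) k) i

/-- The norm in `L^(2 Q)` at a fixed time. -/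
theorem lq_pt {Q : ℝ} (hQ : 1 ≤ Q) {m a : V} {b U : Cf} (hb : L1 b) (hU : L1 U) {B : ℝ}
    (hB0 : 0 ≤ B) (hB : ∀ y i, |m i + (S (fun k => U k i) y).re| ≤ B) :
    (∫⁻ x in cube, ENNReal.ofReal
      (∑ j, |m j + (S (fun k => b k j) (x - a)).re| ^ (2 * Q))) ^ (2 / (2 * Q))
      ≤ ENNReal.ofReal (12 * (B ^ 2 + fp (2 * Q) (b - U) ^ (1 / Q))) := by
  have hQ0 : 0 < Q := by linarith
  have hp : 0 < 2 * Q := by linarith
  have hbU : L1 (b - U) := by
    refine Summable.of_nonneg_of_le (fun _ => norm_nonneg _) (fun k => ?_) (Summable.add hb hU)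
    exact norm_sub_le (b k) (U k)
  have hbi : ∀ i, Summable fun k => b k i := fun i => hb.comp i
  have hUi : ∀ i, Summable fun k => U k i := fun i => hU.comp i
  set G : V → ℝ := fun y => 3 * 2 ^ (2 * Q) * (B ^ (2 * Q) + fn (b - U) y ^ (2 * Q)) with hG
  have hpt : ∀ y j, |m j + (S (fun k => b k j) y).re| ^ (2 * Q)
      ≤ 2 ^ (2 * Q) * (B ^ (2 * Q) + fn (b - U) y ^ (2 * Q)) := by
    intro y j
    have e1 : S (fun k => (b - U) k j) y = S (fun k => b k j) y - S (fun k => U k j) y := by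
      unfold S
      rw [← (summable_term (hbi j) y).tsum_sub (summable_term (hUi j) y)]
      exact tsum_congr fun k => by
        show (b k j - U k j) * _ = _
        ring
    have h1 : |m j + (S (fun k => b k j) y).re| ≤ B + fn (b - U) y := by
      have e2 : m j + (S (fun k => b k j) y).re
          = (m j + (S (fun k => U k j) y).re) + (S (fun k => (b - U) k j) y).re := by
        rw [e1, Complex.sub_re]
        ring
      rw [e2]
      refine (abs_add_le _ _).trans (add_le_add (hB y j) ((Complex.abs_re_le_norm _).trans ?_))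
      exact Finset.single_le_sum (f := fun i => ‖S (fun k => (b - U) k i) y‖)
        (fun i _ => norm_nonneg _) (Finset.mem_univ j)
    exact (Real.rpow_le_rpow (abs_nonneg _) h1 hp.le).trans
      (h744.WS.rpow_add_le hp hB0 (h744.WQ.fn_nonneg _ _))
  have hF : ∀ x, ∑ j, |m j + (S (fun k => b k j) (x - a)).re| ^ (2 * Q) ≤ G (x - a) := by
    intro x
    refine (Finset.sum_le_sum fun j _ => hpt (x - a) j).trans (le_of_eq ?_)
    rw [Finset.sum_const, Finset.card_univ, Fintype.card_fin, nsmul_eq_mul, hG]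
    push_cast
    ring
  have hfc : Continuous (fn (b - U)) := h744.WQ.fn_continuous hbU
  have hGc : Continuous G :=
    continuous_const.mul (continuous_const.add (hfc.rpow_const fun x => Or.inr hp.le))
  have hGper : Per G := fun j x => by
    show 3 * 2 ^ (2 * Q) * (B ^ (2 * Q) + fn (b - U) (x + Pi.single j 1) ^ (2 * Q)) = _
    have e : fn (b - U) (x + Pi.single j 1) = fn (b - U) x := by
      unfold fn
      refine Finset.sum_congr rfl fun i _ => ?_
      rw [h32.GD.per_S (fun k => (b - U) k i) j x]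
    rw [e]
  have hG0 : ∀ y, 0 ≤ G y := fun y =>
    mul_nonneg (by positivity) (add_nonneg (Real.rpow_nonneg hB0 _)
      (Real.rpow_nonneg (h744.WQ.fn_nonneg _ _) _))
  have hGi : ∫ x in cube, G (x - a) = 3 * 2 ^ (2 * Q) * (B ^ (2 * Q) + fp (2 * Q) (b - U)) := by
    have h1 := int_shiftE hGper (-a)
    simp only [← sub_eq_add_neg] at h1
    rw [h1, hG, integral_const_mul, integral_add (integrableOn_cube continuous_const)
      (integrableOn_cube (hfc.rpow_const fun x => Or.inr hp.le)), h744.WQ.integral_cube_const]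
    rfl
  have h1 : ∫⁻ x in cube, ENNReal.ofReal
      (∑ j, |m j + (S (fun k => b k j) (x - a)).re| ^ (2 * Q))
      ≤ ENNReal.ofReal (3 * 2 ^ (2 * Q) * (B ^ (2 * Q) + fp (2 * Q) (b - U))) := by
    have hGa : IntegrableOn (fun x => G (x - a)) cube :=
      integrableOn_cube (hGc.comp (continuous_id.sub continuous_const))
    rw [← hGi, ofReal_integral_eq_lintegral_ofReal hGa (Eventually.of_forall fun x => hG0 _)]
    exact lintegral_mono fun x => ENNReal.ofReal_le_ofReal (hF x)
  have hfp : 0 ≤ fp (2 * Q) (b - U) := h744.WQ.fp_nonneg _ _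
  have hBp : 0 ≤ B ^ (2 * Q) := Real.rpow_nonneg hB0 _
  refine (ENNReal.rpow_le_rpow h1 (by positivity)).trans ?_
  rw [ENNReal.ofReal_rpow_of_nonneg (by positivity) (by positivity)]
  refine ENNReal.ofReal_le_ofReal ?_
  have e3 : 2 / (2 * Q) = 1 / Q := by field_simp
  rw [e3, Real.mul_rpow (by positivity) (by positivity), Real.mul_rpow (by norm_num) (by positivity)]
  have e4 : ((2 : ℝ) ^ (2 * Q)) ^ (1 / Q) = 4 := by
    rw [← Real.rpow_mul (by norm_num)]
    have : 2 * Q * (1 / Q) = 2 := by field_simp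
    rw [this]
    norm_num
  have e5 : (3 : ℝ) ^ (1 / Q) ≤ 3 := by
    calc (3 : ℝ) ^ (1 / Q) ≤ 3 ^ (1 : ℝ) := by
          refine Real.rpow_le_rpow_of_exponent_le (by norm_num) ?_
          rw [div_le_one hQ0]
          exact hQ
      _ = 3 := Real.rpow_one _
  have e6 : (B ^ (2 * Q)) ^ (1 / Q) = B ^ 2 := by
    rw [← Real.rpow_mul hB0]
    have : 2 * Q * (1 / Q) = ((2 : ℕ) : ℝ) := by
      push_cast
      field_simp
    rw [this, Real.rpow_natCast]
  have e7 : (B ^ (2 * Q) + fp (2 * Q) (b - U)) ^ (1 / Q)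
      ≤ (B ^ (2 * Q)) ^ (1 / Q) + fp (2 * Q) (b - U) ^ (1 / Q) :=
    Real.rpow_add_le_add_rpow hBp hfp (by positivity) (by rw [div_le_one hQ0]; exact hQ)
  rw [e4]
  rw [e6] at e7
  have h9 : 0 ≤ (B ^ (2 * Q) + fp (2 * Q) (b - U)) ^ (1 / Q) := Real.rpow_nonneg (by positivity) _
  calc (3 : ℝ) ^ (1 / Q) * 4 * (B ^ (2 * Q) + fp (2 * Q) (b - U)) ^ (1 / Q)
      ≤ 3 * 4 * (B ^ (2 * Q) + fp (2 * Q) (b - U)) ^ (1 / Q) := by gcongr
    _ ≤ 3 * 4 * (B ^ 2 + fp (2 * Q) (b - U) ^ (1 / Q)) := by gcongr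
    _ = _ := by ring

/-- The mean of a path. -/
theorem vf_zero {w' : ℝ → V → V} (hw' : Path w') (r : ℝ) : vf (w' r) 0 = 0 := by
  funext i
  show fr (fun x => w' r x i) 0 = 0
  rw [h32.GD.fr_zero_eq, hw'.mean r i]
  simp

/-- The truncations converge. -/
theorem trc_sub_le {d u : Cf} (hd : Summable fun k => ‖d k‖) (hu : Summable fun k => ‖u k‖)
    {η : ℝ} (h : ∑' k, ‖(d - u) k‖ ≤ 2 * η) {n : ℕ} (hn : ∑' k, ‖trc u n k - u k‖ ≤ η) :
    (Summable fun k => ‖(trc d n - u) k‖) ∧ ∑' k, ‖(trc d n - u) k‖ ≤ 3 * η := by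
  have ht : ∀ c : Cf, Summable fun k => ‖trc c n k‖ := fun c =>
    summable_of_ne_finset_zero (s := bx n) fun k hk => by rw [trc, if_neg hk, norm_zero]
  have h1 : Summable fun k => ‖(trc d n - u) k‖ := sum_sub' (ht d) hu
  have h2 : Summable fun k => ‖(d - u) k‖ := sum_sub' hd hu
  have h3 : Summable fun k => ‖trc u n k - u k‖ := sum_sub' (ht u) hu
  refine ⟨h1, ?_⟩
  have h4 : ∀ k, ‖(trc d n - u) k‖ ≤ ‖(d - u) k‖ + ‖trc u n k - u k‖ := by
    intro k
    have e : (trc d n - u) k = trc (d - u) n k + (trc u n k - u k) := by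
      rw [Pi.sub_apply]
      unfold trc
      by_cases hk : k ∈ bx n
      · rw [if_pos hk, if_pos hk, if_pos hk, Pi.sub_apply]
        abel
      · rw [if_neg hk, if_neg hk, if_neg hk]
        abel
    rw [e]
    refine (norm_add_le _ _).trans (add_le_add ?_ le_rfl)
    unfold trc
    by_cases hk : k ∈ bx n
    · rw [if_pos hk]
    · rw [if_neg hk, norm_zero]
      exact norm_nonneg _
  have h5 := h1.tsum_le_tsum h4 (h2.add h3)
  rw [h2.tsum_add h3] at h5
  linarith

/-- **Piece LocU.** -/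
theorem locU (hIter : StmIterU) (hTgt : StmTgtF) (hPhys : StmPhysO) : StmLocU := by
  intro ν hν Q hQ I θ hθ
  obtain ⟨η₁, hη₁, hIt⟩ := hIter ν hν Q hQ I (θ / 24) (by positivity)
  set K : ℝ := ∑ i ∈ Finset.range (I + 1), (2 : ℝ) ^ Q i with hK
  have hKi : ∀ i, i ≤ I → (2 : ℝ) ^ Q i ≤ K := fun i hi =>
    Finset.single_le_sum (f := fun i => (2 : ℝ) ^ Q i)
      (fun i _ => Real.rpow_nonneg (by norm_num) _) (Finset.mem_range.2 (by omega))
  have hK0 : 0 < K := (Real.rpow_pos_of_pos (by norm_num) (Q 0)).trans_le (hKi 0 (Nat.zero_le _))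
  set η : ℝ := min (1 / 54) (η₁ / (55 * K)) with hη
  have hη0 : 0 < η := lt_min (by norm_num) (by positivity)
  have hη54 : 54 * η ≤ 1 := by
    have := min_le_left (1 / 54 : ℝ) (η₁ / (55 * K))
    rw [← hη] at this
    linarith
  have hηK : K * (55 * η) ≤ η₁ := by
    have h1 := min_le_right (1 / 54 : ℝ) (η₁ / (55 * K))
    rw [← hη] at h1
    rw [le_div_iff₀ (by positivity)] at h1
    linarith
  refine ⟨η, hη0, fun m w hw T ε hT hε => ?_⟩
  have hw' := path_of hw
  obtain ⟨τ₀, hτ₀, htgt⟩ := hTgt ν hν _ hw' T (min ε η) hT (lt_min hε hη0)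
  obtain ⟨W, hW0, hW⟩ := bdd_path hw (T + 1)
  set B : ℝ := W + ε with hB
  have hB0 : 0 ≤ B := by positivity
  refine ⟨min (min τ₀ 1) (θ / (24 * (B ^ 2 + 1))), by positivity,
    fun τ hτ hττ s hs c hcH hcV hc0 hcs Z r hZ hr hrp hcl Φ hΦ δ hδ => ?_⟩
  have hττ0 : τ < τ₀ := hττ.trans_le ((min_le_left _ _).trans (min_le_left _ _))
  have hτ1 : τ < 1 := hττ.trans_le ((min_le_left _ _).trans (min_le_right _ _))
  have hτB : τ * (24 * (B ^ 2 + 1)) ≤ θ := by
    have h1 := hττ.le.trans (min_le_right _ _)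
    rwa [le_div_iff₀ (by positivity)] at h1
  set τ' : ℝ := (τ + τ₀) / 2 with hτ'
  have h1 : τ < τ' := by rw [hτ']; linarith
  have h2 : τ' ≤ τ₀ := by rw [hτ']; linarith
  obtain ⟨f, U, hf, hf0, hTg, hclose⟩ := htgt τ' (hτ.trans h1) h2 s hs
  have hUs : ∀ t, 0 ≤ t → L1 (U t) := by
    intro t ht
    obtain ⟨A, hA, hAk⟩ := hTg.maj 0 t
    exact Summable.of_nonneg_of_le (fun _ => norm_nonneg _) (fun k => by
      have := hAk t ⟨ht, le_rfl⟩ k
      rwa [pow_zero, one_mul] at this) hA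
  -- the data
  set a : V := s • m with ha
  have hc's : Summable fun k => ‖sft a c k‖ := by
    refine Summable.of_nonneg_of_le (fun _ => norm_nonneg _) (fun k => ?_) hcs
    by_cases hk : k = 0
    · subst hk
      rw [sft_zero, norm_zero]
      exact norm_nonneg _
    · rw [sft_ne a c hk, norm_smul, norm_ee, one_mul]
  set d : Cf := sft a c - dvr (shM a r) with hd
  have hds : Summable fun k => ‖d k‖ := sum_sub' hc's (sum_dvr (shM_supp hZ))
  have hdU : ∑' k, ‖(d - U 0) k‖ ≤ 2 * η := by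
    refine (sum_sub' hds (hUs 0 le_rfl)).tsum_le_of_sum_le fun A => ?_
    have h3 : ∀ k, ‖(d - U 0) k‖ ≤ ‖c k - vf (w s) k - dvr r k‖
        + ‖U 0 k - vf ((fun r y => w r (y + r • m) - m) (s + 0)) k‖ := by
      intro k
      rw [add_zero]
      have h4 : ‖(sft a c k - dvr (shM a r) k) - vf ((fun r y => w r (y + r • m) - m) s) k‖
          ≤ ‖c k - vf (w s) k - dvr r k‖ := by
        by_cases hk : k = 0
        · subst hk
          rw [sft_zero, dvr_zero, vf_zero hw' s, sub_zero, sub_zero, norm_zero]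
          exact norm_nonneg _
        · have e : vf (w s) k = ee k (-a) • vf (fun y => w s (y + s • m) - m) k := by
            funext i
            rw [vf_path hw s k i, if_neg hk, zero_add]
            rfl
          have e2 : (sft a c k - dvr (shM a r) k) - vf ((fun r y => w r (y + r • m) - m) s) k
              = ee k a • (c k - vf (w s) k - dvr r k) := by
            rw [sft_ne a c hk, dvr_shM, smul_sub, smul_sub, e, smul_smul, ← ee_add, add_neg_cancel]
            have h5 : ee k 0 = 1 := by simp [ee, ph]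
            rw [h5, one_smul]
            abel
          rw [e2, norm_smul, norm_ee, one_mul]
      have e3 : (d - U 0) k
          = ((sft a c k - dvr (shM a r) k) - vf ((fun r y => w r (y + r • m) - m) s) k)
            - (U 0 k - vf ((fun r y => w r (y + r • m) - m) s) k) := by
        rw [Pi.sub_apply, hd, Pi.sub_apply]
        abel
      rw [e3]
      exact (norm_sub_le _ _).trans (add_le_add h4 le_rfl)
    refine (Finset.sum_le_sum fun k _ => h3 k).trans ?_
    rw [Finset.sum_add_distrib]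
    have h5 := hclose 0 ⟨le_rfl, (hτ.trans h1).le⟩ A
    have h6 := hcl A
    have h7 := min_le_right ε η
    linarith
  obtain ⟨N, hN⟩ := eventually_atTop.1
    ((tail_tendsto (hUs 0 le_rfl)).eventually (ge_mem_nhds hη0))
  have hDat := datU hQ (shM_supp (a := a) hZ) (shM_sy hr) (sft_herm (a := a) hcH)
    (sft_div hcV) (sft_zero _ _) hc's N
  have hsmall : ∀ i, i ≤ I → ∀ n, rp (Q i)
      ((shM a r + anti (trc (sft a c - dvr (shM a r)) (n + N))) - anti (U 0)) ≤ η₁ := by
    intro i hi n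
    obtain ⟨g1, g2⟩ := trc_sub_le hds (hUs 0 le_rfl) hdU (hN (n + N) (Nat.le_add_left _ _))
    have e : (shM a r + anti (trc (sft a c - dvr (shM a r)) (n + N))) - anti (U 0)
        = shM a r + anti (trc d (n + N) - U 0) := by
      rw [add_sub_assoc]
      congr 1
      funext i j k
      simp only [anti, Pi.sub_apply, hd]
      rw [← sub_div]
      congr 1
      ring
    rw [e]
    refine (rp_le_U (hQ i) (R1_supp (shM_supp hZ)) g1 hη54 ?_ g2).trans ?_
    · rw [rp_shM]
      exact hrp i hi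
    · refine le_trans ?_ hηK
      exact mul_le_mul_of_nonneg_right (hKi i hi) (by positivity)
  obtain ⟨b, hb, hblim, hbd, hsq, -, hLQ, hL2, -, hPhi, hfar, hnorm⟩ :=
    hIt f hf U hTg _ _ hDat hsmall _ gauge_cube' Φ hΦ δ hδ
  have hclose' : ∀ t ∈ Icc 0 τ', ∀ A : Finset K3,
      ∑ k ∈ A, ‖U t k - vf ((fun r y => w r (y + r • m) - m) (s + t)) k‖ ≤ ε := fun t ht A =>
    (hclose t ht A).trans (min_le_left _ _)
  obtain ⟨p, hp⟩ := core hw hτ1 h1 hf0 hTg hclose' hc0 hQ hPhys hb hblim hbd hsq hLQ hL2 hPhi hfar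
  refine ⟨τ', _, p, h1, hp, fun i hi => ?_⟩
  have hQ0 : 0 < Q i := by linarith [hQ i]
  -- the norms
  have hpt : ∀ t ∈ Ioo 0 τ, (∫⁻ x in cube, ENNReal.ofReal
      (∑ j, |(m + fld b t (x - (s + t) • m)) j| ^ (2 * Q i))) ^ (2 / (2 * Q i))
      ≤ ENNReal.ofReal (12 * B ^ 2)
        + 12 * ENNReal.ofReal (fp (2 * Q i) (b t - U t) ^ (1 / Q i)) := by
    intro t ht
    have hUB : ∀ y i, |m i + (S (fun k => U t k i) y).re| ≤ B := by
      intro y i
      have h3 := near_pt hw' (fun i => (hUs t ht.1.le).comp i)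
        (hclose' t ⟨ht.1.le, (ht.2.trans h1).le⟩) y i
      have h4 : |w (s + t) (y + (s + t) • m) i| ≤ W :=
        hW (s + t) ⟨by linarith [hs.1, ht.1], by linarith [hs.2, ht.2]⟩ _ i
      have e : m i + (S (fun k => U t k i) y).re
          = ((S (fun k => U t k i) y).re - (w (s + t) (y + (s + t) • m) - m) i)
            + w (s + t) (y + (s + t) • m) i := by
        rw [Pi.sub_apply]
        ring
      rw [e, hB, add_comm W ε]
      exact (abs_add_le _ _).trans (add_le_add h3 h4)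
    have h3 := lq_pt (hQ i) (m := m) (a := (s + t) • m) (pos_facts hb ht.1).1 (hUs t ht.1.le) hB0 hUB
    refine (le_trans (le_of_eq rfl) h3).trans (le_of_eq ?_)
    have h5 : 0 ≤ fp (2 * Q i) (b t - U t) ^ (1 / Q i) :=
      Real.rpow_nonneg (h744.WQ.fp_nonneg _ _) _
    rw [mul_add, ENNReal.ofReal_add (by positivity) (by positivity),
      ENNReal.ofReal_mul (by norm_num : (0 : ℝ) ≤ 12)
        (q := fp (2 * Q i) (b t - U t) ^ (1 / Q i))]
    norm_num
  calc ∫⁻ t in Ioo 0 τ, (∫⁻ x in cube, ENNReal.ofReal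
        (∑ j, |(m + fld b t (x - (s + t) • m)) j| ^ (2 * Q i))) ^ (2 / (2 * Q i))
      ≤ ∫⁻ t in Ioo 0 τ, (ENNReal.ofReal (12 * B ^ 2)
        + 12 * ENNReal.ofReal (fp (2 * Q i) (b t - U t) ^ (1 / Q i))) :=
        setLIntegral_mono' measurableSet_Ioo hpt
    _ = ENNReal.ofReal (12 * B ^ 2) * ENNReal.ofReal τ
        + 12 * ∫⁻ t in Ioo 0 τ, ENNReal.ofReal (fp (2 * Q i) (b t - U t) ^ (1 / Q i)) := by
        rw [lintegral_add_left measurable_const, lintegral_const_mul' _ _ (by norm_num),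
          setLIntegral_const, Real.volume_Ioo, sub_zero]
    _ ≤ ENNReal.ofReal (12 * B ^ 2) * ENNReal.ofReal τ + 12 * ENNReal.ofReal (θ / 24) := by
        gcongr
        refine (lintegral_mono_set ?_).trans (hnorm i hi)
        exact fun t ht => ⟨ht.1, ht.2.le.trans hτ1.le⟩
    _ ≤ ENNReal.ofReal θ := by
        have e12 : (12 : ℝ≥0∞) = ENNReal.ofReal 12 := by norm_num
        rw [e12, ← ENNReal.ofReal_mul (by positivity), ← ENNReal.ofReal_mul (by norm_num),
          ← ENNReal.ofReal_add (by positivity) (by positivity)]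
        refine ENNReal.ofReal_le_ofReal ?_
        nlinarith

end Pool.Agent.Run7.h782.HP
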