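import Pool.Agent.Run7.h782.HP.FinSt
import Pool.Agent.Run7.h782.HP.AllU1
import Pool.Agent.Run7.h782.HP.AllP
import Pool.Agent.Run7.h782.HP.LocE
import Pool.Agent.Run7.h782.HP.LocU
import Pool.Agent.Run7.h969.HP.PcL
import Pool.Agent.Run7.h969.HP.Inf
import Pool.Agent.Run7.h969.HP.Rch5
import Pool.Agent.Run7.h969.HP.Steer

/-!
Project HP: assembly of the steering theorem.
-/

set_option autoImplicit false

namespace Pool.Agent.Run7.h782.HP

open Pool.Agent.Run7.h969.HP

theorem stmLocE : StmLocE := locE stmIterP tgtF physO Pool.Agent.Run7.h779.WQ.d1s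

theorem stmLocU : StmLocU := locU stmIterU tgtF physO

theorem stmReach : StmReach :=
  reach stmHPP stmLocE stmLocU pcL pcG inf Pool.Agent.Run7.h779.WQ.d1s

theorem stmSteer : StmSteer :=
  steer Pool.Agent.Run7.h219.HP.stmEnd Pool.Agent.Run7.h782.WQ.stmFinal stmReach

end Pool.Agent.Run7.h782.HP
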