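import Pool.Agent.Run7.h782.HP.AllLB
import Pool.Agent.Run7.h782.HP.EndReg
import Pool.Agent.Run7.h782.HP.FinStC
import Pool.Agent.Run7.h969.HP.PcL
import Pool.Agent.Run7.h969.HP.Inf
import Pool.Agent.Run7.h969.HP.RchC
import Pool.Agent.Run7.h219.HP.SteerC

/-!
Project HP: assembly of the steering theorem with continuity in the critical Besov spaces.
-/

set_option autoImplicit false

namespace Pool.Agent.Run7.h782.HP

open Pool.Agent.Run7.h969.HP

theorem stmReachC : StmReachC :=
  reachC stmLocEB stmLocUB (fun _ hφ _ _ _ _ _ h _ hs => breg hφ h hs) pcL inf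
    Pool.Agent.Run7.h779.WQ.d1s

theorem stmSteerC : StmSteerC :=
  Pool.Agent.Run7.h219.HP.steerC Pool.Agent.Run7.h219.HP.stmEnd Pool.Agent.Run7.h782.WQ.stmFinal
    stmReachC endReg

end Pool.Agent.Run7.h782.HP
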