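import Pool.Agent.Run7.h782.HP.AllStC
import Pool.Agent.Run7.h782.HP.AllLE
import Pool.Agent.Run7.h969.HP.RchE
import Pool.Agent.Run7.h219.HP.SteerE

/-!
Project HP: assembly of the steering theorem with uniform closeness in the critical Besov spaces.
-/

set_option autoImplicit false

namespace Pool.Agent.Run7.h782.HP

open Pool.Agent.Run7.h969.HP

theorem stmReachE : StmReachE :=
  reachE stmLocEB stmLocEK stmLocUB (fun _ hφ _ _ _ _ _ h _ hs => breg hφ h hs) pcL inf
    Pool.Agent.Run7.h779.WQ.d1s

theorem stmSteerE : StmSteerE :=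
  Pool.Agent.Run7.h219.HP.steerE Pool.Agent.Run7.h219.HP.stmEnd Pool.Agent.Run7.h782.WQ.stmFinal
    stmReachE endReg

end Pool.Agent.Run7.h782.HP
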