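import Pool.Agent.Run7.h782.HP.IterK

/-!
Project HP: the iteration with a bound for the norms and uniform closeness.
-/

set_option autoImplicit false

open MeasureTheory Set Filter Topology
open scoped ENNReal ComplexConjugate

namespace Pool.Agent.Run7.h782.HP

open H459R3.NS hiding W
open Pool.Agent.Run7.h782 Pool.Agent.Run7.h782.GD Pool.Agent.Run7.h782.GS
open Pool.Agent.Run7.h782.WS Pool.Agent.Run7.h969.GS Pool.Agent.Run7 Pool.Agent.Run7.h308.WS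
open Pool.Agent.Run7.h744.WS Pool.Agent.Run7.h969.WS Pool.Agent.Run7.h782.WQ
open Pool.Agent.Run7.h744.WQ Pool.Agent.Run7.h969.HP

/-- **Piece IterUD.** -/
theorem iterUD (hStep : StmStepF) (hLim : StmLimF) (hRec : StmRecU) (hBU : StmBesU) :
    StmIterUD := by
  obtain ⟨C₀, hC₀, HS⟩ := exists_sqJ hStep
  intro ν hν Q hQ φ hφ I θ hθ
  obtain ⟨J, hJ⟩ := hBU φ hφ θ hθ
  have hQp : ∀ i, 0 < Q i := fun i => by linarith [hQ i]
  -- the constants
  set K : ℕ → ℕ → ℝ := fun i a =>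
    2 ^ (Q i / 2 ^ a) * (C₀ (Q i / 2 ^ a) * ν ^ (Q i / 2 ^ a / 2)) with hK
  have hK0 : ∀ i a, 0 ≤ K i a := fun i a => by
    have := (hC₀ (Q i / 2 ^ a)).le
    rw [hK]
    positivity
  set θ' : ℕ → ℝ := fun i => (θ / (8 * C₀ (2 * Q i))) ^ Q i with hθ'
  have hθ'0 : ∀ i, 0 < θ' i := fun i => by
    have := hC₀ (2 * Q i)
    rw [hθ']
    positivity
  have hrec := fun i => hRec (K i) (Q i) (hQp i) (hK0 i) (2 * Q i) (θ' i) (hθ'0 i)
  choose I' η' hη' hR using hrec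
  set I₂ : ℕ := I + ∑ i ∈ Finset.range (I + 1), I' i with hI₂
  have hII : I ≤ I₂ := Nat.le_add_right _ _
  have hIi : ∀ i, i ≤ I → I' i ≤ I₂ := fun i hi =>
    (Finset.single_le_sum (f := I') (fun _ _ => Nat.zero_le _)
      (Finset.mem_range.2 (by omega))).trans (Nat.le_add_left _ _)
  obtain ⟨η₁, h0, h1, hηJ, h2, h3⟩ : ∃ η₁ : ℝ, 0 < η₁ ∧ η₁ ≤ 1 ∧ η₁ ≤ (1 / 2) ^ J ∧ η₁ ≤ θ / 8 ∧
      ∀ i, i ≤ I → η₁ ≤ η' i := by
    have e1 : ∀ᶠ x in 𝓝[>] (0 : ℝ), 0 < x := self_mem_nhdsWithin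
    have e2 : ∀ κ : ℝ, 0 < κ → ∀ᶠ x in 𝓝[>] (0 : ℝ), x ≤ κ := fun κ hκ =>
      nhdsWithin_le_nhds (ge_mem_nhds hκ)
    have e3 : ∀ᶠ x in 𝓝[>] (0 : ℝ), ∀ i ∈ Finset.range (I + 1), x ≤ η' i :=
      (Finset.range (I + 1)).eventually_all.2 fun i _ => e2 _ (hη' i)
    obtain ⟨x, ha, hb, hb', hc, hd⟩ := (e1.and ((e2 1 one_pos).and
      ((e2 ((1 / 2) ^ J) (by positivity)).and ((e2 (θ / 8) (by positivity)).and e3)))).exists
    exact ⟨x, ha, hb, hb', hc, fun i hi => hd i (Finset.mem_range.2 (by omega))⟩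
  refine ⟨η₁ ^ 2 ^ I₂, by positivity, fun f hf U hU c r hdat hsm Φ hΦ δ hδ => ?_⟩
  obtain ⟨m, A, ε, H, hq⟩ := HS f hf ν hν I₂ J η₁ h0 hηJ U hU Q c r hdat φ hφ Φ hΦ δ hδ
  obtain ⟨b, hlim, c1, c2, c3, c4, c5, c6, c7, c8, c9, c10⟩ :=
    iterP_core hLim hC₀ hf hν hdat hφ hΦ hδ hq.toSQP
  refine ⟨b, c1, c2, c3, bes_core hφ hq.toSQF hlim, c4, c6, c7, c9, c10, fun i hi => ?_,
    fun hs hc => besK_core hq hJ hlim hs fun B => (hc B).trans
      ((pow_le_of_le_one h0.le h1 (by positivity)).trans hηJ)⟩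
  have hqF : SQF f C₀ ν δ U Q c r φ m A ε H := hq.toSQF
  have hQi := hQp i
  have hQ1 := hQ i
  have hmono : ∀ j a b, a ≤ b → rp (Q i / 2 ^ b) (rho r m A j)
      ≤ 1 + rp (Q i / 2 ^ a) (rho r m A j) := by
    intro j a b hab
    refine stmQ0.2.2.2.1 _ _ _ (by positivity) ?_ (hqF.r1 j)
    exact div_le_div_of_nonneg_left hQi.le (by positivity) (pow_le_pow_right₀ (by norm_num) hab)
  -- the first stress
  have hx0 : ∀ a, a ≤ I₂ → rp (Q i / 2 ^ a) (rho r m A 0) ≤ η₁ := by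
    intro a ha
    have e0 : rho r m A 0 = r (m 0) - anti (U 0) := by
      rw [Pool.Agent.Run7.h744.WQ.rho, sts, hqF.init]
      simp only [pst]
      rw [Pool.Agent.Run7.h744.WQ.dvr_zero, sub_zero, sub_zero]
    have e1 := hsm i hi (m 0)
    rw [← e0] at e1
    have e2 := stmQ0.2.2.1 (Q i / 2 ^ a) (Q i) _ (by positivity)
      (div_le_self hQi.le (one_le_pow₀ (by norm_num))) (hqF.r1 0)
    refine e2.trans ?_
    have e3 : Q i / 2 ^ a / Q i = 1 / 2 ^ a := by field_simp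
    rw [e3]
    calc rp (Q i) (rho r m A 0) ^ (1 / 2 ^ a : ℝ) ≤ (η₁ ^ 2 ^ I₂) ^ (1 / 2 ^ a : ℝ) :=
          Real.rpow_le_rpow (rp_nonneg _ _) e1 (by positivity)
      _ = η₁ ^ ((2 : ℝ) ^ I₂ * (1 / 2 ^ a)) := by
          rw [← Real.rpow_natCast, ← Real.rpow_mul h0.le]
          push_cast
          rfl
      _ ≤ η₁ ^ (1 : ℝ) := by
          refine Real.rpow_le_rpow_of_exponent_ge h0 h1 ?_
          rw [mul_one_div, le_div_iff₀ (by positivity), one_mul]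
          exact pow_le_pow_right₀ (by norm_num) ha
      _ = η₁ := Real.rpow_one _
  -- the recursion
  have hrc : ∀ j a, a ≤ j + I₂ → rp (Q i / 2 ^ a) (rho r m A (j + 1))
      ≤ K i a * (1 / 4 : ℝ) ^ ((j : ℝ) * (1 - Q i / 2 ^ (a + 1)))
        * rp (Q i / 2 ^ (a + 1)) (rho r m A j) + η₁ * (1 / 4) ^ (j ^ 2) := by
    intro j a haj
    have hp : 0 < Q i / 2 ^ a := by positivity
    have hij : i ≤ j + I₂ := by omega
    have hmem := mem_ex (Q := Q) hij haj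
    have g1 := hqF.next hp j
    have g2 := hq.dif' j i a hij haj
    have g3 := (hq.st' j).st _ hmem
    have g4 := th_wx hmem
    have e1 : Q i / 2 ^ a / 2 = Q i / 2 ^ (a + 1) := by
      rw [pow_succ, div_div]
    have e2 : (((1 : ℝ) / 4) ^ j) ^ (1 - Q i / 2 ^ a / 2)
        = (1 / 4 : ℝ) ^ ((j : ℝ) * (1 - Q i / 2 ^ (a + 1))) := by
      rw [e1, ← Real.rpow_natCast, ← Real.rpow_mul (by norm_num)]
    rw [e2] at g3
    have h5 : (0 : ℝ) < 2 ^ (Q i / 2 ^ a) := by positivity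
    have h6 : 2 ^ (Q i / 2 ^ a) * (η₁ * th Q (j + I₂) + η₁ * th Q (j + I₂))
        ≤ η₁ * (1 / 4) ^ (j ^ 2) := by
      have h7 : ((1 : ℝ) / 4) ^ ((j + I₂) ^ 2) ≤ (1 / 4) ^ (j ^ 2) :=
        pow_le_pow_of_le_one (by norm_num) (by norm_num)
          (Nat.pow_le_pow_left (Nat.le_add_right j I₂) 2)
      calc 2 ^ (Q i / 2 ^ a) * (η₁ * th Q (j + I₂) + η₁ * th Q (j + I₂))
          = η₁ * (2 ^ (Q i / 2 ^ a) * (th Q (j + I₂) + th Q (j + I₂))) := by ring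
        _ ≤ η₁ * (1 / 4) ^ (j ^ 2) := mul_le_mul_of_nonneg_left (g4.trans h7) h0.le
    calc rp (Q i / 2 ^ a) (rho r m A (j + 1))
        ≤ 2 ^ (Q i / 2 ^ a) * (η₁ * th Q (j + I₂) + (C₀ (Q i / 2 ^ a) * ν ^ (Q i / 2 ^ a / 2)
          * (1 / 4 : ℝ) ^ ((j : ℝ) * (1 - Q i / 2 ^ (a + 1)))
          * rp (Q i / 2 ^ a / 2) (rho r m A j) + η₁ * th Q (j + I₂))) :=
          g1.trans (mul_le_mul_of_nonneg_left (add_le_add g2 g3) h5.le)
      _ = 2 ^ (Q i / 2 ^ a) * (C₀ (Q i / 2 ^ a) * ν ^ (Q i / 2 ^ a / 2))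
          * (1 / 4 : ℝ) ^ ((j : ℝ) * (1 - Q i / 2 ^ (a + 1)))
          * rp (Q i / 2 ^ (a + 1)) (rho r m A j)
          + 2 ^ (Q i / 2 ^ a) * (η₁ * th Q (j + I₂) + η₁ * th Q (j + I₂)) := by
          rw [e1]
          ring
      _ ≤ _ := add_le_add le_rfl h6
  have hdec := hR i η₁ h0 (h3 i hi) I₂ (hIi i hi) (fun j a => rp (Q i / 2 ^ a) (rho r m A j))
    (fun j a => rp_nonneg _ _) hmono hx0 hrc
  -- the norms of the steps
  have hstp : ∀ j : ℕ, ∫⁻ t in Ioc (0 : ℝ) 1,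
      ENNReal.ofReal (fp (2 * Q i) (A (j + 1) t - A j t) ^ (1 / Q i))
        ≤ ENNReal.ofReal (θ / 4 * (1 / 4) ^ j) := by
    intro j
    have g1 := (hq.st' j).tm (2 * Q i) (mem_ex2 (by omega)) (by linarith)
    have e1 : 2 / (2 * Q i) = 1 / Q i := by field_simp
    have e2 : 2 * Q i / 2 = Q i := by ring
    rw [e1, e2] at g1
    refine g1.trans (ENNReal.ofReal_le_ofReal ?_)
    have g2 := hdec j
    simp only [pow_zero, div_one] at g2
    have hC2 := hC₀ (2 * Q i)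
    have g3 : rp (Q i) (rho r m A j) ^ (1 / Q i)
        ≤ θ / (8 * C₀ (2 * Q i)) * ((1 / 4) ^ j * (1 / 4) ^ j) := by
      refine (Real.rpow_le_rpow (rp_nonneg _ _) g2 (by positivity)).trans (le_of_eq ?_)
      rw [Real.mul_rpow (hθ'0 i).le (by positivity), hθ', ← Real.rpow_mul (by positivity),
        mul_one_div_cancel hQi.ne', Real.rpow_one, ← Real.rpow_mul (by norm_num)]
      congr 1
      rw [show 2 * Q i * (j : ℝ) * (1 / Q i) = (j : ℝ) + j by field_simp; ring,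
        Real.rpow_add (by norm_num), Real.rpow_natCast]
    have g4 : (((1 : ℝ) / 4) ^ j) ^ (1 / Q i - 1) ≤ 4 ^ j := by
      rw [← Real.rpow_natCast, ← Real.rpow_mul (by norm_num)]
      have e3 : (4 : ℝ) ^ j = (1 / 4 : ℝ) ^ (-(j : ℝ)) := by
        rw [Real.rpow_neg (by norm_num), Real.rpow_natCast, one_div, inv_pow, inv_inv]
      rw [e3]
      refine Real.rpow_le_rpow_of_exponent_ge (by norm_num) (by norm_num) ?_
      have h5 : 0 ≤ 1 / Q i := by positivity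
      have h6 : (0 : ℝ) ≤ j := Nat.cast_nonneg j
      nlinarith
    have g5 : η₁ * th Q (j + I₂) ≤ θ / 8 * (1 / 4) ^ j := by
      refine mul_le_mul h2 ?_ (th_pos _ _).le (by positivity)
      exact (th_mono Q (Nat.le_add_right j I₂)).trans (th_le Q j)
    have g7 : (4 : ℝ) ^ j * (1 / 4) ^ j = 1 := by
      rw [← mul_pow]
      norm_num
    calc C₀ (2 * Q i) * (((1 : ℝ) / 4) ^ j) ^ (1 / Q i - 1)
          * rp (Q i) (sts r m j (A j 0)) ^ (1 / Q i) + η₁ * th Q (j + I₂)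
        ≤ C₀ (2 * Q i) * 4 ^ j * (θ / (8 * C₀ (2 * Q i)) * ((1 / 4) ^ j * (1 / 4) ^ j))
          + θ / 8 * (1 / 4) ^ j := by
          refine add_le_add (mul_le_mul (mul_le_mul_of_nonneg_left g4 hC2.le) g3
            (Real.rpow_nonneg (rp_nonneg _ _) _) (by positivity)) g5
      _ = θ / 8 * (4 ^ j * (1 / 4) ^ j) * (1 / 4) ^ j + θ / 8 * (1 / 4) ^ j := by
          field_simp
      _ = _ := by
          rw [g7]
          ring
  have := quant hqF hlim i (G := θ / 4) (by positivity) hstp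
  rwa [show 4 * (θ / 4) = θ by ring] at this

end Pool.Agent.Run7.h782.HP
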