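import Pool.Agent.Run7.h782.HP.AllStE
import Pool.Agent.Run7.h782.HP.IterUD
import Pool.Agent.Run7.h782.HP.DefsF
import Pool.Agent.Run7.h969.HP.RchF
import Pool.Agent.Run7.h219.HP.LocUD
import Pool.Agent.Run7.h219.HP.SteerF
import Pool.Agent.Run7.h219.HP.IniReg

/-!
Project HP: assembly of the steering theorem with all Besov clauses.
-/

set_option autoImplicit false

namespace Pool.Agent.Run7.h782.HP

open Pool.Agent.Run7.h969.HP

theorem stmLocUD : StmLocUD :=
  Pool.Agent.Run7.h219.HP.locUD (iterUD stmStepF limF recU stmBesU) tgtF physO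

theorem stmReachF : StmReachF :=
  reachF stmLocEB stmLocEK stmLocUD (fun _ hφ _ _ _ _ _ h _ hs => breg hφ h hs) pcL inf
    Pool.Agent.Run7.h779.WQ.d1s

theorem stmSteerF : StmSteerF :=
  Pool.Agent.Run7.h219.HP.steerF Pool.Agent.Run7.h219.HP.stmEnd Pool.Agent.Run7.h782.WQ.stmFinal
    stmReachF endReg Pool.Agent.Run7.h219.HP.iniReg

end Pool.Agent.Run7.h782.HP
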