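import Pool.Agent.Run7.h782.HP.CoreL
import Pool.Agent.Run7.h782.HP.DefsB
import Pool.Agent.Run7.h811.WQ.InitQ

/-!
Project HP: the Besov clause, from the coefficients of one step to fields.
-/

set_option autoImplicit false

open MeasureTheory Set Filter Topology
open scoped ContDiff ENNReal ComplexConjugate

namespace Pool.Agent.Run7.h782.HP

open H459R3.NS Pool.Agent.Run7 Pool.Agent.Run7.h782.GD Pool.Agent.Run7.h782.GS
open Pool.Agent.Run7.h782.WS Pool.Agent.Run7.h744.GS Pool.Agent.Run7.h744.WS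
open Pool.Agent.Run7.h969.WS Pool.Agent.Run7.h811.WS Pool.Agent.Run7.h782.WQ Pool.Agent.Run7.h811.WQ
open Pool.Agent.Run7.h969.HP Pool.Agent.Run7.h811.HP

/-- The Besov clause for the field. -/
theorem coreB {ν : ℝ} {m : V} {s : ℝ} {f : ℝ → Cf} {c : Cf} (hcH : Herm c)
    (hm0 : ∀ i, c 0 i = ((m i : ℝ) : ℂ)) {φ : ℝ → ℝ} (hφ : Gauge φ) {b : ℝ → Cf}
    (hb : ∀ τ : ℝ, 0 < τ → FSo ν (fun t => f (t + τ)) (fun t => b (t + τ)))
    (hbes : (Summable fun k => ‖sft (s • m) c k‖) →
      Tendsto (fun t => besGC (fun x => φ (2 * x)) (fun k => ‖b t k - sft (s • m) c k‖))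
        (𝓝[>] 0) (𝓝 0)) :
    (Summable fun k => ‖c k‖) → Ba φ c (fun t x => m + fld b t (x - (s + t) • m)) := by
  intro hcS i
  set c' : Cf := sft (s • m) c with hc'
  have hc'0 : c' 0 = 0 := sft_zero _ _
  have hc'k : ∀ k, k ≠ 0 → c' k = ee k (s • m) • c k := fun k hk => sft_ne _ _ hk
  have hc'le : ∀ k, ‖c' k‖ ≤ ‖c k‖ := by
    intro k
    by_cases hk : k = 0
    · subst hk
      rw [hc'0, norm_zero]
      exact norm_nonneg _
    · rw [hc'k k hk, norm_smul, norm_ee, one_mul]
  have hc'S : Summable fun k => ‖c' k‖ :=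
    Summable.of_nonneg_of_le (fun _ => norm_nonneg _) hc'le hcS
  have hci : Summable fun k => c k i :=
    Summable.of_norm (Summable.of_nonneg_of_le (fun _ => norm_nonneg _)
      (fun k => norm_le_pi_norm (c k) i) hcS)
  have hbt := fun (t : ℝ) (ht : 0 < t) => pos_facts hb ht
  have hbi : ∀ t, 0 < t → ∀ i, Summable fun k => b t k i := fun t ht i =>
    Summable.of_norm (Summable.of_nonneg_of_le (fun _ => norm_nonneg _)
      (fun k => norm_le_pi_norm (b t k) i) (hbt t ht).1)
  -- the coefficients with shifted time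
  set b' : ℝ → Cf := fun r => b (r - s) with hb'
  have hb't : ∀ t, b' (s + t) = b t := fun t => by
    show b (s + t - s) = b t
    rw [add_sub_cancel_left]
  have hfld' : ∀ t, fld b' (s + t) = fld b t := fun t => by
    unfold fld
    rw [hb't]
  have hbi' : ∀ t, 0 < t → ∀ i, Summable fun k => b' (s + t) k i := fun t ht i => by
    rw [hb't]
    exact hbi t ht i
  set Cc : ℝ := ∑' k, ‖c' k‖ with hCc
  have hCc0 : 0 ≤ Cc := tsum_nonneg fun _ => norm_nonneg _
  set κ : ℝ := 2 * Real.pi * (3 * ‖m‖) with hκ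
  have hκ0 : 0 ≤ κ := by positivity
  have hbound : ∀ t, 0 < t →
      besG φ (fun x => (m + fld b t (x - (s + t) • m)) i - (S (fun k => c k i) x).re)
      ≤ besGC (fun x => φ (2 * x)) (fun k => ‖b t k - c' k‖)
        + ENNReal.ofReal (φ (2 * (κ * t * Cc))) := by
    intro t ht
    obtain ⟨hs, hh, hz, -⟩ := hbt t ht
    set e : K3 → ℂ := fun k => ee k (-(t • m)) with he
    have hd1 : Summable (ser b' m (s + t) i) := ser_summable (m := m) (hbi' t ht i)
    have hcont : Continuous fun x => (S (ser b' m (s + t) i) x).re :=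
      Complex.continuous_re.comp (S_continuous hd1)
    have hcont2 : Continuous fun x => (S (fun k => c k i) x).re :=
      Complex.continuous_re.comp (S_continuous hci)
    have hh' : Herm (b' (s + t)) := by
      rw [hb't]
      exact hh
    have hfr : ∀ k, ‖fr (fun x => (m + fld b t (x - (s + t) • m)) i
        - (S (fun k => c k i) x).re) k‖ ≤ ‖b t k - c' k‖ + ‖e k - 1‖ * ‖c' k‖ := by
      intro k
      have e2 : (fun x => (m + fld b t (x - (s + t) • m)) i - (S (fun k => c k i) x).re)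
          = fun x => (S (ser b' m (s + t) i) x).re - (S (fun k => c k i) x).re := by
        funext x
        rw [← hfld' t, ser_eq (hbi' t ht i)]
      rw [e2, h32.GD.fr_sub hcont hcont2, h32.GD.fr_S hd1 (ser_herm hh'),
        h32.GD.fr_S hci (fun k => hcH k i)]
      by_cases hk : k = 0
      · subst hk
        simp only [ser, if_true, hb't, hz, Pi.zero_apply, mul_zero, add_zero, hm0, sub_self,
          norm_zero]
        positivity
      · have e0 : c k i = ee k (-(s • m)) * c' k i := by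
          rw [hc'k k hk, Pi.smul_apply, smul_eq_mul, ← mul_assoc, ← ee_add, neg_add_cancel]
          have h5 : ee k 0 = 1 := by simp [ee, ph]
          rw [h5, one_mul]
        have e1 : ee k (-((s + t) • m)) = ee k (-(s • m)) * e k := by
          rw [he]
          simp only
          rw [← ee_add]
          congr 1
          rw [add_smul]
          abel
        have e3 : ser b' m (s + t) i k - c k i
            = ee k (-(s • m)) * (e k * (b t k i - c' k i) + (e k - 1) * c' k i) := by
          simp only [ser, if_neg hk, hb't]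
          rw [e0, e1]
          ring
        rw [e3, norm_mul, norm_ee, one_mul]
        refine (norm_add_le _ _).trans (add_le_add ?_ ?_)
        · rw [norm_mul, he, norm_ee, one_mul]
          exact norm_le_pi_norm (b t k - c' k) i
        · rw [norm_mul]
          exact mul_le_mul_of_nonneg_left (norm_le_pi_norm (c' k) i) (norm_nonneg _)
    have he1 : ∀ k, ‖e k - 1‖ ≤ κ * t * len k := by
      intro k
      refine (norm_ee_sub_one k _).trans ?_
      have h6 : ph k (-(t • m)) = -(t * ph k m) := by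
        rw [← neg_smul, ph_smul]
        ring
      rw [h6, abs_neg, abs_mul, abs_of_pos ht]
      have h7 := abs_ph_le k m
      calc 2 * Real.pi * (t * |ph k m|) ≤ 2 * Real.pi * (t * (3 * len k * ‖m‖)) := by
            gcongr
        _ = κ * t * len k := by rw [hκ]; ring
    have he2 : ∀ k, ‖e k - 1‖ ≤ 2 := by
      intro k
      refine (norm_sub_le _ _).trans ?_
      rw [he, norm_ee, norm_one]
      norm_num
    have hs1 : Summable fun k => ‖b t k - c' k‖ :=
      Summable.of_nonneg_of_le (fun _ => norm_nonneg _) (fun k => norm_sub_le _ _) (hs.add hc'S)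
    have hs2 : Summable fun k => ‖e k - 1‖ * ‖c' k‖ :=
      Summable.of_nonneg_of_le (fun _ => by positivity)
        (fun k => mul_le_mul_of_nonneg_right (he2 k) (norm_nonneg _)) (hc'S.mul_left 2)
    have hn2 : ∀ k, 0 ≤ ‖e k - 1‖ * ‖c' k‖ := fun k => by positivity
    refine (besG_le hφ (fun k => norm_nonneg _) hn2 hs1 hs2 hfr).trans ?_
    refine add_le_add le_rfl ?_
    refine (besGC_le (gg_double hφ) hn2 (by rw [hc'0, norm_zero]; ring) hs2).trans ?_
    refine ENNReal.ofReal_le_ofReal ?_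
    have h8 : ∀ k, ‖e k - 1‖ * ‖c' k‖ / len k ≤ κ * t * ‖c' k‖ := by
      intro k
      by_cases hk : k = 0
      · subst hk
        rw [hc'0]
        simp
      · have hl := h782.GD.len_pos hk
        rw [div_le_iff₀ hl]
        calc ‖e k - 1‖ * ‖c' k‖ ≤ (κ * t * len k) * ‖c' k‖ :=
              mul_le_mul_of_nonneg_right (he1 k) (norm_nonneg _)
          _ = _ := by ring
    have h9 : Summable fun k => ‖e k - 1‖ * ‖c' k‖ / len k :=
      Summable.of_nonneg_of_le (fun k => div_nonneg (hn2 k) (h782.GD.len_nonneg k)) h8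
        (hc'S.mul_left _)
    have h10 : 0 ≤ ∑' k, ‖e k - 1‖ * ‖c' k‖ / len k :=
      tsum_nonneg fun k => div_nonneg (hn2 k) (h782.GD.len_nonneg k)
    refine gg_mono hφ (by linarith) ?_
    refine mul_le_mul_of_nonneg_left ?_ zero_le_two
    refine (Summable.tsum_le_tsum h8 h9 (hc'S.mul_left _)).trans (le_of_eq ?_)
    rw [tsum_mul_left]
  have hlim2 : Tendsto (fun t : ℝ => ENNReal.ofReal (φ (2 * (κ * t * Cc)))) (𝓝[>] 0) (𝓝 0) := by
    have h1 : Tendsto (fun t : ℝ => 2 * (κ * t * Cc)) (𝓝[>] 0) (𝓝[≥] 0) := by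
      refine tendsto_nhdsWithin_iff.2 ⟨?_, ?_⟩
      · have h2 : Tendsto (fun t : ℝ => 2 * (κ * t * Cc)) (𝓝 0) (𝓝 (2 * (κ * 0 * Cc))) :=
          ((tendsto_id.const_mul κ).mul_const Cc).const_mul 2
        rw [mul_zero, zero_mul, mul_zero] at h2
        exact h2.mono_left nhdsWithin_le_nhds
      · filter_upwards [self_mem_nhdsWithin] with t ht
        have ht0 : (0 : ℝ) < t := ht
        exact mul_nonneg zero_le_two (mul_nonneg (mul_nonneg hκ0 ht0.le) hCc0)
    have h3 := ENNReal.tendsto_ofReal ((gg_tendsto hφ).comp h1)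
    rw [ENNReal.ofReal_zero] at h3
    exact h3
  have hlim := (hbes hc'S).add hlim2
  rw [add_zero] at hlim
  refine tendsto_of_tendsto_of_tendsto_of_le_of_le' tendsto_const_nhds hlim
    (Eventually.of_forall fun _ => zero_le) ?_
  filter_upwards [self_mem_nhdsWithin] with t ht
  exact hbound t ht

/-- **Piece LocEB.** -/
theorem locEB (hIter : StmIterPB) (hTgt : StmTgtF) (hPhys : StmPhysO) (hD1 : StmD1S) :
    StmLocEB := by
  intro ν hν m w hw T ε hT hε
  obtain ⟨τ₀, hτ₀, htgt⟩ := hTgt ν hν _ (path_of hw) T ε hT hε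
  refine ⟨min τ₀ 1, lt_min hτ₀ one_pos,
    fun τ hτ hττ s hs c hcH hcV hc0 R hStr hDiv Q hQ hRQ φ hφ Φ hΦ δ hδ => ?_⟩
  have hττ0 : τ < τ₀ := hττ.trans_le (min_le_left _ _)
  have hτ1 : τ < 1 := hττ.trans_le (min_le_right _ _)
  set τ' : ℝ := (τ + τ₀) / 2 with hτ'
  have h1 : τ < τ' := by rw [hτ']; linarith
  have h2 : τ' ≤ τ₀ := by rw [hτ']; linarith
  obtain ⟨f, U, hf, hf0, hTg, hclose⟩ := htgt τ' (hτ.trans h1) h2 s hs
  have hRQ' : ∀ n i j, IntegrableOn (fun x => |R i j (x + s • m)| ^ Q n) cube := fun n i j => by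
    refine intOn_shift (f := fun x => |R i j x| ^ Q n) (fun l x => ?_) _ (hRQ n i j)
    show |R i j (x + Pi.single l 1)| ^ Q n = |R i j x| ^ Q n
    rw [hStr.per i j l x]
  obtain ⟨r, R', hdat, -⟩ := hD1 (sft (s • m) c) _ Q (sft_herm hcH) (sft_div hcV) (sft_zero _ _)
    (str_shift hStr _) (isDiv_shift hStr hDiv _) hQ hRQ'
  obtain ⟨b, hb, hblim, hbd, hbes, hsq, hLQ, hL2, hPhi, hfar⟩ :=
    hIter f hf ν hν U hTg Q _ r hdat _ (gg_double hφ) Φ hΦ δ hδ
  obtain ⟨p, hp⟩ := core hw hτ1 h1 hf0 hTg hclose hc0 hQ hPhys hb hblim hbd hsq hLQ hL2 hPhi hfar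
  exact ⟨τ', _, p, h1, hp, coreB hcH hc0 hφ hb hbes⟩

end Pool.Agent.Run7.h782.HP
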