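import Pool.Agent.Run7.h782.HP.Pub
import Pool.Agent.Run7.h782.HP.AllB
import Pool.Agent.Run7.h782.OS.All
import Pool.Agent.Run7.h219.HP.Glue

/-!
Project HP: the final statements.
-/

set_option autoImplicit false

open MeasureTheory Set Filter Topology
open scoped ContDiff ENNReal ComplexConjugate

namespace Pool.Agent.Run7.h782.HP

open H459R3.NS Pool.Agent.Run7.h782 Pool.Agent.Run7.h782.GD Pool.Agent.Run7.h782.GS
open Pool.Agent.Run7.h782.WS Pool.Agent.Run7.h744.WS Pool.Agent.Run7.h969.WS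
open Pool.Agent.Run7.h782.WQ.Inst Pool.Agent.Run7.h969.HP Pool.Agent.Run7.h219.HP

variable {ν : ℝ}

theorem slice_o {I : Set ℝ} (hI : IsOpen I) {u : ℝ → V → V} {p : ℝ → V → ℝ}
    (h : SolOn ν I u p) {t : ℝ} (ht : t ∈ I) : ContDiff ℝ ∞ (u t) := by
  have h1 : ContDiff ℝ ∞ fun x : V => (t, x) := contDiff_const.prodMk contDiff_id
  rw [← contDiffOn_univ]
  exact h.smooth_u.comp h1.contDiffOn fun x _ => ⟨ht, mem_univ _⟩

/-- Part 1. -/
theorem part1 (hHP : StmHP) (hν : 0 < ν) {T : ℝ} (hT : 0 < T) {w : ℝ → V → V} (hw : Path w)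
    {q ε : ℝ} (hq0 : 0 < q) (hq : q < 2) (hε : 0 < ε) {Q : ℕ → ℝ} (hQ : ∀ n, 1 ≤ Q n)
    {c : K3 → C3} (hc : Dist c) (hc0 : c 0 = 0)
    (hR : ∃ R : Fin 3 → Fin 3 → V → ℝ, Stress R ∧ IsPDiv R c ∧
      ∀ n i j, IntegrableOn (fun x => |R i j x| ^ Q n) cube) :
    ∃ (F : Finset ℝ) (u : ℝ → V → V) (p : ℝ → V → ℝ), Follows ν c Q w T q ε F u p := by
  have hc' := dis_of' hc
  obtain ⟨R, a, b, d⟩ := hR
  obtain ⟨F, u, p, h1, h2, h3, h4, h5, h6, h7, h8⟩ := hHP ν hν T hT w hw c hc' hc0 Q hQ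
    ⟨R, ⟨a.per, a.sym, a.int⟩, (isDiv_iff' hc'.dv).1 b, d⟩ q ε hq0 hq hε
  refine ⟨F, u, p, h1, h2, fun T' hT' => vw_of' (h3 T' hT'), h4,
    fun i ψ hψ hp => (h5 i ψ hψ hp).1, ?_, h6, h7, h8⟩
  intro ψ hψ hp
  have h9 : Tendsto (fun t => ∑ i, ∫ x in cube, u t x i * ψ x i) (𝓝[>] 0)
      (𝓝 (pairing c ψ)) :=
    tendsto_finsetSum _ fun i _ => (h5 i (fun x => ψ x i) (WQ.comp_smooth hψ i) (WQ.comp_per hp i)).2
  refine h9.congr' ?_
  have h10 : ∀ᶠ t in 𝓝[>] (0 : ℝ), t ∉ F := by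
    have h11 : ((F : Set ℝ) \ {0})ᶜ ∈ 𝓝 (0 : ℝ) :=
      (F.finite_toSet.subset sdiff_subset).isClosed.isOpen_compl.mem_nhds (by simp)
    filter_upwards [nhdsWithin_le_nhds h11, self_mem_nhdsWithin] with t ht ht0 htF
    exact ht ⟨htF, ne_of_gt ht0⟩
  filter_upwards [h10, self_mem_nhdsWithin] with t ht ht0
  rw [integral_finsetSum]
  intro i _
  exact integrableOn_cube ((contDiff_pi.1 (slice_o (open_o F) h2 ⟨ht0, ht⟩) i).continuous.mul
    (WQ.comp_smooth hψ i).continuous)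

theorem solOn_of {T : ℝ} {v : ℝ → V → V} {q : ℝ → V → ℝ} (h : IsSol ν T v q) :
    SolOn ν (Ioo 0 T) v q where
  smooth_u := h.smooth_u.mono (prod_mono Ioo_subset_Ico_self le_rfl)
  smooth_p := h.smooth_p.mono (prod_mono Ioo_subset_Ico_self le_rfl)
  per_u t ht := h.per_u t ⟨ht.1.le, ht.2⟩
  per_p t ht := h.per_p t ⟨ht.1.le, ht.2⟩
  divfree t ht := h.divfree t ⟨ht.1.le, ht.2⟩
  momentum t ht := h.momentum t ht

/-- Part 2. -/
theorem part2 (hHP : StmHP) (hν : 0 < ν) {T : ℝ} (hT : 0 < T) {w : ℝ → V → V} (hw : Path w)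
    {q ε : ℝ} (hq0 : 0 < q) (hq : q < 2) (hε : 0 < ε) {T₀ : ℝ} (hT₀ : 0 < T₀) {v : ℝ → V → V}
    {r : ℝ → V → ℝ} (hv : IsSol ν T₀ v r) (hm : ∀ i, ∫ x in cube, v 0 x i = 0) :
    ∃ (c : K3 → C3) (F : Finset ℝ) (u : ℝ → V → V) (p : ℝ → V → ℝ),
      Dist c ∧ (Summable fun k => ‖c k‖ ^ 2) ∧
      (∀ ψ : V → V, ContDiff ℝ ∞ ψ → Per ψ →
        Tendsto (fun t => ∫ x in cube, ∑ i, v t x i * ψ x i) (𝓝[<] T₀) (𝓝 (pairing c ψ))) ∧
      (∀ t, t < T₀ → u t = v t ∧ p t = r t) ∧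
      (∀ T', 0 < T' → VeryWeak ν T' (vf (v 0)) u) ∧
      Follows ν c (fun _ => 2) w T q ε F (fun t => u (t + T₀)) (fun t => p (t + T₀)) := by
  obtain ⟨c, hc, hmean, hsum, hlim, hsq⟩ := Pool.Agent.Run7.h219.OS.stmA ν T₀ hν hT₀ v r hv
  obtain ⟨R, hR, hRc, hR2⟩ := OS.stmB c hc.herm hc.dv hsum
  have hc0 : c 0 = 0 := by
    funext i
    rw [← hmean i, hm i]
    simp
  obtain ⟨F, u, p, hF⟩ := part1 hHP hν hT hw hq0 hq hε (Q := fun _ => 2) (fun _ => by norm_num)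
    (c := c) ⟨hc.herm, hc.dv, hc.grow⟩ hc0
    ⟨R, ⟨hR.per, hR.sym, hR.int⟩, (isDiv_iff' hc.dv).2 hRc, fun _ => hR2⟩
  refine ⟨c, F, OS.glue T₀ v u, fun t => if t < T₀ then r t else p (t - T₀),
    ⟨hc.herm, hc.dv, hc.grow⟩, hsum, ?_, fun t ht => ⟨if_pos ht, if_pos ht⟩,
    fun T' hT' => vw_of' (Pool.Agent.Run7.h219.OS.stmC ν T₀ hν hT₀ v r hv hsq c hlim u
        (fun T' hT' => vw_to' (hF.weak T' hT')) T' hT'), ?_⟩
  · intro ψ hψ hp
    have h3 : Tendsto (fun t => ∑ i, ∫ x in cube, v t x i * ψ x i) (𝓝[<] T₀)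
        (𝓝 (pairing c ψ)) :=
      tendsto_finsetSum _ fun i _ => hlim i (fun x => ψ x i) (WQ.comp_smooth hψ i) (WQ.comp_per hp i)
    refine h3.congr' ?_
    have h4 : Ioo 0 T₀ ∈ 𝓝[<] T₀ := Ioo_mem_nhdsLT hT₀
    filter_upwards [h4] with t ht
    rw [integral_finsetSum]
    intro i _
    exact integrableOn_cube (((hv.sp ⟨ht.1.le, ht.2⟩ i).smooth.continuous).mul
      (WQ.comp_smooth hψ i).continuous)
  · have e1 : ∀ t, 0 ≤ t → OS.glue T₀ v u (t + T₀) = u t := by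
      intro t ht
      have h : ¬ (t + T₀ < T₀) := by linarith
      rw [OS.glue, if_neg h, add_sub_cancel_right]
    have e2 : ∀ t, 0 ≤ t → (if t + T₀ < T₀ then r (t + T₀) else p (t + T₀ - T₀)) = p t := by
      intro t ht
      have h : ¬ (t + T₀ < T₀) := by linarith
      rw [if_neg h, add_sub_cancel_right]
    refine ⟨hF.times, congr_o (open_o F) hF.sol (fun t ht => e1 t (le_of_lt ht.1))
      (fun t ht => e2 t (le_of_lt ht.1)), fun T' hT' => OS.cVeryWeak (hF.weak T' hT') fun t ht =>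
      e1 t ht.le, fun T' hT' n => OS.cInL2Lq (hF.lq T' hT' n) fun t ht => e1 t ht.le, ?_, ?_, ?_,
      ?_, ?_⟩
    · intro i ψ hψ hp
      refine (hF.cont i ψ hψ hp).congr fun t ht => ?_
      show ∫ x in cube, OS.glue T₀ v u (t + T₀) x i * ψ x = _
      rw [e1 t (le_of_lt ht)]
    · intro ψ hψ hp
      refine (hF.init ψ hψ hp).congr' ?_
      filter_upwards [self_mem_nhdsWithin] with t ht
      rw [e1 t (le_of_lt ht)]
    · intro s hs δ hδ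
      filter_upwards [hF.small s hs δ hδ, self_mem_nhdsWithin] with t ht hts x i
      rw [e1 t (hs.trans (le_of_lt hts))]
      exact ht x i
    · refine le_trans (le_of_eq (setLIntegral_congr_fun measurableSet_Ioo fun t ht => ?_)) hF.near
      show (⨆ x, ⨆ i, ENNReal.ofReal |OS.glue T₀ v u (t + T₀) x i - w t x i|) ^ q = _
      rw [e1 t ht.1.le]
    · intro t ht x i
      rw [e1 t (by linarith)]
      exact hF.late t ht x i

end Pool.Agent.Run7.h782.HP
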