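import Pool.Agent.Run7.h782.HP.PubBr
import Pool.Agent.Run7.h782.WQ.FinalS
import Pool.Agent.Run7.h969.HP.Defs2

/-!
From `StmBr` to the final statement.
-/

set_option autoImplicit false

open MeasureTheory Set Filter Topology
open scoped ContDiff ENNReal ComplexConjugate

namespace Pool.Agent.Run7.h782.HP

open H459R3.NS Pool.Agent.Run7.h782 Pool.Agent.Run7.h782.GD Pool.Agent.Run7.h782.GS
open Pool.Agent.Run7.h782.WS Pool.Agent.Run7.h744.WS Pool.Agent.Run7.h969.WS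
open Pool.Agent.Run7.h782.WQ.Inst Pool.Agent.Run7.h969.HP

theorem branch (hBr : StmBr) {ν : ℝ} (hν : 0 < ν) {c : K3 → C3} (hc : Dist c) (hc0 : c 0 = 0)
    {Q : ℕ → ℝ} (hQ : ∀ n, 1 ≤ Q n) {T₀ : ℝ} (hT₀ : 0 < T₀) {v : ℝ → V → V}
    (hv : VeryWeak ν T₀ c v) (hvq : ∀ n, InL2Lq T₀ v (2 * Q n)) {S T : ℝ} (hS : S ∈ Icc 0 T₀)
    (hT : S < T) {w : ℝ → V → V} (hw : Path w) {q ε : ℝ} (hq0 : 0 < q) (hq : q < 2) (hε : 0 < ε) :
    ∃ (F : Finset ℝ) (u : ℝ → V → V) (p : ℝ → V → ℝ), Branch ν c Q v S w T q ε F u p := by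
  obtain ⟨F, u, p, h1, h2, h3, h4, h5, h6, h7, h8, h9⟩ := hBr ν hν c (dis_of' hc) hc0 Q hQ T₀ hT₀ v
    (vw_to' hv) hvq S hS T hT w hw q ε hq0 hq hε
  exact ⟨F, u, p, fun T' hT' => vw_of' (h4 T' hT'), h5, h2, h1, h3, h6, h7, h8, h9⟩

end Pool.Agent.Run7.h782.HP
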