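import Pool.Agent.Run7.h782.HP.FinSt
import Pool.Agent.Run7.h782.HP.DefsB

/-!
From `StmSteerB` to the final statement.
-/

set_option autoImplicit false

open MeasureTheory Set Filter Topology
open scoped ContDiff ENNReal ComplexConjugate

namespace Pool.Agent.Run7.h782.HP

open H459R3.NS Pool.Agent.Run7.h782 Pool.Agent.Run7.h782.GD Pool.Agent.Run7.h782.GS
open Pool.Agent.Run7.h782.WS Pool.Agent.Run7.h744.WS Pool.Agent.Run7.h969.WS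
open Pool.Agent.Run7.h782.WQ.Inst Pool.Agent.Run7.h969.HP

theorem joinedB (hSt : StmSteerB) {ν : ℝ} (hν : 0 < ν) {m : V} {c c₁ : K3 → C3} (hc : Dist c)
    (hm : ∀ i, c 0 i = ((m i : ℝ) : ℂ)) (hc₁ : Dist c₁) (hm₁ : ∀ i, c₁ 0 i = ((m i : ℝ) : ℂ))
    {Q : ℕ → ℝ} (hQ : ∀ n, 1 ≤ Q n) {T₀ : ℝ} (hT₀ : 0 < T₀) {v : ℝ → V → V}
    (hv : VeryWeak ν T₀ c v) (hvq : ∀ n, InL2Lq T₀ v (2 * Q n)) {U : ℝ → V → V}
    (hU : ∀ T', 0 < T' → VeryWeak ν T' c₁ U) (hUq : ∀ T', 0 < T' → ∀ n, InL2Lq T' U (2 * Q n))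
    {S T : ℝ} (hS : S ∈ Icc 0 T₀) (hT : S < T) {w : ℝ → V → V} (hw : Inst.SmoothPath m w)
    {φ : ℝ → ℝ} (hφ : Gauge φ) {Φ : ℝ → ℝ} (hΦ : Inst.Orlicz Φ) {ε : ℝ} (hε : 0 < ε) :
    ∃ (F : Set ℝ) (u : ℝ → V → V) (p : ℝ → V → ℝ), Inst.Joined ν c Q v S w T U Φ ε F u p ∧
      ∀ s ∈ Ioo S T, Bc φ u s := by
  have hΦ' : Orl Φ := ⟨hΦ.zero, hΦ.nonneg, hΦ.conv, hΦ.small⟩
  obtain ⟨F, u, p, h1, h2, h3, h4, h5, h6, h7, h8, h8b, h9, h, h0, h10, h11⟩ := hSt ν hν m c c₁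
    (dis_of' hc) hm (dis_of' hc₁) hm₁ Q hQ T₀ hT₀ v (vw_to' hv) hvq U
    (fun T' hT' => vw_to' (hU T' hT')) hUq S hS T hT w
    ⟨hw.smooth, hw.per, hw.divfree, hw.mean⟩ φ hφ Φ hΦ' ε hε
  refine ⟨F, u, p, ⟨fun T' hT' => vw_of' (h6 T' hT'), h7, h3, h4, h1, h2,
    ⟨h5.smooth_u, h5.smooth_p, h5.per_u, h5.per_p, h5.divfree, h5.momentum⟩, h8, h9, ?_⟩, h8b⟩
  refine le_trans (setLIntegral_mono' measurableSet_Ioo fun t ht => ?_) h11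
  exact iSup_le fun x => iSup_le fun i =>
    ENNReal.ofReal_le_ofReal (hΦ'.mono (abs_nonneg _) (h10 t ht x i))

end Pool.Agent.Run7.h782.HP
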