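import Pool.Agent.Run7.h782.HP.ShiftU
import Pool.Agent.Run7.h969.HP.Rch1

import Pool.Agent.Run7.h782.HP.LocU
import Pool.Agent.Run7.h782.HP.CoreB
/-!
Piece LocUB of the project HP.
-/

set_option autoImplicit false

open MeasureTheory Set Filter Topology
open scoped ContDiff ENNReal ComplexConjugate

namespace Pool.Agent.Run7.h782.HP

open H459R3.NS Pool.Agent.Run7 Pool.Agent.Run7.h782.GD Pool.Agent.Run7.h782.GS
open Pool.Agent.Run7.h782.WS Pool.Agent.Run7.h744.GS Pool.Agent.Run7.h744.WS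
open Pool.Agent.Run7.h969.WS Pool.Agent.Run7.h811.WS Pool.Agent.Run7.h782.WQ Pool.Agent.Run7.h811.WQ
open Pool.Agent.Run7.h969.HP Pool.Agent.Run7.h811.HP
open Pool.Agent.Run7.h779.WQ (bx trc tail_tendsto d1_sum bx_tendsto dvr_zero)

/-- **Piece LocUB.** -/
theorem locUB (hIter : StmIterUB) (hTgt : StmTgtF) (hPhys : StmPhysO) : StmLocUB := by
  intro ν hν Q hQ I θ hθ
  obtain ⟨η₁, hη₁, hIt⟩ := hIter ν hν Q hQ I (θ / 24) (by positivity)
  set K : ℝ := ∑ i ∈ Finset.range (I + 1), (2 : ℝ) ^ Q i with hK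
  have hKi : ∀ i, i ≤ I → (2 : ℝ) ^ Q i ≤ K := fun i hi =>
    Finset.single_le_sum (f := fun i => (2 : ℝ) ^ Q i)
      (fun i _ => Real.rpow_nonneg (by norm_num) _) (Finset.mem_range.2 (by omega))
  have hK0 : 0 < K := (Real.rpow_pos_of_pos (by norm_num) (Q 0)).trans_le (hKi 0 (Nat.zero_le _))
  set η : ℝ := min (1 / 54) (η₁ / (55 * K)) with hη
  have hη0 : 0 < η := lt_min (by norm_num) (by positivity)
  have hη54 : 54 * η ≤ 1 := by
    have := min_le_left (1 / 54 : ℝ) (η₁ / (55 * K))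
    rw [← hη] at this
    linarith
  have hηK : K * (55 * η) ≤ η₁ := by
    have h1 := min_le_right (1 / 54 : ℝ) (η₁ / (55 * K))
    rw [← hη] at h1
    rw [le_div_iff₀ (by positivity)] at h1
    linarith
  refine ⟨η, hη0, fun m w hw T ε hT hε => ?_⟩
  have hw' := path_of hw
  obtain ⟨τ₀, hτ₀, htgt⟩ := hTgt ν hν _ hw' T (min ε η) hT (lt_min hε hη0)
  obtain ⟨W, hW0, hW⟩ := bdd_path hw (T + 1)
  set B : ℝ := W + ε with hB
  have hB0 : 0 ≤ B := by positivity
  refine ⟨min (min τ₀ 1) (θ / (24 * (B ^ 2 + 1))), by positivity,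
    fun τ hτ hττ s hs c hcH hcV hc0 hcs Z r hZ hr hrp hcl φ hφ Φ hΦ δ hδ => ?_⟩
  have hττ0 : τ < τ₀ := hττ.trans_le ((min_le_left _ _).trans (min_le_left _ _))
  have hτ1 : τ < 1 := hττ.trans_le ((min_le_left _ _).trans (min_le_right _ _))
  have hτB : τ * (24 * (B ^ 2 + 1)) ≤ θ := by
    have h1 := hττ.le.trans (min_le_right _ _)
    rwa [le_div_iff₀ (by positivity)] at h1
  set τ' : ℝ := (τ + τ₀) / 2 with hτ'
  have h1 : τ < τ' := by rw [hτ']; linarith
  have h2 : τ' ≤ τ₀ := by rw [hτ']; linarith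
  obtain ⟨f, U, hf, hf0, hTg, hclose⟩ := htgt τ' (hτ.trans h1) h2 s hs
  have hUs : ∀ t, 0 ≤ t → L1 (U t) := by
    intro t ht
    obtain ⟨A, hA, hAk⟩ := hTg.maj 0 t
    exact Summable.of_nonneg_of_le (fun _ => norm_nonneg _) (fun k => by
      have := hAk t ⟨ht, le_rfl⟩ k
      rwa [pow_zero, one_mul] at this) hA
  -- the data
  set a : V := s • m with ha
  have hc's : Summable fun k => ‖sft a c k‖ := by
    refine Summable.of_nonneg_of_le (fun _ => norm_nonneg _) (fun k => ?_) hcs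
    by_cases hk : k = 0
    · subst hk
      rw [sft_zero, norm_zero]
      exact norm_nonneg _
    · rw [sft_ne a c hk, norm_smul, norm_ee, one_mul]
  set d : Cf := sft a c - dvr (shM a r) with hd
  have hds : Summable fun k => ‖d k‖ := sum_sub' hc's (sum_dvr (shM_supp hZ))
  have hdU : ∑' k, ‖(d - U 0) k‖ ≤ 2 * η := by
    refine (sum_sub' hds (hUs 0 le_rfl)).tsum_le_of_sum_le fun A => ?_
    have h3 : ∀ k, ‖(d - U 0) k‖ ≤ ‖c k - vf (w s) k - dvr r k‖
        + ‖U 0 k - vf ((fun r y => w r (y + r • m) - m) (s + 0)) k‖ := by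
      intro k
      rw [add_zero]
      have h4 : ‖(sft a c k - dvr (shM a r) k) - vf ((fun r y => w r (y + r • m) - m) s) k‖
          ≤ ‖c k - vf (w s) k - dvr r k‖ := by
        by_cases hk : k = 0
        · subst hk
          rw [sft_zero, dvr_zero, vf_zero hw' s, sub_zero, sub_zero, norm_zero]
          exact norm_nonneg _
        · have e : vf (w s) k = ee k (-a) • vf (fun y => w s (y + s • m) - m) k := by
            funext i
            rw [vf_path hw s k i, if_neg hk, zero_add]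
            rfl
          have e2 : (sft a c k - dvr (shM a r) k) - vf ((fun r y => w r (y + r • m) - m) s) k
              = ee k a • (c k - vf (w s) k - dvr r k) := by
            rw [sft_ne a c hk, dvr_shM, smul_sub, smul_sub, e, smul_smul, ← ee_add, add_neg_cancel]
            have h5 : ee k 0 = 1 := by simp [ee, ph]
            rw [h5, one_smul]
            abel
          rw [e2, norm_smul, norm_ee, one_mul]
      have e3 : (d - U 0) k
          = ((sft a c k - dvr (shM a r) k) - vf ((fun r y => w r (y + r • m) - m) s) k)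
            - (U 0 k - vf ((fun r y => w r (y + r • m) - m) s) k) := by
        rw [Pi.sub_apply, hd, Pi.sub_apply]
        abel
      rw [e3]
      exact (norm_sub_le _ _).trans (add_le_add h4 le_rfl)
    refine (Finset.sum_le_sum fun k _ => h3 k).trans ?_
    rw [Finset.sum_add_distrib]
    have h5 := hclose 0 ⟨le_rfl, (hτ.trans h1).le⟩ A
    have h6 := hcl A
    have h7 := min_le_right ε η
    linarith
  obtain ⟨N, hN⟩ := eventually_atTop.1
    ((tail_tendsto (hUs 0 le_rfl)).eventually (ge_mem_nhds hη0))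
  have hDat := datU hQ (shM_supp (a := a) hZ) (shM_sy hr) (sft_herm (a := a) hcH)
    (sft_div hcV) (sft_zero _ _) hc's N
  have hsmall : ∀ i, i ≤ I → ∀ n, rp (Q i)
      ((shM a r + anti (trc (sft a c - dvr (shM a r)) (n + N))) - anti (U 0)) ≤ η₁ := by
    intro i hi n
    obtain ⟨g1, g2⟩ := trc_sub_le hds (hUs 0 le_rfl) hdU (hN (n + N) (Nat.le_add_left _ _))
    have e : (shM a r + anti (trc (sft a c - dvr (shM a r)) (n + N))) - anti (U 0)
        = shM a r + anti (trc d (n + N) - U 0) := by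
      rw [add_sub_assoc]
      congr 1
      funext i j k
      simp only [anti, Pi.sub_apply, hd]
      rw [← sub_div]
      congr 1
      ring
    rw [e]
    refine (rp_le_U (hQ i) (R1_supp (shM_supp hZ)) g1 hη54 ?_ g2).trans ?_
    · rw [rp_shM]
      exact hrp i hi
    · refine le_trans ?_ hηK
      exact mul_le_mul_of_nonneg_right (hKi i hi) (by positivity)
  obtain ⟨b, hb, hblim, hbd, hbes, hsq, hLQ, hL2, hPhi, hfar, hnorm⟩ :=
    hIt f hf U hTg _ _ hDat hsmall _ (gg_double hφ) Φ hΦ δ hδ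
  have hclose' : ∀ t ∈ Icc 0 τ', ∀ A : Finset K3,
      ∑ k ∈ A, ‖U t k - vf ((fun r y => w r (y + r • m) - m) (s + t)) k‖ ≤ ε := fun t ht A =>
    (hclose t ht A).trans (min_le_left _ _)
  obtain ⟨p, hp⟩ := core hw hτ1 h1 hf0 hTg hclose' hc0 hQ hPhys hb hblim hbd hsq hLQ hL2 hPhi hfar
  refine ⟨τ', _, p, h1, hp, coreB hcH hc0 hφ hb hbes hcs, fun i hi => ?_⟩
  have hQ0 : 0 < Q i := by linarith [hQ i]
  -- the norms
  have hpt : ∀ t ∈ Ioo 0 τ, (∫⁻ x in cube, ENNReal.ofReal
      (∑ j, |(m + fld b t (x - (s + t) • m)) j| ^ (2 * Q i))) ^ (2 / (2 * Q i))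
      ≤ ENNReal.ofReal (12 * B ^ 2)
        + 12 * ENNReal.ofReal (fp (2 * Q i) (b t - U t) ^ (1 / Q i)) := by
    intro t ht
    have hUB : ∀ y i, |m i + (S (fun k => U t k i) y).re| ≤ B := by
      intro y i
      have h3 := near_pt hw' (fun i => (hUs t ht.1.le).comp i)
        (hclose' t ⟨ht.1.le, (ht.2.trans h1).le⟩) y i
      have h4 : |w (s + t) (y + (s + t) • m) i| ≤ W :=
        hW (s + t) ⟨by linarith [hs.1, ht.1], by linarith [hs.2, ht.2]⟩ _ i
      have e : m i + (S (fun k => U t k i) y).re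
          = ((S (fun k => U t k i) y).re - (w (s + t) (y + (s + t) • m) - m) i)
            + w (s + t) (y + (s + t) • m) i := by
        rw [Pi.sub_apply]
        ring
      rw [e, hB, add_comm W ε]
      exact (abs_add_le _ _).trans (add_le_add h3 h4)
    have h3 := lq_pt (hQ i) (m := m) (a := (s + t) • m) (pos_facts hb ht.1).1 (hUs t ht.1.le) hB0 hUB
    refine (le_trans (le_of_eq rfl) h3).trans (le_of_eq ?_)
    have h5 : 0 ≤ fp (2 * Q i) (b t - U t) ^ (1 / Q i) :=
      Real.rpow_nonneg (h744.WQ.fp_nonneg _ _) _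
    rw [mul_add, ENNReal.ofReal_add (by positivity) (by positivity),
      ENNReal.ofReal_mul (by norm_num : (0 : ℝ) ≤ 12)
        (q := fp (2 * Q i) (b t - U t) ^ (1 / Q i))]
    norm_num
  calc ∫⁻ t in Ioo 0 τ, (∫⁻ x in cube, ENNReal.ofReal
        (∑ j, |(m + fld b t (x - (s + t) • m)) j| ^ (2 * Q i))) ^ (2 / (2 * Q i))
      ≤ ∫⁻ t in Ioo 0 τ, (ENNReal.ofReal (12 * B ^ 2)
        + 12 * ENNReal.ofReal (fp (2 * Q i) (b t - U t) ^ (1 / Q i))) :=
        setLIntegral_mono' measurableSet_Ioo hpt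
    _ = ENNReal.ofReal (12 * B ^ 2) * ENNReal.ofReal τ
        + 12 * ∫⁻ t in Ioo 0 τ, ENNReal.ofReal (fp (2 * Q i) (b t - U t) ^ (1 / Q i)) := by
        rw [lintegral_add_left measurable_const, lintegral_const_mul' _ _ (by norm_num),
          setLIntegral_const, Real.volume_Ioo, sub_zero]
    _ ≤ ENNReal.ofReal (12 * B ^ 2) * ENNReal.ofReal τ + 12 * ENNReal.ofReal (θ / 24) := by
        gcongr
        refine (lintegral_mono_set ?_).trans (hnorm i hi)
        exact fun t ht => ⟨ht.1, ht.2.le.trans hτ1.le⟩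
    _ ≤ ENNReal.ofReal θ := by
        have e12 : (12 : ℝ≥0∞) = ENNReal.ofReal 12 := by norm_num
        rw [e12, ← ENNReal.ofReal_mul (by positivity), ← ENNReal.ofReal_mul (by norm_num),
          ← ENNReal.ofReal_add (by positivity) (by positivity)]
        refine ENNReal.ofReal_le_ofReal ?_
        nlinarith

end Pool.Agent.Run7.h782.HP
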