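import Pool.Agent.Run7.h782.HP.BasF
import Pool.Agent.Run7.h782.WS.Near

/-!
Project HP, piece StepF, part 2: solutions near the sum of an approximate solution and a truncated
target, with a force.
-/

set_option autoImplicit false

open MeasureTheory Set Filter Topology
open scoped ContDiff ComplexConjugate NNReal

namespace Pool.Agent.Run7.h782.HP

open H459R3.NS hiding W
open Pool.Agent.Run7.h782 Pool.Agent.Run7.h782.GD Pool.Agent.Run7.h782.GS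
open Pool.Agent.Run7.h782.WS Pool.Agent.Run7.h969.HP

variable {ν L e₁ : ℝ} {B : Finset K3} {ff U v F a : ℝ → Cf}

theorem vt_cntF (A : Appr ν B v F) (hU : LSolF ff ν U) : Cnt (vt L U v) :=
  (apprv_cnt A).add (cnt_tr hU.cnt_h L)

theorem vt_majF (A : Appr ν B v F) (hU : LSolF ff ν U) : Maj (vt L U v) :=
  maj_of_supp (fun t _ => vt_supp A t) (vt_cntF A hU)

theorem appr_tF (A : Appr ν B v F) (hU : LSolF ff ν U) (hf : Frc ff)
    (hfL : ∀ t, ∀ k ∉ bl L, ff t k = 0) : FApp ν (Bt B L) ff (vt L U v) (Ft L U v F) where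
  zero := by
    rw [Bt]
    simp
  suppv := fun t k hk => by
    by_cases h0 : k = 0
    · subst h0
      rw [vt, Pi.add_apply, A.suppv t 0 A.zero, tr_not (zero_bl L), add_zero]
    · exact vt_supp A t k fun h => hk (sub_Bt h0 h)
  suppF := fun t k hk => by
    by_cases h0 : k = 0
    · subst h0
      rw [Ft, Pi.sub_apply, Pi.add_apply, Pi.sub_apply, nl_zero_mode, nl_zero_mode,
        tr_not (zero_bl L), A.suppF t 0 A.zero]
      simp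
    · have h1 : k ∉ B ∪ bl L := fun h => hk (sub_Bt h0 h)
      have h2 : k ∉ Finset.image₂ (fun x y => x + y) (B ∪ bl L) (B ∪ bl L) := fun h => hk (by
        rw [Bt, Finset.mem_erase]
        exact ⟨h0, Finset.mem_union_right _ h⟩)
      have h3 := h1
      rw [Finset.mem_union, not_or] at h3
      rw [Ft, Pi.sub_apply, Pi.add_apply, Pi.sub_apply, nl_supp (vt_supp A t) h2,
        nl_supp (a := v t) (C := B ∪ bl L) (fun k hk => by
          rw [Finset.mem_union, not_or] at hk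
          exact A.suppv t k hk.1) h2, tr_not h3.2, A.suppF t k h3.1]
      simp
  suppf := fun t k hk => by
    by_cases h0 : k = 0
    · subst h0
      exact hfL t 0 (zero_bl L)
    · exact hfL t k fun h => hk (sub_Bt h0 (Finset.mem_union_right _ h))
  contf := hf.cont
  hermf := fun t _ => hf.herm t
  divf := fun t _ => hf.div t
  contF := by
    intro k
    have h1 : Cnt fun t => nl (vt L U v t) (vt L U v t) :=
      (vt_cntF A hU).nl (vt_cntF A hU) (vt_majF A hU) (vt_majF A hU)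
    have h2 : Cnt fun t => nl (v t) (v t) :=
      (apprv_cnt A).nl (apprv_cnt A) (apprv_maj A) (apprv_maj A)
    have h3 : Cnt fun t => tr L (nl (U t) (U t)) :=
      cnt_tr (hU.cnt_h.nl hU.cnt_h hU.maj hU.maj) L
    exact ((A.contF k).add ((h1 k).sub (h2 k))).sub (h3 k)
  hermv := fun t ht => (A.hermv t ht).add (herm_tr (hU.herm t ht) L)
  hermF := fun t ht => ((A.hermF t ht).add
    ((herm_nl ((A.hermv t ht).add (herm_tr (hU.herm t ht) L))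
      ((A.hermv t ht).add (herm_tr (hU.herm t ht) L))).sub
      (herm_nl (A.hermv t ht) (A.hermv t ht)))).sub
    (herm_tr (herm_nl (hU.herm t ht) (hU.herm t ht)) L)
  divv := fun t ht => (A.divv t ht).add (dv_tr (hU.div t ht) L)
  divF := fun t ht => ((A.divF t ht).add ((dv_nl _ _).sub (dv_nl _ _))).sub (dv_tr (dv_nl _ _) L)
  der := by
    intro t ht k
    have h1 : HasDerivWithinAt (fun s => tr L (U s) k)
        (-(lam ν k : ℂ) • tr L (U t) k - tr L (nl (U t) (U t)) k + ff t k) (Ici 0) t := by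
      by_cases hk : k ∈ bl L
      · rw [tr_mem hk, tr_mem hk]
        refine (hU.der t ht k).congr (fun s _ => tr_mem hk) (tr_mem hk)
      · rw [tr_not hk, tr_not hk, smul_zero, sub_zero, hfL t k hk, add_zero]
        exact (hasDerivWithinAt_const t (Ici 0) (0 : C3)).congr (fun s _ => tr_not hk) (tr_not hk)
    have h2 := (A.der t ht k).add h1
    refine h2.congr_deriv ?_
    rw [Ft, Pi.sub_apply, Pi.add_apply, Pi.sub_apply, vt, Pi.add_apply, smul_add]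
    abel

/-- The bound of the residual. -/
theorem Ft_leF (A : Appr ν B v F) (hU : LSolF ff ν U) (hL : 0 < L) {t : ℝ} (ht : 0 ≤ t) :
    ∑ k ∈ Bt B L, ‖Ft L U v F t k‖ / len k ≤ ∑ k ∈ B, ‖F t k‖ / len k
      + 48 * Real.pi * (N0 (v t) * N0 (U t)) + 96 * Real.pi * L⁻¹ * (N1 (U t) * N0 (U t)) := by
  have hpi := Real.pi_pos
  have hUM : Maj U := hU.maj
  have hUl := hUM.l1 ht
  have hvl := (apprv_maj A).l1 ht
  have hVl := l1_tr L (U t)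
  have e : Ft L U v F t = F t + (nl (v t) (tr L (U t)) + nl (tr L (U t)) (v t))
      + (nl (tr L (U t)) (tr L (U t)) - tr L (nl (U t) (U t))) := by
    rw [Ft, vt, nl_add_left hvl hVl (hvl.add hVl), nl_add_right hvl hvl hVl,
      nl_add_right hVl hvl hVl]
    abel
  have h1 : ∑ k ∈ Bt B L, ‖F t k‖ / len k ≤ ∑ k ∈ B, ‖F t k‖ / len k := by
    classical
    calc ∑ k ∈ Bt B L, ‖F t k‖ / len k ≤ ∑ k ∈ Bt B L ∪ B, ‖F t k‖ / len k :=
          Finset.sum_le_sum_of_subset_of_nonneg Finset.subset_union_left fun k _ _ =>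
            div_nonneg (norm_nonneg _) (len_nonneg k)
      _ = ∑ k ∈ B, ‖F t k‖ / len k :=
          (Finset.sum_subset Finset.subset_union_right fun k _ hk => by
            rw [A.suppF t k hk, norm_zero, zero_div]).symm
  have h2 := sum_nl_le0 hvl hVl (Bt B L)
  have h3 := sum_nl_le0 hVl hvl (Bt B L)
  have h4 := trunc_le (hU.zero t ht) hUl (hUM.sum wt_len ht) hL (Bt B L)
  have h5 := N0_tr_le hUl L
  have h6 := N0_nonneg (v t)
  calc ∑ k ∈ Bt B L, ‖Ft L U v F t k‖ / len k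
      ≤ ∑ k ∈ Bt B L, (‖F t k‖ / len k + (‖nl (v t) (tr L (U t)) k‖ / len k
        + ‖nl (tr L (U t)) (v t) k‖ / len k)
        + ‖nl (tr L (U t)) (tr L (U t)) k - tr L (nl (U t) (U t)) k‖ / len k) := by
        refine Finset.sum_le_sum fun k _ => ?_
        rw [e, ← add_div, ← add_div, ← add_div]
        refine div_le_div_of_nonneg_right ?_ (len_nonneg k)
        exact (norm_add_le _ _).trans (add_le_add ((norm_add_le _ _).trans
          (add_le_add le_rfl (norm_add_le _ _))) le_rfl)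
    _ = ∑ k ∈ Bt B L, ‖F t k‖ / len k + (∑ k ∈ Bt B L, ‖nl (v t) (tr L (U t)) k‖ / len k
        + ∑ k ∈ Bt B L, ‖nl (tr L (U t)) (v t) k‖ / len k)
        + ∑ k ∈ Bt B L, ‖nl (tr L (U t)) (tr L (U t)) k - tr L (nl (U t) (U t)) k‖ / len k := by
        rw [Finset.sum_add_distrib, Finset.sum_add_distrib, Finset.sum_add_distrib]
    _ ≤ ∑ k ∈ B, ‖F t k‖ / len k + (24 * Real.pi * (N0 (v t) * N0 (U t))
        + 24 * Real.pi * (N0 (v t) * N0 (U t))) + 96 * Real.pi * L⁻¹ * (N1 (U t) * N0 (U t)) := by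
        refine add_le_add (add_le_add h1 (add_le_add (h2.trans ?_) (h3.trans ?_))) h4
        · exact mul_le_mul_of_nonneg_left (mul_le_mul_of_nonneg_left h5 h6) (by positivity)
        · rw [mul_comm (N0 (tr L (U t)))]
          exact mul_le_mul_of_nonneg_left (mul_le_mul_of_nonneg_left h5 h6) (by positivity)
    _ = _ := by ring

/-- The body of `StmT1`. -/
def T1CF (C₁ : ℝ) : Prop := ∀ (ν : ℝ), 0 < ν → ∀ (B : Finset K3) (f v F : ℝ → Cf)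
  (g : ℝ → ℝ) (K η T₁ : ℝ), FApp ν B f v F → (∀ t, T₁ ≤ t → f t = 0) → Continuous g →
  (∀ t, 0 ≤ t → ∑ k ∈ B, ‖F t k‖ / len k ≤ g t) →
  (∀ T, 0 ≤ T → ∫ t in (0 : ℝ)..T, g t ≤ η) →
  (∀ T, 0 ≤ T → ∫ t in (0 : ℝ)..T, (∑ k ∈ B, ‖v t k‖) ^ 2 ≤ K) →
  C₁ * η * Real.exp (C₁ * K / ν) ≤ ν →
  ∃ a : ℝ → Cf, FSo ν f a ∧ a 0 = v 0 ∧
    (∀ t, 0 ≤ t → ∀ A : Finset K3,
      ∑ k ∈ A, ‖a t k - v t k‖ / len k ≤ C₁ * η * Real.exp (C₁ * K / ν)) ∧
    ∀ T, 0 ≤ T → ∀ A : Finset K3, ∫ t in (0 : ℝ)..T, ∑ k ∈ A, len k * ‖a t k - v t k‖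
      ≤ C₁ * η * Real.exp (C₁ * K / ν) / ν

/-- `a` is a solution near `v + U`. -/
structure NearF (ff : ℝ → Cf) (ν L e₁ : ℝ) (B : Finset K3) (U v F a : ℝ → Cf) : Prop where
  frc : Frc ff
  fl : ∀ t, ∀ k ∉ bl L, ff t k = 0
  appr : Appr ν B v F
  tgt : LSolF ff ν U
  sol : FSo ν ff a
  init : a 0 = vt L U v 0
  m : ∀ t, 0 ≤ t → ∀ A : Finset K3, ∑ k ∈ A, ‖a t k - vt L U v t k‖ / len k ≤ e₁
  one : ∀ T, 0 ≤ T → ∀ A : Finset K3,
    ∫ t in (0 : ℝ)..T, ∑ k ∈ A, len k * ‖a t k - vt L U v t k‖ ≤ e₁ / ν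

theorem near_existsF {C₁ K' M₀ M₁ θ δ : ℝ} (T1 : T1CF C₁) (hC₁ : 0 < C₁) (hν : 0 < ν)
    (hUL : LSolF ff ν U) (hM₀ : 0 ≤ M₀) (hN0U : ∀ t, 0 ≤ t → N0 (U t) ≤ M₀)
    (hN1U : ∀ s t, 0 ≤ s → s ≤ t → ∫ r in s..t, N1 (U r) ≤ M₁)
    (A : Appr ν B v F) (hf : Frc ff) (hfL : ∀ t, ∀ k ∉ bl L, ff t k = 0) {g : ℝ → ℝ} (hg : Continuous g)
    (hFg : ∀ t, 0 ≤ t → ∑ k ∈ B, ‖F t k‖ / len k ≤ g t) {η : ℝ}
    (hη : η = e₁ / (C₁ * Real.exp (C₁ * (2 * K' + 2 * (M₀ * M₁)) / ν)))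
    (hgi : ∀ T, 0 ≤ T → ∫ t in (0 : ℝ)..T, g t ≤ η / 3) (hL1 : 0 < L)
    (hL3 : L⁻¹ * (96 * Real.pi * (M₀ * M₁)) ≤ η / 3)
    (he0 : 0 < e₁) (he1 : e₁ ≤ ν) (hK'0 : 0 < K') (hδ0 : 0 < δ)
    (hθ : θ = η / (144 * Real.pi * (M₀ + 1))) (hδ5 : δ ≤ θ / 2) (hδ6 : δ ≤ θ ^ 2 / (4 * K'))
    (hvK' : ∀ T, 0 ≤ T → ∫ t in (0 : ℝ)..T, (∑ k ∈ B, ‖v t k‖) ^ 2 ≤ K')
    (hvd : ∀ t, δ ≤ t → ∑ k ∈ B, len k * ‖v t k‖ ≤ δ * Real.exp (-t)) :
    ∃ a : ℝ → Cf, NearF ff ν L e₁ B U v F a := by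
  have hpi := Real.pi_pos
  have hUM : Maj U := hUL.maj
  have hM₁ : 0 ≤ M₁ := by simpa using hN1U 0 0 le_rfl le_rfl
  set K : ℝ := 2 * K' + 2 * (M₀ * M₁) with hK
  set X : ℝ := Real.exp (C₁ * K / ν) with hX
  have hX0 : 0 < X := Real.exp_pos _
  have hη0 : 0 < η := by
    rw [hη]
    positivity
  have hθ0 : 0 < θ := by
    rw [hθ]
    positivity
  have hBc := contB A
  have hBi : ∀ T, 0 ≤ T → ∫ t in (0 : ℝ)..T, ∑ k ∈ B, ‖v t k‖ ≤ θ := fun T hT =>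
    int_B_le A hδ0 hK'0 hθ0 hδ5 hδ6 hvK' hvd hT
  -- the residual
  have A2 := appr_tF (L := L) (U := U) A hUL hf hfL
  set G : ℝ → ℝ := fun t => ∑ k ∈ Bt B L, ‖Ft L U v F (max t 0) k‖ / len k with hG
  have hGc : Continuous G := by
    refine continuous_finsetSum _ fun k _ => Continuous.div_const ?_ _
    exact ((A2.contF k).comp_continuous (continuous_id.max continuous_const)
      fun t => (le_max_right t 0 : (0 : ℝ) ≤ max t 0)).norm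
  have hGe : ∀ t, 0 ≤ t → G t = ∑ k ∈ Bt B L, ‖Ft L U v F t k‖ / len k := fun t ht => by
    simp only [hG, max_eq_left ht]
  have hGle : ∀ t, 0 ≤ t → G t ≤ g t + 48 * Real.pi * M₀ * (∑ k ∈ B, ‖v t k‖)
      + 96 * Real.pi * L⁻¹ * M₀ * N1 (U t) := by
    intro t ht
    rw [hGe t ht]
    refine (Ft_leF A hUL hL1 ht).trans ?_
    have h1 := hN0U t ht
    have h2 : 0 ≤ ∑ k ∈ B, ‖v t k‖ := Finset.sum_nonneg fun k _ => norm_nonneg _
    have h3 := N1_nonneg (U t)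
    rw [N0_supp A]
    have h4 : 48 * Real.pi * ((∑ k ∈ B, ‖v t k‖) * N0 (U t))
        ≤ 48 * Real.pi * ((∑ k ∈ B, ‖v t k‖) * M₀) :=
      mul_le_mul_of_nonneg_left (mul_le_mul_of_nonneg_left h1 h2) (by positivity)
    have h5 : 96 * Real.pi * L⁻¹ * (N1 (U t) * N0 (U t)) ≤ 96 * Real.pi * L⁻¹ * (N1 (U t) * M₀) :=
      mul_le_mul_of_nonneg_left (mul_le_mul_of_nonneg_left h1 h3) (by positivity)
    have h6 := hFg t ht
    calc _ ≤ g t + 48 * Real.pi * ((∑ k ∈ B, ‖v t k‖) * M₀)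
          + 96 * Real.pi * L⁻¹ * (N1 (U t) * M₀) := add_le_add (add_le_add h6 h4) h5
      _ = _ := by ring
  have hGi : ∀ T, 0 ≤ T → ∫ t in (0 : ℝ)..T, G t ≤ η := by
    intro T hT
    have i1 := ii hg.continuousOn le_rfl hT
    have i2 := ii hBc le_rfl hT
    have i3 := ii hUL.contN1_h le_rfl hT
    have h1 : ∫ t in (0 : ℝ)..T, G t ≤ ∫ t in (0 : ℝ)..T, (g t
        + 48 * Real.pi * M₀ * (∑ k ∈ B, ‖v t k‖) + 96 * Real.pi * L⁻¹ * M₀ * N1 (U t)) :=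
      intervalIntegral.integral_mono_on hT (hGc.intervalIntegrable _ _)
        ((i1.add (i2.const_mul _)).add (i3.const_mul _)) fun t ht => hGle t ht.1
    rw [intervalIntegral.integral_add (i1.add (i2.const_mul _)) (i3.const_mul _),
      intervalIntegral.integral_add i1 (i2.const_mul _), intervalIntegral.integral_const_mul,
      intervalIntegral.integral_const_mul] at h1
    have h2 := hgi T hT
    have h3 : 48 * Real.pi * M₀ * (∫ t in (0 : ℝ)..T, ∑ k ∈ B, ‖v t k‖) ≤ η / 3 := by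
      calc _ ≤ 48 * Real.pi * M₀ * θ := mul_le_mul_of_nonneg_left (hBi T hT) (by positivity)
        _ ≤ 48 * Real.pi * (M₀ + 1) * θ := by
            refine mul_le_mul_of_nonneg_right ?_ hθ0.le
            refine mul_le_mul_of_nonneg_left ?_ (by positivity)
            linarith
        _ = η / 3 := by
            rw [hθ]
            field_simp
            norm_num
    have h4 : 96 * Real.pi * L⁻¹ * M₀ * (∫ t in (0 : ℝ)..T, N1 (U t)) ≤ η / 3 := by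
      calc _ ≤ 96 * Real.pi * L⁻¹ * M₀ * M₁ :=
            mul_le_mul_of_nonneg_left (hN1U 0 T le_rfl hT) (by positivity)
        _ = L⁻¹ * (96 * Real.pi * (M₀ * M₁)) := by ring
        _ ≤ η / 3 := hL3
    linarith
  -- squares of the truncated target
  have hN0sq : ∀ t, 0 ≤ t → N0 (U t) ^ 2 ≤ M₀ * N1 (U t) := by
    intro t ht
    have h1 := N0_le_N1 (hUL.zero t ht) (hUM.l1 ht) (hUM.sum wt_len ht)
    have h2 := hN0U t ht
    have h3 := N0_nonneg (U t)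
    have h4 := N1_nonneg (U t)
    nlinarith
  have hKi : ∀ T, 0 ≤ T → ∫ t in (0 : ℝ)..T, (∑ k ∈ Bt B L, ‖vt L U v t k‖) ^ 2 ≤ K := by
    intro T hT
    have i2 : IntervalIntegrable (fun t => (∑ k ∈ B, ‖v t k‖) ^ 2) volume 0 T :=
      ii (hBc.pow 2) le_rfl hT
    have i3 := ii hUL.contN1_h le_rfl hT
    have hcv : ContinuousOn (fun t => (∑ k ∈ Bt B L, ‖vt L U v t k‖) ^ 2) (Ici 0) :=
      (continuousOn_finsetSum _ fun k _ => (vt_cntF A hUL k).norm).pow 2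
    have h1 : ∫ t in (0 : ℝ)..T, (∑ k ∈ Bt B L, ‖vt L U v t k‖) ^ 2
        ≤ ∫ t in (0 : ℝ)..T, (2 * (∑ k ∈ B, ‖v t k‖) ^ 2 + 2 * M₀ * N1 (U t)) := by
      refine intervalIntegral.integral_mono_on hT (ii hcv le_rfl hT)
        ((i2.const_mul _).add (i3.const_mul _)) fun t ht => ?_
      have h2 : ∑ k ∈ Bt B L, ‖vt L U v t k‖ ≤ (∑ k ∈ B, ‖v t k‖) + N0 (U t) := by
        calc ∑ k ∈ Bt B L, ‖vt L U v t k‖
            ≤ ∑ k ∈ Bt B L, (‖v t k‖ + ‖U t k‖) := Finset.sum_le_sum fun k _ =>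
              (norm_add_le _ _).trans (add_le_add le_rfl (norm_tr_le L (U t) k))
          _ = ∑ k ∈ Bt B L, ‖v t k‖ + ∑ k ∈ Bt B L, ‖U t k‖ := Finset.sum_add_distrib
          _ ≤ _ := add_le_add (sum_supp_le' A t _) (sum_le_N0 (hUM.l1 ht.1) _)
      have h3 : (∑ k ∈ Bt B L, ‖vt L U v t k‖) ^ 2 ≤ ((∑ k ∈ B, ‖v t k‖) + N0 (U t)) ^ 2 :=
        pow_le_pow_left₀ (Finset.sum_nonneg fun k _ => norm_nonneg _) h2 2
      have h4 := hN0sq t ht.1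
      nlinarith [sq_nonneg ((∑ k ∈ B, ‖v t k‖) - N0 (U t))]
    rw [intervalIntegral.integral_add (i2.const_mul _) (i3.const_mul _),
      intervalIntegral.integral_const_mul, intervalIntegral.integral_const_mul] at h1
    have h5 := hvK' T hT
    have h6 : 2 * M₀ * (∫ t in (0 : ℝ)..T, N1 (U t)) ≤ 2 * M₀ * M₁ :=
      mul_le_mul_of_nonneg_left (hN1U 0 T le_rfl hT) (by positivity)
    rw [hK]
    linarith
  -- the solution
  have hE : C₁ * η * Real.exp (C₁ * K / ν) = e₁ := by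
    rw [← hX, hη]
    field_simp
  obtain ⟨T₁, -, hT₁⟩ := hf.late
  obtain ⟨a, ha, ha0, hcl, hint⟩ := T1 ν hν (Bt B L) ff (vt L U v) (Ft L U v F) G K η T₁ A2 hT₁ hGc
    (fun t ht => le_of_eq (hGe t ht).symm) hGi hKi (by rw [hE]; exact he1)
  rw [hE] at hcl hint
  exact ⟨a, hf, hfL, A, hUL, ha, ha0, hcl, hint⟩

section
variable (N : NearF ff ν L e₁ B U v F a)
include N

theorem NearF.dM : Maj (fun t => a t - vt L U v t) :=
  N.sol.maj_h.sub (vt_majF N.appr N.tgt)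

theorem NearF.dc : Cnt (fun t => a t - vt L U v t) :=
  (N.sol.lsol_h.cnt_h).sub (vt_cntF N.appr N.tgt)

theorem NearF.d0 {t : ℝ} (ht : 0 ≤ t) : (a t - vt L U v t) 0 = 0 := by
  show a t 0 - vt L U v t 0 = 0
  rw [N.sol.zero t ht, (appr_tF N.appr N.tgt N.frc N.fl).suppv t 0
      (appr_tF (L := L) N.appr N.tgt N.frc N.fl).zero,
    sub_zero]

theorem NearF.dm {t : ℝ} (ht : 0 ≤ t) : Nm (a t - vt L U v t) ≤ e₁ := Nm_le_of_sum (N.m t ht)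

theorem NearF.dc1 : ContinuousOn (fun t => N1 (a t - vt L U v t)) (Ici 0) :=
  N.dM.cont N.dc wt_len

theorem NearF.d1 {s t : ℝ} (hs : 0 ≤ s) (hst : s ≤ t) :
    ∫ r in s..t, N1 (a r - vt L U v r) ≤ e₁ / ν := by
  have h2 : ∫ r in (0 : ℝ)..t, N1 (a r - vt L U v r) ≤ e₁ / ν :=
    int_W_le N.dM N.dc wt_len le_rfl (hs.trans hst) (N.one t (hs.trans hst))
  have h3 := intervalIntegral.integral_add_adjacent_intervals (ii N.dc1 le_rfl hs)
    (ii N.dc1 hs hst)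
  have h4 : 0 ≤ ∫ r in (0 : ℝ)..s, N1 (a r - vt L U v r) :=
    intervalIntegral.integral_nonneg hs fun r _ => N1_nonneg _
  linarith

theorem NearF.dsq {t : ℝ} (ht : 0 ≤ t) :
    N0 (a t - vt L U v t) ^ 2 ≤ e₁ * N1 (a t - vt L U v t) :=
  (N0_sq_le (N.d0 ht) (N.dM.l1 ht) (N.dM.sum wt_len ht)).trans
    (mul_le_mul_of_nonneg_right (N.dm ht) (N1_nonneg _))

theorem NearF.diff (t : ℝ) (k : K3) :
    a t k - U t k = (a t - vt L U v t) k + v t k - (U t - tr L (U t)) k := by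
  show a t k - U t k = (a t k - (v t k + tr L (U t) k)) + v t k - (U t k - tr L (U t) k)
  abel

theorem NearF.dle (t : ℝ) (k : K3) :
    ‖a t k - U t k‖ ≤ ‖(a t - vt L U v t) k‖ + ‖v t k‖ + ‖(U t - tr L (U t)) k‖ := by
  rw [N.diff]
  exact (norm_sub_le _ _).trans (add_le_add (norm_add_le _ _) le_rfl)

theorem NearF.sum {t : ℝ} (ht : 0 ≤ t) (A' : Finset K3) : ∑ k ∈ A', ‖a t k - U t k‖
    ≤ N0 (a t - vt L U v t) + (∑ k ∈ B, ‖v t k‖) + N0 (U t - tr L (U t)) := by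
  have hUM : Maj U := N.tgt.maj
  calc ∑ k ∈ A', ‖a t k - U t k‖
      ≤ ∑ k ∈ A', (‖(a t - vt L U v t) k‖ + ‖v t k‖ + ‖(U t - tr L (U t)) k‖) :=
        Finset.sum_le_sum fun k _ => N.dle t k
    _ = ∑ k ∈ A', ‖(a t - vt L U v t) k‖ + ∑ k ∈ A', ‖v t k‖
        + ∑ k ∈ A', ‖(U t - tr L (U t)) k‖ := by
        rw [Finset.sum_add_distrib, Finset.sum_add_distrib]
    _ ≤ _ := add_le_add (add_le_add (sum_le_N0 (N.dM.l1 ht) A') (sum_supp_le' N.appr t A'))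
        (sum_le_N0 ((hUM.l1 ht).sub (l1_tr L (U t))) A')

theorem NearF.adle {t : ℝ} (w' : K3 → ℝ) (hw' : ∀ k, 0 ≤ w' k) (A' : Finset K3) :
    ∑ k ∈ A', w' k * ‖a t k‖ ≤ ∑ k ∈ A', w' k * ‖(a t - vt L U v t) k‖
      + ∑ k ∈ B, w' k * ‖v t k‖ + ∑ k ∈ A', w' k * ‖U t k‖ := by
  have h1 : ∀ k, ‖a t k‖ ≤ ‖(a t - vt L U v t) k‖ + ‖v t k‖ + ‖U t k‖ := by
    intro k
    have e : a t k = (a t - vt L U v t) k + v t k + tr L (U t) k := by
      show a t k = (a t k - (v t k + tr L (U t) k)) + v t k + tr L (U t) k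
      abel
    calc ‖a t k‖ = ‖(a t - vt L U v t) k + v t k + tr L (U t) k‖ := by rw [← e]
      _ ≤ ‖(a t - vt L U v t) k‖ + ‖v t k‖ + ‖tr L (U t) k‖ :=
          (norm_add_le _ _).trans (add_le_add (norm_add_le _ _) le_rfl)
      _ ≤ _ := add_le_add le_rfl (norm_tr_le L (U t) k)
  calc ∑ k ∈ A', w' k * ‖a t k‖
      ≤ ∑ k ∈ A', w' k * (‖(a t - vt L U v t) k‖ + ‖v t k‖ + ‖U t k‖) :=
        Finset.sum_le_sum fun k _ => mul_le_mul_of_nonneg_left (h1 k) (hw' k)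
    _ = ∑ k ∈ A', w' k * ‖(a t - vt L U v t) k‖ + ∑ k ∈ A', w' k * ‖v t k‖
        + ∑ k ∈ A', w' k * ‖U t k‖ := by
        rw [← Finset.sum_add_distrib, ← Finset.sum_add_distrib]
        exact Finset.sum_congr rfl fun k _ => by ring
    _ ≤ _ := add_le_add (add_le_add le_rfl (sum_supp_le N.appr hw' t A')) le_rfl

omit N in
/-- Squares of the target. -/
theorem N0sq_leF {M₀ : ℝ} (hUL : LSolF ff ν U) (hN0U : ∀ t, 0 ≤ t → N0 (U t) ≤ M₀) {t : ℝ}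
    (ht : 0 ≤ t) : N0 (U t) ^ 2 ≤ M₀ * N1 (U t) := by
  have hUM : Maj U := hUL.maj
  have h1 := N0_le_N1 (hUL.zero t ht) (hUM.l1 ht) (hUM.sum wt_len ht)
  have h2 := hN0U t ht
  have h3 := N0_nonneg (U t)
  have h4 := N1_nonneg (U t)
  nlinarith

omit N in
theorem Usub2F {M₀ : ℝ} (hUL : LSolF ff ν U) (hM₀ : 0 ≤ M₀) (hN0U : ∀ t, 0 ≤ t → N0 (U t) ≤ M₀)
    (hL : 0 < L) {t : ℝ} (ht : 0 ≤ t) :
    N0 (U t - tr L (U t)) ^ 2 ≤ M₀ * (L⁻¹ * N1 (U t)) := by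
  have hUM : Maj U := hUL.maj
  have h1 : N0 (U t - tr L (U t)) ≤ L⁻¹ * N1 (U t) :=
    N0_sub_tr_le (hUL.zero t ht) (hUM.l1 ht) (hUM.sum wt_len ht) hL
  have h2 := (N0_sub_tr_le' (hUM.l1 ht) L).trans (hN0U t ht)
  have h3 := N0_nonneg (U t - tr L (U t))
  calc N0 (U t - tr L (U t)) ^ 2 = N0 (U t - tr L (U t)) * N0 (U t - tr L (U t)) := sq _
    _ ≤ M₀ * (L⁻¹ * N1 (U t)) := mul_le_mul h2 h1 h3 hM₀

/-- `a` is a target. -/
theorem NearF.tg {c δ : ℝ} (Int : ∀ f : ℝ → Cf, Frc f → ∀ (ν : ℝ), 0 < ν → ∀ U : ℝ → Cf, LSolF f ν U →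
      (∃ s : ℝ, 0 ≤ s ∧ ∀ t, s ≤ t → ∀ A : Finset K3, ∑ k ∈ A, ‖U t k‖ / len k ≤ c * ν) →
      TgF f ν U) (hc : 0 < c) (hν : 0 < ν) (hU : TgF ff ν U) (hδ0 : 0 < δ) (hδ3 : δ ≤ c * ν / 3)
    (he2 : e₁ ≤ c * ν / 3)
    (hvd : ∀ t, δ ≤ t → ∑ k ∈ B, len k * ‖v t k‖ ≤ δ * Real.exp (-t)) : TgF ff ν a := by
  refine Int ff N.frc ν hν a N.sol.lsol_h ?_
  obtain ⟨s, hs, hsm⟩ := hU.ev (c * ν / 3) (by positivity)
  refine ⟨max s δ, hs.trans (le_max_left _ _), fun t ht A' => ?_⟩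
  have hts : s ≤ t := (le_max_left _ _).trans ht
  have htδ : δ ≤ t := (le_max_right _ _).trans ht
  have ht0 : 0 ≤ t := hs.trans hts
  have h1 := N.adle (t := t) (fun k => (len k)⁻¹) (fun k => inv_nonneg.2 (len_nonneg k)) A'
  simp only [← div_eq_inv_mul] at h1
  have h2 : ∑ k ∈ A', ‖(a t - vt L U v t) k‖ / len k ≤ e₁ := N.m t ht0 A'
  have h3 : ∑ k ∈ B, ‖v t k‖ / len k ≤ δ := by
    refine (Finset.sum_le_sum fun k _ => div_le_len k (v t k)).trans ((hvd t htδ).trans ?_)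
    exact mul_le_of_le_one_right hδ0.le (Real.exp_le_one_iff.2 (by linarith))
  have h4 := hsm t hts A'
  linarith

/-- The square integral. -/
theorem NearF.sqint {M₀ M₁ H' : ℝ} (hν : 0 < ν) (hM₀ : 0 ≤ M₀)
    (hN0U : ∀ t, 0 ≤ t → N0 (U t) ≤ M₀)
    (hN1U : ∀ s t, 0 ≤ s → s ≤ t → ∫ r in s..t, N1 (U r) ≤ M₁) (hL : 0 < L)
    (hL6 : L⁻¹ * (M₀ * M₁) ≤ 1 / 3) (he0 : 0 < e₁) (he4 : e₁ ≤ 1) (he1 : e₁ ≤ ν)
    (hvK0 : ∀ T, 0 ≤ T → ∫ t in (0 : ℝ)..T, (∑ k ∈ B, ‖v t k‖) ^ 2 ≤ H') {T : ℝ} (hT : 0 ≤ T)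
    (A' : Finset K3) :
    ∫ t in (0 : ℝ)..T, (∑ k ∈ A', ‖a t k - U t k‖) ^ 2 ≤ 3 * H' + 4 := by
  have he6 : e₁ / ν ≤ 1 := (div_le_one hν).2 he1
  have hLi : 0 < L⁻¹ := inv_pos.2 hL
  have hBc := contB N.appr
  have i1 := ii N.dc1 le_rfl hT
  have i2 : IntervalIntegrable (fun t => (∑ k ∈ B, ‖v t k‖) ^ 2) volume 0 T :=
    ii (hBc.pow 2) le_rfl hT
  have i3 := ii N.tgt.contN1_h le_rfl hT
  have hcv : ContinuousOn (fun t => (∑ k ∈ A', ‖a t k - U t k‖) ^ 2) (Ici 0) :=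
    (continuousOn_finsetSum _ fun k _ =>
      ((N.sol.lsol_h.cnt_h k).sub (N.tgt.cnt_h k)).norm).pow 2
  have h1 : ∫ t in (0 : ℝ)..T, (∑ k ∈ A', ‖a t k - U t k‖) ^ 2
      ≤ ∫ t in (0 : ℝ)..T, (3 * e₁ * N1 (a t - vt L U v t) + 3 * (∑ k ∈ B, ‖v t k‖) ^ 2
        + 3 * (M₀ * L⁻¹) * N1 (U t)) := by
    refine intervalIntegral.integral_mono_on hT (ii hcv le_rfl hT)
      (((i1.const_mul _).add (i2.const_mul _)).add (i3.const_mul _)) fun t ht => ?_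
    have h2 := sq3 (Finset.sum_nonneg fun k _ => norm_nonneg _) (N.sum ht.1 A')
    have h3 := N.dsq ht.1
    have h4 := Usub2F N.tgt hM₀ hN0U hL ht.1
    nlinarith
  rw [intervalIntegral.integral_add ((i1.const_mul _).add (i2.const_mul _)) (i3.const_mul _),
    intervalIntegral.integral_add (i1.const_mul _) (i2.const_mul _),
    intervalIntegral.integral_const_mul, intervalIntegral.integral_const_mul,
    intervalIntegral.integral_const_mul] at h1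
  have h5 : 3 * e₁ * (∫ t in (0 : ℝ)..T, N1 (a t - vt L U v t)) ≤ 3 := by
    have h6 := N.d1 le_rfl hT
    have h7 : 0 ≤ ∫ t in (0 : ℝ)..T, N1 (a t - vt L U v t) :=
      intervalIntegral.integral_nonneg hT fun r _ => N1_nonneg _
    have h8 : ∫ t in (0 : ℝ)..T, N1 (a t - vt L U v t) ≤ 1 := h6.trans he6
    nlinarith
  have h6 := hvK0 T hT
  have h7 : 3 * (M₀ * L⁻¹) * (∫ t in (0 : ℝ)..T, N1 (U t)) ≤ 1 := by
    calc _ ≤ 3 * (M₀ * L⁻¹) * M₁ :=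
          mul_le_mul_of_nonneg_left (hN1U 0 T le_rfl hT) (by positivity)
      _ = 3 * (L⁻¹ * (M₀ * M₁)) := by ring
      _ ≤ 1 := by linarith
  linarith

/-- The norm in `L²`. -/
theorem NearF.l2 {M₀ M₁ Θ Q : ℝ} (hν : 0 < ν) (hM₀ : 0 ≤ M₀)
    (hN0U : ∀ t, 0 ≤ t → N0 (U t) ≤ M₀)
    (hN1U : ∀ s t, 0 ≤ s → s ≤ t → ∫ r in s..t, N1 (U r) ≤ M₁) (hL : 0 < L)
    (hL8 : L⁻¹ * (M₀ * M₁) ≤ Θ / 9) (he0 : 0 < e₁) (he3 : e₁ ≤ Θ / 9) (he1 : e₁ ≤ ν)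
    (hvS : ∀ T, 0 ≤ T → ∫ t in (0 : ℝ)..T, ∑ k ∈ B, ‖v t k‖ ^ 2 ≤ Q + Θ / 9) {T : ℝ}
    (hT : 0 ≤ T) (A' : Finset K3) :
    ∫ t in (0 : ℝ)..T, ∑ k ∈ A', ‖a t k - U t k‖ ^ 2 ≤ 3 * Q + Θ := by
  have he6 : e₁ / ν ≤ 1 := (div_le_one hν).2 he1
  have hLi : 0 < L⁻¹ := inv_pos.2 hL
  have i1 := ii N.dc1 le_rfl hT
  have i2 : IntervalIntegrable (fun t => ∑ k ∈ B, ‖v t k‖ ^ 2) volume 0 T :=
    ii (continuousOn_finsetSum _ fun k _ => (apprv_cnt N.appr k).norm.pow 2) le_rfl hT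
  have i3 := ii N.tgt.contN1_h le_rfl hT
  have hcv : ContinuousOn (fun t => ∑ k ∈ A', ‖a t k - U t k‖ ^ 2) (Ici 0) :=
    continuousOn_finsetSum _ fun k _ =>
      ((N.sol.lsol_h.cnt_h k).sub (N.tgt.cnt_h k)).norm.pow 2
  have sqs : ∀ (b : Cf), L1 b → ∑ k ∈ A', ‖b k‖ ^ 2 ≤ N0 b ^ 2 := by
    intro b hb
    have h1 : ∑ k ∈ A', ‖b k‖ ^ 2 ≤ (∑ k ∈ A', ‖b k‖) ^ 2 :=
      Finset.sum_sq_le_sq_sum_of_nonneg fun k _ => norm_nonneg _
    exact h1.trans (pow_le_pow_left₀ (Finset.sum_nonneg fun k _ => norm_nonneg _)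
      (sum_le_N0 hb A') 2)
  have h1 : ∫ t in (0 : ℝ)..T, ∑ k ∈ A', ‖a t k - U t k‖ ^ 2
      ≤ ∫ t in (0 : ℝ)..T, (3 * e₁ * N1 (a t - vt L U v t) + 3 * (∑ k ∈ B, ‖v t k‖ ^ 2)
        + 3 * (M₀ * L⁻¹) * N1 (U t)) := by
    refine intervalIntegral.integral_mono_on hT (ii hcv le_rfl hT)
      (((i1.const_mul _).add (i2.const_mul _)).add (i3.const_mul _)) fun t ht => ?_
    have h2 : ∀ k, ‖a t k - U t k‖ ^ 2
        ≤ 3 * (‖(a t - vt L U v t) k‖ ^ 2 + ‖v t k‖ ^ 2 + ‖(U t - tr L (U t)) k‖ ^ 2) := fun k =>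
      sq3 (norm_nonneg _) (N.dle t k)
    have h3 := N.dsq ht.1
    have h4 := Usub2F N.tgt hM₀ hN0U hL ht.1
    have h5 := sqs (a t - vt L U v t) (N.dM.l1 ht.1)
    have h6 := sqs (U t - tr L (U t)) ((Maj.l1 N.tgt.maj ht.1).sub (l1_tr L (U t)))
    have h7 : ∑ k ∈ A', ‖v t k‖ ^ 2 ≤ ∑ k ∈ B, ‖v t k‖ ^ 2 :=
      Pool.Agent.Run7.h32.GD.sum_supp_le (fun k hk => by
        rw [N.appr.suppv t k hk, norm_zero]
        norm_num) fun k => by positivity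
    calc ∑ k ∈ A', ‖a t k - U t k‖ ^ 2
        ≤ ∑ k ∈ A', 3 * (‖(a t - vt L U v t) k‖ ^ 2 + ‖v t k‖ ^ 2
          + ‖(U t - tr L (U t)) k‖ ^ 2) := Finset.sum_le_sum fun k _ => h2 k
      _ = 3 * (∑ k ∈ A', ‖(a t - vt L U v t) k‖ ^ 2 + ∑ k ∈ A', ‖v t k‖ ^ 2
          + ∑ k ∈ A', ‖(U t - tr L (U t)) k‖ ^ 2) := by
          rw [← Finset.mul_sum, Finset.sum_add_distrib, Finset.sum_add_distrib]
      _ ≤ 3 * (e₁ * N1 (a t - vt L U v t) + (∑ k ∈ B, ‖v t k‖ ^ 2) + M₀ * (L⁻¹ * N1 (U t))) :=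
          mul_le_mul_of_nonneg_left (add_le_add (add_le_add (h5.trans h3) h7) (h6.trans h4))
            (by norm_num)
      _ = _ := by ring
  rw [intervalIntegral.integral_add ((i1.const_mul _).add (i2.const_mul _)) (i3.const_mul _),
    intervalIntegral.integral_add (i1.const_mul _) (i2.const_mul _),
    intervalIntegral.integral_const_mul, intervalIntegral.integral_const_mul,
    intervalIntegral.integral_const_mul] at h1
  have h5 : 3 * e₁ * (∫ t in (0 : ℝ)..T, N1 (a t - vt L U v t)) ≤ 3 * (Θ / 9) := by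
    have h6 := N.d1 le_rfl hT
    have h7 : 0 ≤ ∫ t in (0 : ℝ)..T, N1 (a t - vt L U v t) :=
      intervalIntegral.integral_nonneg hT fun r _ => N1_nonneg _
    have h8 : ∫ t in (0 : ℝ)..T, N1 (a t - vt L U v t) ≤ 1 := h6.trans he6
    nlinarith
  have h6 := hvS T hT
  have h7 : 3 * (M₀ * L⁻¹) * (∫ t in (0 : ℝ)..T, N1 (U t)) ≤ 3 * (Θ / 9) := by
    calc _ ≤ 3 * (M₀ * L⁻¹) * M₁ :=
          mul_le_mul_of_nonneg_left (hN1U 0 T le_rfl hT) (by positivity)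
      _ = 3 * (L⁻¹ * (M₀ * M₁)) := by ring
      _ ≤ 3 * (Θ / 9) := mul_le_mul_of_nonneg_left hL8 (by norm_num)
  linarith

end

end Pool.Agent.Run7.h782.HP
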