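import Pool.Agent.Run7.h782.HP.BReg
import Pool.Agent.Run7.h969.HP.Rch4

/-!
Project HP: continuity in the sense of `besG φ` of a solution made of infinitely many pieces.
-/

set_option autoImplicit false

open MeasureTheory Set Filter Topology
open scoped ContDiff ENNReal ComplexConjugate

namespace Pool.Agent.Run7.h782.HP

open H459R3.NS Pool.Agent.Run7 Pool.Agent.Run7.h782 Pool.Agent.Run7.h782.GD Pool.Agent.Run7.h782.GS
open Pool.Agent.Run7.h782.WS Pool.Agent.Run7.h782.WQ Pool.Agent.Run7.h744.WS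
open Pool.Agent.Run7.h969.WS Pool.Agent.Run7.h782.OS Pool.Agent.Run7.h969.HP

/-- Infinitely many smooth pieces. -/
theorem pieces_bc {φ : ℝ → ℝ} (hφ : Gauge φ) {ν : ℝ} {τ τ' : ℕ → ℝ} {u : ℕ → ℝ → V → V}
    {p : ℕ → ℝ → V → ℝ} (hτ : ∀ n, 0 < τ n) (hττ : ∀ n, τ n < τ' n)
    (hsol : ∀ n, SolOn ν (Ioo 0 (τ' n)) (u n) (p n))
    (hba : ∀ n, Ba φ (vf (u n (τ n))) (u (n + 1))) {T : ℝ} (hsum : HasSum τ T) {v : ℝ → V → V}
    (hv : ∀ n, ∀ t ∈ Ioc 0 (τ n), v ((∑ i ∈ Finset.range n, τ i) + t) = u n t) :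
    ∀ s ∈ Ioo 0 T, Bc φ v s := by
  intro s hs
  obtain ⟨n, t, ht, rfl⟩ := cover hsum hs
  set a : ℝ := ∑ i ∈ Finset.range n, τ i with ha
  rcases ht.2.lt_or_eq with h1 | h1
  · -- inside a piece
    have h2 : Bc φ (u n) t := breg hφ (hsol n) ⟨ht.1, h1.trans (hττ n)⟩
    have h3 : Bc φ (fun r => u n (r - a)) (a + t) := by
      refine bc_shift ?_
      rwa [add_sub_cancel_left]
    refine bc_congr h3 ?_
    filter_upwards [Ioo_mem_nhds (show a < a + t by linarith [ht.1])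
      (show a + t < a + τ n by linarith)] with r hr
    have h4 := hv n (r - a) ⟨by linarith [hr.1], by linarith [hr.2]⟩
    rw [← ha, add_sub_cancel] at h4
    exact h4
  · -- the end of a piece
    subst h1
    refine bc_junc hφ (hsol n) ⟨ht.1, hττ n⟩ (hba n) (hτ (n + 1)) ?_ ?_
    · intro r h2 h3
      have h4 := hv n r ⟨h2, h3⟩
      have e : a + τ n - τ n + r = a + r := by ring
      rw [e, ha]
      exact h4
    · intro r hr
      have h4 := hv (n + 1) r ⟨hr.1, hr.2.le⟩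
      rw [Finset.sum_range_succ] at h4
      rw [ha]
      exact h4

end Pool.Agent.Run7.h782.HP
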