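import Pool.Agent.Run7.h782.HP.NearF
import Pool.Agent.Run7.h782.WS.NearPt
import Pool.Agent.Run7.h782.WQ.StepQ

/-!
Project HP, piece StepF, part 3: the bounds of the solutions near the approximate solution.
-/

set_option autoImplicit false

open MeasureTheory Set Filter Topology
open scoped ContDiff ComplexConjugate NNReal

namespace Pool.Agent.Run7.h782.HP

open H459R3.NS hiding W
open Pool.Agent.Run7.h782 Pool.Agent.Run7.h782.GD Pool.Agent.Run7.h782.GS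
open Pool.Agent.Run7.h782.WS Pool.Agent.Run7.h782.WQ Pool.Agent.Run7.h969.HP

variable {ν L e₁ : ℝ} {B : Finset K3} {ff U v F a : ℝ → Cf}

/-- The exponent in the stability estimate. -/
theorem NearF.expo (N : NearF ff ν L e₁ B U v F a) {M₀ M₁ δ : ℝ} (hν : 0 < ν) (hM₀ : 0 ≤ M₀)
    (hN0U : ∀ t, 0 ≤ t → N0 (U t) ≤ M₀)
    (hN1U : ∀ s t, 0 ≤ s → s ≤ t → ∫ r in s..t, N1 (U r) ≤ M₁)
    (he4 : e₁ ≤ 1) (he1 : e₁ ≤ ν) (hδ0 : 0 < δ) (hδ4 : δ ≤ 1)
    (hvt : ∀ t, 0 < t → ∑ k ∈ B, ‖v t k‖ ≤ δ / Real.sqrt t)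
    (hvt1 : ∀ t, 0 < t → ∑ k ∈ B, len k * ‖v t k‖ ≤ δ / t) {r t : ℝ} (hr : 0 < r)
    (hr1 : t / 2 ≤ r) (hr2 : r ≤ t) :
    ∫ x in r..t, (36 * (N0 (a x) + N0 (U x)) ^ 2 / ν
        + 24 * Real.pi * (N1 (a x) + N1 (U x)))
      ≤ 36 * (3 * (2 + 4 * (M₀ * M₁))) / ν + 24 * Real.pi * (2 + 2 * M₁) := by
  have hpi := Real.pi_pos
  have he6 : e₁ / ν ≤ 1 := (div_le_one hν).2 he1
  have hUL := N.tgt
  have hUM : Maj U := hUL.maj
  have haL : LSolF ff ν a := N.sol.lsol_h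
  have hr0 := hr.le
  have i1 := ii N.dc1 hr0 hr2
  have i3 := ii hUL.contN1_h hr0 hr2
  have hac0 : ContinuousOn (fun x => N0 (a x)) (Ici 0) := haL.contN0_h
  have hac1 : ContinuousOn (fun x => N1 (a x)) (Ici 0) := haL.contN1_h
  have hcv : ContinuousOn (fun x => 36 * (N0 (a x) + N0 (U x)) ^ 2 / ν
      + 24 * Real.pi * (N1 (a x) + N1 (U x))) (Ici 0) :=
    ((continuousOn_const.mul ((hac0.add hUL.contN0_h).pow 2)).div_const _).add
      (continuousOn_const.mul (hac1.add hUL.contN1_h))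
  have h6 : ∫ x in r..t, (36 * (N0 (a x) + N0 (U x)) ^ 2 / ν
      + 24 * Real.pi * (N1 (a x) + N1 (U x)))
      ≤ ∫ x in r..t, ((108 / ν + 24 * Real.pi) * N1 (a x - vt L U v x)
        + (108 / ν + 24 * Real.pi) * r⁻¹
        + (432 * M₀ / ν + 48 * Real.pi) * N1 (U x)) := by
    refine intervalIntegral.integral_mono_on hr2 (ii hcv hr0 hr2)
      (((i1.const_mul _).add intervalIntegrable_const).add (i3.const_mul _)) fun x hx => ?_
    have hx0 : 0 < x := hr.trans_le hx.1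
    have hxr : x⁻¹ ≤ r⁻¹ := by
      rw [inv_le_inv₀ hx0 hr]
      exact hx.1
    have n1 := N1_nonneg (a x - vt L U v x)
    have n2 := N1_nonneg (U x)
    have n3 : ∑ k ∈ B, len k * ‖v x k‖ ≤ r⁻¹ := by
      refine (hvt1 x hx0).trans ?_
      rw [div_eq_mul_inv]
      have : 0 < x⁻¹ := inv_pos.2 hx0
      nlinarith
    have n4 : (∑ k ∈ B, ‖v x k‖) ^ 2 ≤ r⁻¹ := by
      have m1 := hvt x hx0
      have m2 : 0 ≤ ∑ k ∈ B, ‖v x k‖ := Finset.sum_nonneg fun k _ => norm_nonneg _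
      calc (∑ k ∈ B, ‖v x k‖) ^ 2 ≤ (δ / Real.sqrt x) ^ 2 := pow_le_pow_left₀ m2 m1 2
        _ = δ ^ 2 * x⁻¹ := by rw [div_pow, Real.sq_sqrt hx0.le, div_eq_mul_inv]
        _ ≤ 1 * x⁻¹ := by
            refine mul_le_mul_of_nonneg_right ?_ (inv_pos.2 hx0).le
            nlinarith
        _ ≤ r⁻¹ := by rwa [one_mul]
    have p1 : N0 (a x) ≤ N0 (a x - vt L U v x) + (∑ k ∈ B, ‖v x k‖) + N0 (U x) := by
      rw [N0_eq (a x)]
      refine Real.tsum_le_of_sum_le (fun k => norm_nonneg _) fun A'' => ?_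
      have q := N.adle (t := x) (fun _ => 1) (fun _ => zero_le_one) A''
      simp only [one_mul] at q
      exact q.trans (add_le_add (add_le_add (sum_le_N0 (N.dM.l1 hx0.le) A'') le_rfl)
        (sum_le_N0 (hUM.l1 hx0.le) A''))
    have p1' : N0 (a x) + N0 (U x)
        ≤ N0 (a x - vt L U v x) + (∑ k ∈ B, ‖v x k‖) + 2 * N0 (U x) := by
      linarith
    have p2 := sq3 (add_nonneg (N0_nonneg _) (N0_nonneg _)) p1'
    have p4 := N0sq_leF hUL hN0U hx0.le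
    have p5 : N0 (a x - vt L U v x) ^ 2 ≤ N1 (a x - vt L U v x) :=
      (N.dsq hx0.le).trans (mul_le_of_le_one_left n1 he4)
    have p3 : (N0 (a x) + N0 (U x)) ^ 2
        ≤ 3 * (N1 (a x - vt L U v x) + r⁻¹ + 4 * (M₀ * N1 (U x))) := by
      have : (2 * N0 (U x)) ^ 2 = 4 * N0 (U x) ^ 2 := by ring
      rw [this] at p2
      linarith
    have p6 : N1 (a x) ≤ N1 (a x - vt L U v x) + r⁻¹ + N1 (U x) := by
      have e1 : N1 (a x) = ∑' k, len k * ‖a x k‖ := rfl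
      rw [e1]
      refine Real.tsum_le_of_sum_le (fun k => mul_nonneg (len_nonneg k) (norm_nonneg _))
        fun A'' => ?_
      have q := N.adle (t := x) len len_nonneg A''
      have q1 : ∑ k ∈ A'', len k * ‖(a x - vt L U v x) k‖ ≤ N1 (a x - vt L U v x) :=
        sum_le_W wt_len (N.dM.sum wt_len hx0.le) A''
      have q2 : ∑ k ∈ A'', len k * ‖U x k‖ ≤ N1 (U x) :=
        sum_le_W wt_len (hUM.sum wt_len hx0.le) A''
      linarith
    have p7 : 36 * (N0 (a x) + N0 (U x)) ^ 2 / ν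
        ≤ 36 * (3 * (N1 (a x - vt L U v x) + r⁻¹ + 4 * (M₀ * N1 (U x)))) / ν :=
      div_le_div_of_nonneg_right (by linarith) hν.le
    have p8 : 24 * Real.pi * (N1 (a x) + N1 (U x))
        ≤ 24 * Real.pi * (N1 (a x - vt L U v x) + r⁻¹ + 2 * N1 (U x)) :=
      mul_le_mul_of_nonneg_left (by linarith) (by positivity)
    calc _ ≤ 36 * (3 * (N1 (a x - vt L U v x) + r⁻¹ + 4 * (M₀ * N1 (U x)))) / ν
          + 24 * Real.pi * (N1 (a x - vt L U v x) + r⁻¹ + 2 * N1 (U x)) := add_le_add p7 p8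
      _ = _ := by
        field_simp
        ring
  rw [intervalIntegral.integral_add ((i1.const_mul _).add intervalIntegrable_const)
      (i3.const_mul _),
    intervalIntegral.integral_add (i1.const_mul _) intervalIntegrable_const,
    intervalIntegral.integral_const_mul, intervalIntegral.integral_const,
    intervalIntegral.integral_const_mul, smul_eq_mul] at h6
  have h7 : (108 / ν + 24 * Real.pi) * (∫ x in r..t, N1 (a x - vt L U v x))
      ≤ (108 / ν + 24 * Real.pi) * 1 :=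
    mul_le_mul_of_nonneg_left ((N.d1 hr0 hr2).trans he6) (by positivity)
  have h8 : (t - r) * ((108 / ν + 24 * Real.pi) * r⁻¹) ≤ (108 / ν + 24 * Real.pi) * 1 := by
    have e : (t - r) * ((108 / ν + 24 * Real.pi) * r⁻¹)
        = (108 / ν + 24 * Real.pi) * ((t - r) * r⁻¹) := by ring
    rw [e]
    refine mul_le_mul_of_nonneg_left ?_ (by positivity)
    rw [← div_eq_mul_inv, div_le_one hr]
    linarith
  have h9 : (432 * M₀ / ν + 48 * Real.pi) * (∫ x in r..t, N1 (U x))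
      ≤ (432 * M₀ / ν + 48 * Real.pi) * M₁ :=
    mul_le_mul_of_nonneg_left (hN1U r t hr0 hr2) (by positivity)
  have e : (108 / ν + 24 * Real.pi) * 1 + (108 / ν + 24 * Real.pi) * 1
      + (432 * M₀ / ν + 48 * Real.pi) * M₁
      = 36 * (3 * (2 + 4 * (M₀ * M₁))) / ν + 24 * Real.pi * (2 + 2 * M₁) := by
    field_simp
    ring
  linarith

/-- The pointwise bound in time. -/
theorem NearF.pt (N : NearF ff ν L e₁ B U v F a) {M₀ M₁ δ ε₁ κ : ℝ} (hν : 0 < ν) (hM₀ : 0 ≤ M₀)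
    (hM₁ : 0 ≤ M₁) (hN0U : ∀ t, 0 ≤ t → N0 (U t) ≤ M₀)
    (hN1U : ∀ s t, 0 ≤ s → s ≤ t → ∫ r in s..t, N1 (U r) ≤ M₁) (hL : 0 < L)
    (hκ0 : 0 < κ) (hκ : κ = ε₁ * Real.exp (-(36 * (3 * (2 + 4 * (M₀ * M₁))) / ν
      + 24 * Real.pi * (2 + 2 * M₁))) / 3)
    (hL5 : L⁻¹ * (4 * M₀ * (M₁ + 1)) ≤ κ ^ 2) (he0 : 0 < e₁)
    (he4 : e₁ ≤ 1) (he1 : e₁ ≤ ν) (he5 : e₁ ≤ κ * Real.sqrt ν / 2) (hδ0 : 0 < δ) (hδ4 : δ ≤ 1)
    (hδ2 : δ ≤ κ / 2)
    (hvt : ∀ t, 0 < t → ∑ k ∈ B, ‖v t k‖ ≤ δ / Real.sqrt t)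
    (hvt1 : ∀ t, 0 < t → ∑ k ∈ B, len k * ‖v t k‖ ≤ δ / t) {t : ℝ} (ht : 0 < t) :
    N0 (a t - U t) ≤ ε₁ / Real.sqrt t := by
  have hpi := Real.pi_pos
  have hUL := N.tgt
  have haL : LSolF ff ν a := N.sol.lsol_h
  have hLi : 0 < L⁻¹ := inv_pos.2 hL
  have hst := Real.sqrt_pos.2 ht
  set d : ℝ → Cf := fun t => a t - vt L U v t with hd
  set f : ℝ → ℝ := fun r => ν / e₁ * N1 (d r) + (M₁ + 1)⁻¹ * N1 (U r) with hf
  have hfc : ContinuousOn f (Ici 0) :=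
    (continuousOn_const.mul N.dc1).add (continuousOn_const.mul hUL.contN1_h)
  have hf0 : ∀ r, 0 ≤ r → 0 ≤ f r := fun r _ =>
    add_nonneg (mul_nonneg (by positivity) (N1_nonneg _))
      (mul_nonneg (by positivity) (N1_nonneg _))
  have hfi : ∫ r in (0 : ℝ)..t, f r ≤ 2 := by
    have i1 := ii N.dc1 le_rfl ht.le
    have i3 := ii hUL.contN1_h le_rfl ht.le
    rw [hf, intervalIntegral.integral_add (i1.const_mul _) (i3.const_mul _),
      intervalIntegral.integral_const_mul, intervalIntegral.integral_const_mul]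
    have h1 : ν / e₁ * (∫ r in (0 : ℝ)..t, N1 (d r)) ≤ ν / e₁ * (e₁ / ν) :=
      mul_le_mul_of_nonneg_left (N.d1 le_rfl ht.le) (by positivity)
    have h2 : ν / e₁ * (e₁ / ν) = 1 := by field_simp
    have h3 : (M₁ + 1)⁻¹ * (∫ r in (0 : ℝ)..t, N1 (U r)) ≤ (M₁ + 1)⁻¹ * (M₁ + 1) :=
      mul_le_mul_of_nonneg_left ((hN1U 0 t le_rfl ht.le).trans (by linarith)) (by positivity)
    have h4 : (M₁ + 1)⁻¹ * (M₁ + 1) = 1 := inv_mul_cancel₀ (by positivity)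
    linarith
  obtain ⟨r, hr1, hr2, hr3⟩ := Pool.Agent.Run7.h32.GD.good_time hfc hf0 ht hfi
  have hr0' : 0 < r := lt_of_lt_of_le (by positivity) hr1
  have hr0 : 0 ≤ r := hr0'.le
  have hn1 := N1_nonneg (d r)
  have hn2 := N1_nonneg (U r)
  have hr4 : N1 (d r) ≤ 4 * e₁ / (ν * t) := by
    have h1 : ν / e₁ * N1 (d r) ≤ 2 * 2 / t := by
      refine le_trans ?_ hr3
      have : 0 ≤ (M₁ + 1)⁻¹ * N1 (U r) := by positivity
      simp only [hf]
      linarith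
    rw [le_div_iff₀ (by positivity)]
    rw [le_div_iff₀ ht] at h1
    have h2 : N1 (d r) * (ν * t) = e₁ * (ν / e₁ * N1 (d r) * t) := by field_simp
    rw [h2]
    nlinarith
  have hr5 : N1 (U r) ≤ 4 * (M₁ + 1) / t := by
    have h1 : (M₁ + 1)⁻¹ * N1 (U r) ≤ 2 * 2 / t := by
      refine le_trans ?_ hr3
      have : 0 ≤ ν / e₁ * N1 (d r) := by positivity
      simp only [hf]
      linarith
    rw [le_div_iff₀ ht]
    rw [le_div_iff₀ ht] at h1
    have h2 : N1 (U r) * t = (M₁ + 1) * ((M₁ + 1)⁻¹ * N1 (U r) * t) := by field_simp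
    rw [h2]
    nlinarith
  have hsq : ∀ x : ℝ, 0 ≤ x → x ^ 2 ≤ κ ^ 2 / t → x ≤ κ / Real.sqrt t := by
    intro x hx h1
    have h2 : (κ / Real.sqrt t) ^ 2 = κ ^ 2 / t := by
      rw [div_pow, Real.sq_sqrt ht.le]
    rw [← h2] at h1
    exact le_of_sq_le_sq'' h1 (by positivity)
  have h1 : N0 (d r) ≤ κ / Real.sqrt t := by
    refine hsq _ (N0_nonneg _) ((N.dsq hr0).trans ?_)
    calc e₁ * N1 (d r) ≤ e₁ * (4 * e₁ / (ν * t)) := mul_le_mul_of_nonneg_left hr4 he0.le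
      _ = (2 * e₁) ^ 2 / ν / t := by
          field_simp
          ring
      _ ≤ κ ^ 2 / t := by
          refine div_le_div_of_nonneg_right ?_ ht.le
          rw [div_le_iff₀ hν]
          have h2 : 2 * e₁ ≤ κ * Real.sqrt ν := by linarith
          calc (2 * e₁) ^ 2 ≤ (κ * Real.sqrt ν) ^ 2 := pow_le_pow_left₀ (by positivity) h2 2
            _ = κ ^ 2 * ν := by rw [mul_pow, Real.sq_sqrt hν.le]
  have h2 : N0 (v r) ≤ κ / Real.sqrt t := by
    rw [N0_supp N.appr]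
    refine (hvt r hr0').trans ?_
    rw [div_le_div_iff₀ (Real.sqrt_pos.2 hr0') hst]
    have h3 : Real.sqrt t ≤ 2 * Real.sqrt r := by
      have h4 : Real.sqrt t ≤ Real.sqrt (2 ^ 2 * r) := Real.sqrt_le_sqrt (by linarith)
      rwa [Real.sqrt_mul (by norm_num), Real.sqrt_sq (by norm_num)] at h4
    have h4 := Real.sqrt_nonneg r
    calc δ * Real.sqrt t ≤ δ * (2 * Real.sqrt r) := mul_le_mul_of_nonneg_left h3 hδ0.le
      _ = (2 * δ) * Real.sqrt r := by ring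
      _ ≤ κ * Real.sqrt r := mul_le_mul_of_nonneg_right (by linarith) h4
  have h3 : N0 (U r - tr L (U r)) ≤ κ / Real.sqrt t := by
    refine hsq _ (N0_nonneg _) ((Usub2F hUL hM₀ hN0U hL hr0).trans ?_)
    calc M₀ * (L⁻¹ * N1 (U r)) ≤ M₀ * (L⁻¹ * (4 * (M₁ + 1) / t)) :=
          mul_le_mul_of_nonneg_left (mul_le_mul_of_nonneg_left hr5 hLi.le) hM₀
      _ = L⁻¹ * (4 * M₀ * (M₁ + 1)) / t := by ring
      _ ≤ κ ^ 2 / t := div_le_div_of_nonneg_right hL5 ht.le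
  have h4 : N0 (a r - U r) ≤ 3 * (κ / Real.sqrt t) := by
    rw [N0_eq]
    refine Real.tsum_le_of_sum_le (fun k => norm_nonneg _) fun A'' => ?_
    have h5 := N.sum hr0 A''
    rw [← N0_supp N.appr] at h5
    have h6 : ∑ k ∈ A'', ‖(a r - U r) k‖ = ∑ k ∈ A'', ‖a r k - U r k‖ := rfl
    rw [h6]
    have h7 : N0 (a r - vt L U v r) = N0 (d r) := rfl
    linarith
  have hex := N.expo hν hM₀ hN0U hN1U he4 he1 hδ0 hδ4 hvt hvt1 hr0' hr1 hr2
  have h5 := prop_atF hν haL hUL hr0 hr2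
  refine h5.trans ?_
  set MP : ℝ := 36 * (3 * (2 + 4 * (M₀ * M₁))) / ν + 24 * Real.pi * (2 + 2 * M₁) with hMP
  calc N0 (a r - U r) * Real.exp _ ≤ (3 * (κ / Real.sqrt t)) * Real.exp MP :=
        mul_le_mul h4 (Real.exp_le_exp.2 hex) (Real.exp_pos _).le (by positivity)
    _ = ε₁ * (Real.exp (-MP) * Real.exp MP) / Real.sqrt t := by
        rw [hκ]
        ring
    _ = ε₁ / Real.sqrt t := by
        rw [← Real.exp_add, neg_add_cancel, Real.exp_zero, mul_one]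

/-- Closeness in weak norms. -/
theorem NearF.bes (N : NearF ff ν L e₁ B U v F a) {M₀ δ θ' Θ : ℝ} (hL : 0 < L) (hΘ : 0 < Θ)
    (hN0U : ∀ t, 0 ≤ t → N0 (U t) ≤ M₀) (hL4 : L⁻¹ * M₀ ≤ Θ / 9) (he3 : e₁ ≤ Θ / 9)
    (hδ7 : δ ≤ Θ / 9) (hθ' : 8 * θ' ≤ Θ) {y q : Cf} {e₀ : K3 → ℝ} {h : ℝ → ℝ} (hyl : L1 y)
    (he₀0 : ∀ k, 0 ≤ e₀ k) (he₀z : e₀ 0 = 0) (he₀s : Summable e₀)
    (he₀m : ∑' k, e₀ k / len k ≤ 2 * θ') (hqe : ∀ k, ‖q k‖ ≤ ‖y k‖ + e₀ k) {t : ℝ} (ht0 : 0 ≤ t)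
    (hvh : ∃ e : K3 → ℝ, (∀ k, 0 ≤ e k) ∧ e 0 = 0 ∧ Summable e ∧ ∑' k, e k / len k ≤ δ ∧
      ∀ r, 0 ≤ r → ∑ k ∈ B, ht r k * ‖v t k‖
        ≤ (∑ k ∈ B, ht r k * ‖q k‖) + h r + ∑' k, ht r k * e k) :
    ∃ e : K3 → ℝ, (∀ k, 0 ≤ e k) ∧ e 0 = 0 ∧ Summable e ∧ ∑' k, e k / len k ≤ Θ ∧
      ∀ s, 0 ≤ s → ∀ A : Finset K3, ∑ k ∈ A, ht s k * ‖a t k - U t k‖
        ≤ (∑' k, ht s k * ‖y k‖) + h s + ∑' k, ht s k * e k := by
  have hUM : Maj U := N.tgt.maj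
  have hLi : 0 < L⁻¹ := inv_pos.2 hL
  have inv0 : ∀ {a : Cf}, L1 a → Summable fun k => ‖a k‖ / len k := fun {a} ha => by
    have := l1_inv ha
    simpa only [← div_eq_inv_mul] using this
  have invz : ∀ {e : K3 → ℝ}, (∀ k, 0 ≤ e k) → e 0 = 0 → Summable e →
      Summable fun k => e k / len k := fun {e} h0 hz hs =>
    Summable.of_nonneg_of_le (fun k => div_nonneg (h0 k) (len_nonneg k)) (fun k => by
      by_cases hk : k = 0
      · subst hk
        simp [hz]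
      · exact div_le_self (h0 k) (one_le_len hk)) hs
  have hdl : L1 (a t - vt L U v t) := N.dM.l1 ht0
  have hul : L1 (U t - tr L (U t)) := (hUM.l1 ht0).sub (l1_tr L (U t))
  obtain ⟨e', he'0, he'z, he's, he'm, he'h⟩ := hvh
  have he'd := invz he'0 he'z he's
  have he₀d := invz he₀0 he₀z he₀s
  have s1 := inv0 hdl
  have s2 := inv0 hul
  have hsum4 : Summable fun k => ‖(a t - vt L U v t) k‖ + ‖(U t - tr L (U t)) k‖
      + (e' k + e₀ k) := (Summable.add hdl hul).add (he's.add he₀s)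
  refine ⟨fun k => ‖(a t - vt L U v t) k‖ + ‖(U t - tr L (U t)) k‖ + (e' k + e₀ k),
    fun k => add_nonneg (by positivity) (add_nonneg (he'0 k) (he₀0 k)), ?_, hsum4, ?_, ?_⟩
  · simp only
    rw [N.d0 ht0, Pi.sub_apply, N.tgt.zero t ht0, tr_not (zero_bl L), he'z, he₀z]
    simp
  · have h1 := N.dm ht0
    have h2 : Nm (U t - tr L (U t)) ≤ Θ / 9 :=
      (Nm_sub_tr_le (hUM.l1 ht0) hL).trans
        ((mul_le_mul_of_nonneg_left (hN0U t ht0) hLi.le).trans hL4)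
    have e : ∑' k, (‖(a t - vt L U v t) k‖ + ‖(U t - tr L (U t)) k‖ + (e' k + e₀ k)) / len k
        = Nm (a t - vt L U v t) + Nm (U t - tr L (U t))
          + (∑' k, e' k / len k + ∑' k, e₀ k / len k) := by
      rw [Nm_eq, Nm_eq, ← s1.tsum_add s2, ← he'd.tsum_add he₀d,
        ← (s1.add s2).tsum_add (he'd.add he₀d)]
      exact tsum_congr fun k => by ring
    rw [e]
    linarith
  · intro s hs A'
    have h1 : ∀ k, ht s k * ‖a t k - U t k‖
        ≤ ht s k * (‖(a t - vt L U v t) k‖ + ‖(U t - tr L (U t)) k‖) + ht s k * ‖v t k‖ :=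
      fun k => by
        rw [← mul_add]
        refine mul_le_mul_of_nonneg_left ((N.dle t k).trans (le_of_eq ?_)) (ht_pos s k).le
        ring
    have hys := summable_ht (fun k => norm_nonneg (y k)) hyl hs
    have hes0 := summable_ht he₀0 he₀s hs
    have hes' := summable_ht he'0 he's hs
    have h2 : ∑ k ∈ A', ht s k * ‖v t k‖
        ≤ (∑' k, ht s k * ‖y k‖) + (∑' k, ht s k * e₀ k) + h s + ∑' k, ht s k * e' k := by
      refine (sum_supp_le N.appr (fun k => (ht_pos s k).le) t A').trans ((he'h s hs).trans ?_)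
      refine add_le_add (add_le_add ?_ le_rfl) le_rfl
      calc ∑ k ∈ B, ht s k * ‖q k‖
          ≤ ∑ k ∈ B, (ht s k * ‖y k‖ + ht s k * e₀ k) := Finset.sum_le_sum fun k _ => by
            rw [← mul_add]
            exact mul_le_mul_of_nonneg_left (hqe k) (ht_pos s k).le
        _ = ∑ k ∈ B, ht s k * ‖y k‖ + ∑ k ∈ B, ht s k * e₀ k := Finset.sum_add_distrib
        _ ≤ _ := add_le_add
            (hys.sum_le_tsum B fun k _ => mul_nonneg (ht_pos s k).le (norm_nonneg _))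
            (hes0.sum_le_tsum B fun k _ => mul_nonneg (ht_pos s k).le (he₀0 k))
    have hes : Summable fun k => ht s k * (‖(a t - vt L U v t) k‖ + ‖(U t - tr L (U t)) k‖) :=
      summable_ht (fun k => by positivity) (Summable.add hdl hul) hs
    have e2 : ∑' k, ht s k * (‖(a t - vt L U v t) k‖ + ‖(U t - tr L (U t)) k‖ + (e' k + e₀ k))
        = ∑' k, ht s k * (‖(a t - vt L U v t) k‖ + ‖(U t - tr L (U t)) k‖)
          + (∑' k, ht s k * e' k + ∑' k, ht s k * e₀ k) := by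
      rw [← hes'.tsum_add hes0, ← hes.tsum_add (hes'.add hes0)]
      exact tsum_congr fun k => by ring
    rw [e2]
    calc ∑ k ∈ A', ht s k * ‖a t k - U t k‖
        ≤ ∑ k ∈ A', (ht s k * (‖(a t - vt L U v t) k‖ + ‖(U t - tr L (U t)) k‖)
          + ht s k * ‖v t k‖) := Finset.sum_le_sum fun k _ => h1 k
      _ = ∑ k ∈ A', ht s k * (‖(a t - vt L U v t) k‖ + ‖(U t - tr L (U t)) k‖)
          + ∑ k ∈ A', ht s k * ‖v t k‖ := Finset.sum_add_distrib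
      _ ≤ (∑' k, ht s k * (‖(a t - vt L U v t) k‖ + ‖(U t - tr L (U t)) k‖))
          + ((∑' k, ht s k * ‖y k‖) + (∑' k, ht s k * e₀ k) + h s + ∑' k, ht s k * e' k) :=
          add_le_add (hes.sum_le_tsum A' fun k _ =>
            mul_nonneg (ht_pos s k).le (by positivity)) h2
      _ = _ := by ring

/-- The norm in `L² L^q`. -/
theorem lqF (Q : FpB) (N : NearF ff ν L e₁ B U v F a) {q : ℝ} (hq : 1 ≤ q) {M₀ M₁ Θ Γ : ℝ}
    (hν : 0 < ν) (hM₀ : 0 ≤ M₀) (hN0U : ∀ t, 0 ≤ t → N0 (U t) ≤ M₀)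
    (hN1U : ∀ s t, 0 ≤ s → s ≤ t → ∫ r in s..t, N1 (U r) ≤ M₁) (hL : 0 < L)
    (hL8 : L⁻¹ * (M₀ * M₁) ≤ Θ / 81) (he0 : 0 < e₁) (he3 : e₁ ≤ Θ / 81) (he1 : e₁ ≤ ν)
    (hvS : ∀ T, 0 ≤ T → ∫ t in (0 : ℝ)..T, fp q (v t) ^ (2 / q) ≤ Γ + Θ / 9) {T : ℝ}
    (hT : 0 ≤ T) :
    ∫ t in (0 : ℝ)..T, fp q (a t - U t) ^ (2 / q) ≤ 3 * Γ + Θ := by
  have he6 : e₁ / ν ≤ 1 := (div_le_one hν).2 he1
  have hLi : 0 < L⁻¹ := inv_pos.2 hL
  have hMv : Maj v := majv N.appr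
  have hCv : Cnt v := fun k => (apprv_cnt N.appr k)
  have hMa : Maj (fun t => a t - U t) := N.sol.maj_h.sub N.tgt.maj
  have hCa : Cnt (fun t => a t - U t) := (N.sol.lsol_h.cnt_h).sub N.tgt.cnt_h
  have c1 : ContinuousOn (fun t => nq q (v t) ^ 2) (Ici 0) := (Q.cont hq hMv hCv).pow 2
  have c2 : ContinuousOn (fun t => nq q (a t - U t) ^ 2) (Ici 0) := (Q.cont hq hMa hCa).pow 2
  have i1 := ii N.dc1 le_rfl hT
  have i2 := ii c1 le_rfl hT
  have i3 := ii N.tgt.contN1_h le_rfl hT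
  have i4 := ii c2 le_rfl hT
  simp only [← nq_sq] at hvS ⊢
  have h1 : ∫ t in (0 : ℝ)..T, nq q (a t - U t) ^ 2
      ≤ ∫ t in (0 : ℝ)..T, (27 * e₁ * N1 (a t - vt L U v t) + 3 * (nq q (v t) ^ 2)
        + 27 * (M₀ * L⁻¹) * N1 (U t)) := by
    refine intervalIntegral.integral_mono_on hT i4
      (((i1.const_mul _).add (i2.const_mul _)).add (i3.const_mul _)) fun t ht => ?_
    have l1 : L1 (a t - vt L U v t) := N.dM.l1 ht.1
    have l2 : L1 (U t - tr L (U t)) := (Maj.l1 N.tgt.maj ht.1).sub (l1_tr L (U t))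
    have l3 : L1 (v t) := hMv.l1 ht.1
    have l4 : L1 (a t - U t) := hMa.l1 ht.1
    have e : a t - U t - v t = (a t - vt L U v t) + -(U t - tr L (U t)) := by
      funext k
      have := N.diff t k
      rw [Pi.sub_apply, Pi.sub_apply, this, Pi.add_apply, Pi.neg_apply]
      abel
    have h2 := Q.lip hq l4 l3
    rw [e] at h2
    have h3 := N0_add' l1 l2.neg
    rw [N0_neg'] at h3
    have h4 : nq q (a t - U t) ≤ 3 * N0 (a t - vt L U v t) + nq q (v t)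
        + 3 * N0 (U t - tr L (U t)) := by linarith
    have h5 := sq3 (nq_nonneg q (a t - U t)) h4
    have h6 := N.dsq ht.1
    have h7 := Usub2F N.tgt hM₀ hN0U hL ht.1
    nlinarith
  rw [intervalIntegral.integral_add ((i1.const_mul _).add (i2.const_mul _)) (i3.const_mul _),
    intervalIntegral.integral_add (i1.const_mul _) (i2.const_mul _),
    intervalIntegral.integral_const_mul, intervalIntegral.integral_const_mul,
    intervalIntegral.integral_const_mul] at h1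
  have h5 : 27 * e₁ * (∫ t in (0 : ℝ)..T, N1 (a t - vt L U v t)) ≤ Θ / 3 := by
    have h6 := N.d1 le_rfl hT
    have h7 : 0 ≤ ∫ t in (0 : ℝ)..T, N1 (a t - vt L U v t) :=
      intervalIntegral.integral_nonneg hT fun r _ => N1_nonneg _
    have h8 : ∫ t in (0 : ℝ)..T, N1 (a t - vt L U v t) ≤ 1 := h6.trans he6
    nlinarith
  have h6 := hvS T hT
  have h7 : 27 * (M₀ * L⁻¹) * (∫ t in (0 : ℝ)..T, N1 (U t)) ≤ Θ / 3 := by
    calc _ ≤ 27 * (M₀ * L⁻¹) * M₁ :=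
          mul_le_mul_of_nonneg_left (hN1U 0 T le_rfl hT) (by positivity)
      _ = 27 * (L⁻¹ * (M₀ * M₁)) := by ring
      _ ≤ Θ / 3 := by linarith
  linarith

end Pool.Agent.Run7.h782.HP
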