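import Pool.Agent.Run7.h969.HP.Defs

/-!
Weak solutions with finitely many singular times near any smooth path of divergence free fields: the
definition used in the final statement. (`Path`, `SolOn` are in `Pool.Agent.Run7.h969.HP.Defs`; `Dist`,
`pairing`, `Stress`, `IsPDiv`, `VeryWeak`, `InL2Lq` are in `Pool.Agent.Run7.h782.WQ.PubS`.)
-/

set_option autoImplicit false

open MeasureTheory Set Filter Topology
open scoped ContDiff ENNReal ComplexConjugate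

namespace Pool.Agent.Run7.h782.HP

open H459R3.NS Pool.Agent.Run7.h782.GD Pool.Agent.Run7.h782.GS Pool.Agent.Run7.h782.WQ.Inst
open Pool.Agent.Run7.h969.HP

/-- `(u, p)` is a smooth solution for all times `t > 0` outside the finite set `F ⊆ [0, T]`; `u` is a
very weak solution from `c` on `(0, T')` and in `L²((0, T'); L^(2 Q n))` for all `T'` and `n`; `u` is
continuous in time on `(0, ∞)` in the sense of distributions and `u(t) → c` as `t → 0`;
`√(t - s) sup |u(t)| → 0` as `t ↓ s`, for all `s ≥ 0`; `u` is `ε`-close to the path `w` in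
`L^q((0, T); L^∞)`, and `|u(t)| ≤ ε` for `t ≥ T + ε`. -/
structure Follows (ν : ℝ) (c : K3 → C3) (Q : ℕ → ℝ) (w : ℝ → V → V) (T q ε : ℝ) (F : Finset ℝ)
    (u : ℝ → V → V) (p : ℝ → V → ℝ) : Prop where
  times : ∀ s ∈ F, s ∈ Icc 0 T
  sol : SolOn ν (Ioi 0 \ F) u p
  weak : ∀ T', 0 < T' → VeryWeak ν T' c u
  lq : ∀ T', 0 < T' → ∀ n, InL2Lq T' u (2 * Q n)
  cont : ∀ (i : Fin 3) (ψ : V → ℝ), ContDiff ℝ ∞ ψ → Per ψ →
    ContinuousOn (fun t => ∫ x in cube, u t x i * ψ x) (Ioi 0)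
  init : ∀ ψ : V → V, ContDiff ℝ ∞ ψ → Per ψ →
    Tendsto (fun t => ∫ x in cube, ∑ i, u t x i * ψ x i) (𝓝[>] 0) (𝓝 (pairing c ψ))
  small : ∀ s, 0 ≤ s → ∀ δ : ℝ, 0 < δ → ∀ᶠ t in 𝓝[>] s, ∀ x i, |u t x i| ≤ δ / Real.sqrt (t - s)
  near : ∫⁻ t in Ioo 0 T, (⨆ x, ⨆ i, ENNReal.ofReal |u t x i - w t x i|) ^ q ≤ ENNReal.ofReal ε
  late : ∀ t, T + ε ≤ t → ∀ x i, |u t x i| ≤ ε

end Pool.Agent.Run7.h782.HP
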