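import Pool.Agent.Run7.h969.HP.Defs

/-!
The branching theorem: the definition used in the final statement. (`Path`, `SolOn` are in
`Pool.Agent.Run7.h969.HP.Defs`; `Dist`, `pairing`, `VeryWeak`, `InL2Lq` are in
`Pool.Agent.Run7.h782.WQ.PubS`.)
-/

set_option autoImplicit false

open MeasureTheory Set Filter Topology
open scoped ContDiff ENNReal ComplexConjugate

namespace Pool.Agent.Run7.h782.HP

open H459R3.NS Pool.Agent.Run7.h782.GD Pool.Agent.Run7.h782.GS Pool.Agent.Run7.h782.WQ.Inst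
open Pool.Agent.Run7.h969.HP

/-- `u` is a very weak solution from `c` on `(0, T')` and in `L²((0, T'); L^(2 Q n))` for all `T'` and
`n`; `u = v` on `(0, S)`; `(u, p)` is a smooth solution for all times `t > S` outside the finite set
`F ⊆ [S, T]`; `u` is continuous in time on `(S, ∞)` in the sense of distributions;
`√(t - s) sup |u(t)| → 0` as `t ↓ s`, for all `s ≥ S`; `u` is `ε`-close to the path `w` in
`L^q((S, T); L^∞)`, and `|u(t)| ≤ ε` for `t ≥ T + ε`. -/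
structure Branch (ν : ℝ) (c : K3 → C3) (Q : ℕ → ℝ) (v : ℝ → V → V) (S : ℝ) (w : ℝ → V → V)
    (T q ε : ℝ) (F : Finset ℝ) (u : ℝ → V → V) (p : ℝ → V → ℝ) : Prop where
  weak : ∀ T', 0 < T' → VeryWeak ν T' c u
  lq : ∀ T', 0 < T' → ∀ n, InL2Lq T' u (2 * Q n)
  same : ∀ t ∈ Ioo 0 S, u t = v t
  times : ∀ s ∈ F, s ∈ Icc S T
  sol : SolOn ν (Ioi S \ F) u p
  cont : ∀ (i : Fin 3) (ψ : V → ℝ), ContDiff ℝ ∞ ψ → Per ψ →
    ContinuousOn (fun t => ∫ x in cube, u t x i * ψ x) (Ioi S)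
  small : ∀ s, S ≤ s → ∀ δ : ℝ, 0 < δ → ∀ᶠ t in 𝓝[>] s, ∀ x i, |u t x i| ≤ δ / Real.sqrt (t - s)
  near : ∫⁻ t in Ioo S T, (⨆ x, ⨆ i, ENNReal.ofReal |u t x i - w t x i|) ^ q ≤ ENNReal.ofReal ε
  late : ∀ t, T + ε ≤ t → ∀ x i, |u t x i| ≤ ε

end Pool.Agent.Run7.h782.HP
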