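import Pool.Agent.Run7.h782.WQ.PubS

/-!
The branching theorem: the definitions of the final statement. (`Dist`, `pairing`, `VeryWeak`,
`InL2Lq` are in `Pool.Agent.Run7.h782.WQ.PubS`.)

`V = Fin 3 → ℝ` with the maximum norm, `K3 = Fin 3 → ℤ`, `C3 = Fin 3 → ℂ`. `Per` is periodicity with
respect to `ℤ³`, `cube = [0,1]³`, `pd i` is the partial derivative.
-/

set_option autoImplicit false

open MeasureTheory Set Filter Topology
open scoped ContDiff ENNReal ComplexConjugate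

namespace Pool.Agent.Run7.h782.HP.Inst

open H459R3.NS Pool.Agent.Run7.h782.GD Pool.Agent.Run7.h782.GS Pool.Agent.Run7.h782.WQ.Inst

/-- `Φ` is convex and `≥ 0` on `[0, ∞)`, `Φ 0 = 0` and `Φ x = o(x²)` as `x → ∞`. -/
structure Orlicz (Φ : ℝ → ℝ) : Prop where
  zero : Φ 0 = 0
  nonneg : ∀ x, 0 ≤ x → 0 ≤ Φ x
  conv : ConvexOn ℝ (Ici 0) Φ
  small : Tendsto (fun x => Φ x / x ^ 2) atTop (𝓝 0)

/-- `w` is a smooth path of smooth periodic divergence free fields with the mean value `m`. -/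
structure SmoothPath (m : V) (w : ℝ → V → V) : Prop where
  smooth : ContDiff ℝ ∞ (fun z : ℝ × V => w z.1 z.2)
  per : ∀ t, Per (w t)
  divfree : ∀ t x, ∑ i, pd i (fun y => w t y i) x = 0
  mean : ∀ t i, ∫ x in cube, w t x i = m i

/-- `(u, p)` is a smooth periodic solution of the Navier-Stokes equations (viscosity `ν`, no force)
for the times in the open set `I`. -/
structure SolutionOn (ν : ℝ) (I : Set ℝ) (u : ℝ → V → V) (p : ℝ → V → ℝ) : Prop where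
  smooth_u : ContDiffOn ℝ ∞ (fun z : ℝ × V => u z.1 z.2) (I ×ˢ univ)
  smooth_p : ContDiffOn ℝ ∞ (fun z : ℝ × V => p z.1 z.2) (I ×ˢ univ)
  per_u : ∀ t ∈ I, Per (u t)
  per_p : ∀ t ∈ I, Per (p t)
  divfree : ∀ t ∈ I, ∀ x, ∑ i, pd i (fun y => u t y i) x = 0
  momentum : ∀ t ∈ I, ∀ x i,
    deriv (fun s => u s x i) t + ∑ j, u t x j * pd j (fun y => u t y i) x
      = ν * ∑ j, pd j (pd j (fun y => u t y i)) x - pd i (p t) x

/-- `u` is a very weak solution from `c` on `(0, T')` and in `L²((0, T'); L^(2 Q n))` for all `T'` and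
`n`; `u = v` on `(0, S)`; `(u, p)` is a smooth solution for all times `t > S` outside the finite set
`F ⊆ [S, T]`; `u` is continuous in time on `(S, ∞)` in the sense of distributions;
`√(t - s) sup |u(t)| → 0` as `t ↓ s`, for all `s ≥ S`; `u` is close to the path `w` on `(S, T)`:
`∫ Φ (sup |u(t) - w(t)|) dt ≤ ε`; and `|u(t) - m| ≤ ε` for `t ≥ T + ε`. -/
structure Branch (ν : ℝ) (c : K3 → C3) (Q : ℕ → ℝ) (v : ℝ → V → V) (S : ℝ) (m : V)
    (w : ℝ → V → V) (T : ℝ) (Φ : ℝ → ℝ) (ε : ℝ) (F : Finset ℝ) (u : ℝ → V → V)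
    (p : ℝ → V → ℝ) : Prop where
  weak : ∀ T', 0 < T' → VeryWeak ν T' c u
  lq : ∀ T', 0 < T' → ∀ n, InL2Lq T' u (2 * Q n)
  same : ∀ t ∈ Ioo 0 S, u t = v t
  times : ∀ s ∈ F, s ∈ Icc S T
  sol : SolutionOn ν (Ioi S \ F) u p
  cont : ∀ (i : Fin 3) (ψ : V → ℝ), ContDiff ℝ ∞ ψ → Per ψ →
    ContinuousOn (fun t => ∫ x in cube, u t x i * ψ x) (Ioi S)
  small : ∀ s, S ≤ s → ∀ δ : ℝ, 0 < δ → ∀ᶠ t in 𝓝[>] s, ∀ x i, |u t x i| ≤ δ / Real.sqrt (t - s)
  near : ∫⁻ t in Ioo S T, (⨆ x, ⨆ i, ENNReal.ofReal (Φ |u t x i - w t x i|)) ≤ ENNReal.ofReal ε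
  late : ∀ t, T + ε ≤ t → ∀ x i, |u t x i - m i| ≤ ε

end Pool.Agent.Run7.h782.HP.Inst
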