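import Pool.Agent.Run7.h782.HP.PubBrP

/-!
The steering theorem: the definition used in the final statement. (`Orlicz`, `SmoothPath`,
`SolutionOn` are in `Pool.Agent.Run7.h782.HP.PubBrP`; `Dist`, `pairing`, `VeryWeak`, `InL2Lq` in
`Pool.Agent.Run7.h782.WQ.PubS`.)
-/

set_option autoImplicit false

open MeasureTheory Set Filter Topology
open scoped ContDiff ENNReal ComplexConjugate

namespace Pool.Agent.Run7.h782.HP.Inst

open H459R3.NS Pool.Agent.Run7.h782.GD Pool.Agent.Run7.h782.GS Pool.Agent.Run7.h782.WQ.Inst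

/-- `u` joins the past `v` (before the time `S`) to the future `U` (started at the time `T`): `u` is a
very weak solution from `c` on `(0, T')` and in `L²((0, T'); L^(2 Q n))` for all `T'` and `n`; `u = v`
on `(0, S)` and `u(t) = U(t - T)` for all `t > T`; `(u, p)` is a smooth solution for all times in
`(S, T)` outside the set `F ⊆ [S, T)`, which has only finitely many elements before any `T' < T`; `u`
is continuous in time on `(S, T)` in the sense of distributions; `√(t - s) sup |u(t)| → 0` as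
`t ↓ s`, for all `s ∈ [S, T)`; and `u` is close to the path `w`: `∫ Φ (sup |u(t) - w(t)|) dt ≤ ε` over
`(S, T)`. -/
structure Joined (ν : ℝ) (c : K3 → C3) (Q : ℕ → ℝ) (v : ℝ → V → V) (S : ℝ) (w : ℝ → V → V)
    (T : ℝ) (U : ℝ → V → V) (Φ : ℝ → ℝ) (ε : ℝ) (F : Set ℝ) (u : ℝ → V → V)
    (p : ℝ → V → ℝ) : Prop where
  weak : ∀ T', 0 < T' → VeryWeak ν T' c u
  lq : ∀ T', 0 < T' → ∀ n, InL2Lq T' u (2 * Q n)
  before : ∀ t ∈ Ioo 0 S, u t = v t
  after : ∀ t, T < t → u t = U (t - T)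
  times : F ⊆ Ico S T
  finite : ∀ T', T' < T → (F ∩ Iic T').Finite
  sol : SolutionOn ν (Ioo S T \ F) u p
  cont : ∀ (i : Fin 3) (ψ : V → ℝ), ContDiff ℝ ∞ ψ → Per ψ →
    ContinuousOn (fun t => ∫ x in cube, u t x i * ψ x) (Ioo S T)
  small : ∀ s ∈ Ico S T, ∀ δ : ℝ, 0 < δ →
    ∀ᶠ t in 𝓝[>] s, ∀ x i, |u t x i| ≤ δ / Real.sqrt (t - s)
  near : ∫⁻ t in Ioo S T, (⨆ x, ⨆ i, ENNReal.ofReal (Φ |u t x i - w t x i|)) ≤ ENNReal.ofReal ε

end Pool.Agent.Run7.h782.HP.Inst
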