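import Pool.Agent.Run7.h782.HP.BasF
import Pool.Agent.Run7.h744.WQ.Lim
import Pool.Agent.Run7.h744.WQ.IterS

/-!
Project HP, piece IterF, part 1: one step, the sequence, the decay of the stresses (after
`h744/WQ/{StpQ, SeqR, Lim}`, with a force).
-/

set_option autoImplicit false

open MeasureTheory Set Filter Topology
open scoped ENNReal ComplexConjugate

namespace Pool.Agent.Run7.h782.HP

open H459R3.NS hiding W
open Pool.Agent.Run7.h782 Pool.Agent.Run7.h782.GD Pool.Agent.Run7.h782.GS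
open Pool.Agent.Run7.h782.WS Pool.Agent.Run7.h969.GS Pool.Agent.Run7 Pool.Agent.Run7.h308.WS
open Pool.Agent.Run7.h744.WS Pool.Agent.Run7.h969.WS Pool.Agent.Run7.h782.WQ
open Pool.Agent.Run7.h744.WQ Pool.Agent.Run7.h969.HP

/-- The conclusion of `StmStepQ`, as needed. -/
structure StpQF (ff : ℝ → Cf) (C : ℝ → ℝ) (ν κ θ H : ℝ) (E : Finset ℝ) (U : ℝ → Cf) (z : Cf) (r : Mf) (ε : ℝ)
    (a : ℝ → Cf) : Prop where
  csol : FSo ν ff a
  tg : TgF ff ν a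
  st : ∀ p ∈ E, rp p (anti (a 0 - z))
    ≤ C p * ν ^ (p / 2) * κ ^ (1 - p / 2) * rp (p / 2) r + θ
  tm : ∀ q ∈ E, 2 ≤ q → ∫⁻ t in Ioc (0 : ℝ) 1, ENNReal.ofReal (fp q (a t - U t) ^ (2 / q))
    ≤ ENNReal.ofReal (C q * κ ^ (2 / q - 1) * rp (q / 2) r ^ (2 / q) + θ)
  pt : ∀ t, 0 < t → Sd (a t) (U t) ≤ ENNReal.ofReal (ε / Real.sqrt t)
  int : ∫⁻ t in Ioc (0 : ℝ) 1, Sd (a t) (U t) ^ (2 : ℝ) ≤ ENNReal.ofReal H
  l2 : ∫⁻ t in Ioc (0 : ℝ) 1, Sq2 (a t) (U t) ≤ ENNReal.ofReal (C 2 * (rp 1 r + θ))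
  close : ∀ t, ε ≤ t → ∀ A : Finset K3, ∑ k ∈ A, ‖a t k - U t k‖ ≤ ε

/-- From `StmStepQ`. -/
theorem stpq_of_stepF (hStep : StmStepF) : ∃ C : ℝ → ℝ, (∀ p, 0 < C p) ∧ ∀ ff : ℝ → Cf,
    Frc ff → ∀ (ν : ℝ), 0 < ν →
    ∀ κ : ℝ, 0 < κ → κ ≤ 1 → ∀ E : Finset ℝ, (∀ p ∈ E, 0 < p) → ∀ U : ℝ → Cf, TgF ff ν U →
    ∀ (Z : Finset K3) (z : Cf), (0 : K3) ∉ Z → (∀ k ∉ Z, z k = 0) → Herm z → Dv z →
    ∀ r : Mf, Sy r → R1 r → (∀ k, dvr r k = z k - U 0 k) →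
    ∀ θ : ℝ, 0 < θ → ∃ H : ℝ, 0 ≤ H ∧ ∀ φ : ℝ → ℝ, Gauge φ → ∀ M η θ' : ℝ, 0 < M → 0 < η →
      θ ≤ θ' → ∀ᶠ ε in 𝓝[>] (0 : ℝ), ∃ a : ℝ → Cf, StpQF ff C ν κ θ H E U z r ε a ∧
        StpG φ θ' η M U z ε a := by
  obtain ⟨C, hC, H⟩ := hStep
  refine ⟨C, hC, fun ff hff ν hν κ hκ hκ1 E hE U hU Z z hZ0 hz hh hd r hr hr1 hrz θ hθ => ?_⟩
  obtain ⟨H', hH'⟩ := H ff hff ν hν κ hκ hκ1 E hE U hU Z z hZ0 hz hh hd r hr hr1 hrz θ hθ
  have hH0 : 0 ≤ H' := by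
    obtain ⟨h, a, -, -, -, -, -, -, h6, -⟩ := hH' 1 one_pos
    simpa using h6 0 le_rfl
  refine ⟨H', hH0, fun φ hφ M η θ' hM hη hθ' => ?_⟩
  filter_upwards [stage hφ hM hη hH0, self_mem_nhdsWithin] with ε hstg hε
  have hε' : 0 < ε := hε
  obtain ⟨h, a, hcs, htg, hst, htm, hcont, hle, hH, ⟨e, he0, hez, hes, heθ, hee⟩, hE', hpt, hI,
    hI2, hcl⟩ := hH' ε hε'
  have hsU : Summable fun k => ‖z k - U 0 k‖ := by
    have h1 : L1 (U 0) := Maj.l1 hU.maj le_rfl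
    exact (L1.of_supp hz).sub h1
  have hint := int_two (htg.toLSolF.cnt_h) (hU.toLSolF.cnt_h) hI
  refine ⟨a, ⟨hcs, htg, hst, fun q hq hq2 => ?_, fun t ht => Sd_le (hpt t ht), hint,
    int_sq2 (htg.toLSolF.cnt_h) (hU.toLSolF.cnt_h) hI2, hcl⟩, ⟨?_, ?_⟩⟩
  · -- the moments in time
    have hq0 : 0 < q := by linarith
    have hc := cont_fp (a := fun t => a t - U t) (Maj.sub htg.maj hU.maj)
      (Cnt.sub (htg.toLSolF.cnt_h) (hU.toLSolF.cnt_h)) hq0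
    have hc2 : ContinuousOn (fun t => fp q (a t - U t) ^ (2 / q)) (Icc 0 1) :=
      (hc.mono Icc_subset_Ici_self).rpow_const fun _ _ => Or.inr (by positivity)
    have hi : IntegrableOn (fun t => fp q (a t - U t) ^ (2 / q)) (Ioc (0 : ℝ) 1) :=
      (hc2.integrableOn_compact isCompact_Icc).mono_set Ioc_subset_Icc_self
    rw [← ofReal_integral_eq_lintegral_ofReal hi
      (Eventually.of_forall fun t => Real.rpow_nonneg (fp_nonneg _ _) _)]
    refine ENNReal.ofReal_le_ofReal ?_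
    have := htm q hq hq2 1 zero_le_one
    rwa [intervalIntegral.integral_of_le zero_le_one] at this
  · set g : ℝ → ℝ := fun s => max (h s) 0 with hg
    have hgc : Continuous g := hcont.max continuous_const
    have hg0 : ∀ s, 0 ≤ g s := fun s => le_max_right _ _
    have hgh : ∀ s, h s ≤ g s := fun s => le_max_left _ _
    have hgle : ∀ s, 0 < s → g s ≤ ε / Real.sqrt s := fun s hs =>
      max_le (hle s hs) (div_nonneg hε'.le (Real.sqrt_nonneg _))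
    have hgH : ∀ T, 0 ≤ T → ∫ s in (0 : ℝ)..T, g s ^ 2 ≤ H' := fun T hT =>
      (intervalIntegral.integral_mono_on hT ((hgc.pow 2).intervalIntegrable _ _)
        ((hcont.pow 2).intervalIntegrable _ _) fun s _ => by
          rcases le_total (h s) 0 with h1 | h1
          · show max (h s) 0 ^ 2 ≤ h s ^ 2
            rw [max_eq_right h1]
            nlinarith [sq_nonneg (h s)]
          · show max (h s) 0 ^ 2 ≤ h s ^ 2
            rw [max_eq_left h1]).trans (hH T hT)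
    have hXle : ∀ s, 0 < s → ENNReal.ofReal (Real.sqrt s) * ENNReal.ofReal (g s)
        ≤ ENNReal.ofReal ε := by
      intro s hs
      have hss := Real.sqrt_pos.2 hs
      rw [← ENNReal.ofReal_mul hss.le]
      refine ENNReal.ofReal_le_ofReal ?_
      have h1 := hgle s hs
      rw [le_div_iff₀ hss] at h1
      linarith
    refine ⟨fun s => ENNReal.ofReal (Real.sqrt s) * ENNReal.ofReal (g s),
      (ENNReal.measurable_ofReal.comp Real.continuous_sqrt.measurable).mul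
        (ENNReal.measurable_ofReal.comp hgc.measurable), hXle, ?_, ?_, ?_⟩
    · exact hstg dss _ (dss_ae hXle) (sq_dss hgc hg0 hgH)
    · refine ⟨fun k => ENNReal.ofReal (e k), by simp [hez],
        XE_of he0 hes (heθ.trans hθ'), fun s hs => ?_⟩
      have h1 := Fb_of_le (x := fun k => ‖a 0 k - z k‖) (y := fun _ => 0) (e := e) (g := g s) hs
        (fun k => norm_nonneg _) (fun _ => le_rfl) he0 summable_zero hes (hg0 s) (fun A => by
          have h0 : ∑' k, GS.ht s k * (0 : ℝ) = 0 := by simp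
          rw [h0, zero_add]
          have := hee s hs.le A
          have := hgh s
          linarith)
      have h2 : Fb (fun _ : K3 => ENNReal.ofReal 0) s = 0 := by simp [Fb]
      rw [h2, zero_add] at h1
      exact h1
    · intro t ht
      obtain ⟨e, he0, hez, hes, heθ, hee⟩ := hE' t ht
      refine ⟨fun k => ENNReal.ofReal (e k), by simp [hez],
        XE_of he0 hes (heθ.trans hθ'), fun s hs => ?_⟩
      exact Fb_of_le (x := fun k => ‖a t k - U t k‖) (y := fun k => ‖z k - U 0 k‖) (e := e)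
        (g := g s) hs (fun k => norm_nonneg _) (fun k => norm_nonneg _) he0 hsU hes (hg0 s)
        (fun A => by
          have := hee s hs.le A
          have := hgh s
          linarith)
  · refine hstg mu1 _ (mu1_ae fun t ht => ?_) (sq_mu1 ?_ hint)
    · have hss := Real.sqrt_pos.2 ht.1
      calc ENNReal.ofReal (Real.sqrt t) * Sd (a t) (U t)
          ≤ ENNReal.ofReal (Real.sqrt t) * ENNReal.ofReal (ε / Real.sqrt t) :=
            mul_le_mul' le_rfl (Sd_le (hpt t ht.1))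
        _ = ENNReal.ofReal ε := by
            rw [← ENNReal.ofReal_mul hss.le, mul_div_cancel₀ _ hss.ne']
    · exact Sd_meas (htg.toLSolF.cnt_h) (hU.toLSolF.cnt_h)

/-- The sequence. -/
structure SQF (ff : ℝ → Cf) (C : ℝ → ℝ) (ν δ : ℝ) (U : ℝ → Cf) (Q : ℕ → ℝ) (c : Cf) (r : ℕ → Mf) (φ : ℝ → ℝ)
    (m : ℕ → ℕ) (A : ℕ → ℝ → Cf) (ε H : ℕ → ℝ) : Prop where
  dat : DatQ Q c r
  init : A 0 = U
  tgt : ∀ n, TgF ff ν (A n)
  top : Tendsto m atTop atTop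
  dif : ∀ j i k, i ≤ j → k ≤ j → rp (Q i / 2 ^ k) (r (m (j + 1)) - r (m j)) ≤ th Q j
  wie : (Summable fun k => ‖c k‖) → ∀ j, ∑' k, ‖dvr (r (m j)) k - c k‖ ≤ (1 / 2) ^ j
  st : ∀ n, StpQF ff C ν ((1 / 4) ^ n) (th Q n) (H n) (Ex Q n) (A n) (dvr (r (m n)))
    (sts r m n (A n 0)) (ε n) (A (n + 1))
  sg : ∀ n, StpG φ ((1 / 2) ^ n) ((1 / 2) ^ n) (12 * 2 ^ n) (A n) (dvr (r (m n))) (ε n) (A (n + 1))
  e0 : ∀ n, 0 < ε n
  e1 : ∀ n, ε n ≤ (1 / 2) ^ n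
  e2 : ∀ n, ε n ≤ δ * (1 / 2) ^ (n + 1)
  ea : Antitone ε
  H0 : ∀ n, 0 ≤ H n

theorem exists_sqF (hStep : StmStepF) : ∃ C : ℝ → ℝ, (∀ p, 0 < C p) ∧ ∀ ff : ℝ → Cf, Frc ff →
    ∀ (ν : ℝ), 0 < ν →
    ∀ U : ℝ → Cf, TgF ff ν U → ∀ (Q : ℕ → ℝ) (c : Cf) (r : ℕ → Mf), DatQ Q c r →
    ∀ φ : ℝ → ℝ, Gauge φ → ∀ δ : ℝ, 0 < δ →
    ∃ (m : ℕ → ℕ) (A : ℕ → ℝ → Cf) (ε H : ℕ → ℝ), SQF ff C ν δ U Q c r φ m A ε H := by
  obtain ⟨C, hC, Hs⟩ := stpq_of_stepF hStep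
  refine ⟨C, hC, fun ff hff ν hν U hU Q c r hdat φ hφ δ hδ => ?_⟩
  obtain ⟨m, hm1, hm2, hm3⟩ := exists_m hdat
  obtain ⟨f, hf0, hP, hR⟩ := exists_rec (X := (ℝ → Cf) × ℝ)
    (fun x => TgF ff ν x.1 ∧ 0 < x.2)
    (fun n x y => ∃ H' : ℝ, 0 ≤ H' ∧ StpQF ff C ν ((1 / 4) ^ n) (th Q n) H' (Ex Q n) x.1
      (dvr (r (m n))) (sts r m n (x.1 0)) y.2 y.1 ∧
      StpG φ ((1 / 2) ^ n) ((1 / 2) ^ n) (12 * 2 ^ n) x.1 (dvr (r (m n))) y.2 y.1 ∧
      y.2 ≤ x.2 ∧ y.2 ≤ (1 / 2) ^ n ∧ y.2 ≤ δ * (1 / 2) ^ (n + 1))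
    (U, 1) ⟨hU, one_pos⟩ (by
      rintro n ⟨a, e⟩ ⟨ha, he⟩
      obtain ⟨Z, hZ⟩ := hdat.supp (m n)
      have hl : L1 (a 0) := Maj.l1 ha.maj le_rfl
      obtain ⟨H', hH0, hH'⟩ := Hs ff hff ν hν ((1 / 4) ^ n) (by positivity)
        (pow_le_one₀ (by norm_num) (by norm_num)) (Ex Q n) (ex_pos hdat.one n) a ha (Z.erase 0)
        (dvr (r (m n))) (Finset.notMem_erase _ _) (dvr_supp hZ) (herm_dvr (hdat.sy _))
        (dv_dvr _) (sts r m n (a 0)) (sts_sy hdat m n (ha.herm 0 le_rfl)) (sts_r1 hdat m n hl)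
        (sts_dvr r m n (ha.div 0 le_rfl) (ha.zero 0 le_rfl)) (th Q n) (th_pos Q n)
      have e1 : ∀ᶠ ε in 𝓝[>] (0 : ℝ), 0 < ε := self_mem_nhdsWithin
      have e2 : ∀ κ : ℝ, 0 < κ → ∀ᶠ ε in 𝓝[>] (0 : ℝ), ε ≤ κ := fun κ hκ =>
        nhdsWithin_le_nhds (ge_mem_nhds hκ)
      have e3 : th Q n ≤ (1 / 2) ^ n :=
        (th_le Q n).trans (pow_le_pow_left₀ (by norm_num) (by norm_num) n)
      obtain ⟨ε, h1, h2, h3, h4, b, hb, hb'⟩ := (e1.and ((e2 e he).and ((e2 ((1 / 2) ^ n)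
        (by positivity)).and ((e2 (δ * (1 / 2) ^ (n + 1)) (by positivity)).and
          (hH' φ hφ (12 * 2 ^ n) ((1 / 2) ^ n) ((1 / 2) ^ n) (by positivity) (by positivity)
            e3))))).exists
      exact ⟨(b, ε), ⟨hb.tg, h1⟩, H', hH0, hb, hb', h2, h3, h4⟩)
  choose H' hH0 hst hsg h1 h2 h3 using hR
  exact ⟨m, fun n => (f n).1, fun n => (f (n + 1)).2, H',
    { dat := hdat
      init := by simp [hf0]
      tgt := fun n => (hP n).1
      top := hm1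
      dif := hm2
      wie := hm3
      st := hst
      sg := hsg
      e0 := fun n => (hP (n + 1)).2
      e1 := h2
      e2 := h3
      ea := antitone_nat_of_succ_le fun n => h1 (n + 1)
      H0 := hH0 }⟩

section decay

variable {ff : ℝ → Cf} {C : ℝ → ℝ} {ν δ : ℝ} {U : ℝ → Cf} {Q : ℕ → ℝ} {c : Cf} {r : ℕ → Mf} {φ : ℝ → ℝ}
  {m : ℕ → ℕ} {A : ℕ → ℝ → Cf} {ε H : ℕ → ℝ}

theorem SQF.l1_0 (h : SQF ff C ν δ U Q c r φ m A ε H) (n : ℕ) : L1 (A n 0) :=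
  Maj.l1 (h.tgt n).maj le_rfl

theorem SQF.r1 (h : SQF ff C ν δ U Q c r φ m A ε H) (n : ℕ) : R1 (rho r m A n) :=
  sts_r1 h.dat m n (h.l1_0 n)

theorem SQF.Qpos (h : SQF ff C ν δ U Q c r φ m A ε H) (i : ℕ) : 0 < Q i := by linarith [h.dat.one i]

/-- The next stress by the error of the step. -/
theorem SQF.next (h : SQF ff C ν δ U Q c r φ m A ε H) {p : ℝ} (hp : 0 < p) (n : ℕ) :
    rp p (rho r m A (n + 1)) ≤ 2 ^ p * (rp p (r (m (n + 1)) - r (m n))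
      + rp p (anti (A (n + 1) 0 - dvr (r (m n))))) :=
  rp_sub_le hp (r1sub (dat_r1 h.dat _) (dat_r1 h.dat _))
    (r1_anti ((h.l1_0 (n + 1)).sub (l1_dvr h.dat _)))

/-- The decay of the moments of the stresses. -/
theorem SQF.decay (h : SQF ff C ν δ U Q c r φ m A ε H) (hC : ∀ p, 0 < C p) (hν : 0 < ν) (i : ℕ)
    (e : ℝ) : ∃ K : ℝ, 0 ≤ K ∧ ∀ n : ℕ, rp (Q i) (rho r m A n) ≤ K * (1 / 4 : ℝ) ^ (e * n) := by
  have hQ := h.Qpos i
  have hmono : ∀ j a b, a ≤ b → rp (Q i / 2 ^ b) (rho r m A j)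
      ≤ 1 + rp (Q i / 2 ^ a) (rho r m A j) := by
    intro j a b hab
    refine stmQ0.2.2.2.1 _ _ _ (by positivity) ?_ (h.r1 j)
    exact div_le_div_of_nonneg_left hQ.le (by positivity) (pow_le_pow_right₀ (by norm_num) hab)
  have hK : ∀ a : ℕ, 0 ≤ 2 ^ (Q i / 2 ^ a) * (C (Q i / 2 ^ a) * ν ^ (Q i / 2 ^ a / 2)) := by
    intro a
    have := (hC (Q i / 2 ^ a)).le
    positivity
  obtain ⟨K, hKK⟩ := stmRecQ (fun j a => rp (Q i / 2 ^ a) (rho r m A j))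
    (fun a => 2 ^ (Q i / 2 ^ a) * (C (Q i / 2 ^ a) * ν ^ (Q i / 2 ^ a / 2))) (Q i) hQ
    (fun j a => rp_nonneg _ _) hK hmono (fun a => ⟨max i a, fun j hj => by
      have hij : i ≤ j := (le_max_left _ _).trans hj
      have haj : a ≤ j := (le_max_right _ _).trans hj
      have hp : 0 < Q i / 2 ^ a := by positivity
      have hmem := mem_ex (Q := Q) hij haj
      have h1 := h.next hp j
      have h2 := h.dif j i a hij haj
      have h3 := (h.st j).st _ hmem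
      have h4 := th_wx hmem
      have e1 : Q i / 2 ^ a / 2 = Q i / 2 ^ (a + 1) := by
        rw [pow_succ, div_div]
      have e2 : (((1 : ℝ) / 4) ^ j) ^ (1 - Q i / 2 ^ a / 2)
          = (1 / 4 : ℝ) ^ ((j : ℝ) * (1 - Q i / 2 ^ (a + 1))) := by
        rw [e1, ← Real.rpow_natCast, ← Real.rpow_mul (by norm_num)]
      rw [e2] at h3
      have h5 : (0 : ℝ) < 2 ^ (Q i / 2 ^ a) := by positivity
      calc rp (Q i / 2 ^ a) (rho r m A (j + 1))
          ≤ 2 ^ (Q i / 2 ^ a) * (th Q j + (C (Q i / 2 ^ a) * ν ^ (Q i / 2 ^ a / 2)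
            * (1 / 4 : ℝ) ^ ((j : ℝ) * (1 - Q i / 2 ^ (a + 1)))
            * rp (Q i / 2 ^ a / 2) (rho r m A j) + th Q j)) :=
            h1.trans (mul_le_mul_of_nonneg_left (add_le_add h2 h3) h5.le)
        _ = 2 ^ (Q i / 2 ^ a) * (C (Q i / 2 ^ a) * ν ^ (Q i / 2 ^ a / 2))
            * (1 / 4 : ℝ) ^ ((j : ℝ) * (1 - Q i / 2 ^ (a + 1)))
            * rp (Q i / 2 ^ (a + 1)) (rho r m A j)
            + 2 ^ (Q i / 2 ^ a) * (th Q j + th Q j) := by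
            rw [e1]
            ring
        _ ≤ _ := add_le_add le_rfl h4⟩) e
  refine ⟨max K 0, le_max_right _ _, fun n => ?_⟩
  have h1 := hKK n
  simp only [pow_zero, div_one] at h1
  refine h1.trans (mul_le_mul_of_nonneg_right (le_max_left _ _) (by positivity))

/-- The norms of the stresses. -/
theorem SQF.decay' (h : SQF ff C ν δ U Q c r φ m A ε H) (hC : ∀ p, 0 < C p) (hν : 0 < ν) (i : ℕ)
    (e : ℝ) : ∃ K : ℝ, 0 ≤ K ∧ ∀ n : ℕ,
      rp (Q i) (rho r m A n) ^ (1 / Q i) ≤ K * (1 / 4 : ℝ) ^ (e * n) := by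
  have hQ := h.Qpos i
  obtain ⟨K, hK0, hK⟩ := h.decay hC hν i (Q i * e)
  refine ⟨K ^ (1 / Q i), by positivity, fun n => ?_⟩
  refine (Real.rpow_le_rpow (rp_nonneg _ _) (hK n) (by positivity)).trans (le_of_eq ?_)
  rw [Real.mul_rpow hK0 (by positivity), ← Real.rpow_mul (by norm_num)]
  congr 2
  field_simp

/-- The errors of the steps. -/
theorem SQF.al_le (h : SQF ff C ν δ U Q c r φ m A ε H) (hC : ∀ p, 0 < C p) (hν : 0 < ν) :
    ∃ K : ℝ, 0 ≤ K ∧ ∀ n : ℕ, al (A (n + 1) 0 - dvr (r (m n))) ≤ K * (1 / 2) ^ n := by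
  have hQ := h.Qpos 0
  have hQ1 := h.dat.one 0
  have hC1 := hC 1
  obtain ⟨K, hK0, hK⟩ := h.decay hC hν 0 0
  refine ⟨C 1 * ν ^ ((1 : ℝ) / 2) * (1 + K) + 1, by positivity, fun n => ?_⟩
  have h1 := (h.st n).st 1 (mem_ex1 Q n)
  have h2 : rp (1 / 2) (rho r m A n) ≤ 1 + K := by
    have h3 := stmQ0.2.2.2.1 (1 / 2) (Q 0) _ (by norm_num) (by linarith) (h.r1 n)
    have h4 := hK n
    rw [zero_mul, Real.rpow_zero, mul_one] at h4
    linarith
  have e1 : (((1 : ℝ) / 4) ^ n) ^ ((1 : ℝ) - 1 / 2) = (1 / 2) ^ n := by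
    rw [show (1 : ℝ) - 1 / 2 = 1 / 2 by norm_num, ← Real.sqrt_eq_rpow,
      show ((1 : ℝ) / 4) ^ n = ((1 / 2) ^ n) ^ 2 by
        rw [← pow_mul, mul_comm n 2, pow_mul]; norm_num, Real.sqrt_sq (by positivity)]
  rw [al_eq (r1_anti ((h.l1_0 (n + 1)).sub (l1_dvr h.dat _)))]
  rw [e1] at h1
  have h5 : th Q n ≤ (1 / 2) ^ n :=
    (th_le Q n).trans (pow_le_pow_left₀ (by norm_num) (by norm_num) n)
  calc _ ≤ _ := h1
    _ ≤ C 1 * ν ^ ((1 : ℝ) / 2) * (1 / 2) ^ n * (1 + K) + (1 / 2) ^ n := by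
        refine add_le_add (mul_le_mul_of_nonneg_left h2 (by positivity)) h5
    _ = _ := by ring

/-- The square mean of the steps. -/
theorem SQF.l2_le (h : SQF ff C ν δ U Q c r φ m A ε H) (hC : ∀ p, 0 < C p) (hν : 0 < ν) :
    ∃ K : ℝ, 0 ≤ K ∧ ∀ n : ℕ, ∫⁻ t in Ioc (0 : ℝ) 1, Sq2 (A (n + 1) t) (A n t)
      ≤ ENNReal.ofReal (K * (1 / 4) ^ n) := by
  have hC2 := hC 2
  obtain ⟨K, hK0, hK⟩ := h.decay' hC hν 0 1
  refine ⟨C 2 * (K + 1), by positivity, fun n => ?_⟩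
  refine ((h.st n).l2).trans (ENNReal.ofReal_le_ofReal ?_)
  have h1 := stmQ0.2.2.1 1 (Q 0) _ one_pos (h.dat.one 0) (h.r1 n)
  have h2 := hK n
  rw [quarter_rpow] at h2
  rw [mul_assoc]
  refine mul_le_mul_of_nonneg_left ?_ hC2.le
  have h3 := th_le Q n
  calc rp 1 (sts r m n (A n 0)) + th Q n ≤ K * (1 / 4) ^ n + (1 / 4) ^ n :=
        add_le_add (h1.trans h2) h3
    _ = _ := by ring

/-- The moments of the steps. -/
theorem SQF.tm_le (h : SQF ff C ν δ U Q c r φ m A ε H) (hC : ∀ p, 0 < C p) (hν : 0 < ν) (i : ℕ) :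
    ∃ K : ℝ, 0 ≤ K ∧ ∀ n : ℕ, i ≤ n →
      ∫⁻ t in Ioc (0 : ℝ) 1, ENNReal.ofReal (fp (2 * Q i) (A (n + 1) t - A n t) ^ (1 / Q i))
        ≤ ENNReal.ofReal (K * (1 / 4) ^ n) := by
  have hQ := h.Qpos i
  have hQ1 := h.dat.one i
  have hCq := hC (2 * Q i)
  obtain ⟨K, hK0, hK⟩ := h.decay' hC hν i 2
  refine ⟨C (2 * Q i) * K + 1, by positivity, fun n hn => ?_⟩
  have h1 := (h.st n).tm (2 * Q i) (mem_ex2 hn) (by linarith)
  have e1 : 2 / (2 * Q i) = 1 / Q i := by field_simp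
  have e2 : 2 * Q i / 2 = Q i := by ring
  rw [e1, e2] at h1
  refine h1.trans (ENNReal.ofReal_le_ofReal ?_)
  have h2 := hK n
  have h3 := th_le Q n
  have h4 : (((1 : ℝ) / 4) ^ n) ^ (1 / Q i - 1) ≤ 4 ^ n := by
    rw [← Real.rpow_natCast, ← Real.rpow_mul (by norm_num)]
    have e3 : (4 : ℝ) ^ n = (1 / 4 : ℝ) ^ (-(n : ℝ)) := by
      rw [Real.rpow_neg (by norm_num), Real.rpow_natCast, one_div, inv_pow, inv_inv]
    rw [e3]
    refine Real.rpow_le_rpow_of_exponent_ge (by norm_num) (by norm_num) ?_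
    have h5 : 0 ≤ 1 / Q i := by positivity
    have h6 : (0 : ℝ) ≤ n := Nat.cast_nonneg n
    nlinarith
  have e4 : (1 / 4 : ℝ) ^ ((2 : ℝ) * n) = (1 / 4) ^ n * (1 / 4) ^ n := by
    rw [two_mul, Real.rpow_add (by norm_num), Real.rpow_natCast]
  rw [e4] at h2
  have h7 : (4 : ℝ) ^ n * (1 / 4) ^ n = 1 := by
    rw [← mul_pow]
    norm_num
  calc C (2 * Q i) * (((1 : ℝ) / 4) ^ n) ^ (1 / Q i - 1)
        * rp (Q i) (sts r m n (A n 0)) ^ (1 / Q i) + th Q n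
      ≤ C (2 * Q i) * 4 ^ n * (K * ((1 / 4) ^ n * (1 / 4) ^ n)) + (1 / 4) ^ n := by
        refine add_le_add (mul_le_mul (mul_le_mul_of_nonneg_left h4 hCq.le) h2
          (Real.rpow_nonneg (rp_nonneg _ _) _) (by positivity)) h3
    _ = (C (2 * Q i) * K * (4 ^ n * (1 / 4) ^ n) + 1) * (1 / 4) ^ n := by ring
    _ = _ := by rw [h7, mul_one]

end decay

variable {ff : ℝ → Cf} {C : ℝ → ℝ} {ν δ : ℝ} {U : ℝ → Cf} {Q : ℕ → ℝ} {c : Cf} {r : ℕ → Mf} {φ : ℝ → ℝ}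
  {m : ℕ → ℕ} {A : ℕ → ℝ → Cf} {ε H : ℕ → ℝ} {b : ℝ → Cf}

theorem SQF.sum (h : SQF ff C ν δ U Q c r φ m A ε H) : Summable ε :=
  Summable.of_nonneg_of_le (fun n => (h.e0 n).le) h.e1
    (summable_geometric_of_lt_one (by norm_num) (by norm_num))

theorem SQF.cnt (h : SQF ff C ν δ U Q c r φ m A ε H) (n : ℕ) : Cnt (A n) :=
  (h.tgt n).toLSolF.cnt_h

theorem SQF.l1t (h : SQF ff C ν δ U Q c r φ m A ε H) (n : ℕ) {t : ℝ} (ht : 0 ≤ t) : L1 (A n t) :=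
  Maj.l1 (h.tgt n).maj ht

theorem SQF.et_nonneg (h : SQF ff C ν δ U Q c r φ m A ε H) (J : ℕ) : 0 ≤ Et ε J :=
  tsum_nonneg fun _ => (h.e0 _).le

theorem SQF.le_et (h : SQF ff C ν δ U Q c r φ m A ε H) (J : ℕ) : ε J ≤ Et ε J := by
  have hs := (summable_nat_add_iff J).2 h.sum
  have := hs.le_tsum 0 fun j _ => (h.e0 _).le
  simpa [Et] using this

theorem SQF.tail_sum (h : SQF ff C ν δ U Q c r φ m A ε H)
    (hlim : ∀ t, 0 < t → ∀ k, Tendsto (fun j => A (j + 1) t k) atTop (𝓝 (b t k))) {t : ℝ}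
    (ht : 0 < t) (J : ℕ) :
    ∑' k, ENNReal.ofReal ‖b t k - A J t k‖ ≤ ENNReal.ofReal (Et ε J / Real.sqrt t) := by
  have hss := Real.sqrt_pos.2 ht
  have hs := (summable_nat_add_iff J).2 h.sum
  calc ∑' k, ENNReal.ofReal ‖b t k - A J t k‖
      ≤ ∑' k, ∑' i, ENNReal.ofReal ‖A (J + i + 1) t k - A (J + i) t k‖ :=
        ENNReal.tsum_le_tsum fun k => tel (hlim t ht) J k
    _ = ∑' i, Sd (A (J + i + 1) t) (A (J + i) t) := ENNReal.tsum_comm
    _ ≤ ∑' i, ENNReal.ofReal (ε (i + J) / Real.sqrt t) := by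
        refine ENNReal.tsum_le_tsum fun i => ?_
        rw [add_comm i J]
        exact (h.st (J + i)).pt t ht
    _ = ENNReal.ofReal (Et ε J / Real.sqrt t) := by
        rw [← ENNReal.ofReal_tsum_of_nonneg (fun i => div_nonneg (h.e0 _).le hss.le)
          (hs.div_const _), tsum_div_const]
        rfl

theorem SQF.tail_summable (h : SQF ff C ν δ U Q c r φ m A ε H)
    (hlim : ∀ t, 0 < t → ∀ k, Tendsto (fun j => A (j + 1) t k) atTop (𝓝 (b t k))) {t : ℝ}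
    (ht : 0 < t) (J : ℕ) : (Summable fun k => ‖b t k - A J t k‖) ∧
      ∑' k, ‖b t k - A J t k‖ ≤ Et ε J / Real.sqrt t := by
  have h1 := h.tail_sum hlim ht J
  have h2 : ∑' k, ENNReal.ofReal ‖b t k - A J t k‖ ≠ ⊤ := ne_top_of_le_ne_top
    ENNReal.ofReal_ne_top h1
  have h3 : Summable fun k => ‖b t k - A J t k‖ := by
    have := ENNReal.summable_toReal h2
    refine this.congr fun k => ?_
    rw [ENNReal.toReal_ofReal (norm_nonneg _)]
  refine ⟨h3, ?_⟩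
  rw [← ENNReal.ofReal_tsum_of_nonneg (fun _ => norm_nonneg _) h3] at h1
  exact (ENNReal.ofReal_le_ofReal_iff
    (div_nonneg (h.et_nonneg J) (Real.sqrt_nonneg _))).1 h1

theorem SQF.l1b (h : SQF ff C ν δ U Q c r φ m A ε H)
    (hlim : ∀ t, 0 < t → ∀ k, Tendsto (fun j => A (j + 1) t k) atTop (𝓝 (b t k))) {t : ℝ}
    (ht : 0 < t) : L1 (b t) := by
  have h1 : L1 (b t - A 0 t) := (h.tail_summable hlim ht 0).1
  have h2 := h1.add (h.l1t 0 ht.le)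
  rwa [sub_add_cancel] at h2

theorem SQF.tendsto_l1 (h : SQF ff C ν δ U Q c r φ m A ε H)
    (hlim : ∀ t, 0 < t → ∀ k, Tendsto (fun j => A (j + 1) t k) atTop (𝓝 (b t k))) {t : ℝ}
    (ht : 0 < t) : Tendsto (fun J => ∑' k, ‖A J t k - b t k‖) atTop (𝓝 0) := by
  have h1 : Tendsto (fun J => Et ε J / Real.sqrt t) atTop (𝓝 0) := by
    have := (SQ.et_tendsto ε).div_const (Real.sqrt t)
    rwa [zero_div] at this
  refine squeeze_zero (fun _ => tsum_nonneg fun _ => norm_nonneg _) (fun J => ?_) h1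
  refine le_trans (le_of_eq ?_) (h.tail_summable hlim ht J).2
  exact tsum_congr fun k => norm_sub_rev _ _

/-- Uniform closeness. -/
theorem SQF.close (h : SQF ff C ν δ U Q c r φ m A ε H)
    (hlim : ∀ t, 0 < t → ∀ k, Tendsto (fun j => A (j + 1) t k) atTop (𝓝 (b t k))) {t : ℝ}
    (ht : 0 < t) (J : ℕ) (hJ : ε J ≤ t) (B : Finset K3) :
    ∑ k ∈ B, ‖A J t k - b t k‖ ≤ Et ε J := by
  have hs := (summable_nat_add_iff J).2 h.sum
  have h1 : ∀ n, ∑ k ∈ B, ‖A (J + n) t k - A J t k‖ ≤ ∑ i ∈ Finset.range n, ε (i + J) := by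
    intro n
    induction n with
    | zero => simp
    | succ n ih =>
      rw [Finset.sum_range_succ]
      have h2 : ε (J + n) ≤ t := (h.ea (Nat.le_add_right J n)).trans hJ
      calc ∑ k ∈ B, ‖A (J + (n + 1)) t k - A J t k‖
          ≤ ∑ k ∈ B, (‖A (J + n + 1) t k - A (J + n) t k‖ + ‖A (J + n) t k - A J t k‖) :=
            Finset.sum_le_sum fun k _ => norm_sub_le_norm_sub_add_norm_sub _ _ _
        _ = ∑ k ∈ B, ‖A (J + n + 1) t k - A (J + n) t k‖ + ∑ k ∈ B, ‖A (J + n) t k - A J t k‖ :=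
            Finset.sum_add_distrib
        _ ≤ _ := by
            have h3 := (h.st (J + n)).close t h2 B
            rw [add_comm n J]
            linarith
  have h2 : Tendsto (fun n => ∑ k ∈ B, ‖A (J + n) t k - A J t k‖) atTop
      (𝓝 (∑ k ∈ B, ‖b t k - A J t k‖)) := by
    refine tendsto_finsetSum _ fun k _ => ?_
    have h3 : Tendsto (fun j => A j t k) atTop (𝓝 (b t k)) :=
      (tendsto_add_atTop_iff_nat 1).1 (hlim t ht k)
    have h4 : Tendsto (fun n => A (J + n) t k) atTop (𝓝 (b t k)) := by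
      have := (tendsto_add_atTop_iff_nat J).2 h3
      refine this.congr fun n => ?_
      rw [add_comm]
    exact (h4.sub tendsto_const_nhds).norm
  have h3 : ∑ k ∈ B, ‖b t k - A J t k‖ ≤ Et ε J :=
    le_of_tendsto' h2 fun n => (h1 n).trans (hs.sum_le_tsum _ fun _ _ => (h.e0 _).le)
  calc ∑ k ∈ B, ‖A J t k - b t k‖ = ∑ k ∈ B, ‖b t k - A J t k‖ :=
        Finset.sum_congr rfl fun k _ => norm_sub_rev _ _
    _ ≤ _ := h3

/-! ### The moments -/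

theorem nrm_tel (h : SQF ff C ν δ U Q c r φ m A ε H) {q : ℝ} (hq : 1 ≤ q) {t : ℝ} (ht : 0 < t)
    (J n : ℕ) : nrm q (A (J + n) t) ≤ nrm q (A J t)
      + ∑ i ∈ Finset.range n, nrm q (A (J + i + 1) t - A (J + i) t) := by
  induction n with
  | zero => simp
  | succ n ih =>
    rw [Finset.sum_range_succ]
    have h1 := stmQ0.2.2.2.2.2.2.1 q (A (J + n) t) (A (J + n + 1) t - A (J + n) t) hq
      (h.l1t _ ht.le) ((h.l1t _ ht.le).sub (h.l1t _ ht.le))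
    rw [add_sub_cancel] at h1
    have h2 : nrm q (A (J + n + 1) t) ≤ nrm q (A (J + n) t)
        + nrm q (A (J + n + 1) t - A (J + n) t) := h1
    refine (h2.trans (add_le_add ih le_rfl)).trans (le_of_eq ?_)
    rw [add_assoc]

theorem nrm_le (h : SQF ff C ν δ U Q c r φ m A ε H)
    (hlim : ∀ t, 0 < t → ∀ k, Tendsto (fun j => A (j + 1) t k) atTop (𝓝 (b t k)))
    {q : ℝ} (hq : 1 ≤ q) {t : ℝ} (ht : 0 < t) (J : ℕ) :
    ENNReal.ofReal (nrm q (b t)) ≤ ENNReal.ofReal (nrm q (A J t))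
      + ∑' i, ENNReal.ofReal (nrm q (A (J + i + 1) t - A (J + i) t)) := by
  have hq0 : 0 < q := by linarith
  have h1 : Tendsto (fun n => fp q (A (n + J) t)) atTop (𝓝 (fp q (b t))) :=
    stmQ0.2.2.2.2.2.2.2.1 q (b t) hq0 (h.l1b hlim ht) (fun n => A (n + J) t)
      (fun n => h.l1t _ ht.le) ((tendsto_add_atTop_iff_nat J).2 (h.tendsto_l1 hlim ht))
  have h2 : Tendsto (fun n => ENNReal.ofReal (nrm q (A (J + n) t))) atTop
      (𝓝 (ENNReal.ofReal (nrm q (b t)))) := by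
    have h3 := (ENNReal.continuous_ofReal.tendsto _).comp
      (h1.rpow_const (p := 1 / q) (Or.inr (by positivity)))
    refine h3.congr fun n => ?_
    rw [add_comm J n]
    rfl
  refine le_of_tendsto' h2 fun n => ?_
  refine (ENNReal.ofReal_le_ofReal (nrm_tel h hq ht J n)).trans ?_
  rw [ENNReal.ofReal_add (nrm_nonneg _ _) (Finset.sum_nonneg fun _ _ => nrm_nonneg _ _),
    ENNReal.ofReal_sum_of_nonneg fun _ _ => nrm_nonneg _ _]
  exact add_le_add le_rfl (ENNReal.sum_le_tsum _)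

theorem nrm_bd (h : SQF ff C ν δ U Q c r φ m A ε H) {q : ℝ} (hq : 1 ≤ q) (J : ℕ) :
    ∃ M : ℝ, 0 ≤ M ∧ ∀ t, 0 ≤ t → nrm q (A J t) ≤ M := by
  have hq0 : 0 < q := by linarith
  obtain ⟨M, hM⟩ := (h.tgt J).bd
  have hM0 : 0 ≤ M := by simpa using hM 0 le_rfl ∅
  refine ⟨3 * M, by positivity, fun t ht => ?_⟩
  have h1 := stmQ0.2.2.2.2.2.1 q (A J t) hq0 (h.l1t J ht)
  have h2 : ∑' k, ‖A J t k‖ ≤ M := Summable.tsum_le_of_sum_le (h.l1t J ht) (hM t ht)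
  have h3 : 0 ≤ ∑' k, ‖A J t k‖ := tsum_nonneg fun _ => norm_nonneg _
  calc nrm q (A J t) ≤ ((3 * ∑' k, ‖A J t k‖) ^ q) ^ (1 / q) :=
        Real.rpow_le_rpow (fp_nonneg _ _) h1 (by positivity)
    _ = 3 * ∑' k, ‖A J t k‖ := by
        rw [← Real.rpow_mul (by positivity), mul_one_div_cancel hq0.ne', Real.rpow_one]
    _ ≤ _ := by gcongr

theorem nrm_cont (h : SQF ff C ν δ U Q c r φ m A ε H) {q : ℝ} (hq : 1 ≤ q) (n : ℕ) :
    ContinuousOn (fun t => nrm q (A (n + 1) t - A n t)) (Ici 0) :=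
  (cont_fp (a := fun t => A (n + 1) t - A n t) (Maj.sub (h.tgt _).maj (h.tgt _).maj)
    (Cnt.sub (h.cnt _) (h.cnt _)) (by linarith)).rpow_const fun _ _ => Or.inr (by positivity)

theorem moments (h : SQF ff C ν δ U Q c r φ m A ε H) (hC : ∀ p, 0 < C p) (hν : 0 < ν)
    (hlim : ∀ t, 0 < t → ∀ k, Tendsto (fun j => A (j + 1) t k) atTop (𝓝 (b t k))) (i : ℕ) :
    IntegrableOn (fun t => fp (2 * Q i) (b t) ^ (1 / Q i)) (Ioc 0 1) := by
  have hQ := h.Qpos i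
  have hQ1 := h.dat.one i
  set q : ℝ := 2 * Q i with hq
  have hq1 : 1 ≤ q := by linarith
  have hq0 : 0 < q := by linarith
  obtain ⟨K, hK0, hK⟩ := h.tm_le hC hν i
  obtain ⟨M, hM0, hM⟩ := nrm_bd h hq1 i
  have hsqr : ∀ c : Cf, ENNReal.ofReal (nrm q c) ^ (2 : ℝ)
      = ENNReal.ofReal (fp q c ^ (1 / Q i)) := by
    intro c
    rw [ENNReal.ofReal_rpow_of_nonneg (nrm_nonneg _ _) (by norm_num), nrm,
      ← Real.rpow_mul (fp_nonneg _ _)]
    congr 2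
    rw [hq]
    field_simp
  set μ := volume.restrict (Ioc (0 : ℝ) 1) with hμ
  set Ψ : ℕ → ℝ → ℝ≥0∞ := fun j t =>
    ENNReal.ofReal (nrm q (A (i + j + 1) t - A (i + j) t)) with hΨ
  have hΨm : ∀ j, AEMeasurable (Ψ j) μ := fun j =>
    ENNReal.measurable_ofReal.comp_aemeasurable (ContinuousOn.aemeasurable
      ((nrm_cont h hq1 (i + j)).mono fun t ht => ht.1.le) measurableSet_Ioc)
  have hΨn : ∀ j, Nq μ 2 (Ψ j) ≤ ENNReal.ofReal (Real.sqrt K * (1 / 2) ^ j) := by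
    intro j
    rw [Nq]
    have e1 : ∀ t, Ψ j t ^ (2 : ℝ)
        = ENNReal.ofReal (fp q (A (i + j + 1) t - A (i + j) t) ^ (1 / Q i)) := fun t => hsqr _
    simp_rw [e1]
    have h1 := hK (i + j) (Nat.le_add_right _ _)
    refine (ENNReal.rpow_le_rpow h1 (by norm_num)).trans ?_
    rw [ENNReal.ofReal_rpow_of_nonneg (by positivity) (by norm_num), ← Real.sqrt_eq_rpow,
      Real.sqrt_mul hK0]
    refine ENNReal.ofReal_le_ofReal (mul_le_mul_of_nonneg_left ?_ (Real.sqrt_nonneg _))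
    refine Real.sqrt_le_iff.2 ⟨by positivity, ?_⟩
    calc ((1 : ℝ) / 4) ^ (i + j) ≤ (1 / 4) ^ j :=
          pow_le_pow_of_le_one (by norm_num) (by norm_num) (by omega)
      _ = ((1 / 2) ^ j) ^ 2 := by
          rw [← pow_mul, mul_comm j 2, pow_mul]
          norm_num
  have hfin : Nq μ 2 (fun t => ENNReal.ofReal (nrm q (b t))) < ⊤ := by
    calc Nq μ 2 (fun t => ENNReal.ofReal (nrm q (b t)))
        ≤ Nq μ 2 (fun t => ENNReal.ofReal M + ∑' j, Ψ j t) := by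
          refine Nq_mono (by norm_num) ?_
          filter_upwards [self_mem_ae_restrict measurableSet_Ioc] with t ht
          exact (nrm_le h hlim hq1 ht.1 i).trans
            (add_le_add (ENNReal.ofReal_le_ofReal (hM t ht.1.le)) le_rfl)
      _ ≤ Nq μ 2 (fun _ => ENNReal.ofReal M) + ∑' j, Nq μ 2 (Ψ j) :=
          (Nq_add (by norm_num) aemeasurable_const (AEMeasurable.tsum hΨm)).trans
            (add_le_add le_rfl (Nq_tsum (by norm_num) hΨm))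
      _ ≤ Nq μ 2 (fun _ => ENNReal.ofReal M)
          + ∑' j : ℕ, ENNReal.ofReal (Real.sqrt K * (1 / 2) ^ j) :=
          add_le_add le_rfl (ENNReal.tsum_le_tsum hΨn)
      _ < ⊤ := by
          refine ENNReal.add_lt_top.2 ⟨?_, ?_⟩
          · rw [Nq, lintegral_const, hμ, Measure.restrict_apply_univ, Real.volume_Ioc]
            refine ENNReal.rpow_lt_top_of_nonneg (by norm_num) (ENNReal.mul_ne_top ?_
              ENNReal.ofReal_ne_top)
            exact ENNReal.rpow_ne_top_of_nonneg (by norm_num) ENNReal.ofReal_ne_top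
          · rw [← ENNReal.ofReal_tsum_of_nonneg (fun j => by positivity)
              ((summable_geometric_of_lt_one (by norm_num) (by norm_num)).mul_left _)]
            exact ENNReal.ofReal_lt_top
  rw [Nq] at hfin
  have hfin2 := (ENNReal.rpow_lt_top_iff_of_pos (by norm_num)).1 hfin
  simp_rw [hsqr] at hfin2
  have hmeas : AEMeasurable (fun t => fp q (b t)) μ := by
    refine aemeasurable_of_tendsto_metrizable_ae (atTop : Filter ℕ)
      (f := fun n t => fp q (A n t)) (fun n => ?_) ?_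
    · exact ContinuousOn.aemeasurable ((cont_fp (h.tgt n).maj (h.cnt n) hq0).mono
        fun t ht => ht.1.le) measurableSet_Ioc
    · filter_upwards [self_mem_ae_restrict measurableSet_Ioc] with t ht
      exact stmQ0.2.2.2.2.2.2.2.1 q (b t) hq0 (h.l1b hlim ht.1) (fun n => A n t)
        (fun n => h.l1t _ ht.1.le) (h.tendsto_l1 hlim ht.1)
  refine ⟨(hmeas.pow_const _).aestronglyMeasurable, ?_⟩
  rw [HasFiniteIntegral]
  refine lt_of_le_of_lt (le_of_eq ?_) hfin2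
  refine lintegral_congr fun t => ?_
  rw [Real.enorm_eq_ofReal (Real.rpow_nonneg (fp_nonneg _ _) _)]

end Pool.Agent.Run7.h782.HP
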