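import Pool.Agent.Run7.h782.HP.SeqU
import Pool.Agent.Run7.h782.HP.IterU
import Pool.Agent.Run7.h782.HP.IterB
import Pool.Agent.Run7.h782.HP.DefsE

/-!
Project HP: the sequence with an offset in the Besov clauses.
-/

set_option autoImplicit false

open MeasureTheory Set Filter Topology
open scoped ENNReal ComplexConjugate

namespace Pool.Agent.Run7.h782.HP

open H459R3.NS hiding W
open Pool.Agent.Run7.h782 Pool.Agent.Run7.h782.GD Pool.Agent.Run7.h782.GS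
open Pool.Agent.Run7.h782.WS Pool.Agent.Run7.h969.GS Pool.Agent.Run7 Pool.Agent.Run7.h308.WS
open Pool.Agent.Run7.h744.WS Pool.Agent.Run7.h969.WS Pool.Agent.Run7.h782.WQ
open Pool.Agent.Run7.h744.WQ Pool.Agent.Run7.h969.HP

/-- The choice of the truncations (`exists_mU` with a small factor). -/
theorem exists_mK {Q : ℕ → ℝ} {c : Cf} {r : ℕ → Mf} (h : DatQ Q c r) (I : ℕ) {θ : ℕ → ℝ}
    (hθ : ∀ j, 0 < θ j) (hθ1 : ∀ j, θ j ≤ 1) {κ : ℝ} (hκ : 0 < κ) :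
    ∃ m : ℕ → ℕ, Tendsto m atTop atTop ∧
      (∀ j i k, i ≤ j + I → k ≤ j + I → rp (Q i / 2 ^ k) (r (m (j + 1)) - r (m j)) ≤ θ j) ∧
      ((Summable fun k => ‖c k‖) → ∀ j, ∑' k, ‖dvr (r (m j)) k - c k‖ ≤ κ * (1 / 2) ^ j) := by
  have h1 : ∀ j i : ℕ, ∃ m₀, ∀ m m', m₀ ≤ m → m₀ ≤ m' →
      rp (Q i) (r m - r m') ≤ θ j ^ (2 ^ (j + I)) := fun j i =>
    h.cau i _ (pow_pos (hθ j) _)
  choose a ha using h1
  have h2 : ∃ b : ℕ → ℕ, (Summable fun k => ‖c k‖) → ∀ j, ∀ n, b j ≤ n →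
      ∑' k, ‖dvr (r n) k - c k‖ ≤ κ * (1 / 2) ^ j := by
    by_cases hs : Summable fun k => ‖c k‖
    · have h3 : ∀ j : ℕ, ∃ b, ∀ n, b ≤ n → ∑' k, ‖dvr (r n) k - c k‖ ≤ κ * (1 / 2) ^ j := fun j =>
        eventually_atTop.1 ((h.wie hs).eventually (ge_mem_nhds (by positivity)))
      choose b hb using h3
      exact ⟨b, fun _ => hb⟩
    · exact ⟨0, fun h => absurd h hs⟩
  obtain ⟨b, hb⟩ := h2
  set m : ℕ → ℕ := fun j => ∑ l ∈ Finset.range (j + 1),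
    (1 + b l + ∑ i ∈ Finset.range (l + I + 1), a l i) with hm
  have hmono : Monotone m := by
    refine monotone_nat_of_le_succ fun j => ?_
    rw [hm]
    simp only
    rw [Finset.sum_range_succ _ (j + 1)]
    omega
  have hterm : ∀ j, 1 + b j + ∑ i ∈ Finset.range (j + I + 1), a j i ≤ m j := by
    intro j
    exact Finset.single_le_sum
      (f := fun l => 1 + b l + ∑ i ∈ Finset.range (l + I + 1), a l i) (fun _ _ => Nat.zero_le _)
      (Finset.mem_range.2 (Nat.lt_succ_self j))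
  have hge : ∀ j, j ≤ m j := by
    intro j
    rw [hm]
    simp only
    calc j ≤ ∑ _l ∈ Finset.range (j + 1), 1 := by simp
      _ ≤ _ := Finset.sum_le_sum fun l _ => by omega
  refine ⟨m, tendsto_atTop_mono hge tendsto_id, fun j i k hi hk => ?_, fun hs j => ?_⟩
  · have hai : a j i ≤ m j := by
      have h3 : a j i ≤ ∑ i ∈ Finset.range (j + I + 1), a j i :=
        Finset.single_le_sum (f := fun i => a j i) (fun _ _ => Nat.zero_le _)
          (Finset.mem_range.2 (by omega))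
      have := hterm j
      omega
    have h4 := ha j i (m (j + 1)) (m j) (hai.trans (hmono (Nat.le_succ j))) hai
    have hr1 : R1 (r (m (j + 1)) - r (m j)) := by
      obtain ⟨Z, hZ⟩ := h.supp (m (j + 1))
      obtain ⟨Z', hZ'⟩ := h.supp (m j)
      exact r1sub (r1_of_supp hZ) (r1_of_supp hZ')
    have hQ : 0 < Q i := by linarith [h.one i]
    have h5 := stmQ0.2.2.1 (Q i / 2 ^ k) (Q i) _ (by positivity)
      (div_le_self hQ.le (one_le_pow₀ (by norm_num))) hr1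
    refine h5.trans ?_
    have e1 : Q i / 2 ^ k / Q i = 1 / 2 ^ k := by field_simp
    rw [e1]
    have ht := hθ j
    calc rp (Q i) (r (m (j + 1)) - r (m j)) ^ (1 / 2 ^ k : ℝ)
        ≤ (θ j ^ (2 ^ (j + I))) ^ (1 / 2 ^ k : ℝ) :=
          Real.rpow_le_rpow (rp_nonneg _ _) h4 (by positivity)
      _ = θ j ^ ((2 : ℝ) ^ (j + I) * (1 / 2 ^ k)) := by
          rw [← Real.rpow_natCast, ← Real.rpow_mul ht.le]
          push_cast
          rfl
      _ ≤ θ j ^ (1 : ℝ) := by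
          refine Real.rpow_le_rpow_of_exponent_ge ht (hθ1 j) ?_
          rw [mul_one_div, le_div_iff₀ (by positivity), one_mul]
          exact pow_le_pow_right₀ (by norm_num) hk
      _ = θ j := Real.rpow_one _
  · refine hb hs j (m j) ?_
    have := hterm j
    omega

theorem half_pw_le (n J : ℕ) : ((1 : ℝ) / 2) ^ (n + J) ≤ (1 / 2) ^ n :=
  pow_le_pow_of_le_one (by norm_num) (by norm_num) (Nat.le_add_right n J)

/-- Monotonicity of the additional conclusion of a step. -/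
theorem _root_.Pool.Agent.Run7.h969.WS.StpG.weaken {φ : ℝ → ℝ} (hφ : Gauge φ)
    {θ θ' η η' M M' : ℝ} {U : ℝ → Cf} {z : Cf} {ε : ℝ} {a : ℝ → Cf}
    (hfin : ∀ t, 0 < t → Sd (a t) (U t) ≠ ⊤)
    (h : StpG φ θ' η' M' U z ε a) (hθ : θ' ≤ θ) (hη : η' ≤ η) (hM : M ≤ M') :
    StpG φ θ η M U z ε a := by
  obtain ⟨⟨X, h1, h2, h3, ⟨E, h4, h5, h6⟩, h7⟩, h8⟩ := h
  refine ⟨⟨X, h1, h2, ?_, ⟨E, h4, h5.trans (ENNReal.ofReal_le_ofReal hθ), h6⟩,
    fun t ht => ?_⟩, ?_⟩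
  · refine le_trans (lintegral_mono_ae ?_) (h3.trans (ENNReal.ofReal_le_ofReal hη))
    filter_upwards [dss_ae (p := fun s => 0 < s) fun s hs => hs] with s hs
    exact Ph_mono hφ (mul_le_mul' (ENNReal.ofReal_le_ofReal hM) le_rfl)
      (ENNReal.mul_ne_top ENNReal.ofReal_ne_top
        (ne_top_of_le_ne_top ENNReal.ofReal_ne_top (h2 s hs)))
  · obtain ⟨E', h9, h10, h11⟩ := h7 t ht
    exact ⟨E', h9, h10.trans (ENNReal.ofReal_le_ofReal hθ), h11⟩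
  · refine le_trans (lintegral_mono_ae ?_) (h8.trans (ENNReal.ofReal_le_ofReal hη))
    filter_upwards [mu1_ae (p := fun s => 0 < s) fun s hs => hs.1] with s hs
    exact Ph_mono hφ (mul_le_mul' (ENNReal.ofReal_le_ofReal hM) le_rfl)
      (ENNReal.mul_ne_top ENNReal.ofReal_ne_top (ENNReal.mul_ne_top ENNReal.ofReal_ne_top
        (hfin s hs)))

/-- The sequence with the offset `J`. -/
structure SQJ (J : ℕ) (I : ℕ) (η : ℝ) (ff : ℝ → Cf) (C : ℝ → ℝ) (ν δ : ℝ) (U : ℝ → Cf)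
    (Q : ℕ → ℝ) (c : Cf) (r : ℕ → Mf) (φ Φ : ℝ → ℝ) (m : ℕ → ℕ) (A : ℕ → ℝ → Cf) (ε H : ℕ → ℝ) :
    Prop extends SQU I η ff C ν δ U Q c r φ Φ m A ε H where
  sgj : ∀ n, StpG φ ((1 / 2) ^ (n + J)) ((1 / 2) ^ (n + J)) (12 * 2 ^ (n + J)) (A n)
    (dvr (r (m n))) (ε n) (A (n + 1))
  e1j : ∀ n, ε n ≤ (1 / 2) ^ (n + J)
  wiej : (Summable fun k => ‖c k‖) → ∀ n, ∑' k, ‖dvr (r (m n)) k - c k‖ ≤ (1 / 2) ^ (n + J)

theorem exists_sqJ (hStep : StmStepF) : ∃ C : ℝ → ℝ, (∀ p, 0 < C p) ∧ ∀ ff : ℝ → Cf, Frc ff →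
    ∀ (ν : ℝ), 0 < ν → ∀ (I J : ℕ) (η : ℝ), 0 < η → η ≤ (1 / 2) ^ J →
    ∀ U : ℝ → Cf, TgF ff ν U → ∀ (Q : ℕ → ℝ) (c : Cf) (r : ℕ → Mf), DatQ Q c r →
    ∀ φ : ℝ → ℝ, Gauge φ → ∀ Φ : ℝ → ℝ, Orl Φ → ∀ δ : ℝ, 0 < δ →
    ∃ (m : ℕ → ℕ) (A : ℕ → ℝ → Cf) (ε H : ℕ → ℝ), SQJ J I η ff C ν δ U Q c r φ Φ m A ε H := by
  obtain ⟨C, hC, Hs⟩ := stpq_of_stepF hStep
  refine ⟨C, hC, fun ff hff ν hν I J η hη hηJ U hU Q c r hdat φ hφ Φ hΦ δ hδ => ?_⟩
  have hη1 : η ≤ 1 := hηJ.trans (pow_le_one₀ (by norm_num) (by norm_num))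
  have hκ : (0 : ℝ) < (1 / 2) ^ J := by positivity
  have hθp : ∀ n, 0 < η * th Q (n + I) := fun n => mul_pos hη (th_pos _ _)
  have hθle : ∀ n, η * th Q (n + I) ≤ th Q n := fun n =>
    (mul_le_of_le_one_left (th_pos _ _).le hη1).trans (th_mono Q (Nat.le_add_right n I))
  obtain ⟨m, hm1, hm2, hm3⟩ := exists_mK hdat I hθp (fun n => (hθle n).trans (th_le1 Q n)) hκ
  obtain ⟨f, hf0, hP, hR⟩ := exists_rec (X := (ℝ → Cf) × ℝ)
    (fun x => TgF ff ν x.1 ∧ 0 < x.2)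
    (fun n x y => ∃ H' : ℝ, 0 ≤ H' ∧ StpQF ff C ν ((1 / 4) ^ n) (η * th Q (n + I)) H'
      (Ex Q (n + I)) x.1 (dvr (r (m n))) (sts r m n (x.1 0)) y.2 y.1 ∧
      StpG φ ((1 / 2) ^ (n + J)) ((1 / 2) ^ (n + J)) (12 * 2 ^ (n + J)) x.1 (dvr (r (m n))) y.2
        y.1 ∧
      y.2 ≤ x.2 ∧ y.2 ≤ (1 / 2) ^ (n + J) ∧ y.2 ≤ δ * (1 / 2) ^ (n + 1) ∧
      ∫⁻ t in Ioc (0 : ℝ) 1, Ph Φ (2 ^ (n + 1) * Sd (y.1 t) (x.1 t)) ≤ ENNReal.ofReal δ)
    (U, 1) ⟨hU, one_pos⟩ (by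
      rintro n ⟨a, e⟩ ⟨ha, he⟩
      obtain ⟨Z, hZ⟩ := hdat.supp (m n)
      have hl : L1 (a 0) := Maj.l1 ha.maj le_rfl
      obtain ⟨H', hH0, hH'⟩ := Hs ff hff ν hν ((1 / 4) ^ n) (by positivity)
        (pow_le_one₀ (by norm_num) (by norm_num)) (Ex Q (n + I)) (ex_pos hdat.one (n + I)) a ha
        (Z.erase 0) (dvr (r (m n))) (Finset.notMem_erase _ _) (dvr_supp hZ)
        (herm_dvr (hdat.sy _)) (dv_dvr _) (sts r m n (a 0))
        (sts_sy hdat m n (ha.herm 0 le_rfl)) (sts_r1 hdat m n hl)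
        (sts_dvr r m n (ha.div 0 le_rfl) (ha.zero 0 le_rfl)) (η * th Q (n + I)) (hθp n)
      have e1 : ∀ᶠ ε in 𝓝[>] (0 : ℝ), 0 < ε := self_mem_nhdsWithin
      have e2 : ∀ κ : ℝ, 0 < κ → ∀ᶠ ε in 𝓝[>] (0 : ℝ), ε ≤ κ := fun κ hκ =>
        nhdsWithin_le_nhds (ge_mem_nhds hκ)
      have e3 : η * th Q (n + I) ≤ (1 / 2) ^ (n + J) := by
        have h3 : η * th Q (n + I) ≤ (1 / 2) ^ J * (1 / 2) ^ n :=
          mul_le_mul hηJ ((th_mono Q (Nat.le_add_right n I)).trans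
            ((th_le Q n).trans (pow_le_pow_left₀ (by norm_num) (by norm_num) n)))
            (th_pos _ _).le hκ.le
        rwa [← pow_add, Nat.add_comm J n] at h3
      obtain ⟨ε, h1, h2, h3, h4, h5, b, hb, hb'⟩ := (e1.and ((e2 e he).and ((e2 ((1 / 2) ^ (n + J))
        (by positivity)).and ((e2 (δ * (1 / 2) ^ (n + 1)) (by positivity)).and
          ((stageO hΦ (M := 2 ^ (n + 1)) (by positivity) hδ hH0).and
          (hH' φ hφ (12 * 2 ^ (n + J)) ((1 / 2) ^ (n + J)) ((1 / 2) ^ (n + J)) (by positivity)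
            (by positivity) e3)))))).exists
      refine ⟨(b, ε), ⟨hb.tg, h1⟩, H', hH0, hb, hb', h2, h3, h4, ?_⟩
      have h6 := h5 (fun t => Sd (b t) (a t)) (fun t ht => hb.pt t ht.1) hb.int
      rw [← two_pow_coe] at h6
      exact h6)
  choose H' hH0 hst hsg h1 h2 h3 h4 using hR
  have hwj : (Summable fun k => ‖c k‖) → ∀ n, ∑' k, ‖dvr (r (m n)) k - c k‖ ≤ (1 / 2) ^ (n + J) :=
    fun hs n => by
      have := hm3 hs n
      rwa [← pow_add, Nat.add_comm J n] at this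
  have hfin : ∀ n t, 0 < t → Sd ((f (n + 1)).1 t) ((f n).1 t) ≠ ⊤ := fun n t ht =>
    ne_top_of_le_ne_top ENNReal.ofReal_ne_top ((hst n).pt t ht)
  exact ⟨m, fun n => (f n).1, fun n => (f (n + 1)).2, H',
    { dat := hdat
      init := by simp [hf0]
      tgt := fun n => (hP n).1
      top := hm1
      dif := fun j i k hi hk => (hm2 j i k (by omega) (by omega)).trans (hθle j)
      wie := fun hs j => (hwj hs j).trans (half_pw_le j J)
      st := fun n => (hst n).weaken hC (ex_mono Q (Nat.le_add_right n I)) (hθle n)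
      sg := fun n => (hsg n).weaken hφ (hfin n) (half_pw_le n J) (half_pw_le n J)
        (mul_le_mul_of_nonneg_left (pow_le_pow_right₀ (by norm_num) (Nat.le_add_right n J))
          (by norm_num))
      e0 := fun n => (hP (n + 1)).2
      e1 := fun n => (h2 n).trans (half_pw_le n J)
      e2 := h3
      ea := antitone_nat_of_succ_le fun n => h1 (n + 1)
      H0 := hH0
      orl := h4
      st' := hst
      dif' := hm2
      sgj := hsg
      e1j := h2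
      wiej := hwj }⟩

end Pool.Agent.Run7.h782.HP
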