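import Pool.Agent.Run7.h782.HP.CoreL
import Pool.Agent.Run7.h744.WQ.LimS
import Pool.Agent.Run7.h779.WQ.D1

/-!
Piece LocU of the project HP: shifted stresses, the data of the iteration.
-/

set_option autoImplicit false

open MeasureTheory Set Filter Topology
open scoped ContDiff ENNReal ComplexConjugate

namespace Pool.Agent.Run7.h782.HP

open H459R3.NS Pool.Agent.Run7 Pool.Agent.Run7.h782.GD Pool.Agent.Run7.h782.GS
open Pool.Agent.Run7.h782.WS Pool.Agent.Run7.h744.GS Pool.Agent.Run7.h744.WS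
open Pool.Agent.Run7.h969.WS Pool.Agent.Run7.h811.WS Pool.Agent.Run7.h782.WQ Pool.Agent.Run7.h811.WQ
open Pool.Agent.Run7.h969.HP Pool.Agent.Run7.h811.HP
open Pool.Agent.Run7.h779.WQ (bx trc tail_tendsto d1_sum bx_tendsto dvr_zero)

/-- The shifted matrix field. -/
noncomputable def shM (a : V) (r : Mf) : Mf := fun i j k => ee k a * r i j k

theorem shM_sy {a : V} {r : Mf} (h : Sy r) : Sy (shM a r) where
  sym := fun i j k => by unfold shM; rw [h.sym i j k]
  herm := fun i j k => by unfold shM; rw [h.herm i j k, ee_neg, map_mul]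

theorem shM_supp {a : V} {r : Mf} {Z : Finset K3} (h : ∀ i j, ∀ k ∉ Z, r i j k = 0) :
    ∀ i j, ∀ k ∉ Z, shM a r i j k = 0 := fun i j k hk => by
  unfold shM
  rw [h i j k hk, mul_zero]

theorem R1_supp {r : Mf} {Z : Finset K3} (h : ∀ i j, ∀ k ∉ Z, r i j k = 0) : R1 r := fun i j =>
  summable_of_ne_finset_zero (s := Z) fun k hk => by rw [h i j k hk, norm_zero]

theorem S_shM (a : V) (r : Mf) (i j : Fin 3) (x : V) : S (shM a r i j) x = S (r i j) (x + a) := by
  unfold S shM
  refine tsum_congr fun k => ?_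
  rw [ee_add]
  ring

theorem rp_shM (a : V) (r : Mf) (p : ℝ) : rp p (shM a r) = rp p r := by
  unfold rp
  have hper : Per fun x => rn r x ^ p := fun j x => by
    show rn r (x + Pi.single j 1) ^ p = rn r x ^ p
    unfold rn
    have e : ∀ i' j', S (r i' j') (x + Pi.single j 1) = S (r i' j') x := fun i' j' =>
      h32.GD.per_S (r i' j') j x
    simp_rw [e]
  rw [← int_shiftE hper a]
  refine integral_congr_ae (Eventually.of_forall fun x => ?_)
  show rn (shM a r) x ^ p = rn r (x + a) ^ p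
  unfold rn
  simp_rw [S_shM]

theorem dvr_shM (a : V) (r : Mf) (k : K3) : dvr (shM a r) k = ee k a • dvr r k := by
  unfold dvr
  have e : (fun i => ∑ j, (k j : ℂ) * shM a r i j k)
      = ee k a • fun i => ∑ j, (k j : ℂ) * r i j k := by
    funext i
    rw [Pi.smul_apply, smul_eq_mul, Finset.mul_sum]
    refine Finset.sum_congr rfl fun j _ => ?_
    unfold shM
    ring
  rw [e, prj_smul', smul_comm]

theorem dvr_supp {r : Mf} {Z : Finset K3} (h : ∀ i j, ∀ k ∉ Z, r i j k = 0) {k : K3} (hk : k ∉ Z) :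
    dvr r k = 0 := by
  unfold dvr
  have e : (fun i => ∑ j, (k j : ℂ) * r i j k) = 0 := by
    funext i
    refine Finset.sum_eq_zero fun j _ => ?_
    rw [h i j k hk, mul_zero]
  rw [e]
  have h1 : prj k 0 = 0 := by
    funext i
    simp [prj, kd]
  rw [h1, smul_zero]

theorem sum_dvr {r : Mf} {Z : Finset K3} (h : ∀ i j, ∀ k ∉ Z, r i j k = 0) :
    Summable fun k => ‖dvr r k‖ :=
  summable_of_ne_finset_zero (s := Z) fun k hk => by rw [dvr_supp h hk, norm_zero]

theorem sum_sub' {a b : Cf} (ha : Summable fun k => ‖a k‖) (hb : Summable fun k => ‖b k‖) :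
    Summable fun k => ‖(a - b) k‖ :=
  Summable.of_nonneg_of_le (fun _ => norm_nonneg _) (fun k => norm_sub_le (a k) (b k)) (ha.add hb)

/-- The data of the iteration. -/
theorem datU {Q : ℕ → ℝ} (hQ : ∀ n, 1 ≤ Q n) {c : Cf} {r : Mf} {Z : Finset K3}
    (hZ : ∀ i j, ∀ k ∉ Z, r i j k = 0) (hr : Sy r) (hc : Herm c) (hv : Dv c) (h0 : c 0 = 0)
    (hs : Summable fun k => ‖c k‖) (N : ℕ) :
    DatQ Q c (fun m => r + anti (trc (c - dvr r) (m + N))) := by
  have hh : Herm (c - dvr r) := fun k i => by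
    rw [Pi.sub_apply, Pi.sub_apply, Pi.sub_apply, Pi.sub_apply, hc k i,
      h744.WQ.herm_dvr hr k i, map_sub]
  have hd : Dv (c - dvr r) := fun k => by
    have h1 := hv k
    have h2 := h744.WQ.dv_dvr r k
    unfold kd at h1 h2 ⊢
    simp only [Pi.sub_apply, mul_sub, Finset.sum_sub_distrib]
    rw [h1, h2, sub_zero]
  have hz : (c - dvr r) 0 = 0 := by rw [Pi.sub_apply, h0, dvr_zero, sub_zero]
  have D := d1_sum (c - dvr r) Q hh hd hz hQ (sum_sub' hs (sum_dvr hZ))
  have hadd : ∀ m k, dvr (r + anti (trc (c - dvr r) (m + N))) k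
      = dvr r k + dvr (anti (trc (c - dvr r) (m + N))) k := fun m k => by
    rw [h744.WQ.dvr_add, Pi.add_apply]
  refine ⟨hQ, fun m => ?_, fun m => ?_, fun k => ?_, fun n ε hε => ?_, fun _ => ?_⟩
  · obtain ⟨Z', hZ'⟩ := D.supp (m + N)
    refine ⟨Z ∪ Z', fun i j k hk => ?_⟩
    rw [Finset.mem_union, not_or] at hk
    show r i j k + anti (trc (c - dvr r) (m + N)) i j k = 0
    rw [hZ i j k hk.1, zero_add]
    exact hZ' i j k hk.2
  · have h1 := D.sy (m + N)
    refine ⟨fun i j k => ?_, fun i j k => ?_⟩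
    · show r i j k + anti (trc (c - dvr r) (m + N)) i j k
        = r j i k + anti (trc (c - dvr r) (m + N)) j i k
      rw [hr.sym i j k, h1.sym i j k]
    · show r i j (-k) + anti (trc (c - dvr r) (m + N)) i j (-k)
        = conj (r i j k + anti (trc (c - dvr r) (m + N)) i j k)
      rw [hr.herm i j k, h1.herm i j k, map_add]
  · have h1 := ((D.lim k).comp (tendsto_add_atTop_nat N)).const_add (dvr r k)
    have e : dvr r k + (c - dvr r) k = c k := by
      rw [Pi.sub_apply]
      abel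
    rw [e] at h1
    exact h1.congr fun m => (hadd m k).symm
  · obtain ⟨m₀, hm₀⟩ := D.cau n ε hε
    refine ⟨m₀, fun m m' hm hm' => ?_⟩
    have h1 := hm₀ (m + N) (m' + N) (by omega) (by omega)
    have e : (r + anti (trc (c - dvr r) (m + N))) - (r + anti (trc (c - dvr r) (m' + N)))
        = anti (trc (c - dvr r) (m + N)) - anti (trc (c - dvr r) (m' + N)) := by abel
    show rp (Q n) ((r + anti (trc (c - dvr r) (m + N))) - (r + anti (trc (c - dvr r) (m' + N)))) ≤ ε
    rw [e]
    exact h1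
  · have h1 := (D.wie (sum_sub' hs (sum_dvr hZ))).comp (tendsto_add_atTop_nat N)
    refine h1.congr fun m => ?_
    refine tsum_congr fun k => ?_
    show ‖dvr (anti (trc (c - dvr r) (m + N))) k - (c - dvr r) k‖ = _
    rw [hadd, Pi.sub_apply]
    congr 1
    abel

/-- The norm of a sum of a small stress and an antidivergence. -/
theorem rp_le_U {p : ℝ} (hp : 1 ≤ p) {r : Mf} (hr : R1 r) {e : Cf}
    (he : Summable fun k => ‖e k‖) {η : ℝ} (hη : 54 * η ≤ 1) (h1 : rp p r ≤ η)
    (h2 : ∑' k, ‖e k‖ ≤ 3 * η) : rp p (r + anti e) ≤ 2 ^ p * (55 * η) := by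
  obtain ⟨q1, q2, -, -, -, -, -, -, q9, -, -⟩ := h744.WQ.stmQ0
  have hp0 : 0 < p := by linarith
  have hlen : ∀ k, ‖e k‖ / GD.len k ≤ ‖e k‖ := by
    intro k
    by_cases hk : k = 0
    · subst hk
      rw [GD.len_zero, div_zero]
      exact norm_nonneg _
    · exact div_le_self (norm_nonneg _) (GD.one_le_len hk)
  have hsl : Summable fun k => ‖e k‖ / GD.len k :=
    Summable.of_nonneg_of_le (fun k => div_nonneg (norm_nonneg _) (GD.len_nonneg k)) hlen he
  obtain ⟨g1, g2⟩ := q9 e hsl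
  have h3 : rN (anti e) ≤ 54 * η := by
    have := hsl.tsum_le_tsum hlen he
    linarith
  have h4 : rp p (anti e) ≤ 54 * η := by
    refine (q2 p _ hp0 g1).trans ?_
    have h5 := h744.WQ.rN_nonneg (anti e)
    rcases eq_or_lt_of_le h5 with h6 | h6
    · rw [← h6, Real.zero_rpow hp0.ne']
      linarith
    · calc rN (anti e) ^ p ≤ rN (anti e) ^ (1 : ℝ) :=
            Real.rpow_le_rpow_of_exponent_ge h6 (by linarith) hp
        _ ≤ 54 * η := by rw [Real.rpow_one]; exact h3
  refine (q1 p r (anti e) hp0 hr g1).trans ?_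
  refine mul_le_mul_of_nonneg_left ?_ (Real.rpow_nonneg (by norm_num) _)
  linarith

end Pool.Agent.Run7.h782.HP
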