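import Pool.Agent.Run7.h782.GD.T1

/-!
Global solutions of the forced equation near approximate solutions.
-/

set_option autoImplicit false

open MeasureTheory Set Filter Topology
open scoped ContDiff ComplexConjugate NNReal

namespace Pool.Agent.Run7.h782.GD

open H459R3.NS

/-- Approximate solutions `v` of the equation with the force `f`, with finitely many modes and
residual `F`. -/
structure FApp (ν : ℝ) (B : Finset K3) (f v F : ℝ → Cf) : Prop where
  zero : (0 : K3) ∉ B
  suppv : ∀ t, ∀ k ∉ B, v t k = 0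
  suppF : ∀ t, ∀ k ∉ B, F t k = 0
  suppf : ∀ t, ∀ k ∉ B, f t k = 0
  contF : ∀ k, ContinuousOn (fun t => F t k) (Ici 0)
  contf : ∀ k, Continuous fun t => f t k
  hermv : ∀ t, 0 ≤ t → Herm (v t)
  hermF : ∀ t, 0 ≤ t → Herm (F t)
  hermf : ∀ t, 0 ≤ t → Herm (f t)
  divv : ∀ t, 0 ≤ t → Dv (v t)
  divF : ∀ t, 0 ≤ t → Dv (F t)
  divf : ∀ t, 0 ≤ t → Dv (f t)
  der : ∀ t, 0 ≤ t → ∀ k, HasDerivWithinAt (fun s => v s k)
    (-(lam ν k : ℂ) • v t k - nl (v t) (v t) k + f t k + F t k) (Ici 0) t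

/-- Global solutions of the equation with the force `f`. -/
structure FSo (ν : ℝ) (f a : ℝ → Cf) : Prop where
  dec : ∃ μ > 0, ∃ C : ℝ, ∀ t, 0 ≤ t → ∀ k, ‖a t k‖ ≤ C * Real.exp (-(μ * len k))
  zero : ∀ t, 0 ≤ t → a t 0 = 0
  herm : ∀ t, 0 ≤ t → Herm (a t)
  div : ∀ t, 0 ≤ t → Dv (a t)
  der : ∀ t, 0 ≤ t → ∀ k, HasDerivWithinAt (fun s => a s k)
    (-(lam ν k : ℂ) • a t k - nl (a t) (a t) k + f t k) (Ici 0) t

variable {ν : ℝ} {B : Finset K3} {f v F : ℝ → Cf}

theorem FApp.toAppr (A : FApp ν B f v F) : Appr ν B v (fun t => f t + F t) where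
  zero := A.zero
  suppv := A.suppv
  suppF t k hk := by rw [Pi.add_apply, A.suppf t k hk, A.suppF t k hk, add_zero]
  contF k := (A.contf k).continuousOn.add (A.contF k)
  hermv := A.hermv
  hermF t ht := (A.hermf t ht).add (A.hermF t ht)
  divv := A.divv
  divF t ht := (A.divf t ht).add (A.divF t ht)
  der t ht k := by
    have h := A.der t ht k
    rw [add_assoc] at h
    exact h

/-- **T1 with a force.** -/
theorem t1F : ∃ C₁ : ℝ, 0 < C₁ ∧ ∀ (ν : ℝ), 0 < ν → ∀ (B : Finset K3) (f v F : ℝ → Cf)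
  (g : ℝ → ℝ) (K η T₁ : ℝ), FApp ν B f v F → (∀ t, T₁ ≤ t → f t = 0) → Continuous g →
  (∀ t, 0 ≤ t → ∑ k ∈ B, ‖F t k‖ / len k ≤ g t) →
  (∀ T, 0 ≤ T → ∫ t in (0 : ℝ)..T, g t ≤ η) →
  (∀ T, 0 ≤ T → ∫ t in (0 : ℝ)..T, (∑ k ∈ B, ‖v t k‖) ^ 2 ≤ K) →
  C₁ * η * Real.exp (C₁ * K / ν) ≤ ν →
  ∃ a : ℝ → Cf, FSo ν f a ∧ a 0 = v 0 ∧
    (∀ t, 0 ≤ t → ∀ A : Finset K3,
      ∑ k ∈ A, ‖a t k - v t k‖ / len k ≤ C₁ * η * Real.exp (C₁ * K / ν)) ∧
    ∀ T, 0 ≤ T → ∀ A : Finset K3, ∫ t in (0 : ℝ)..T, ∑ k ∈ A, len k * ‖a t k - v t k‖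
      ≤ C₁ * η * Real.exp (C₁ * K / ν) / ν := by
  refine ⟨2304, by norm_num, ?_⟩
  intro ν hν B f v F g K η T₁ A hf1 hg hFg hgη hvK hsm
  have hpi := Real.pi_pos
  have hη : 0 ≤ η := by simpa using hgη 0 le_rfl
  have hK : 0 ≤ K := by simpa using hvK 0 le_rfl
  -- the weight
  set Λ : ℝ := ∑ k ∈ B, len k with hΛ
  have hΛ0 : 0 ≤ Λ := Finset.sum_nonneg fun k _ => len_nonneg k
  have hΛk : ∀ k ∈ B, len k ≤ Λ := fun k hk =>
    Finset.single_le_sum (f := fun k => len k) (fun k _ => len_nonneg k) hk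
  set μ : ℝ := Real.log 2 / (1 + Λ) with hμdef
  have hlog : 0 < Real.log 2 := Real.log_pos (by norm_num)
  have hμ : 0 < μ := by positivity
  have hw : ∀ k ∈ B, Real.exp (μ * len k) ≤ 2 := by
    intro k hk
    have h1 : μ * len k ≤ Real.log 2 := by
      rw [hμdef, div_mul_eq_mul_div, div_le_iff₀ (by positivity)]
      exact mul_le_mul_of_nonneg_left ((hΛk k hk).trans (by linarith)) hlog.le
    calc Real.exp (μ * len k) ≤ Real.exp (Real.log 2) := Real.exp_le_exp.mpr h1
      _ = 2 := Real.exp_log (by norm_num)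
  have hcv : ∀ k, ContinuousOn (fun t => v t k) (Ici 0) := A.toAppr.contv
  have hexp : 576 * (4 * K) / ν = 2304 * K / ν := by ring
  set X : ℝ := Real.exp (2304 * K / ν) with hX
  have hX0 : 0 < X := Real.exp_pos _
  have hηX : 2304 * η * X ≤ ν := hsm
  set ε : ℝ := 2 * η * X with hε
  have hε0 : 0 ≤ ε := by positivity
  have hgal : ∀ n : ℕ, ∃ e : ℝ → Cf, (∀ t, ∀ k ∉ Bx B n, e t k = 0) ∧ e 0 = 0 ∧
      (∀ t, Herm (e t)) ∧ (∀ t, Dv (e t)) ∧ (∀ k, Continuous fun t => e t k) ∧
      (∀ t ∈ Icc (0 : ℝ) n, nm μ (Bx B n) (e t)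
        + 2 * Real.pi ^ 2 * ν * ∫ s in (0 : ℝ)..t, n1 μ (Bx B n) (e s) ≤ ε) ∧
      ∀ t ∈ Icc (0 : ℝ) n, ∀ k ∈ Bx B n, HasDerivAt (fun s => e s k)
        (gf ν (v t) (F t) (e t) k) t := by
    intro n
    have hsub := Bx_sub A.zero n
    have h := galerkin (B := Bx B n) (v := v) (F := F) (g := fun t => 2 * g t) (η := 2 * η)
      (K := 4 * K) (T := n) hν hμ.le (Nat.cast_nonneg n) (Bx_zero B n) (Bx_neg B n)
      (fun t k hk => A.suppv t k fun h => hk (hsub h)) hcv A.contF A.hermv A.hermF A.divF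
      (continuous_const.mul hg) ?_ ?_ ?_ ?_
    · obtain ⟨e, h1, h2, h3, h4, h5, h6, h7⟩ := h
      refine ⟨e, h1, h2, h3, h4, h5, fun t ht => ?_, h7⟩
      have := h6 t ht
      rwa [hexp] at this
    · intro t ht
      have e1 : nm μ (Bx B n) (F t) = ∑ k ∈ B, Real.exp (μ * len k) * ‖F t k‖ / len k := by
        rw [nm]
        exact (Finset.sum_subset hsub fun k _ hk => by
          rw [A.suppF t k hk, norm_zero, mul_zero, zero_div]).symm
      rw [e1]
      refine le_trans (Finset.sum_le_sum fun k hk => ?_)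
        (le_trans (le_of_eq (Finset.mul_sum _ _ _).symm) (mul_le_mul_of_nonneg_left (hFg t ht)
          (by norm_num : (0 : ℝ) ≤ 2)))
      rw [mul_div_assoc]
      exact mul_le_mul_of_nonneg_right (hw k hk) (div_nonneg (norm_nonneg _) (len_nonneg k))
    · intro t ht
      rw [intervalIntegral.integral_const_mul]
      exact mul_le_mul_of_nonneg_left (hgη t ht) (by norm_num)
    · intro t ht
      have hc1 : ContinuousOn (fun s => n0 μ (Bx B n) (v s) ^ 2) (uIcc 0 t) := by
        rw [uIcc_of_le ht]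
        exact (continuousOn_finsetSum _ fun k _ =>
          continuousOn_const.mul ((hcv k).mono Icc_subset_Ici_self).norm).pow 2
      have hc2 : ContinuousOn (fun s => 4 * (∑ k ∈ B, ‖v s k‖) ^ 2) (uIcc 0 t) := by
        rw [uIcc_of_le ht]
        exact continuousOn_const.mul ((continuousOn_finsetSum _ fun k _ =>
          ((hcv k).mono Icc_subset_Ici_self).norm).pow 2)
      have h1 : ∫ s in (0 : ℝ)..t, n0 μ (Bx B n) (v s) ^ 2
          ≤ ∫ s in (0 : ℝ)..t, 4 * (∑ k ∈ B, ‖v s k‖) ^ 2 := by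
        refine intervalIntegral.integral_mono_on ht hc1.intervalIntegrable
          hc2.intervalIntegrable fun s hs => ?_
        have e1 : n0 μ (Bx B n) (v s) = ∑ k ∈ B, Real.exp (μ * len k) * ‖v s k‖ := by
          rw [n0]
          exact (Finset.sum_subset hsub fun k _ hk => by
            rw [A.suppv s k hk, norm_zero, mul_zero]).symm
        have e2 : n0 μ (Bx B n) (v s) ≤ 2 * ∑ k ∈ B, ‖v s k‖ := by
          rw [e1, Finset.mul_sum]
          exact Finset.sum_le_sum fun k hk => mul_le_mul_of_nonneg_right (hw k hk) (norm_nonneg _)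
        calc n0 μ (Bx B n) (v s) ^ 2 ≤ (2 * ∑ k ∈ B, ‖v s k‖) ^ 2 :=
              pow_le_pow_left₀ n0_nonneg e2 2
          _ = _ := by ring
      refine h1.trans ?_
      rw [intervalIntegral.integral_const_mul]
      exact mul_le_mul_of_nonneg_left (hvK t ht) (by norm_num)
    · rw [hexp]
      have h1 : 2 * η * Real.exp (2304 * K / ν) = 2 * (η * X) := by rw [hX]; ring
      have h2 : 3 ≤ Real.pi := Real.pi_gt_three.le
      rw [h1, le_div_iff₀ (by norm_num)]
      nlinarith [mul_nonneg hη hX0.le]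
  choose e he1 he2 he3 he4 he5 he6 he7 using hgal
  have hI0 : ∀ (n : ℕ) (t : ℝ), 0 ≤ t → 0 ≤ ∫ s in (0 : ℝ)..t, n1 μ (Bx B n) (e n s) :=
    fun n t ht => intervalIntegral.integral_nonneg ht fun _ _ => n1_nonneg
  have G : GalF ν μ ε B (Bx B) v F e :=
    { zero := Bx_zero B
      sub := Bx_sub A.zero
      ex := Bx_ex B
      supp := he1
      init := he2
      herm := he3
      dv := he4
      cont := he5
      bd := fun n t ht => by
        have h1 := he6 n t ht
        have h2 := mul_nonneg (by positivity : (0 : ℝ) ≤ 2 * Real.pi ^ 2 * ν) (hI0 n t ht.1)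
        linarith
      bdi := fun n t ht => by
        have h1 := he6 n t ht
        have h2 : 0 ≤ nm μ (Bx B n) (e n t) := nm_nonneg
        linarith
      der := he7 }
  obtain ⟨E, hE⟩ := G.exists_lim hε0
  have D : LimD ν μ ε B (Bx B) v F e E :=
    { hν := hν, hμ := hμ, hε := hε0, vs := A.suppv, vc := hcv, Fc := A.contF, G := G, lim := hE }
  have hF0 : ∀ t, 0 ≤ t → F t 0 = 0 := fun t _ => A.suppF t 0 A.zero
  have hfc : Continuous fun t => ∑ k ∈ B, ‖f t k‖ / len k :=
    continuous_finsetSum _ fun k _ => (A.contf k).norm.div_const _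
  have hf0 : ∀ t, 0 ≤ ∑ k ∈ B, ‖f t k‖ / len k := fun t =>
    Finset.sum_nonneg fun k _ => div_nonneg (norm_nonneg _) (len_nonneg k)
  obtain ⟨η₁, hη₁⟩ : ∃ η₁ : ℝ, ∀ T, 0 ≤ T → ∫ t in (0 : ℝ)..T, ∑ k ∈ B, ‖f t k‖ / len k ≤ η₁ := by
    refine ⟨∫ t in (0 : ℝ)..max T₁ 0, ∑ k ∈ B, ‖f t k‖ / len k, fun T hT => ?_⟩
    rcases le_total T (max T₁ 0) with h | h
    · exact intervalIntegral.integral_mono_interval le_rfl hT h
        (Eventually.of_forall fun t => hf0 t) (hfc.intervalIntegrable _ _)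
    · rw [← intervalIntegral.integral_add_adjacent_intervals (b := max T₁ 0)
        (hfc.intervalIntegrable _ _) (hfc.intervalIntegrable _ _)]
      have h1 : ∫ t in (max T₁ 0)..T, ∑ k ∈ B, ‖f t k‖ / len k = 0 := by
        rw [intervalIntegral.integral_of_le h]
        refine setIntegral_eq_zero_of_forall_eq_zero fun t ht => ?_
        have h2 : f t = 0 := hf1 t ((le_max_left _ _).trans ht.1.le)
        rw [h2]
        simp
      rw [h1, add_zero]
  obtain ⟨Dv', hDv0, hDv⟩ := A.toAppr.bound hν (g := fun t => ∑ k ∈ B, ‖f t k‖ / len k + g t)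
    (η := η₁ + η) (hfc.add hg) (fun t ht => by
      refine le_trans ?_ (add_le_add le_rfl (hFg t ht))
      rw [← Finset.sum_add_distrib]
      refine Finset.sum_le_sum fun k _ => ?_
      rw [← add_div]
      exact div_le_div_of_nonneg_right (norm_add_le _ _) (len_nonneg k))
    (fun T hT => by
      rw [intervalIntegral.integral_add (hfc.intervalIntegrable _ _) (hg.intervalIntegrable _ _)]
      exact add_le_add (hη₁ T hT) (hgη T hT)) hvK
  have hεle : ε ≤ 2304 * η * X := by rw [hε]; nlinarith [mul_nonneg hη hX0.le]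
  refine ⟨fun t => v t + E t, ?_, ?_, ?_, ?_⟩
  · refine
      { dec := ?_
        zero := ?_
        herm := ?_
        div := ?_
        der := ?_ }
    · refine ⟨μ / 2, by positivity, ε * (2 / μ) + Dv' * Real.exp (μ / 2 * Λ), fun t ht k => ?_⟩
      have h1 : ‖E t k‖ ≤ ε * (2 / μ) * Real.exp (-(μ / 2 * len k)) := by
        refine (D.le_bk ht k).trans ?_
        rw [bk, mul_assoc ε]
        refine mul_le_mul_of_nonneg_left ?_ hε0
        have h2 : μ / 2 * len k ≤ Real.exp (μ / 2 * len k) := by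
          have := Real.add_one_le_exp (μ / 2 * len k)
          linarith
        have h3 : len k ≤ 2 / μ * Real.exp (μ / 2 * len k) := by
          rw [div_mul_eq_mul_div, le_div_iff₀ hμ]
          linarith
        calc len k * Real.exp (-(μ * len k))
            ≤ 2 / μ * Real.exp (μ / 2 * len k) * Real.exp (-(μ * len k)) :=
              mul_le_mul_of_nonneg_right h3 (Real.exp_pos _).le
          _ = 2 / μ * Real.exp (-(μ / 2 * len k)) := by
              rw [mul_assoc, ← Real.exp_add]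
              congr 2
              ring
      have h2 : ‖v t k‖ ≤ Dv' * Real.exp (μ / 2 * Λ) * Real.exp (-(μ / 2 * len k)) := by
        by_cases hk : k ∈ B
        · rw [mul_assoc, ← Real.exp_add]
          have h3 : (1 : ℝ) ≤ Real.exp (μ / 2 * Λ + -(μ / 2 * len k)) := by
            refine Real.one_le_exp ?_
            have := mul_le_mul_of_nonneg_left (hΛk k hk) (by positivity : 0 ≤ μ / 2)
            linarith
          calc ‖v t k‖ ≤ Dv' * 1 := by rw [mul_one]; exact hDv t ht k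
            _ ≤ _ := mul_le_mul_of_nonneg_left h3 hDv0
        · rw [A.suppv t k hk, norm_zero]
          positivity
      calc ‖(v t + E t) k‖ ≤ ‖v t k‖ + ‖E t k‖ := norm_add_le _ _
        _ ≤ _ := by linarith
    · intro t ht
      rw [Pi.add_apply, A.suppv t 0 A.zero, D.zero_mode ht, add_zero]
    · exact fun t ht => (A.hermv t ht).add (D.herm ht)
    · exact fun t ht => (A.divv t ht).add (D.dv ht)
    · intro t ht k
      have h1 := (A.der t ht k).add (D.deriv ht hF0 k)
      have hv1 := D.vl1 t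
      have hE1 := D.l1 ht
      have e1 : nl (v t + E t) (v t + E t) k
          = nl (v t) (v t) k + nl (v t) (E t) k + (nl (E t) (v t) k + nl (E t) (E t) k) := by
        rw [nl_add_left hv1 hE1 (hv1.add hE1), nl_add_right hv1 hv1 hE1,
          nl_add_right hE1 hv1 hE1]
        rfl
      have e2 : (-(lam ν k : ℂ) • v t k - nl (v t) (v t) k + f t k + F t k)
          + gf ν (v t) (F t) (E t) k
          = -(lam ν k : ℂ) • (v t + E t) k - nl (v t + E t) (v t + E t) k + f t k := by
        rw [e1, gf, Pi.add_apply, smul_add, neg_smul, neg_smul]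
        abel
      rw [← e2]
      exact h1
  · show v 0 + E 0 = v 0
    rw [D.init, add_zero]
  · intro t ht C
    have e1 : ∀ k, (v t + E t) k - v t k = E t k := fun k => by
      rw [Pi.add_apply, add_sub_cancel_left]
    simp only [e1]
    refine le_trans ?_ hεle
    have h1 : Tendsto (fun n => ∑ k ∈ C, ‖e n t k‖ / len k) UU
        (𝓝 (∑ k ∈ C, ‖E t k‖ / len k)) :=
      tendsto_finsetSum _ fun k _ => (hE t ht k).norm.div_const _
    refine le_of_tendsto h1 ?_
    filter_upwards [LimD.ev_ge t] with n hn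
    calc ∑ k ∈ C, ‖e n t k‖ / len k ≤ ∑ k ∈ C ∪ Bx B n, ‖e n t k‖ / len k :=
          Finset.sum_le_sum_of_subset_of_nonneg Finset.subset_union_left fun k _ _ =>
            div_nonneg (norm_nonneg _) (len_nonneg k)
      _ = ∑ k ∈ Bx B n, ‖e n t k‖ / len k :=
          (Finset.sum_subset Finset.subset_union_right fun k _ hk => by
            rw [he1 n t k hk, norm_zero, zero_div]).symm
      _ ≤ nm μ (Bx B n) (e n t) := by
          refine Finset.sum_le_sum fun k _ => ?_
          refine div_le_div_of_nonneg_right ?_ (len_nonneg k)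
          exact le_mul_of_one_le_left (norm_nonneg _)
            (Real.one_le_exp (mul_nonneg hμ.le (len_nonneg k)))
      _ ≤ ε := G.bd n t ⟨ht, hn⟩
  · intro T hT C
    have e1 : ∀ t k, (v t + E t) k - v t k = E t k := fun t k => by
      rw [Pi.add_apply, add_sub_cancel_left]
    simp only [e1]
    rw [le_div_iff₀ hν]
    refine le_trans ?_ hεle
    -- approximate by the Galerkin solutions
    have hEc : ContinuousOn (fun t => ∑ k ∈ C, len k * ‖E t k‖) (uIcc 0 T) := by
      rw [uIcc_of_le hT]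
      exact continuousOn_finsetSum _ fun k _ =>
        continuousOn_const.mul ((D.cont k).mono Icc_subset_Ici_self).norm
    refine le_of_forall_pos_le_add fun δ hδ => ?_
    set Q : ℝ := ∑ k ∈ C, len k with hQ
    have hQ0 : 0 ≤ Q := Finset.sum_nonneg fun k _ => len_nonneg k
    set δ' : ℝ := δ / (ν * (T + 1) * (Q + 1)) with hδ'
    have hδ'0 : 0 < δ' := by positivity
    have hev : ∀ᶠ n in (UU : Filter ℕ), ∀ k ∈ C, ∀ t ∈ Icc 0 T, ‖e n t k - E t k‖ ≤ δ' := by
      rw [Filter.eventually_all_finset]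
      exact fun k _ => (D.unif_coef T k).1 δ' hδ'0
    obtain ⟨n, hn1, hn2⟩ := (hev.and (LimD.ev_ge T)).exists
    have h1 : ∫ t in (0 : ℝ)..T, ∑ k ∈ C, len k * ‖E t k‖
        ≤ ∫ t in (0 : ℝ)..T, (n1 μ (Bx B n) (e n t) + Q * δ') := by
      refine intervalIntegral.integral_mono_on hT hEc.intervalIntegrable
        (((n1_cont (he5 n)).add continuous_const).intervalIntegrable _ _) fun t ht => ?_
      have h2 : ∀ k ∈ C, len k * ‖E t k‖ ≤ len k * ‖e n t k‖ + len k * δ' := by
        intro k hk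
        rw [← mul_add]
        refine mul_le_mul_of_nonneg_left ?_ (len_nonneg k)
        have h3 := hn1 k hk t ht
        have h4 : ‖E t k‖ ≤ ‖e n t k‖ + ‖e n t k - E t k‖ := by
          have := norm_sub_le (e n t k) (e n t k - E t k)
          rwa [sub_sub_cancel] at this
        linarith
      calc ∑ k ∈ C, len k * ‖E t k‖ ≤ ∑ k ∈ C, (len k * ‖e n t k‖ + len k * δ') :=
            Finset.sum_le_sum h2
        _ = ∑ k ∈ C, len k * ‖e n t k‖ + Q * δ' := by
            rw [Finset.sum_add_distrib, hQ, Finset.sum_mul]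
        _ ≤ n1 μ (Bx B n) (e n t) + Q * δ' := by
            refine add_le_add ?_ le_rfl
            calc ∑ k ∈ C, len k * ‖e n t k‖ ≤ ∑ k ∈ C ∪ Bx B n, len k * ‖e n t k‖ :=
                  Finset.sum_le_sum_of_subset_of_nonneg Finset.subset_union_left fun k _ _ =>
                    mul_nonneg (len_nonneg k) (norm_nonneg _)
              _ = ∑ k ∈ Bx B n, len k * ‖e n t k‖ :=
                  (Finset.sum_subset Finset.subset_union_right fun k _ hk => by
                    rw [he1 n t k hk, norm_zero, mul_zero]).symm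
              _ ≤ n1 μ (Bx B n) (e n t) := by
                  refine Finset.sum_le_sum fun k _ => ?_
                  refine mul_le_mul_of_nonneg_left ?_ (len_nonneg k)
                  exact le_mul_of_one_le_left (norm_nonneg _)
                    (Real.one_le_exp (mul_nonneg hμ.le (len_nonneg k)))
    rw [intervalIntegral.integral_add ((n1_cont (he5 n)).intervalIntegrable _ _)
      (continuous_const.intervalIntegrable _ _), intervalIntegral.integral_const, sub_zero,
      smul_eq_mul] at h1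
    have h5 := G.bdi n T ⟨hT, hn2⟩
    have h6 : ν * (∫ t in (0 : ℝ)..T, n1 μ (Bx B n) (e n t)) ≤ ε := by
      have h7 := hI0 n T hT
      have h8 : (1 : ℝ) ≤ 2 * Real.pi ^ 2 := by nlinarith [Real.pi_gt_three]
      have h9 : ν * (∫ t in (0 : ℝ)..T, n1 μ (Bx B n) (e n t))
          ≤ 2 * Real.pi ^ 2 * (ν * ∫ t in (0 : ℝ)..T, n1 μ (Bx B n) (e n t)) :=
        le_mul_of_one_le_left (mul_nonneg hν.le h7) h8
      refine h9.trans (le_trans (le_of_eq ?_) h5)
      ring
    have h10 : ν * (T * (Q * δ')) ≤ δ := by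
      rw [hδ']
      have : ν * (T * (Q * (δ / (ν * (T + 1) * (Q + 1)))))
          = (T / (T + 1)) * (Q / (Q + 1)) * δ := by
        field_simp
      rw [this]
      have a1 : T / (T + 1) ≤ 1 := (div_le_one (by positivity)).mpr (by linarith)
      have a2 : Q / (Q + 1) ≤ 1 := (div_le_one (by positivity)).mpr (by linarith)
      have a3 : 0 ≤ T / (T + 1) := by positivity
      have a4 : 0 ≤ Q / (Q + 1) := by positivity
      have a5 : (T / (T + 1)) * (Q / (Q + 1)) ≤ 1 := mul_le_one₀ a1 a4 a2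
      exact mul_le_of_le_one_left hδ.le a5
    have h11 := mul_le_mul_of_nonneg_left h1 hν.le
    calc (∫ t in (0 : ℝ)..T, ∑ k ∈ C, len k * ‖E t k‖) * ν
        = ν * ∫ t in (0 : ℝ)..T, ∑ k ∈ C, len k * ‖E t k‖ := mul_comm _ _
      _ ≤ ν * ((∫ t in (0 : ℝ)..T, n1 μ (Bx B n) (e n t)) + T * (Q * δ')) := h11
      _ = ν * (∫ t in (0 : ℝ)..T, n1 μ (Bx B n) (e n t)) + ν * (T * (Q * δ')) := by ring
      _ ≤ ε + δ := add_le_add h6 h10

end Pool.Agent.Run7.h782.GD
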